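import Pool.Agent.BW.APSplit

/-!
# Bounded width of `SL_n(Λ)` for all pairs of opposite parabolic subgroups: final form
-/

set_option autoImplicit false

namespace BW.AP

open Matrix Pointwise

/-- **Theorem**: all parabolic subgroups, all quaternion Azumaya algebras -/
theorem width_all : ∃ L : ℕ → ℕ, ∀ n : ℕ, 3 ≤ n → ∀ N : ℕ, N ≠ 0 → ∀ (R Λ : Type)
    [CommRing R] [Ring Λ] [Algebra R Λ] [IsLocalization.Away (N : ℤ) R],
    IsQuaternionAzumaya N R Λ →
    ∀ (k : ℕ) (e : Fin k → Matrix (Fin n) (Fin n) Λ), 2 ≤ k →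
      CompleteOrthogonalIdempotents e → (∀ i, e i ≠ 0) →
        Subgroup.closure (Rad e ∪ RadOp e) = SL1 N (Fin n) Λ ∧
        (Rad e * RadOp e) ^ L n = (SL1 N (Fin n) Λ : Set (Matrix (Fin n) (Fin n) Λ)ˣ) := by
  obtain ⟨_, L, hL⟩ := BW.main
  refine ⟨fun n => 2 * ((1 + 3 * (n * 2) + (1 + 3 * (n * 2))) * L n),
    fun n hn N hN R Λ _ _ _ _ haz k e hk he he0 => ?_⟩
  obtain ⟨Q⟩ := haz.qalg hN
  have hD := Loc.isDomain N R hN
  have hfree := haz.free
  have hfin : Module.Finite R Λ := Module.finite_of_finrank_pos (by rw [haz.rank]; norm_num)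
  by_cases hΛ : ∀ x : Λ, x ≠ 0 → Q.n x ≠ 0
  · exact width_of (Q.sr2' hN) hn (fun g f hf => (hL n hn N hN R Λ haz g f hf).2.1)
      (fun e he h0 => full_of_domain hN Q hΛ he h0)
      (fun e he h0 h1 => splits_or hN Q hΛ haz.rank hn he h0 h1) hk e he he0
  · push Not at hΛ
    obtain ⟨x, hx, hnx⟩ := hΛ
    obtain ⟨ε, p, q, hM⟩ := exists_mu hN Q hx hnx
    exact width_of (Q.sr2' hN) hn (fun g f hf => (hL n hn N hN R Λ haz g f hf).2.1)
      (fun e he h0 => full_of_mu hN Q hM he h0)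
      (fun e he h0 h1 => splits_or_mu hN Q hM hn he h0 h1) hk e he he0

section free

variable {m Λ : Type*} [Fintype m] [DecidableEq m] [Ring Λ] {k : ℕ}

theorem single_sub (i j : m) (Y : Matrix m m Λ) :
    (Matrix.single i i (1 : Λ) : Matrix m m Λ) * (Y - 1) * Matrix.single j j (1 : Λ) =
      Matrix.single i j ((Y - 1) i j) := by
  ext a b
  by_cases hb : b = j
  · subst hb
    rw [Matrix.mul_single_apply_same, mul_one]
    by_cases ha : a = i
    · subst ha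
      rw [Matrix.single_mul_apply_same, one_mul, Matrix.single_apply_same]
    · rw [Matrix.single_mul_apply_of_ne _ _ _ _ _ ha,
        Matrix.single_apply_of_ne _ _ _ _ _ (fun h => ha h.1.symm)]
  · rw [Matrix.mul_single_apply_of_ne _ _ _ _ _ hb,
      Matrix.single_apply_of_ne _ _ _ _ _ (fun h => hb h.2.symm)]

variable {e : Fin k → Matrix m m Λ} (g : (Matrix m m Λ)ˣ) (σ : Fin k ≃ m)
  (hg : ∀ i, e i = g.val * Matrix.single (σ i) (σ i) 1 * (g⁻¹).val)

include hg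

theorem entry_eq (i j : Fin k) (Y : (Matrix m m Λ)ˣ) :
    e i * ((MulAut.conj g Y).val - 1) * e j =
      g.val * Matrix.single (σ i) (σ j) ((Y.val - 1) (σ i) (σ j)) * (g⁻¹).val := by
  have hh : (g⁻¹).val * g.val = 1 := by rw [← Units.val_mul, inv_mul_cancel, Units.val_one]
  have hh' : g.val * (g⁻¹).val = 1 := by rw [← Units.val_mul, mul_inv_cancel, Units.val_one]
  have h1 : (MulAut.conj g Y).val - 1 = g.val * (Y.val - 1) * (g⁻¹).val := by
    change g.val * Y.val * (g⁻¹).val - 1 = _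
    rw [mul_sub, mul_one, sub_mul, hh']
  rw [h1, hg, hg, ← single_sub]
  calc _ = g.val * Matrix.single (σ i) (σ i) 1 * ((g⁻¹).val * g.val) * (Y.val - 1) *
        ((g⁻¹).val * g.val) * Matrix.single (σ j) (σ j) 1 * (g⁻¹).val := by
        simp only [mul_assoc]
    _ = _ := by rw [hh]; simp only [mul_one, mul_assoc]

theorem Uc_le_Rad : (Uc g (fun j => ((σ.symm j : ℕ) : ℤ)) : Set (Matrix m m Λ)ˣ) ⊆ Rad e := by
  rintro _ ⟨Y, hY, rfl⟩ i j hij
  have h1 : (Y.val - 1) (σ i) (σ j) = 0 := by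
    rw [Matrix.sub_apply, sub_eq_zero]
    apply hY
    simp only [Equiv.symm_apply_apply]
    intro h
    apply hij
    exact_mod_cast h
  change e i * ((MulAut.conj g Y).val - 1) * e j = 0
  rw [entry_eq g σ hg, h1, Matrix.single_zero, mul_zero, zero_mul]

theorem Uc_le_RadOp :
    (Uc g (-(fun j => ((σ.symm j : ℕ) : ℤ))) : Set (Matrix m m Λ)ˣ) ⊆ RadOp e := by
  rintro _ ⟨Y, hY, rfl⟩ i j hij
  have h1 : (Y.val - 1) (σ i) (σ j) = 0 := by
    rw [Matrix.sub_apply, sub_eq_zero]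
    apply hY
    simp only [Pi.neg_apply, Equiv.symm_apply_apply]
    intro h
    apply hij
    have h2 := neg_lt_neg_iff.mp h
    exact_mod_cast h2
  change e i * ((MulAut.conj g Y).val - 1) * e j = 0
  rw [entry_eq g σ hg, h1, Matrix.single_zero, mul_zero, zero_mul]

end free

theorem pow_le_SL1 (N : ℕ) {m Λ : Type*} [Fintype m] [DecidableEq m] [Ring Λ] {k L : ℕ}
    {e : Fin k → Matrix m m Λ} (he : CompleteOrthogonalIdempotents e) :
    (Rad e * RadOp e) ^ L ⊆ (SL1 N m Λ : Set (Matrix m m Λ)ˣ) := by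
  induction L with
  | zero =>
    rw [pow_zero]
    intro g hg
    rw [Set.mem_one] at hg
    rw [hg]
    exact (SL1 N m Λ).one_mem
  | succ L ih =>
    rw [pow_succ]
    rintro _ ⟨a, ha, b, ⟨c, hc, d, hd, rfl⟩, rfl⟩
    exact (SL1 N m Λ).mul_mem (ih ha)
      ((SL1 N m Λ).mul_mem (Rad_le_SL1 N he hc) (RadOp_le_SL1 N he hd))

/-- **Main theorem**: all parabolic subgroups; for decompositions into free summands of rank one
the exponent does not depend on `n` -/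
theorem main_all : ∃ (L₀ : ℕ) (L : ℕ → ℕ), ∀ n : ℕ, 3 ≤ n → ∀ N : ℕ, N ≠ 0 → ∀ (R Λ : Type)
    [CommRing R] [Ring Λ] [Algebra R Λ] [IsLocalization.Away (N : ℤ) R],
    IsQuaternionAzumaya N R Λ →
    ∀ (k : ℕ) (e : Fin k → Matrix (Fin n) (Fin n) Λ), 2 ≤ k →
      CompleteOrthogonalIdempotents e → (∀ i, e i ≠ 0) →
        Subgroup.closure (Rad e ∪ RadOp e) = SL1 N (Fin n) Λ ∧
        (Rad e * RadOp e) ^ L n = (SL1 N (Fin n) Λ : Set (Matrix (Fin n) (Fin n) Λ)ˣ) ∧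
        ((∃ (g : (Matrix (Fin n) (Fin n) Λ)ˣ) (σ : Fin k ≃ Fin n),
          ∀ i, e i = g.val * Matrix.single (σ i) (σ i) 1 * (g⁻¹).val) →
            (Rad e * RadOp e) ^ L₀ =
              (SL1 N (Fin n) Λ : Set (Matrix (Fin n) (Fin n) Λ)ˣ)) := by
  obtain ⟨L₀, _, hL₀⟩ := BW.main
  obtain ⟨L, hL⟩ := width_all
  refine ⟨L₀, L, fun n hn N hN R Λ _ _ _ _ haz k e hk he he0 => ?_⟩
  obtain ⟨h1, h2⟩ := hL n hn N hN R Λ haz k e hk he he0
  refine ⟨h1, h2, ?_⟩
  rintro ⟨g, σ, hg⟩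
  have hinj : Function.Injective (fun j => ((σ.symm j : ℕ) : ℤ)) := by
    intro a b h
    have h3 : ((σ.symm a : ℕ) : ℤ) = ((σ.symm b : ℕ) : ℤ) := h
    exact σ.symm.injective (Fin.ext (by exact_mod_cast h3))
  have h3 := (hL₀ n hn N hN R Λ haz g (fun j => ((σ.symm j : ℕ) : ℤ))
    ⟨⟨0, by omega⟩, ⟨1, by omega⟩, fun h => by
      have := hinj h
      simp [Fin.ext_iff] at this⟩).2.2 hinj
  refine Set.Subset.antisymm (pow_le_SL1 N he) ?_
  rw [← h3]
  exact Set.pow_subset_pow_left (Set.mul_subset_mul (Uc_le_Rad g σ hg) (Uc_le_RadOp g σ hg))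

end BW.AP
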