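import Pool.Agent.BW.Smith

/-!
# Bounded width: identities in a quaternion Azumaya algebra (page, 1d and 1f)
-/

namespace BW

namespace QAlg

variable {N : ℕ} {R Λ : Type*} [CommRing R] [Ring Λ] [Algebra R Λ] (Q : QAlg N R Λ)

theorem conj_add (x y : Λ) : Q.conj (x + y) = Q.conj x + Q.conj y := by
  simp only [conj_eq, map_add]; abel

theorem conj_sub (x y : Λ) : Q.conj (x - y) = Q.conj x - Q.conj y := by
  simp only [conj_eq, map_sub]; abel

theorem conj_neg (x : Λ) : Q.conj (-x) = -Q.conj x := by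
  simp only [conj_eq, map_neg]; abel

theorem conj_zero : Q.conj 0 = 0 := by simp [conj_eq]

theorem conj_smul (r : R) (x : Λ) : Q.conj (r • x) = r • Q.conj x := by
  rw [conj_eq, conj_eq, map_smul, smul_sub, Algebra.smul_def r (algebraMap R Λ (Q.T x)),
    smul_eq_mul, map_mul]

theorem conj_one : Q.conj 1 = 1 := by
  rw [conj_eq, T_one, map_ofNat, ← one_add_one_eq_two]; abel

theorem T_algebraMap (r : R) : Q.T (algebraMap R Λ r) = 2 * r := by
  rw [Algebra.algebraMap_eq_smul_one, map_smul, Q.T_one, smul_eq_mul, mul_comm]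

theorem conj_algebraMap (r : R) : Q.conj (algebraMap R Λ r) = algebraMap R Λ r := by
  rw [Algebra.algebraMap_eq_smul_one, conj_smul, conj_one]

theorem T_conj (x : Λ) : Q.T (Q.conj x) = Q.T x := by
  rw [conj_eq, map_sub, T_algebraMap]; ring

theorem conj_conj (x : Λ) : Q.conj (Q.conj x) = x := by
  rw [Q.conj_eq (Q.conj x), T_conj, ← Q.add_conj]; abel

theorem n_conj (x : Λ) : Q.n (Q.conj x) = Q.n x := by
  apply Q.inj
  rw [← Q.mul_conj, conj_conj, Q.conj_mul_self]

theorem n_algebraMap (r : R) : Q.n (algebraMap R Λ r) = r ^ 2 := by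
  apply Q.inj
  rw [← Q.mul_conj, conj_algebraMap, ← map_mul, sq]

theorem n_zero : Q.n 0 = 0 := by
  apply Q.inj
  rw [← Q.mul_conj, zero_mul, map_zero]

theorem n_one : Q.n 1 = 1 := by
  apply Q.inj
  rw [← Q.mul_conj, conj_one, mul_one, map_one]

theorem n_mul (x y : Λ) : Q.n (x * y) = Q.n x * Q.n y := by
  apply Q.inj
  rw [← Q.mul_conj, Q.conj_mul, map_mul]
  calc x * y * (Q.conj y * Q.conj x) = x * (y * Q.conj y) * Q.conj x := by
        simp only [mul_assoc]
    _ = _ := by rw [Q.mul_conj y, ← Algebra.commutes, mul_assoc, Q.mul_conj x,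
                  ← Algebra.commutes]

theorem n_smul (r : R) (x : Λ) : Q.n (r • x) = r ^ 2 * Q.n x := by
  rw [Algebra.smul_def, n_mul, n_algebraMap]

theorem n_neg (x : Λ) : Q.n (-x) = Q.n x := by
  apply Q.inj
  rw [← Q.mul_conj, conj_neg, neg_mul_neg, Q.mul_conj]

theorem n_add (x y : Λ) : Q.n (x + y) = Q.n x + Q.T (x * Q.conj y) + Q.n y := by
  apply Q.inj
  rw [← Q.mul_conj, conj_add, add_mul, mul_add, mul_add, map_add, map_add, ← Q.mul_conj x,
    ← Q.mul_conj y, ← Q.add_conj, Q.conj_mul, conj_conj]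
  abel

theorem T_cycle (x y z : Λ) : Q.T (x * y * z) = Q.T (y * z * x) := by
  rw [mul_assoc, T_comm]

theorem quad (x : Λ) : x * x = Q.T x • x - algebraMap R Λ (Q.n x) := by
  rw [Algebra.smul_def, ← Q.add_conj, ← Q.conj_mul_self x]
  rw [add_mul]; abel

/-- `conj a · b = b# · conj a*` if `b a* = a b#` and `n(a) = n(a*)` is not zero -/
theorem conj_mul_eq [IsDomain R] [Module.IsTorsionFree R Λ] (a b bs as : Λ)
    (h : b * as = a * bs) (hn : Q.n a = Q.n as) (h0 : Q.n a ≠ 0) :
    Q.conj a * b = bs * Q.conj as := by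
  have h1 : Q.n a • (Q.conj a * b) = Q.n a • (bs * Q.conj as) := by
    calc Q.n a • (Q.conj a * b) = Q.conj a * b * algebraMap R Λ (Q.n as) := by
          rw [← Algebra.commutes, ← Algebra.smul_def, hn]
      _ = Q.conj a * (b * as) * Q.conj as := by rw [← Q.mul_conj as]; simp only [mul_assoc]
      _ = (Q.conj a * a) * bs * Q.conj as := by rw [h]; simp only [mul_assoc]
      _ = _ := by rw [Q.conj_mul_self, Algebra.smul_def, mul_assoc]
  exact smul_right_injective Λ h0 h1

/-- page 1d: with `T(a* c) = 1` and `y = -(b conj c + b# c)` -/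
theorem conjugation (a b bs as c : Λ) (h : b * as = a * bs)
    (hc : Q.conj a * b = bs * Q.conj as) (hT : Q.T a = Q.T as) (h1 : Q.T (as * c) = 1) :
    b + a * (-(b * Q.conj c + bs * c)) = bs + (-(b * Q.conj c + bs * c)) * as ∧
      a * (b + a * (-(b * Q.conj c + bs * c))) = (b + a * (-(b * Q.conj c + bs * c))) * as := by
  have e1 : as * c + Q.conj c * Q.conj as = 1 := by
    rw [← Q.conj_mul, Q.add_conj, h1, map_one]
  have e2 : c * as + Q.conj as * Q.conj c = 1 := by
    rw [← Q.conj_mul, Q.add_conj, Q.T_comm, h1, map_one]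
  have ea : a = algebraMap R Λ (Q.T as) - Q.conj a := by rw [← hT, ← Q.add_conj]; abel
  have eas : as + Q.conj as = algebraMap R Λ (Q.T as) := Q.add_conj as
  have key : b + a * (-(b * Q.conj c + bs * c)) = bs + (-(b * Q.conj c + bs * c)) * as := by
    have f1 : a * (b * Q.conj c) = algebraMap R Λ (Q.T as) * (b * Q.conj c) -
        bs * (Q.conj as * Q.conj c) := by
      conv_lhs => rw [ea]
      rw [sub_mul, ← mul_assoc (Q.conj a), hc, mul_assoc bs]
    have f2 : a * (bs * c) = b * (as * c) := by rw [← mul_assoc, ← h, mul_assoc]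
    have f3 : algebraMap R Λ (Q.T as) * (b * Q.conj c) = b * (Q.conj c * as) +
        b * (Q.conj c * Q.conj as) := by
      rw [Algebra.commutes, ← eas]
      simp only [mul_assoc, mul_add]
    rw [mul_neg, neg_mul, mul_add, add_mul, f1, f2, f3]
    have g1 : b = b * (as * c) + b * (Q.conj c * Q.conj as) := by rw [← mul_add, e1, mul_one]
    have g2 : bs = bs * (c * as) + bs * (Q.conj as * Q.conj c) := by rw [← mul_add, e2, mul_one]
    have g3 : b * Q.conj c * as = b * (Q.conj c * as) := mul_assoc _ _ _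
    have g4 : bs * c * as = bs * (c * as) := mul_assoc _ _ _
    rw [g3, g4]
    set u1 := b * (as * c)
    set u2 := b * (Q.conj c * Q.conj as)
    set u3 := bs * (c * as)
    set u4 := bs * (Q.conj as * Q.conj c)
    set u5 := b * (Q.conj c * as)
    rw [g1, g2]; abel
  refine ⟨key, ?_⟩
  conv_lhs => rw [key]
  rw [mul_add, add_mul, h, mul_assoc]

/-- page 1f: elements `w` with `w g = g w'` for a primitive `g` -/
theorem idealizer (g w w' c : Λ) (h : w * g = g * w') (h1 : Q.T (g * c) = 1) :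
    w = algebraMap R Λ (Q.T (w * (Q.conj c * Q.conj g))) + g * (w' * c - c * Q.conj w) := by
  have e1 : g * c + Q.conj c * Q.conj g = 1 := by
    rw [← Q.conj_mul, Q.add_conj, h1, map_one]
  rw [← Q.add_conj, Q.conj_mul, Q.conj_mul, conj_conj, conj_conj]
  calc w = w * (g * c + Q.conj c * Q.conj g) := by rw [e1, mul_one]
    _ = g * w' * c + w * (Q.conj c * Q.conj g) := by rw [mul_add, ← mul_assoc, h]
    _ = _ := by simp only [mul_sub, mul_assoc]; abel

/-- page 1f: if `a g = g a*`, `T(a) = T(a*)` and `g` is primitive then `a = t + g z` and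
`a* = t + z g` -/
theorem idealizer' (g a as c : Λ) (h : a * g = g * as) (hT : Q.T a = Q.T as)
    (h1 : Q.T (g * c) = 1) :
    ∃ (t : R) (z : Λ), a = algebraMap R Λ t + g * z ∧ as = algebraMap R Λ t + z * g := by
  refine ⟨_, _, Q.idealizer g a as c h h1, ?_⟩
  have e2 : c * g + Q.conj g * Q.conj c = 1 := by
    rw [← Q.conj_mul, Q.add_conj, Q.T_comm, h1, map_one]
  have hc : Q.conj a * g = g * Q.conj as := by
    rw [Q.conj_eq, Q.conj_eq, sub_mul, mul_sub, h, hT, Algebra.commutes]
  have ht : Q.T (a * (Q.conj c * Q.conj g)) = Q.T (c * g * Q.conj as) := by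
    rw [← Q.T_conj, Q.conj_mul, Q.conj_mul, conj_conj, conj_conj, Q.T_comm, ← mul_assoc, hc,
      mul_assoc, T_comm, mul_assoc, T_comm, mul_assoc, T_comm, mul_assoc]
  rw [ht, ← Q.add_conj, Q.conj_mul, Q.conj_mul, conj_conj]
  rw [sub_mul, mul_assoc c (Q.conj a) g, hc]
  calc as = as * (c * g + Q.conj g * Q.conj c) := by rw [e2, mul_one]
    _ = _ := by simp only [mul_add, mul_assoc]; abel

end QAlg

end BW
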