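import Mathlib

/-!
# Bounded width for `SL_n` over quaternion Azumaya algebras: definitions
-/

namespace BW

open Matrix

section Elementary

variable {n R : Type*} [DecidableEq n] [Fintype n] [Ring R]

/-- the elementary matrix `1 + x e_ij`, `i ≠ j` -/
def el (i j : n) (h : i ≠ j) (x : R) : (Matrix n n R)ˣ where
  val := 1 + Matrix.single i j x
  inv := 1 - Matrix.single i j x
  val_inv := by
    have : Matrix.single i j x * Matrix.single i j x = 0 :=
      Matrix.single_mul_single_of_ne x i j i h.symm x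
    rw [add_mul, mul_sub, mul_sub, this]; simp
  inv_val := by
    have : Matrix.single i j x * Matrix.single i j x = 0 :=
      Matrix.single_mul_single_of_ne x i j i h.symm x
    rw [sub_mul, mul_add, mul_add, this]; simp

variable (n R) in
/-- the elementary group `E_n(R)` -/
def E : Subgroup (Matrix n n R)ˣ :=
  Subgroup.closure {g | ∃ (i j : n) (h : i ≠ j) (x : R), g = el i j h x}

theorem el_mem (i j : n) (h : i ≠ j) (x : R) : el i j h x ∈ E n R :=
  Subgroup.subset_closure ⟨i, j, h, x, rfl⟩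

end Elementary

/-- `Λ` is an Azumaya algebra of degree 2 over `R = ℤ[1/N]`: it is free of rank 4 and its fibre
`Λ / p Λ` at every prime `p` not dividing `N` is the matrix algebra `M₂(𝔽_p)`. -/
structure IsQuaternionAzumaya (N : ℕ) (R Λ : Type*) [CommRing R] [Ring Λ] [Algebra R Λ] :
    Prop where
  free : Module.Free R Λ
  rank : Module.finrank R Λ = 4
  fibre : ∀ p : ℕ, p.Prime → ¬ p ∣ N → ∃ ρ : Λ →+* Matrix (Fin 2) (Fin 2) (ZMod p),
    Function.Surjective ρ ∧ ∀ x, ρ x = 0 → ∃ y, x = (p : Λ) * y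

/-- the package used in the proof (all of it follows from `IsQuaternionAzumaya`) -/
structure QAlg (N : ℕ) (R Λ : Type*) [CommRing R] [Ring Λ] [Algebra R Λ] where
  /-- the reduced trace -/
  T : Λ →ₗ[R] R
  /-- the reduced norm -/
  n : Λ → R
  /-- the conjugation `x ↦ T x - x` -/
  conj : Λ → Λ
  T_one : T 1 = 2
  add_conj : ∀ x, x + conj x = algebraMap R Λ (T x)
  mul_conj : ∀ x, x * conj x = algebraMap R Λ (n x)
  conj_mul_self : ∀ x, conj x * x = algebraMap R Λ (n x)
  conj_mul : ∀ x y, conj (x * y) = conj y * conj x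
  inj : Function.Injective (algebraMap R Λ)
  /-- the trace form is unimodular -/
  unimod : ∀ f : Λ →ₗ[R] R, ∃ c, ∀ x, f x = T (x * c)
  /-- `1` is primitive -/
  one_prim : ∃ f : Λ →ₗ[R] R, f 1 = 1
  /-- the centre modulo `c` -/
  centre : ∀ (a : Λ) (c : R), c ≠ 0 → (∀ x, ∃ y, x * a - a * x = c • y) →
    ∃ (s : R) (y : Λ), a = algebraMap R Λ s + c • y
  fibre : ∀ p : ℕ, p.Prime → ¬ p ∣ N → ∃ ρ : Λ →+* Matrix (Fin 2) (Fin 2) (ZMod p),
    Function.Surjective ρ ∧ (∀ x, ρ x = 0 → ∃ y, x = (p : Λ) * y) ∧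
      ∀ x, ρ (algebraMap R Λ (n x)) = (ρ x).det • (1 : Matrix (Fin 2) (Fin 2) (ZMod p))

section Blocks

variable {R : Type*} [Ring R]

/-- `diag(A, 1)` -/
def k12 : Matrix (Fin 2) (Fin 2) R →* Matrix (Fin 3) (Fin 3) R where
  toFun M := !![M 0 0, M 0 1, 0; M 1 0, M 1 1, 0; 0, 0, 1]
  map_one' := by ext i j; fin_cases i <;> fin_cases j <;> simp
  map_mul' M M' := by
    ext i j; fin_cases i <;> fin_cases j <;>
      simp [Matrix.mul_apply, Fin.sum_univ_three, Fin.sum_univ_two]

/-- `A` in the rows and columns 2, 3 -/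
def k23 : Matrix (Fin 2) (Fin 2) R →* Matrix (Fin 3) (Fin 3) R where
  toFun M := !![1, 0, 0; 0, M 0 0, M 0 1; 0, M 1 0, M 1 1]
  map_one' := by ext i j; fin_cases i <;> fin_cases j <;> simp
  map_mul' M M' := by
    ext i j; fin_cases i <;> fin_cases j <;>
      simp [Matrix.mul_apply, Fin.sum_univ_three, Fin.sum_univ_two]

/-- `A` in the rows and columns 1, 3 -/
def k13 : Matrix (Fin 2) (Fin 2) R →* Matrix (Fin 3) (Fin 3) R where
  toFun M := !![M 0 0, 0, M 0 1; 0, 1, 0; M 1 0, 0, M 1 1]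
  map_one' := by ext i j; fin_cases i <;> fin_cases j <;> simp
  map_mul' M M' := by
    ext i j; fin_cases i <;> fin_cases j <;>
      simp [Matrix.mul_apply, Fin.sum_univ_three, Fin.sum_univ_two]

variable (R) in
/-- `H(R)` = the invertible `2 x 2` matrices `A` with `diag(A, 1) ∈ E_3(R)` -/
def H : Subgroup (Matrix (Fin 2) (Fin 2) R)ˣ :=
  (E (Fin 3) R).comap (Units.map (k12 (R := R)))

end Blocks

end BW
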