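import Pool.Agent.BW.Loc
import Pool.Agent.Helper24.BW.Red

/-!
# Bounded width: the stable range, reduction to `GL₂`, bounded lengths
-/

set_option autoImplicit false

open Pool.Agent.Helper24.BWR (SR2' emb emb_c2 emb_emb c2 Std pm qm reduce)

namespace BW

open Matrix

/-! ### Stable range one of `M₂(F)` -/

section field

variable {F : Type*} [Field F]

theorem det_add_single (b d : Matrix (Fin 2) (Fin 2) F) (i j : Fin 2) :
    (b + Matrix.single i j 1 * d).det = b.det + (d * b.adjugate) j i := by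
  rw [Matrix.det_fin_two, Matrix.det_fin_two, Matrix.adjugate_fin_two]
  fin_cases i <;> fin_cases j <;>
    simp [Matrix.mul_apply, Fin.sum_univ_two, Matrix.add_apply, Matrix.single_apply] <;> ring

/-- Stable range one. -/
theorem exists_det_ne (b v : Matrix (Fin 2) (Fin 2) F) :
    ∃ t : Matrix (Fin 2) (Fin 2) F, (b + t * (1 - v * b)).det ≠ 0 := by
  by_contra hcon
  push Not at hcon
  have h0 : b.det = 0 := by simpa using hcon 0
  have h1 : (1 - v * b) * b.adjugate = b.adjugate := by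
    rw [sub_mul, one_mul, Matrix.mul_assoc, Matrix.mul_adjugate, h0, zero_smul, Matrix.mul_zero,
      sub_zero]
  have h2 : b.adjugate = 0 := by
    ext j i
    have h3 := hcon (Matrix.single i j 1)
    rw [det_add_single, h0, zero_add, h1] at h3
    exact h3
  have h3 : b = 0 := by
    have := congrArg Matrix.adjugate h2
    rw [Matrix.adjugate_adjugate' ] at this
    simpa using this
  have h4 := hcon 1
  rw [h3, mul_zero, sub_zero, one_mul, zero_add, Matrix.det_one] at h4
  exact one_ne_zero h4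

end field

/-! ### Stable range two of `Λ` -/

section lam

variable {N : ℕ} {R Λ : Type*} [CommRing R] [Ring Λ] [Algebra R Λ]

/-- Stable range one modulo a prime. -/
theorem QAlg.sr_mod (Q : QAlg N R Λ) {p : ℕ} (hp : p.Prime) (hpN : ¬ p ∣ N) (b v : Λ) :
    ∃ τ : Λ, ∀ y : Λ, ¬ (p : R) ∣ Q.n (b + (τ + (p : Λ) * y) * (1 - v * b)) := by
  have := Fact.mk hp
  obtain ⟨ρ, hρ, -, hdet⟩ := Q.fibre p hp hpN
  obtain ⟨t, ht⟩ := exists_det_ne (ρ b) (ρ v)
  obtain ⟨τ, rfl⟩ := hρ t
  refine ⟨τ, fun y hy => ht ?_⟩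
  have hp0 : ((p : ℕ) : Matrix (Fin 2) (Fin 2) (ZMod p)) = 0 := by
    have h1 : ((p : ℕ) : Matrix (Fin 2) (Fin 2) (ZMod p)) =
        algebraMap (ZMod p) (Matrix (Fin 2) (Fin 2) (ZMod p)) (p : ZMod p) := by
      rw [map_natCast]
    rw [h1, ZMod.natCast_self, map_zero]
  obtain ⟨r, hr⟩ := hy
  have h1 := hdet (b + (τ + (p : Λ) * y) * (1 - v * b))
  rw [hr, map_mul, map_mul, map_natCast, map_natCast, hp0, zero_mul] at h1
  have h2 : ρ (b + (τ + (p : Λ) * y) * (1 - v * b)) = ρ b + ρ τ * (1 - ρ v * ρ b) := by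
    rw [map_add, map_mul, map_add, map_mul, map_natCast, hp0, zero_mul, add_zero, map_sub, map_one,
      map_mul]
  rw [h2] at h1
  have h3 := congrFun (congrFun h1 0) 0
  simpa using h3.symm

/-- The Chinese remainder theorem in `Λ`. -/
theorem exists_crt (P : Finset ℕ) (hP : ∀ p ∈ P, p.Prime) (τ : ℕ → Λ) :
    ∃ t : Λ, ∀ p ∈ P, ∃ y : Λ, t = τ p + (p : Λ) * y := by
  induction P using Finset.induction_on with
  | empty => exact ⟨0, fun p hp => absurd hp (Finset.notMem_empty p)⟩
  | insert q P hq ih =>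
    obtain ⟨t, ht⟩ := ih fun p hp => hP p (Finset.mem_insert_of_mem hp)
    have hcop : IsCoprime ((∏ p ∈ P, p : ℕ) : ℤ) (q : ℤ) := by
      rw [Nat.isCoprime_iff_coprime]
      refine Nat.Coprime.prod_left fun p hp => ?_
      rw [Nat.coprime_primes (hP p (Finset.mem_insert_of_mem hp)) (hP q (Finset.mem_insert_self _ _))]
      rintro rfl
      exact hq hp
    obtain ⟨α, β, h⟩ := hcop
    have h' : ((α : ℤ) : Λ) * ((∏ p ∈ P, p : ℕ) : Λ) + ((β : ℤ) : Λ) * (q : Λ) = 1 := by
      have := congrArg (fun z : ℤ => (z : Λ)) h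
      simpa only [Int.cast_add, Int.cast_mul, Int.cast_natCast, Int.cast_one] using this
    refine ⟨t + ((∏ p ∈ P, p : ℕ) : Λ) * (((α : ℤ) : Λ) * (τ q - t)), fun p hp => ?_⟩
    rcases Finset.mem_insert.mp hp with rfl | hp
    · refine ⟨((β : ℤ) : Λ) * (t - τ p), ?_⟩
      have e1 : ((∏ p ∈ P, p : ℕ) : Λ) * (((α : ℤ) : Λ) * (τ p - t)) =
          (((α : ℤ) : Λ) * ((∏ p ∈ P, p : ℕ) : Λ)) * (τ p - t) := by
        rw [← mul_assoc, (Int.cast_commute α _).eq]
      have e2 : (p : Λ) * (((β : ℤ) : Λ) * (t - τ p)) =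
          (((β : ℤ) : Λ) * (p : Λ)) * (t - τ p) := by
        rw [← mul_assoc, (Int.cast_commute β _).eq]
      rw [e1, e2, ← sub_eq_iff_eq_add.mpr h'.symm]
      noncomm_ring
    · obtain ⟨y, hy⟩ := ht p hp
      obtain ⟨k, hk⟩ := Finset.dvd_prod_of_mem (fun p => p) hp
      refine ⟨y + (k : Λ) * (((α : ℤ) : Λ) * (τ q - t)), ?_⟩
      rw [mul_add, ← add_assoc, ← hy, ← mul_assoc (p : Λ), ← Nat.cast_mul, ← hk]

/-- **Stable range two.** -/
theorem QAlg.sr2' (hN : N ≠ 0) [IsLocalization.Away (N : ℤ) R] (Q : QAlg N R Λ) : SR2' Λ := by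
  classical
  intro a b c u v habc
  -- an auxiliary prime
  obtain ⟨q, hq1, hq⟩ := Nat.exists_infinite_primes (N + 1)
  have hqN : ¬ q ∣ N := fun h => by
    have := Nat.le_of_dvd (Nat.pos_of_ne_zero hN) h
    omega
  obtain ⟨s, hs⟩ := Q.sr_mod hq hqN a u
  have hs := hs 0
  have e1 : v * b + c = 1 - u * a := by rw [← habc]; abel
  rw [mul_zero, add_zero, ← e1] at hs
  set a' := a + s * (v * b + c) with ha'
  have hm0 : Q.n a' ≠ 0 := fun h => hs (by rw [h]; exact dvd_zero _)
  obtain ⟨w, m, hm, -, hwm⟩ := Loc.exists_unit_mul hN hm0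
  -- the second step
  set v' := (1 - u * s) * v with hv'
  have e2 : u * a' + (1 - u * s) * c = 1 - v' * b := by
    rw [eq_sub_iff_add_eq, ha', hv']
    refine Eq.trans ?_ habc
    noncomm_ring
  have hex : ∀ p : ℕ, ∃ τ : Λ, p.Prime → ¬ p ∣ N →
      ∀ y : Λ, ¬ (p : R) ∣ Q.n (b + (τ + (p : Λ) * y) * (1 - v' * b)) := by
    intro p
    by_cases h : p.Prime ∧ ¬ p ∣ N
    · obtain ⟨τ, hτ⟩ := Q.sr_mod h.1 h.2 b v'
      exact ⟨τ, fun _ _ => hτ⟩
    · exact ⟨0, fun h1 h2 => absurd ⟨h1, h2⟩ h⟩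
  choose τ hτ using hex
  obtain ⟨t, ht⟩ := exists_crt (Λ := Λ) m.primeFactors (fun p hp => Nat.prime_of_mem_primeFactors hp) τ
  set b' := b + t * (1 - v' * b) with hb'
  have hcop : IsCoprime (Q.n a') (Q.n b') := by
    refine Loc.isCoprime hN _ _ (Or.inl hm0) fun p hp hpN hdvd => ?_
    have h1 : (p : R) ∣ (m : R) := by
      rw [hwm] at hdvd
      exact (IsUnit.dvd_mul_left w.isUnit).mp hdvd.1
    rw [Loc.natCast_dvd_natCast hp hpN] at h1
    obtain ⟨y, hy⟩ := ht p (Nat.mem_primeFactors.mpr ⟨hp, h1, hm.ne'⟩)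
    refine hτ p hp hpN y ?_
    rw [← hy]
    exact hdvd.2
  obtain ⟨x, y, hxy⟩ := hcop
  refine ⟨s, t, algebraMap R Λ x * Q.conj a', algebraMap R Λ y * Q.conj b', ?_⟩
  rw [← ha', e2, ← hb', mul_assoc, mul_assoc, Q.conj_mul_self, Q.conj_mul_self, ← map_mul,
    ← map_mul, ← map_add, hxy, map_one]

end lam

/-! ### Matrices of the form `diag(A, 1, …, 1)` -/

section blocks

variable {P : Type*} [Ring P]

/-- `diag(A, 1, …, 1)` -/
def km {R : Type*} [Ring R] (m : ℕ) :
    Matrix (Fin 2) (Fin 2) R →* Matrix (Fin (2 + m)) (Fin (2 + m)) R where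
  toFun M := Matrix.reindex finSumFinEquiv finSumFinEquiv (Matrix.fromBlocks M 0 0 1)
  map_one' := by
    rw [Matrix.fromBlocks_one]; ext i j; simp [Matrix.one_apply]
  map_mul' M M' := by
    simp only [Matrix.reindex_apply]
    rw [Matrix.submatrix_mul_equiv, Matrix.fromBlocks_multiply]; simp

/-- The first two indices. -/
def ca (m : ℕ) : Fin 2 ↪ Fin (2 + m) := ⟨Fin.castAdd m, Fin.castAdd_injective 2 m⟩

theorem pnq {k n : Type*} [DecidableEq k] [Fintype k] [DecidableEq n] [Fintype n] (φ : k ↪ n)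
    (M : Matrix k k P) (i j : n) :
    (pm P φ * M * qm P φ) i j = ∑ a, ∑ b, if i = φ a ∧ j = φ b then M a b else 0 := by
  rw [Matrix.mul_apply, Finset.sum_comm]
  refine Finset.sum_congr rfl fun b _ => ?_
  rw [Matrix.mul_apply, Finset.sum_mul]
  refine Finset.sum_congr rfl fun a _ => ?_
  unfold pm qm
  by_cases h1 : i = φ a
  · by_cases h2 : j = φ b
    · simp [h1, h2]
    · simp [h2]
  · simp [h1]

theorem pnq_apply {k n : Type*} [DecidableEq k] [Fintype k] [DecidableEq n] [Fintype n]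
    (φ : k ↪ n) (M : Matrix k k P) (a b : k) : (pm P φ * M * qm P φ) (φ a) (φ b) = M a b := by
  rw [pnq, Finset.sum_eq_single a, Finset.sum_eq_single b, if_pos ⟨rfl, rfl⟩]
  · intro c _ hc
    exact if_neg fun h => hc (φ.injective h.2).symm
  · intro h
    exact absurd (Finset.mem_univ _) h
  · intro c _ hc
    exact Finset.sum_eq_zero fun d _ => if_neg fun h => hc (φ.injective h.1).symm
  · intro h
    exact absurd (Finset.mem_univ _) h

theorem pnq_zero {k n : Type*} [DecidableEq k] [Fintype k] [DecidableEq n] [Fintype n]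
    (φ : k ↪ n) (M : Matrix k k P) {i j : n} (h : (∀ a, i ≠ φ a) ∨ ∀ b, j ≠ φ b) :
    (pm P φ * M * qm P φ) i j = 0 := by
  rw [pnq]
  refine Finset.sum_eq_zero fun a _ => Finset.sum_eq_zero fun b _ => if_neg fun h' => ?_
  rcases h with h | h
  · exact h a h'.1
  · exact h b h'.2

theorem emb_entry {k n : Type*} [DecidableEq k] [Fintype k] [DecidableEq n] [Fintype n]
    (φ : k ↪ n) (M : Matrix k k P) (i j : n) :
    emb φ M i j = (1 : Matrix n n P) i j + (pm P φ * (M - 1) * qm P φ : Matrix n n P) i j := rfl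

theorem km_eq (m : ℕ) (A : Matrix (Fin 2) (Fin 2) P) : km m A = emb (ca m) A := by
  ext i j
  have hne : ∀ (k : Fin m) (a : Fin 2), Fin.natAdd 2 k ≠ ca m a := by
    intro k a h
    have h1 : ((Fin.natAdd 2 k : Fin (2 + m)) : ℕ) = (a : ℕ) := congrArg Fin.val h
    rw [Fin.val_natAdd] at h1
    have := a.2
    omega
  refine Fin.addCases (fun i => ?_) (fun i => ?_) i
  · refine Fin.addCases (fun j => ?_) (fun j => ?_) j
    · change Matrix.fromBlocks A 0 0 1 (finSumFinEquiv.symm (Fin.castAdd m i))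
        (finSumFinEquiv.symm (Fin.castAdd m j)) = emb (ca m) A (ca m i) (ca m j)
      rw [finSumFinEquiv_symm_apply_castAdd, finSumFinEquiv_symm_apply_castAdd,
        Matrix.fromBlocks_apply₁₁, emb_entry, pnq_apply, Matrix.sub_apply, Matrix.one_apply,
        Matrix.one_apply]
      by_cases h : i = j
      · subst h
        simp
      · rw [if_neg h, if_neg (fun h' => h ((ca m).injective h'))]
        simp
    · change Matrix.fromBlocks A 0 0 1 (finSumFinEquiv.symm (Fin.castAdd m i))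
        (finSumFinEquiv.symm (Fin.natAdd 2 j)) = _
      rw [finSumFinEquiv_symm_apply_castAdd, finSumFinEquiv_symm_apply_natAdd,
        Matrix.fromBlocks_apply₁₂, emb_entry, pnq_zero _ _ (Or.inr (hne j)), add_zero,
        Matrix.one_apply_ne]
      · rfl
      · intro h
        exact hne j i h.symm
  · refine Fin.addCases (fun j => ?_) (fun j => ?_) j
    · change Matrix.fromBlocks A 0 0 1 (finSumFinEquiv.symm (Fin.natAdd 2 i))
        (finSumFinEquiv.symm (Fin.castAdd m j)) = _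
      rw [finSumFinEquiv_symm_apply_castAdd, finSumFinEquiv_symm_apply_natAdd,
        Matrix.fromBlocks_apply₂₁, emb_entry, pnq_zero _ _ (Or.inl (hne i)), add_zero,
        Matrix.one_apply_ne]
      · rfl
      · intro h
        exact hne i j h
    · change Matrix.fromBlocks A 0 0 1 (finSumFinEquiv.symm (Fin.natAdd 2 i))
        (finSumFinEquiv.symm (Fin.natAdd 2 j)) = _
      rw [finSumFinEquiv_symm_apply_natAdd, finSumFinEquiv_symm_apply_natAdd,
        Matrix.fromBlocks_apply₂₂, emb_entry, pnq_zero _ _ (Or.inl (hne i)), add_zero,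
        Matrix.one_apply, Matrix.one_apply]
      simp

theorem km_mem (m : ℕ) (hm : 1 ≤ m) (A : (Matrix (Fin 2) (Fin 2) P)ˣ)
    (hA : A ∈ H P) : Units.map (km m) A ∈ E (Fin (2 + m)) P := by
  let φ : Fin 3 ↪ Fin (2 + m) := ⟨Fin.castLE (by omega), Fin.castLE_injective _⟩
  have h1 : Units.map (emb φ) (Units.map (k12 (R := P)) A) ∈ E (Fin (2 + m)) P :=
    Pool.Agent.Helper24.BWR.emb_mem φ hA
  have h2 : Units.map (km m) A = Units.map (emb φ) (Units.map (k12 (R := P)) A) := by
    apply Units.ext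
    change km m A.val = emb φ (k12 A.val)
    rw [km_eq, ← emb_c2, emb_emb]
    congr 1
  rw [h2]
  exact h1

/-- The matrices which differ from the identity only in the first block. -/
theorem exists_km {m : ℕ} {X : (Matrix (Fin (2 + m)) (Fin (2 + m)) P)ˣ}
    (hX : Std {ca m 0, ca m 1} X.val) :
    ∃ A : (Matrix (Fin 2) (Fin 2) P)ˣ, X = Units.map (km m) A := by
  have key : ∀ Y : Matrix (Fin (2 + m)) (Fin (2 + m)) P, Std {ca m 0, ca m 1} Y →
      emb (ca m) (Matrix.of fun a b => Y (ca m a) (ca m b)) = Y := by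
    intro Y hY
    ext i j
    rw [emb_entry]
    have hmem : ∀ i : Fin (2 + m), i ∈ ({ca m 0, ca m 1} : Finset (Fin (2 + m))) ↔
        ∃ a, i = ca m a := by
      intro i
      rw [Finset.mem_insert, Finset.mem_singleton]
      constructor
      · rintro (h | h)
        · exact ⟨0, h⟩
        · exact ⟨1, h⟩
      · rintro ⟨a, ha⟩
        fin_cases a
        · exact Or.inl ha
        · exact Or.inr ha
    by_cases hi : i ∈ ({ca m 0, ca m 1} : Finset (Fin (2 + m)))
    · by_cases hj : j ∈ ({ca m 0, ca m 1} : Finset (Fin (2 + m)))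
      · obtain ⟨a, rfl⟩ := (hmem i).mp hi
        obtain ⟨b, rfl⟩ := (hmem j).mp hj
        rw [pnq_apply, Matrix.sub_apply, Matrix.one_apply, Matrix.one_apply, Matrix.of_apply]
        by_cases h : a = b
        · subst h
          simp
        · rw [if_neg h, if_neg (fun h' => h ((ca m).injective h'))]
          simp
      · rw [hY i j (Or.inr hj), pnq_zero _ _ (Or.inr fun b hb => hj ((hmem j).mpr ⟨b, hb⟩)),
          add_zero]
    · rw [hY i j (Or.inl hi), pnq_zero _ _ (Or.inl fun b hb => hi ((hmem i).mpr ⟨b, hb⟩)),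
        add_zero]
  have hinj : Function.Injective (emb (S := P) (ca m)) := by
    intro M M' h
    ext a b
    have h1 : emb (ca m) M (ca m a) (ca m b) = emb (ca m) M' (ca m a) (ca m b) := by rw [h]
    rw [emb_entry, emb_entry, pnq_apply, pnq_apply] at h1
    have h2 := add_left_cancel h1
    rw [Matrix.sub_apply, Matrix.sub_apply] at h2
    exact sub_left_injective h2
  have h1 := key _ hX
  have h2 := key _ hX.inv
  refine ⟨⟨Matrix.of fun a b => X.val (ca m a) (ca m b),
    Matrix.of fun a b => (X⁻¹).val (ca m a) (ca m b), ?_, ?_⟩,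
    Units.ext ?_⟩
  · apply hinj
    rw [map_mul, h1, h2, Units.mul_inv, map_one]
  · apply hinj
    rw [map_mul, h1, h2, Units.inv_mul, map_one]
  · change X.val = km m _
    rw [km_eq, h1]

theorem stable_reduction (h : SR2' P) (m : ℕ)
    (X : (Matrix (Fin (2 + m)) (Fin (2 + m)) P)ˣ) :
    ∃ (A : (Matrix (Fin 2) (Fin 2) P)ˣ) (e e' : (Matrix (Fin (2 + m)) (Fin (2 + m)) P)ˣ),
      e ∈ E (Fin (2 + m)) P ∧ e' ∈ E (Fin (2 + m)) P ∧ X = e * Units.map (km m) A * e' := by
  have h01 : ca m 0 ≠ ca m 1 := fun h => by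
    have := (ca m).injective h
    exact absurd this (by decide)
  obtain ⟨e, he, f, hf, h1⟩ := reduce h h01 Finset.univ (Finset.mem_univ _) (Finset.mem_univ _) X
    (fun i j hij => by
      rcases hij with h | h
      · exact absurd (Finset.mem_univ _) h
      · exact absurd (Finset.mem_univ _) h)
  obtain ⟨A, hA⟩ := exists_km h1
  refine ⟨A, e⁻¹, f⁻¹, inv_mem he, inv_mem hf, ?_⟩
  rw [← hA]
  group

end blocks

/-! ### Bounded lengths -/

theorem map_el {ι : Type*} {n : Type*} [DecidableEq n] [Fintype n] {Λ : ι → Type*}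
    [∀ i, Ring (Λ i)] (i : ι) (a b : n) (h : a ≠ b) (x : ∀ i, Λ i) :
    Units.map (RingHom.mapMatrix (Pi.evalRingHom Λ i)).toMonoidHom (el a b h x) =
      el a b h (x i) := by
  apply Units.ext
  ext k l
  change ((1 : Matrix n n (∀ i, Λ i)) + Matrix.single a b x) k l i =
    ((1 : Matrix n n (Λ i)) + Matrix.single a b (x i)) k l
  rw [Matrix.add_apply, Matrix.add_apply, Pi.add_apply, Matrix.one_apply, Matrix.one_apply,
    Matrix.single_apply, Matrix.single_apply]
  congr 1
  · split_ifs <;> rfl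
  · split_ifs <;> rfl

/-- if every family in the product ring is elementary then the lengths are bounded -/
theorem bounded_of_product {ι : Type*} {n : Type*} [DecidableEq n] [Fintype n] {Λ : ι → Type*}
    [∀ i, Ring (Λ i)] (X : (Matrix n n (∀ i, Λ i))ˣ) (hX : X ∈ E n (∀ i, Λ i)) :
    ∃ L : ℕ, ∀ i, ∃ l : List ((Matrix n n (Λ i))ˣ), l.length ≤ L ∧
      (∀ g ∈ l, ∃ (a b : n) (h : a ≠ b) (x : Λ i), g = el a b h x) ∧
      l.prod = Units.map (RingHom.mapMatrix (Pi.evalRingHom Λ i)).toMonoidHom X := by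
  induction hX using Subgroup.closure_induction with
  | mem X hX =>
    obtain ⟨a, b, h, x, rfl⟩ := hX
    refine ⟨1, fun i => ⟨[el a b h (x i)], le_rfl, fun g hg => ?_, ?_⟩⟩
    · rw [List.mem_singleton] at hg
      exact ⟨a, b, h, x i, hg⟩
    · rw [List.prod_singleton, map_el]
  | one =>
    refine ⟨0, fun i => ⟨[], le_rfl, fun g hg => absurd hg List.not_mem_nil, ?_⟩⟩
    rw [List.prod_nil, map_one]
  | mul X Y _ _ hX hY =>
    obtain ⟨L, hL⟩ := hX
    obtain ⟨L', hL'⟩ := hY
    refine ⟨L + L', fun i => ?_⟩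
    obtain ⟨l, h1, h2, h3⟩ := hL i
    obtain ⟨l', h1', h2', h3'⟩ := hL' i
    refine ⟨l ++ l', ?_, fun g hg => ?_, ?_⟩
    · rw [List.length_append]
      exact Nat.add_le_add h1 h1'
    · rcases List.mem_append.mp hg with hg | hg
      · exact h2 g hg
      · exact h2' g hg
    · rw [List.prod_append, h3, h3', map_mul]
  | inv X _ hX =>
    obtain ⟨L, hL⟩ := hX
    refine ⟨L, fun i => ?_⟩
    obtain ⟨l, h1, h2, h3⟩ := hL i
    refine ⟨(l.map fun g => g⁻¹).reverse, ?_, fun g hg => ?_, ?_⟩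
    · rw [List.length_reverse, List.length_map]
      exact h1
    · rw [List.mem_reverse, List.mem_map] at hg
      obtain ⟨g', hg', rfl⟩ := hg
      obtain ⟨a, b, h, x, rfl⟩ := h2 g' hg'
      refine ⟨a, b, h, -x, ?_⟩
      apply Units.ext
      change 1 - Matrix.single a b x = 1 + Matrix.single a b (-x)
      rw [← Matrix.single_neg, sub_eq_add_neg]
    · rw [← List.prod_inv_reverse, h3, map_inv]

end BW
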