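import Pool.Agent.BW.Choice
import Pool.Agent.BW.Ideal
import Pool.Agent.BW.Stable

/-!
# Unimodular vectors in saturated submodules of `Λ ^ ν`
-/

set_option autoImplicit false

namespace BW.AP

open Matrix

section linalg

variable {F : Type*} [Field F] {ν : Type*} [Fintype ν] [DecidableEq ν]

/-- a family of `2 x 2` matrices has a left inverse or a common kernel vector -/
theorem left_inv_or (Y : ν → Matrix (Fin 2) (Fin 2) F) :
    (∃ ψ : ν → Matrix (Fin 2) (Fin 2) F, ∑ i, ψ i * Y i = 1) ∨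
      ∃ u : Fin 2 → F, u ≠ 0 ∧ ∀ i, Y i *ᵥ u = 0 := by
  let T : (Fin 2 → F) →ₗ[F] (ν → Fin 2 → F) := LinearMap.pi fun i => (Y i).mulVecLin
  by_cases h : LinearMap.ker T = ⊥
  · left
    obtain ⟨g, hg⟩ := T.exists_leftInverse_of_injective h
    refine ⟨fun i => LinearMap.toMatrix' (g ∘ₗ LinearMap.single F (fun _ => Fin 2 → F) i), ?_⟩
    apply Matrix.toLin'.injective
    apply LinearMap.ext
    intro u
    rw [map_sum, LinearMap.sum_apply, Matrix.toLin'_one, LinearMap.id_apply]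
    have h1 : ∀ i, (Matrix.toLin' (LinearMap.toMatrix'
        (g ∘ₗ LinearMap.single F (fun _ => Fin 2 → F) i) * Y i)) u =
        g (Pi.single i (T u i)) := by
      intro i
      rw [Matrix.toLin'_mul, LinearMap.comp_apply, Matrix.toLin'_toMatrix', LinearMap.comp_apply]
      rfl
    simp only [h1]
    rw [← map_sum, Finset.univ_sum_single]
    have h2 := LinearMap.congr_fun hg u
    simpa using h2
  · right
    obtain ⟨u, hu, hu0⟩ := (Submodule.ne_bot_iff _).mp h
    refine ⟨u, hu0, fun i => ?_⟩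
    have h1 := congrFun (LinearMap.mem_ker.mp hu) i
    simpa [T] using h1

end linalg

variable {N : ℕ} {R Λ : Type*} [CommRing R] [IsLocalization.Away (N : ℤ) R] [Ring Λ]
  [Algebra R Λ]

theorem natCast_mat {p : ℕ} : ((p : ℕ) : Matrix (Fin 2) (Fin 2) (ZMod p)) = 0 := by
  have h1 : ((p : ℕ) : Matrix (Fin 2) (Fin 2) (ZMod p)) =
      algebraMap (ZMod p) (Matrix (Fin 2) (Fin 2) (ZMod p)) (p : ZMod p) := by
    rw [map_natCast]
  rw [h1, ZMod.natCast_self, map_zero]

theorem natCast_smul (p : ℕ) (x : Λ) : (p : Λ) * x = (p : R) • x := by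
  rw [Algebra.smul_def, map_natCast]

section lift

variable [Module.Free R Λ] [Module.Finite R Λ] (hN : N ≠ 0) (Q : QAlg N R Λ) {p : ℕ}
  (hp : p.Prime) (hpN : ¬ p ∣ N) (ρ : Λ →+* Matrix (Fin 2) (Fin 2) (ZMod p))
  (hρ : Function.Surjective ρ) (hker : ∀ x, ρ x = 0 → ∃ y, x = (p : Λ) * y)
  (hdet : ∀ x, ρ (algebraMap R Λ (Q.n x)) = (ρ x).det • (1 : Matrix (Fin 2) (Fin 2) (ZMod p)))

include hN hp hpN hρ hdet

/-- a matrix of rank one has a lift whose norm is divisible by `p` exactly once -/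
theorem exists_lift (M : Matrix (Fin 2) (Fin 2) (ZMod p)) (hM : M ≠ 0) (hM0 : M.det = 0) :
    ∃ (x : Λ) (c : R), ρ x = M ∧ Q.n x = p * c ∧ ¬ (p : R) ∣ c := by
  have hD := Loc.isDomain N R hN
  have hP := Loc.isPrincipalIdealRing N R
  obtain ⟨x0, rfl⟩ := hρ M
  have h1 : (p : R) ∣ Q.n x0 := by
    rw [← Loc.phi_eq_zero_iff hp hpN, ← Choice.det_rho Q hp hpN ρ hdet, hM0]
  obtain ⟨c0, hc0⟩ := h1
  by_cases h2 : (p : R) ∣ c0
  · obtain ⟨c, v0, w, hv, hw⟩ := Q.content x0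
    have hc : ¬ (p : R) ∣ c := by
      rintro ⟨d, rfl⟩
      apply hM
      rw [hv, mul_smul, ← natCast_smul p (d • v0), map_mul, map_natCast, natCast_mat, zero_mul]
    have hT : Q.T (x0 * w) = c := by
      rw [hv, smul_mul_assoc, map_smul, hw, smul_eq_mul, mul_one]
    refine ⟨x0 + (p : R) • Q.conj w, c0 + c + p * Q.n (Q.conj w), ?_, ?_, ?_⟩
    · rw [map_add, ← natCast_smul p (Q.conj w), map_mul, map_natCast, natCast_mat, zero_mul,
        add_zero]
    · rw [Choice.n_add_smul Q hN, Q.conj_conj, hT, hc0]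
      ring
    · intro h3
      apply hc
      have h4 : c = (c0 + c + p * Q.n (Q.conj w)) - c0 - p * Q.n (Q.conj w) := by ring
      rw [h4]
      exact dvd_sub (dvd_sub h3 h2) (dvd_mul_right _ _)
  · exact ⟨x0, c0, rfl, hc0, h2⟩

end lift

/-- a set of vectors closed under addition, right multiplication and division by primes -/
structure Sat (N : ℕ) {ν Λ : Type*} [Ring Λ] (S : Set (ν → Λ)) : Prop where
  add : ∀ v w : ν → Λ, v ∈ S → w ∈ S → (fun i => v i + w i) ∈ S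
  rmul : ∀ v ∈ S, ∀ x : Λ, (fun i => v i * x) ∈ S
  div : ∀ p : ℕ, p.Prime → ¬ p ∣ N → ∀ v : ν → Λ, (fun i => (p : Λ) * v i) ∈ S → v ∈ S

variable {ν : Type*} [Fintype ν] [DecidableEq ν]

section one

variable [Module.Free R Λ] [Module.Finite R Λ] (hN : N ≠ 0) (Q : QAlg N R Λ)
  {S : Set (ν → Λ)} (hS : Sat N S)

include hN Q hS

theorem exists_unimod_mod {p : ℕ} (hp : p.Prime) (hpN : ¬ p ∣ N)
    (ρ : Λ →+* Matrix (Fin 2) (Fin 2) (ZMod p)) (hρ : Function.Surjective ρ)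
    (hker : ∀ x, ρ x = 0 → ∃ y, x = (p : Λ) * y)
    (hdet : ∀ x, ρ (algebraMap R Λ (Q.n x)) = (ρ x).det • (1 : Matrix (Fin 2) (Fin 2) (ZMod p)))
    (k : ℕ) : ∀ y ∈ S, ∀ i, ¬ (p : R) ^ k ∣ Q.n (y i) →
      ∃ w ∈ S, ∃ ψ : ν → Matrix (Fin 2) (Fin 2) (ZMod p), ∑ j, ψ j * ρ (w j) = 1 := by
  have := Fact.mk hp
  have hD := Loc.isDomain N R hN
  induction k with
  | zero =>
    intro y _ i h
    exact absurd (by rw [pow_zero]; exact one_dvd _) h
  | succ k ih =>
    intro y hy i hi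
    rcases left_inv_or (fun j => ρ (y j)) with ⟨ψ, hψ⟩ | ⟨u, hu, hu0⟩
    · exact ⟨y, hy, ψ, hψ⟩
    · set M : Matrix (Fin 2) (Fin 2) (ZMod p) := Matrix.vecMulVec u (Pi.single 0 1) with hMdef
      have hM : M ≠ 0 := by
        intro h
        apply hu
        ext a
        have := congrFun (congrFun h a) 0
        simpa [hMdef, Matrix.vecMulVec_apply] using this
      have hM0 : M.det = 0 := by
        rw [Matrix.det_fin_two, hMdef]
        simp [Matrix.vecMulVec_apply]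
      obtain ⟨x, c, hx, hnx, hc⟩ := exists_lift hN Q hp hpN ρ hρ hdet M hM hM0
      have hz : ∀ j, ∃ z, y j * x = (p : Λ) * z := by
        intro j
        apply hker
        rw [map_mul, hx, hMdef, Matrix.mul_vecMulVec, hu0 j]
        ext a b
        simp [Matrix.vecMulVec_apply]
      choose z hz using hz
      have hzS : z ∈ S := by
        apply hS.div p hp hpN
        have h1 := hS.rmul y hy x
        have h2 : (fun i => y i * x) = fun i => (p : Λ) * z i := funext hz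
        rwa [h2] at h1
      refine ih z hzS i fun hdvd => hi ?_
      have hp0 : (p : R) ≠ 0 := (Loc.prime hp hpN hN).ne_zero
      have h3 : (p : R) * Q.n (z i) = Q.n (y i) * c := by
        have h4 := congrArg Q.n (hz i)
        rw [Q.n_mul, hnx, natCast_smul (R := R) p (z i), Q.n_smul] at h4
        apply mul_left_cancel₀ hp0
        calc (p : R) * (p * Q.n (z i)) = (p : R) ^ 2 * Q.n (z i) := by ring
          _ = Q.n (y i) * (p * c) := h4.symm
          _ = _ := by ring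
      refine (Loc.prime hp hpN hN).pow_dvd_of_dvd_mul_right _ hc ?_
      rw [← h3, pow_succ, mul_comm ((p : R) ^ k)]
      exact mul_dvd_mul_left _ hdvd

/-- one prime -/
theorem exists_unimod_prime {p : ℕ} (hp : p.Prime) (hpN : ¬ p ∣ N) {y : ν → Λ} (hy : y ∈ S)
    {i : ν} (hi : Q.n (y i) ≠ 0) (v : ν → Λ) :
    ∃ w ∈ S, ∃ (φ : ν → Λ) (l : Λ), ∑ j, φ j * (v j + w j) = 1 + (p : Λ) * l := by
  have hD := Loc.isDomain N R hN
  have hP := Loc.isPrincipalIdealRing N R
  obtain ⟨ρ, hρ, hker, hdet⟩ := Q.fibre p hp hpN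
  obtain ⟨k, hk⟩ := FiniteMultiplicity.of_not_isUnit (Loc.not_isUnit hp hpN (R := R)) hi
  obtain ⟨w, hw, ψ, hψ⟩ := exists_unimod_mod hN Q hS hp hpN ρ hρ hker hdet (k + 1) y hy i hk
  obtain ⟨x, hx⟩ := hρ (1 - ∑ j, ψ j * ρ (v j))
  choose φ hφ using fun j => hρ (ψ j)
  have h1 : ρ (∑ j, φ j * (v j + w j * x) - 1) = 0 := by
    rw [map_sub, map_one, map_sum, sub_eq_zero]
    have h2 : ∀ j, ρ (φ j * (v j + w j * x)) = ψ j * ρ (v j) + ψ j * ρ (w j) * ρ x := by
      intro j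
      rw [map_mul, map_add, map_mul, hφ, mul_add, mul_assoc]
    simp only [h2]
    rw [Finset.sum_add_distrib, ← Finset.sum_mul, hψ, one_mul, hx]
    abel
  obtain ⟨l, hl⟩ := hker _ h1
  exact ⟨fun j => w j * x, hS.rmul w hw x, φ, l, by rw [← hl]; abel⟩

/-- finitely many primes -/
theorem exists_unimod_primes (P : Finset ℕ) (hP : ∀ p ∈ P, p.Prime ∧ ¬ p ∣ N) {y : ν → Λ}
    (hy : y ∈ S) {i : ν} (hi : Q.n (y i) ≠ 0) (v : ν → Λ) :
    ∃ w ∈ S, ∀ p ∈ P, ∃ (φ : ν → Λ) (l : Λ), ∑ j, φ j * (v j + w j) = 1 + (p : Λ) * l := by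
  induction P using Finset.induction_on with
  | empty => exact ⟨y, hy, fun p hp => absurd hp (Finset.notMem_empty p)⟩
  | insert q P hq ih =>
    obtain ⟨w, hw, hwP⟩ := ih fun p hp => hP p (Finset.mem_insert_of_mem hp)
    have hqP := hP q (Finset.mem_insert_self q P)
    obtain ⟨w', hw', φ', l', h'⟩ := exists_unimod_prime hN Q hS hqP.1 hqP.2 hy hi
      (fun j => v j + w j)
    have hcop : IsCoprime ((∏ p ∈ P, p : ℕ) : ℤ) (q : ℤ) := by
      rw [Nat.isCoprime_iff_coprime]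
      refine Nat.Coprime.prod_left fun p hp => ?_
      rw [Nat.coprime_primes (hP p (Finset.mem_insert_of_mem hp)).1 hqP.1]
      rintro rfl
      exact hq hp
    obtain ⟨α, β, h⟩ := hcop
    -- the element `t = 1 mod q`, `t = 0 mod p`
    set t : Λ := ((α * (∏ p ∈ P, p : ℕ) : ℤ) : Λ) with ht
    have ht1 : t = 1 - (q : Λ) * ((β : ℤ) : Λ) := by
      have h1 : (α * (∏ p ∈ P, p : ℕ) : ℤ) = 1 - q * β := by rw [← h]; ring
      rw [ht, h1]
      push_cast
      rfl
    have hcomm : ∀ x : Λ, x * t = t * x := fun x => by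
      rw [ht]
      exact (Int.cast_commute _ x).symm.eq
    refine ⟨fun j => w j + w' j * t, hS.add _ _ hw (hS.rmul w' hw' t), fun p hp => ?_⟩
    rcases Finset.mem_insert.mp hp with rfl | hp
    · refine ⟨φ', l' - ∑ j, φ' j * w' j * ((β : ℤ) : Λ), ?_⟩
      have h2 : ∀ j, φ' j * (v j + (w j + w' j * t)) = φ' j * (v j + w j + w' j) -
          (p : Λ) * (φ' j * w' j * ((β : ℤ) : Λ)) := by
        intro j
        rw [ht1, mul_sub, mul_one]
        have h3 : φ' j * (w' j * ((p : Λ) * ((β : ℤ) : Λ))) =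
            (p : Λ) * (φ' j * w' j * ((β : ℤ) : Λ)) := by
          rw [← mul_assoc (w' j), ← (Nat.cast_commute p (w' j)).eq, mul_assoc (p : Λ),
            ← mul_assoc (φ' j), ← (Nat.cast_commute p (φ' j)).eq]
          simp only [mul_assoc]
        rw [← h3]
        noncomm_ring
      simp only [h2]
      rw [Finset.sum_sub_distrib, ← Finset.mul_sum, h', mul_sub]
      abel
    · obtain ⟨φ, l, h2⟩ := hwP p hp
      obtain ⟨k, hk⟩ := Finset.dvd_prod_of_mem (fun p => p) hp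
      have ht2 : t = (p : Λ) * ((α * k : ℤ) : Λ) := by
        rw [ht, hk]
        push_cast
        rw [← mul_assoc, ← (Nat.cast_commute p ((α : ℤ) : Λ)).eq, mul_assoc]
      refine ⟨φ, l + ∑ j, φ j * w' j * ((α * k : ℤ) : Λ), ?_⟩
      have h3 : ∀ j, φ j * (v j + (w j + w' j * t)) = φ j * (v j + w j) +
          (p : Λ) * (φ j * w' j * ((α * k : ℤ) : Λ)) := by
        intro j
        rw [ht2]
        have h3 : φ j * (w' j * ((p : Λ) * ((α * k : ℤ) : Λ))) =
            (p : Λ) * (φ j * w' j * ((α * k : ℤ) : Λ)) := by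
          rw [← mul_assoc (w' j), ← (Nat.cast_commute p (w' j)).eq, mul_assoc (p : Λ),
            ← mul_assoc (φ j), ← (Nat.cast_commute p (φ j)).eq]
          simp only [mul_assoc]
        rw [← h3]
        noncomm_ring
      simp only [h3]
      rw [Finset.sum_add_distrib, ← Finset.mul_sum, h2, mul_add]
      abel

end one

omit [DecidableEq ν] in
/-- the congruences `φ · v = 1` can be multiplied -/
theorem unimod_mul {v : ν → Λ} {a b : ℕ}
    (ha : ∃ (φ : ν → Λ) (l : Λ), ∑ j, φ j * v j = 1 + (a : Λ) * l)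
    (hb : ∃ (φ : ν → Λ) (l : Λ), ∑ j, φ j * v j = 1 + (b : Λ) * l) :
    ∃ (φ : ν → Λ) (l : Λ), ∑ j, φ j * v j = 1 + ((a * b : ℕ) : Λ) * l := by
  obtain ⟨φ, l, h⟩ := ha
  obtain ⟨φ', l', h'⟩ := hb
  refine ⟨fun j => φ j + φ' j - (∑ i, φ i * v i) * φ' j, -(l * l'), ?_⟩
  have h1 : ∀ j, (φ j + φ' j - (∑ i, φ i * v i) * φ' j) * v j =
      φ j * v j + φ' j * v j - (∑ i, φ i * v i) * (φ' j * v j) := by
    intro j
    rw [sub_mul, add_mul, mul_assoc]
  simp only [h1]
  rw [Finset.sum_sub_distrib, Finset.sum_add_distrib, ← Finset.mul_sum, h, h', Nat.cast_mul]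
  have h2 : (a : Λ) * l * ((b : Λ) * l') = (a : Λ) * (b : Λ) * (l * l') := by
    rw [mul_assoc, ← mul_assoc l, ← (Nat.cast_commute b l).eq]
    simp only [mul_assoc]
  have h3 : 1 + (a : Λ) * l + (1 + (b : Λ) * l') - (1 + (a : Λ) * l) * (1 + (b : Λ) * l') =
      1 - (a : Λ) * l * ((b : Λ) * l') := by noncomm_ring
  rw [h3, h2]
  noncomm_ring

omit [DecidableEq ν] in
/-- from the prime factors to the number -/
theorem unimod_of_primes {v : ν → Λ} (m : ℕ) (hm : m ≠ 0)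
    (h : ∀ p ∈ m.primeFactors, ∃ (φ : ν → Λ) (l : Λ), ∑ j, φ j * v j = 1 + (p : Λ) * l) :
    ∃ (φ : ν → Λ) (l : Λ), ∑ j, φ j * v j = 1 + (m : Λ) * l := by
  induction m using Nat.recOnMul with
  | zero => exact absurd rfl hm
  | one => exact ⟨0, -1, by simp⟩
  | prime p hp => exact h p (by rw [hp.primeFactors]; exact Finset.mem_singleton_self p)
  | mul a b iha ihb =>
    have ha : a ≠ 0 := left_ne_zero_of_mul hm
    have hb : b ≠ 0 := right_ne_zero_of_mul hm
    rw [Nat.primeFactors_mul ha hb] at h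
    exact unimod_mul (iha ha fun p hp => h p (Finset.mem_union_left _ hp))
      (ihb hb fun p hp => h p (Finset.mem_union_right _ hp))

section two

variable [Module.Free R Λ] [Module.Finite R Λ] (hN : N ≠ 0) (Q : QAlg N R Λ)
  {S : Set (ν → Λ)} (hS : Sat N S)

include hN Q hS

/-- **unimodular vectors in `v + S`** up to one element `d` of norm different from zero -/
theorem exists_unimod {y : ν → Λ} (hy : y ∈ S) {i : ν} (hi : Q.n (y i) ≠ 0) (v : ν → Λ) (d : Λ)
    (hd : Q.n d ≠ 0) : ∃ w ∈ S, ∃ (φ : ν → Λ) (μ : Λ), ∑ j, φ j * (v j + w j) + μ * d = 1 := by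
  obtain ⟨u, m, hm, hmN, hum⟩ := Loc.exists_unit_mul hN hd
  obtain ⟨w, hw, hwP⟩ := exists_unimod_primes hN Q hS m.primeFactors (fun p hp =>
    ⟨Nat.prime_of_mem_primeFactors hp, fun hpN => (Nat.prime_of_mem_primeFactors hp).one_lt.ne'
      (Nat.eq_one_of_dvd_coprimes hmN (Nat.dvd_of_mem_primeFactors hp) hpN)⟩) hy hi v
  obtain ⟨φ, l, h⟩ := unimod_of_primes m hm.ne' hwP
  refine ⟨w, hw, φ, -(l * algebraMap R Λ ↑u⁻¹ * Q.conj d), ?_⟩
  have h1 : -(l * algebraMap R Λ ↑u⁻¹ * Q.conj d) * d = -((m : Λ) * l) := by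
    rw [neg_mul, mul_assoc, Q.conj_mul_self, hum, mul_assoc, ← map_mul, ← mul_assoc,
      Units.inv_mul, one_mul, map_natCast, ← (Nat.cast_commute m l).eq]
  rw [h, h1]
  abel

end two

end BW.AP
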