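import Mathlib

/-!
# Non-squares modulo primes in arithmetic progressions
-/

namespace BW

namespace Choice

open NumberTheorySymbols

/-- `J(m | p) = 1` for `p = 1` modulo `m` and modulo `4` -/
lemma jac_one_mod_four {p m : ℕ} (hp : p % 4 = 1) (hm : Odd m) (h : (m : ℤ) ∣ (p : ℤ) - 1) : J(m | p) = 1 := by
  rw [jacobiSym.quadratic_reciprocity_one_mod_four' hm hp, jacobiSym.mod_left,
    show (p : ℤ) % m = 1 % m from ((Int.emod_eq_emod_iff_emod_sub_eq_zero).mpr (Int.emod_eq_zero_of_dvd h)),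
    ← jacobiSym.mod_left, jacobiSym.one_left]

/-- `J(m | p) = J(p | m)` or `- J(p | m)` for `p = 3` modulo `4` -/
lemma jac_three_mod_four {p m : ℕ} (hp : p % 4 = 3) (hm : Odd m) (h : (m : ℤ) ∣ (p : ℤ) - 1) :
    J(m | p) = if m % 4 = 3 then -1 else 1 := by
  have h1 : J(p | m) = 1 := by
    rw [jacobiSym.mod_left,
      show (p : ℤ) % m = 1 % m from ((Int.emod_eq_emod_iff_emod_sub_eq_zero).mpr (Int.emod_eq_zero_of_dvd h)),
      ← jacobiSym.mod_left, jacobiSym.one_left]
  have hpo : Odd p := by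
    rw [Nat.odd_iff]
    omega
  split_ifs with hm3
  · rw [jacobiSym.quadratic_reciprocity_three_mod_four hm3 hp, h1]
  · have : m % 4 = 1 := by
      rw [Nat.odd_iff] at hm
      omega
    rw [jacobiSym.quadratic_reciprocity_one_mod_four this hpo, h1]

/-- case (A) -/
theorem nonsquare_A {p : ℕ} [Fact p.Prime] (hp : p % 8 = 5) {v : ℕ} (hv : Odd v) {m : ℤ} (hm : Odd m)
    (h : m ∣ (p : ℤ) - 1) : ¬ IsSquare (((2 ^ v * m : ℤ)) : ZMod p) := by
  rw [← legendreSym.eq_neg_one_iff, jacobiSym.legendreSym.to_jacobiSym, jacobiSym.mul_left, jacobiSym.pow_left]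
  have hpo : Odd p := by
    rw [Nat.odd_iff]
    omega
  have h2 : J(2 | p) = -1 := by
    rw [jacobiSym.at_two hpo, ZMod.χ₈_nat_eq_if_mod_eight]
    rw [if_neg (by omega), if_neg (by omega)]
  have hm' : J(m | p) = 1 := by
    have h3 : J(m.natAbs | p) = 1 :=
      jac_one_mod_four (by omega) (Int.natAbs_odd.mpr hm) (Int.natAbs_dvd.mpr h)
    rcases Int.natAbs_eq m with h4 | h4
    · rw [h4]
      exact h3
    · rw [h4, jacobiSym.neg _ hpo, h3, mul_one, ZMod.χ₄_nat_one_mod_four (by omega)]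
  rw [h2, hm', mul_one]
  exact hv.neg_one_pow

/-- case (B) -/
theorem nonsquare_B {p : ℕ} [Fact p.Prime] (hp : p % 4 = 3) {v : ℕ} (hv : Even v) {m : ℤ} (hm : m % 4 = 3)
    (h : m ∣ (p : ℤ) - 1) : ¬ IsSquare (((2 ^ v * m : ℤ)) : ZMod p) := by
  rw [← legendreSym.eq_neg_one_iff, jacobiSym.legendreSym.to_jacobiSym, jacobiSym.mul_left, jacobiSym.pow_left]
  have hpo : Odd p := by
    rw [Nat.odd_iff]
    omega
  have h2 : J(2 | p) ^ v = 1 := by
    have : J(2 | p) = 1 ∨ J(2 | p) = -1 := by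
      rw [jacobiSym.at_two hpo, ZMod.χ₈_nat_eq_if_mod_eight, if_neg (by omega)]
      split_ifs
      · exact Or.inl rfl
      · exact Or.inr rfl
    rcases this with h3 | h3 <;> rw [h3]
    · exact one_pow v
    · exact hv.neg_one_pow
  have hmo : Odd m := by
    rw [Int.odd_iff]
    omega
  have hm' : J(m | p) = -1 := by
    have h3 := jac_three_mod_four hp (Int.natAbs_odd.mpr hmo) (Int.natAbs_dvd.mpr h)
    rcases Int.natAbs_eq m with h4 | h4
    · rw [if_pos (by omega)] at h3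
      rw [h4]
      exact h3
    · rw [if_neg (by omega)] at h3
      rw [h4, jacobiSym.neg _ hpo, h3, mul_one, ZMod.χ₄_nat_three_mod_four hp]
  rw [h2, hm', one_mul]

end Choice

end BW
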