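import Pool.Agent.BW.Loc
import Pool.Agent.BW.Sym

/-!
# The arithmetic choice
-/

namespace BW

namespace Choice

/-! ### Reduction modulo primes -/

section Rho

variable {N : ℕ} {R Λ : Type*} [CommRing R] [IsLocalization.Away (N : ℤ) R] [Ring Λ] [Algebra R Λ]

theorem rho_algebraMap {p : ℕ} (hp : p.Prime) (hpN : ¬ p ∣ N)
    (ρ : Λ →+* Matrix (Fin 2) (Fin 2) (ZMod p)) (r : R) :
    ρ (algebraMap R Λ r) = Loc.phi N R hp hpN r • (1 : Matrix (Fin 2) (Fin 2) (ZMod p)) := by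
  have := Fact.mk hp
  obtain ⟨a, k, h⟩ := Loc.exists_int N r
  have hN0 : ((N : ZMod p)) ≠ 0 := by
    rw [Ne, ZMod.natCast_eq_zero_iff]
    exact hpN
  have h1 : ρ (algebraMap R Λ r) * (N : Matrix (Fin 2) (Fin 2) (ZMod p)) ^ k = (a : Matrix (Fin 2) (Fin 2) (ZMod p)) := by
    rw [← map_natCast ρ N, ← map_pow, ← map_mul, ← map_natCast (algebraMap R Λ) N, ← map_pow, ← map_mul, h,
      map_intCast, map_intCast]
  have h2 : Loc.phi N R hp hpN r * (N : ZMod p) ^ k = (a : ZMod p) := by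
    rw [← map_natCast (Loc.phi N R hp hpN) N, ← map_pow, ← map_mul, h, map_intCast]
  have h3 : ((N : ZMod p) ^ k) • ρ (algebraMap R Λ r) =
      ((N : ZMod p) ^ k) • (Loc.phi N R hp hpN r • (1 : Matrix (Fin 2) (Fin 2) (ZMod p))) := by
    rw [smul_smul, mul_comm ((N : ZMod p) ^ k), h2]
    have h4 : (N : Matrix (Fin 2) (Fin 2) (ZMod p)) ^ k = ((N : ZMod p) ^ k) • (1 : Matrix (Fin 2) (Fin 2) (ZMod p)) := by
      have := map_natCast (algebraMap (ZMod p) (Matrix (Fin 2) (Fin 2) (ZMod p))) N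
      rw [← this, ← map_pow, Algebra.algebraMap_eq_smul_one]
    have h5 : (a : Matrix (Fin 2) (Fin 2) (ZMod p)) = (a : ZMod p) • (1 : Matrix (Fin 2) (Fin 2) (ZMod p)) := by
      have := map_intCast (algebraMap (ZMod p) (Matrix (Fin 2) (Fin 2) (ZMod p))) a
      rw [← this, Algebra.algebraMap_eq_smul_one]
    rw [← h5, ← h1, h4, mul_smul_comm, mul_one]
  exact smul_right_injective _ (pow_ne_zero k hN0) h3

variable (Q : QAlg N R Λ)

include Q in
theorem det_rho {p : ℕ} (hp : p.Prime) (hpN : ¬ p ∣ N)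
    (ρ : Λ →+* Matrix (Fin 2) (Fin 2) (ZMod p))
    (hρ : ∀ y, ρ (algebraMap R Λ (Q.n y)) = (ρ y).det • (1 : Matrix (Fin 2) (Fin 2) (ZMod p))) (y : Λ) :
    (ρ y).det = Loc.phi N R hp hpN (Q.n y) := by
  have h := hρ y
  rw [rho_algebraMap hp hpN] at h
  have h1 := congrFun (congrFun h 0) 0
  simpa using h1.symm

end Rho

/-! ### The algebra -/

section Alg

variable {N : ℕ} {R Λ : Type*} [CommRing R] [Ring Λ] [Algebra R Λ] (Q : QAlg N R Λ)

theorem conj_eq (x : Λ) : Q.conj x = algebraMap R Λ (Q.T x) - x := by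
  rw [← Q.add_conj x]
  abel

theorem n_one [IsLocalization.Away (N : ℤ) R] (hN : N ≠ 0) : Q.n 1 = 1 := by
  have hD := Loc.isDomain N R hN
  have h1 : Q.conj 1 = algebraMap R Λ (Q.n 1) := by
    have := Q.mul_conj 1
    rwa [one_mul] at this
  have h2 : Q.conj 1 = Q.conj 1 * Q.conj 1 := by
    have := Q.conj_mul 1 1
    rwa [one_mul] at this
  rw [h1, ← map_mul] at h2
  have h3 := Q.inj h2
  obtain ⟨p, hpN, hp⟩ := Nat.exists_infinite_primes (N + 1)
  have hpN' : ¬ p ∣ N := fun h => by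
    have := Nat.le_of_dvd (Nat.pos_of_ne_zero hN) h
    omega
  have := Fact.mk hp
  obtain ⟨ρ, -, -, hρ⟩ := Q.fibre p hp hpN'
  have h4 := det_rho Q hp hpN' ρ hρ 1
  rw [map_one, Matrix.det_one] at h4
  have h5 : Q.n 1 ≠ 0 := by
    intro h0
    rw [h0, map_zero] at h4
    exact one_ne_zero h4
  have h6 : Q.n 1 * 1 = Q.n 1 * Q.n 1 := by rw [mul_one]; exact h3
  exact (mul_left_cancel₀ h5 h6).symm

theorem T_one [IsLocalization.Away (N : ℤ) R] (hN : N ≠ 0) : Q.T 1 = 2 := by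
  have h1 : Q.conj 1 = 1 := by
    have := Q.mul_conj 1
    rwa [one_mul, n_one Q hN, map_one] at this
  have h2 := Q.add_conj 1
  rw [h1] at h2
  apply Q.inj
  rw [← h2, map_ofNat]
  norm_num

theorem T_algebraMap [IsLocalization.Away (N : ℤ) R] (hN : N ≠ 0) (r : R) : Q.T (algebraMap R Λ r) = 2 * r := by
  rw [Algebra.algebraMap_eq_smul_one, map_smul, T_one Q hN, smul_eq_mul, mul_comm]

theorem T_conj [IsLocalization.Away (N : ℤ) R] (hN : N ≠ 0) (x : Λ) : Q.T (Q.conj x) = Q.T x := by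
  rw [conj_eq Q, map_sub, T_algebraMap Q hN]
  ring

theorem conj_conj [IsLocalization.Away (N : ℤ) R] (hN : N ≠ 0) (x : Λ) : Q.conj (Q.conj x) = x := by
  rw [conj_eq Q (Q.conj x), T_conj Q hN, conj_eq Q x]
  abel

theorem conj_add_smul (x : Λ) (c : R) (y : Λ) : Q.conj (x + c • y) = Q.conj x + c • Q.conj y := by
  rw [conj_eq Q, conj_eq Q x, conj_eq Q y, map_add, map_smul, map_add, smul_eq_mul]
  simp only [Algebra.algebraMap_eq_smul_one, smul_sub, smul_smul]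
  abel

/-- the norm of `x + c y` -/
theorem n_add_smul [IsLocalization.Away (N : ℤ) R] (hN : N ≠ 0) (x : Λ) (c : R) (y : Λ) :
    Q.n (x + c • y) = Q.n x + c * Q.T (x * Q.conj y) + c ^ 2 * Q.n y := by
  apply Q.inj
  have h1 : Q.conj (x * Q.conj y) = y * Q.conj x := by
    rw [Q.conj_mul, conj_conj Q hN]
  rw [← Q.mul_conj, conj_add_smul, map_add, map_add, ← Q.mul_conj x, map_mul (algebraMap R Λ) c,
    map_mul (algebraMap R Λ) (c ^ 2), ← Q.add_conj (x * Q.conj y),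
    h1, ← Q.mul_conj y, ← Algebra.smul_def, ← Algebra.smul_def, add_mul, mul_add, mul_add, mul_smul_comm,
    smul_mul_assoc, smul_mul_assoc, mul_smul_comm, smul_smul, smul_add, pow_two]
  abel

theorem n_one_add [IsLocalization.Away (N : ℤ) R] (hN : N ≠ 0) (c : R) (y : Λ) :
    Q.n (1 + c • y) = 1 + c * Q.T y + c ^ 2 * Q.n y := by
  rw [n_add_smul Q hN, n_one Q hN, one_mul, T_conj Q hN]

theorem n_smul (c : R) (y : Λ) : Q.n (c • y) = c ^ 2 * Q.n y := by
  apply Q.inj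
  have h := conj_add_smul Q 0 c y
  have h0 : Q.conj 0 = 0 := by rw [conj_eq Q, map_zero, map_zero, sub_zero]
  rw [h0, zero_add, zero_add] at h
  rw [← Q.mul_conj, h, map_mul, ← Q.mul_conj y, ← Algebra.smul_def, smul_mul_assoc, mul_smul_comm, smul_smul, pow_two]

end Alg

section Main

variable {N : ℕ} {R Λ : Type*} [CommRing R] [IsLocalization.Away (N : ℤ) R] [Ring Λ] [Algebra R Λ] (Q : QAlg N R Λ)

/-- the choice of `w` -/
theorem exists_w (hN : N ≠ 0) (x : Λ) (r α β : R) (h : α * Q.n x + β * r = 1) {M : ℕ} (hM0 : M ≠ 0) :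
    ∃ w : Λ, ∀ p : ℕ, p.Prime → ¬ p ∣ N → p ∣ M → ¬ (p : R) ∣ Q.n (x + r • w) := by
  classical
  have hD := Loc.isDomain N R hN
  have hC := Loc.charZero N R hN
  -- the primes which do not divide `r`
  set S : Finset ℕ := M.primeFactors.filter (fun q : ℕ => ¬ (q : R) ∣ r) with hS
  set B : ℕ := ∏ q ∈ S, q with hB
  have hB0 : (B : R) ≠ 0 := by
    rw [hB]
    have : ∏ q ∈ S, q ≠ 0 := Finset.prod_ne_zero_iff.mpr fun q hq => by
      rw [hS, Finset.mem_filter] at hq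
      exact (Nat.prime_of_mem_primeFactors hq.1).ne_zero
    exact_mod_cast this
  have hcop : IsCoprime r (B : R) := by
    refine Loc.isCoprime hN r (B : R) (Or.inr hB0) ?_
    rintro p hp hpN ⟨h1, h2⟩
    rw [Loc.natCast_dvd_natCast hp hpN] at h2
    obtain ⟨q, hq, hpq⟩ := (Prime.dvd_finsetProd_iff hp.prime _).mp h2
    rw [hS, Finset.mem_filter] at hq
    have : p = q := (Nat.prime_dvd_prime_iff_eq hp (Nat.prime_of_mem_primeFactors hq.1)).mp hpq
    rw [← this] at hq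
    exact hq.2 h1
  obtain ⟨s, t, hst⟩ := hcop
  refine ⟨s • (1 - x), fun p hp hpN hpM hdvd => ?_⟩
  by_cases hpr : (p : R) ∣ r
  · -- `n (x + r w) = n x` modulo `r`
    rw [n_add_smul Q hN] at hdvd
    have h1 : (p : R) ∣ Q.n x := by
      have h2 : (p : R) ∣ r * Q.T (x * Q.conj (s • (1 - x))) + r ^ 2 * Q.n (s • (1 - x)) :=
        dvd_add (Dvd.dvd.mul_right hpr _) (Dvd.dvd.mul_right (hpr.trans (dvd_pow_self r two_ne_zero)) _)
      rw [add_assoc] at hdvd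
      exact (dvd_add_left h2).mp hdvd
    have h3 : (p : R) ∣ 1 := by
      rw [← h]
      exact dvd_add (Dvd.dvd.mul_left h1 _) (Dvd.dvd.mul_left hpr _)
    exact Loc.not_isUnit hp hpN (isUnit_of_dvd_one h3)
  · -- `x + r w = 1` modulo `B`
    have hpB : (p : R) ∣ (B : R) := by
      rw [Loc.natCast_dvd_natCast hp hpN, hB]
      exact Finset.dvd_prod_of_mem (fun q : ℕ => q) (by
        rw [hS, Finset.mem_filter, Nat.mem_primeFactors]
        exact ⟨⟨hp, hpM, hM0⟩, hpr⟩)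
    have h1 : x + r • s • (1 - x) = 1 + (-(t * B)) • (1 - x) := by
      have h2 : r * s = 1 - t * B := by rw [← hst]; ring
      rw [smul_smul, h2]
      simp only [sub_smul, neg_smul, one_smul]
      abel
    rw [h1, n_one_add Q hN] at hdvd
    have h3 : (p : R) ∣ 1 := by
      have h4 : (p : R) ∣ -(t * B) * Q.T (1 - x) + (-(t * B)) ^ 2 * Q.n (1 - x) :=
        dvd_add (Dvd.dvd.mul_right ((dvd_neg.mpr (Dvd.dvd.mul_left hpB _))) _)
          (Dvd.dvd.mul_right ((dvd_neg.mpr (Dvd.dvd.mul_left hpB _)).trans (dvd_pow_self _ two_ne_zero)) _)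
      rw [add_assoc] at hdvd
      exact (dvd_add_left h4).mp hdvd
    exact Loc.not_isUnit hp hpN (isUnit_of_dvd_one h3)

/-- the choice of `z`, `N` odd -/
theorem exists_z_odd (hNo : Odd N) : ∃ (z : Λ) (m : ℤ), Q.n z = (m : R) ∧ m % 4 = 3 := by
  have hN : N ≠ 0 := by
    rintro rfl
    simp at hNo
  obtain ⟨f, hf⟩ := Q.one_prim
  obtain ⟨u, hu⟩ := Q.unimod f
  have hTu : Q.T u = 1 := by
    rw [← one_mul u, ← hu 1, hf]
  obtain ⟨a, k, ha⟩ := Loc.exists_int N (Q.n u)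
  refine ⟨((N : R) ^ k) • (1 + (2 : R) • u), 3 * (N : ℤ) ^ (2 * k) + 4 * ((N : ℤ) ^ k * a), ?_, ?_⟩
  · rw [n_smul Q, n_one_add Q hN, hTu]
    push_cast
    rw [← ha]
    ring
  · have h1 : ((N : ℤ) ^ (2 * k)) % 4 = 1 := by
      have h2 : (N : ℤ) ^ 2 ≡ 1 [ZMOD 4] := by
        have h3 : (N : ℤ) % 4 = 1 ∨ (N : ℤ) % 4 = 3 := by
          rw [Nat.odd_iff] at hNo
          omega
        rcases h3 with h3 | h3 <;> simp [Int.ModEq, pow_two, Int.mul_emod, h3]
      have h4 := h2.pow k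
      rw [one_pow, ← pow_mul] at h4
      exact h4
    omega

/-- pure elements of nonzero norm -/
theorem exists_pure (hN : N ≠ 0) : ∃ y : Λ, Q.T y = 0 ∧ Q.n y ≠ 0 := by
  by_contra hcon
  push Not at hcon
  have hn : ∀ s : R, Q.n (algebraMap R Λ s) = s ^ 2 := fun s => by
    rw [Algebra.algebraMap_eq_smul_one, n_smul Q, n_one Q hN, mul_one]
  have key : ∀ x : Λ, Q.T x ^ 2 = 2 ^ 2 * Q.n x := by
    intro x
    have h1 : Q.T (algebraMap R Λ (-Q.T x) + (2 : R) • x) = 0 := by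
      rw [map_add, T_algebraMap Q hN, map_smul, smul_eq_mul]
      ring
    have h2 := hcon _ h1
    rw [n_add_smul Q hN, hn, ← Algebra.smul_def, map_smul, T_conj Q hN, smul_eq_mul] at h2
    linear_combination -h2
  obtain ⟨p, hpN, hp⟩ := Nat.exists_infinite_primes (N + 3)
  have hpN' : ¬ p ∣ N := fun h => by
    have := Nat.le_of_dvd (Nat.pos_of_ne_zero hN) h
    omega
  have := Fact.mk hp
  obtain ⟨ρ, hs, -, hρ⟩ := Q.fibre p hp hpN'
  obtain ⟨a, ha⟩ := FiniteField.exists_nonsquare (F := ZMod p) (by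
    rw [ZMod.ringChar_zmod_n]
    omega)
  obtain ⟨x, hx⟩ := hs !![a, 0; 0, 1]
  have h1 := det_rho Q hp hpN' ρ hρ x
  rw [hx, Matrix.det_fin_two_of] at h1
  have h2 := congrArg (Loc.phi N R hp hpN') (key x)
  rw [map_mul, ← h1, map_pow, map_pow, map_ofNat] at h2
  have h20 : (2 : ZMod p) ≠ 0 := by
    have : ((2 : ℕ) : ZMod p) ≠ 0 := by
      rw [Ne, ZMod.natCast_eq_zero_iff]
      intro h
      have := Nat.le_of_dvd (by norm_num) h
      omega
    exact_mod_cast this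
  apply ha
  refine ⟨Loc.phi N R hp hpN' (Q.T x) / 2, ?_⟩
  field_simp
  linear_combination -h2

theorem exists_pure_int (hN : N ≠ 0) : ∃ (y : Λ) (a : ℤ), Q.T y = 0 ∧ Q.n y = (a : R) ∧ a ≠ 0 := by
  have hD := Loc.isDomain N R hN
  obtain ⟨y, hy, hy0⟩ := exists_pure Q hN
  obtain ⟨a, k, ha⟩ := Loc.exists_int N (Q.n y)
  have hu : IsUnit ((N : R) ^ k) := (Loc.isUnit_natCast N R).pow k
  refine ⟨((N : R) ^ k) • y, (N : ℤ) ^ k * a, by rw [map_smul, hy, smul_zero], ?_, ?_⟩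
  · rw [n_smul Q]
    push_cast
    rw [← ha]
    ring
  · have h1 : a ≠ 0 := by
      rintro rfl
      rw [Int.cast_zero] at ha
      exact (mul_ne_zero hy0 hu.ne_zero) ha
    exact mul_ne_zero (pow_ne_zero _ (by exact_mod_cast hN)) h1

omit [IsLocalization.Away (N : ℤ) R] in
lemma exists_two_pow (a : ℤ) (ha : a ≠ 0) : ∃ (v : ℕ) (m : ℤ), a = 2 ^ v * m ∧ Odd m := by
  obtain ⟨v, m, hm, h⟩ := Nat.exists_eq_two_pow_mul_odd (Int.natAbs_ne_zero.mpr ha)
  rcases Int.natAbs_eq a with h1 | h1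
  · exact ⟨v, m, by rw [h1, h]; push_cast; ring, by exact_mod_cast hm⟩
  · exact ⟨v, -m, by rw [h1, h]; push_cast; ring, (by exact_mod_cast hm : Odd (m : ℤ)).neg⟩

/-- the choice of `z` -/
theorem exists_z (hN : N ≠ 0) : ∃ (z : Λ) (v : ℕ) (m : ℤ), Q.n z = ((2 ^ v * m : ℤ) : R) ∧
    IsUnit ((2 : R) ^ v) ∧ ((Odd v ∧ Odd m) ∨ (Even v ∧ m % 4 = 3)) := by
  rcases Nat.even_or_odd N with hNe | hNo
  · have h2 : IsUnit (2 : R) := by
      have h := Loc.isUnit_of_dvd_pow N R (s := 2) (j := 1) (by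
        rw [pow_one]
        exact hNe.two_dvd)
      exact_mod_cast h
    obtain ⟨y, a, hy, hya, ha⟩ := exists_pure_int Q hN
    obtain ⟨v, m, hvm, hm⟩ := exists_two_pow a ha
    rcases Nat.even_or_odd v with hv | hv
    · have h4 : m % 4 = 3 ∨ m % 4 = 1 := by
        rw [Int.odd_iff] at hm
        omega
      rcases h4 with h4 | h4
      · exact ⟨y, v, m, by rw [hya, hvm], h2.pow v, Or.inr ⟨hv, h4⟩⟩
      · obtain ⟨e, he⟩ := hv
        obtain ⟨m', hm'⟩ : ∃ m' : ℤ, 1 + m = 2 * m' := ⟨(1 + m) / 2, by omega⟩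
        refine ⟨algebraMap R Λ (2 ^ e) + (1 : R) • y, v + 1, m', ?_, h2.pow _, Or.inl ⟨?_, ?_⟩⟩
        · rw [n_add_smul Q hN, Algebra.algebraMap_eq_smul_one, n_smul Q, n_one Q hN, smul_mul_assoc,
            map_smul, one_mul, one_mul, T_conj Q hN, hy, smul_zero, hya, hvm, he]
          have h5 : (2 ^ (e + e + 1) * m' : ℤ) = 2 ^ (e + e) * (1 + m) := by rw [hm']; ring
          rw [h5]
          push_cast
          ring
        · rw [he]
          exact ⟨e, by ring⟩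
        · rw [Int.odd_iff]
          omega
    · exact ⟨y, v, m, by rw [hya, hvm], h2.pow v, Or.inl ⟨hv, hm⟩⟩
  · obtain ⟨z, m, hz, hm⟩ := exists_z_odd Q hNo
    exact ⟨z, 0, m, by rw [hz]; simp, by simp, Or.inr ⟨by simp, hm⟩⟩

/-! ### The prime -/

variable (R) in
/-- the reduction modulo a number prime to `N` -/
theorem exists_psi {m : ℕ} (hm : m.Coprime N) :
    ∃ ψ : R →+* ZMod m, ∀ r, ψ r = 0 → (m : R) ∣ r := by
  have hu : IsUnit (Int.castRingHom (ZMod m) (N : ℤ)) := by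
    have := (ZMod.unitOfCoprime N hm.symm).isUnit
    simpa [ZMod.coe_unitOfCoprime] using this
  refine ⟨IsLocalization.Away.lift (N : ℤ) hu, fun r hr => ?_⟩
  obtain ⟨a, k, ha⟩ := Loc.exists_int N r
  have hNk : IsUnit ((N : R) ^ k) := (Loc.isUnit_natCast N R).pow k
  have h1 := congrArg (IsLocalization.Away.lift (N : ℤ) hu : R →+* ZMod m) ha
  rw [map_mul, hr, zero_mul, map_intCast] at h1
  have h2 : (m : ℤ) ∣ a := (ZMod.intCast_zmod_eq_zero_iff_dvd a m).mp h1.symm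
  obtain ⟨b, rfl⟩ := h2
  have h3 : (m : R) ∣ r * (N : R) ^ k := ⟨(b : R), by rw [ha]; push_cast; ring⟩
  exact (IsUnit.dvd_mul_right hNk).mp h3

omit [IsLocalization.Away (N : ℤ) R] [CommRing R] [Ring Λ] [Algebra R Λ] in
/-- Dirichlet's theorem with three congruences -/
theorem exists_prime {n m : ℕ} (hn : n ≠ 0) (hm : m ≠ 0) (h1 : n.Coprime (m * 8)) (h2 : m.Coprime 8)
    {a : ZMod n} (ha : IsUnit a) {c : ℕ} (hc : c.Coprime 8) (B : ℕ) :
    ∃ p : ℕ, B < p ∧ p.Prime ∧ (p : ZMod n) = a ∧ (p : ZMod m) = 1 ∧ (p : ZMod 8) = (c : ZMod 8) := by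
  have : NeZero (n * (m * 8)) := ⟨by positivity⟩
  let e := ZMod.chineseRemainder h1
  let e' := ZMod.chineseRemainder h2
  have hc' : IsUnit ((c : ZMod 8)) := (ZMod.isUnit_iff_coprime c 8).mpr hc
  have hb : IsUnit (e.symm (a, e'.symm (1, (c : ZMod 8)))) := by
    refine IsUnit.map e.symm (Prod.isUnit_iff.mpr ⟨ha, ?_⟩)
    exact IsUnit.map e'.symm (Prod.isUnit_iff.mpr ⟨isUnit_one, hc'⟩)
  obtain ⟨p, hpB, hp, hpe⟩ := Nat.forall_exists_prime_gt_and_eq_mod hb B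
  have h3 : e (p : ZMod (n * (m * 8))) = (a, e'.symm (1, (c : ZMod 8))) := by
    rw [hpe, RingEquiv.apply_symm_apply]
  rw [map_natCast] at h3
  have h4 := congrArg Prod.fst h3
  have h5 := congrArg Prod.snd h3
  simp only [Prod.fst_natCast, Prod.snd_natCast] at h4 h5
  have h6 := congrArg e' h5
  rw [RingEquiv.apply_symm_apply, map_natCast] at h6
  have h7 := congrArg Prod.fst h6
  have h8 := congrArg Prod.snd h6
  simp only [Prod.fst_natCast, Prod.snd_natCast] at h7 h8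
  exact ⟨p, hpB, hp, h4, h7, h8⟩

end Main

end Choice

theorem QAlg.choice {N : ℕ} (hN : N ≠ 0) {R Λ : Type*} [CommRing R]
    [IsLocalization.Away (N : ℤ) R] [Ring Λ] [Algebra R Λ] (Q : QAlg N R Λ)
    (x : Λ) (r α β : R) (h : α * Q.n x + β * r = 1) :
    ∃ (w z : Λ) (p : ℕ) (k k' : R), p.Prime ∧ 5 ≤ p ∧ ¬ p ∣ N ∧
      (p : R) = r + Q.n (x + r • w) * k ∧ (p : R) = 1 + Q.n z * k' ∧
      ∀ ρ : Λ →+* Matrix (Fin 2) (Fin 2) (ZMod p),
        (∀ y, ρ (algebraMap R Λ (Q.n y)) = (ρ y).det • (1 : Matrix (Fin 2) (Fin 2) (ZMod p))) →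
        ¬ IsSquare (ρ z).det := by
  have hD := Loc.isDomain N R hN
  obtain ⟨z, v, m, hz, h2v, hvm⟩ := Choice.exists_z Q hN
  have hmo : Odd m := by
    rcases hvm with h1 | h1
    · exact h1.2
    · rw [Int.odd_iff]
      omega
  have hm0 : m.natAbs ≠ 0 := by
    intro h0
    rw [Int.natAbs_eq_zero] at h0
    rw [h0] at hmo
    simp at hmo
  obtain ⟨q, hqN, hq⟩ := Nat.exists_infinite_primes (N + 1)
  have hqN' : ¬ q ∣ N := fun h => by
    have := Nat.le_of_dvd (Nat.pos_of_ne_zero hN) h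
    omega
  obtain ⟨w, hw⟩ := Choice.exists_w Q hN x r α β h (M := m.natAbs * 8 * q)
    (mul_ne_zero (mul_ne_zero hm0 (by norm_num)) hq.ne_zero)
  have hnw : Q.n (x + r • w) ≠ 0 := by
    intro h0
    exact hw q hq hqN' (Dvd.intro_left _ rfl) (by rw [h0]; exact dvd_zero _)
  obtain ⟨u, n, hn, hnN, hun⟩ := Loc.exists_unit_mul hN hnw
  have hcop : n.Coprime (m.natAbs * 8) := by
    refine Nat.coprime_of_dvd' ?_
    intro p hp h1 h2
    exfalso
    have hpN : ¬ p ∣ N := fun h3 => hp.one_lt.ne' (Nat.eq_one_of_dvd_coprimes hnN h1 h3)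
    refine hw p hp hpN (Dvd.dvd.mul_right h2 _) ?_
    rw [hun]
    exact Dvd.dvd.mul_left ((Loc.natCast_dvd_natCast hp hpN).mpr h1) _
  obtain ⟨ψ, hψ⟩ := Choice.exists_psi R hnN
  have hψr : IsUnit (ψ r) := by
    have h1 : α * Q.n (x + r • w) + (β - α * (Q.T (x * Q.conj w) + r * Q.n w)) * r = 1 := by
      rw [Choice.n_add_smul Q hN, ← h]
      ring
    have h2 := congrArg ψ h1
    rw [map_add, map_mul, map_mul, hun, map_mul, map_natCast, ZMod.natCast_self, mul_zero, mul_zero, zero_add,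
      map_one] at h2
    exact IsUnit.of_mul_eq_one_right _ h2
  have hm8 : m.natAbs.Coprime 8 := by
    have h1 : m.natAbs.Coprime 2 := (Nat.coprime_two_right).mpr (Int.natAbs_odd.mpr hmo)
    exact (Nat.Coprime.pow_right 3 h1)
  obtain ⟨c, hc8, hc⟩ : ∃ c : ℕ, c.Coprime 8 ∧ ((c = 5 ∧ Odd v ∧ Odd m) ∨ (c = 3 ∧ Even v ∧ m % 4 = 3)) := by
    rcases hvm with h1 | h1
    · exact ⟨5, by norm_num, Or.inl ⟨rfl, h1.1, h1.2⟩⟩
    · exact ⟨3, by norm_num, Or.inr ⟨rfl, h1.1, h1.2⟩⟩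
  obtain ⟨p, hpB, hp, hpn, hpm, hp8⟩ := Choice.exists_prime hn.ne' hm0 hcop hm8 hψr hc8 (N + 5)
  have hpN : ¬ p ∣ N := fun h => by
    have := Nat.le_of_dvd (Nat.pos_of_ne_zero hN) h
    omega
  have hpF := Fact.mk hp
  obtain ⟨t, ht⟩ : (n : R) ∣ (p : R) - r := hψ _ (by rw [map_sub, map_natCast, hpn, sub_self])
  have hmp : m ∣ (p : ℤ) - 1 := by
    rw [← Int.natAbs_dvd, ← ZMod.intCast_zmod_eq_zero_iff_dvd]
    push_cast
    rw [hpm, sub_self]
  obtain ⟨t', ht'⟩ := hmp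
  obtain ⟨i, hi⟩ := h2v.exists_right_inv
  refine ⟨w, z, p, (↑u⁻¹ : R) * t, i * (t' : R), hp, by omega, hpN, ?_, ?_, ?_⟩
  · have h1 : (u : R) * ↑u⁻¹ = 1 := Units.mul_inv u
    rw [hun]
    linear_combination ht - (n : R) * t * h1
  · have h1 : (p : R) - 1 = (m : R) * (t' : R) := by
      have := congrArg (Int.cast : ℤ → R) ht'
      push_cast at this
      exact this
    rw [hz]
    push_cast
    linear_combination h1 - (m : R) * (t' : R) * hi
  · intro ρ hρ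
    rw [Choice.det_rho Q hp hpN ρ hρ z, hz, map_intCast]
    have hc' : p % 8 = c % 8 := (ZMod.natCast_eq_natCast_iff' p c 8).mp hp8
    rcases hc with ⟨rfl, h1, h2⟩ | ⟨rfl, h1, h2⟩
    · exact Choice.nonsquare_A (by omega) h1 h2 ⟨t', ht'⟩
    · exact Choice.nonsquare_B (by omega) h1 h2 ⟨t', ht'⟩

end BW
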