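import Pool.Agent.BW.Ideal

/-!
# Bounded width: the choices of section 1 in one component
-/

set_option linter.unusedSectionVars false

namespace BW

namespace QAlg

variable {N : ℕ} {R Λ : Type*} [CommRing R] [IsDomain R] [IsPrincipalIdealRing R]
  [Ring Λ] [Algebra R Λ] [Module.Free R Λ] [Module.Finite R Λ] (Q : QAlg N R Λ)

theorem content_ne (v : Λ) (hv : v ≠ 0) :
    ∃ (c : R) (v0 w : Λ), c ≠ 0 ∧ v = c • v0 ∧ Q.T (v0 * w) = 1 := by
  obtain ⟨c, v0, f, h0, h1, h2⟩ := BW.content (R := R) v hv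
  obtain ⟨w, hw⟩ := Q.unimod f
  exact ⟨c, v0, w, h0, h1, by rw [← hw, h2]⟩

include Q in
theorem smul_cancel {c : R} (hc : c ≠ 0) {x y : Λ} (h : c • x = c • y) : x = y :=
  smul_right_injective Λ hc h

theorem eq_zero_of_T (v : Λ) (h : ∀ x, Q.T (v * x) = 0) : v = 0 := by
  by_contra hv
  obtain ⟨c, v0, w, h0, h1, h2⟩ := Q.content_ne v hv
  have := h w
  rw [h1, smul_mul_assoc, map_smul, h2, smul_eq_mul, mul_one] at this
  exact h0 this

/-- multiplication by an element of non-zero norm is injective -/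
theorem mul_left_cancel_of_n {a : Λ} (ha : Q.n a ≠ 0) {x : Λ} (h : a * x = 0) : x = 0 := by
  have h1 : Q.n a • x = Q.n a • (0 : Λ) := by
    rw [smul_zero, Algebra.smul_def, ← Q.conj_mul_self, mul_assoc, h, mul_zero]
  exact smul_right_injective Λ ha h1

theorem ne_zero_of_n {a : Λ} (ha : Q.n a ≠ 0) : a ≠ 0 := by
  rintro rfl
  exact ha Q.n_zero

/-- (C4) for a unimodular row `(a, b)` some `a + b x` has non-zero norm -/
theorem exists_n_ne [CharZero R] (a b u v : Λ) (h : a * u + b * v = 1) :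
    ∃ x, Q.n (a + b * x) ≠ 0 := by
  by_contra hcon
  push Not at hcon
  have h0 : Q.n a = 0 := by simpa using hcon 0
  have hx : ∀ x, Q.T (Q.conj a * b * x) + Q.n b * Q.n x = 0 := by
    intro x
    have h1 := hcon x
    rw [n_add, h0, zero_add, n_mul] at h1
    rw [← h1]
    congr 1
    rw [← Q.T_conj (a * _), Q.conj_mul, conj_conj, Q.T_comm (b * x), mul_assoc]
  have hb : ∀ x, Q.n b * Q.n x = 0 := by
    intro x
    have h1 := hx x
    have h2 := hx (-x)
    rw [mul_neg, map_neg, n_neg] at h2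
    have h3 : (2 : R) * (Q.n b * Q.n x) = 0 := by linear_combination h1 + h2
    exact (mul_eq_zero.1 h3).resolve_left two_ne_zero
  have hab : Q.conj a * b = 0 := Q.eq_zero_of_T _ fun x => by
    have := hx x; rwa [hb, add_zero] at this
  have ha : Q.conj a = 0 := by
    calc Q.conj a = Q.conj a * (a * u + b * v) := by rw [h, mul_one]
      _ = (Q.conj a * a) * u + Q.conj a * b * v := by simp only [mul_add, mul_assoc]
      _ = 0 := by rw [Q.conj_mul_self, h0, hab]; simp
  have ha' : a = 0 := by rw [← Q.conj_conj a, ha, conj_zero]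
  rw [ha', zero_mul, zero_add] at h
  have h4 : Q.n b * Q.n v = 1 := by rw [← n_mul, h, n_one]
  rw [hb] at h4
  exact zero_ne_one h4

/-- (C5) `conj a · b = b# · conj a*` in all cases -/
theorem conj_mul_eq' [CharZero R] (a b bs as u v : Λ) (h : b * as = a * bs)
    (h1 : a * u + b * v = 1) (hn : ∀ x, Q.n (a + b * x) = Q.n (as + x * bs))
    (hb : Q.n b = Q.n bs) : Q.conj a * b = bs * Q.conj as := by
  obtain ⟨x, hx⟩ := Q.exists_n_ne a b u v h1
  have h2 := Q.conj_mul_eq (a + b * x) b bs (as + x * bs)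
    (by rw [mul_add, add_mul, h, mul_assoc]) (hn x) hx
  rw [conj_add, conj_add, Q.conj_mul, Q.conj_mul, add_mul, mul_add, mul_assoc, Q.conj_mul_self,
    ← mul_assoc bs, Q.mul_conj, hb, ← Algebra.commutes] at h2
  exact add_right_cancel h2

/-- there are commutators of non-zero norm -/
theorem exists_comm (hN : N ≠ 0) : ∃ u v : Λ, Q.n (u * v - v * u) ≠ 0 := by
  obtain ⟨p, hp1, hp⟩ := Nat.exists_infinite_primes (N + 1)
  have hpN : ¬ p ∣ N := fun hd => by
    have := Nat.le_of_dvd (Nat.pos_of_ne_zero hN) hd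
    omega
  have : Fact p.Prime := ⟨hp⟩
  obtain ⟨ρ, hs, -, hdet⟩ := Q.fibre p hp hpN
  obtain ⟨u, hu⟩ := hs !![0, 1; 0, 0]
  obtain ⟨v, hv⟩ := hs !![0, 0; 1, 0]
  refine ⟨u, v, fun h0 => ?_⟩
  have h1 := hdet (u * v - v * u)
  rw [h0, map_zero, map_zero, map_sub, map_mul, map_mul, hu, hv] at h1
  have h2 := congrFun (congrFun h1 0) 0
  simp [Matrix.det_fin_two] at h2

/-- the trace step with all solutions `y` of an affine equation -/
theorem trace_family (a b bs as : Λ) (h : b * as = a * bs) (hprim : ∃ c, Q.T (a * c) = 1)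
    (h0 : ¬ ∀ x, x * a = as * x) :
    ∃ (x0 s w : Λ) (t : R), x0 ≠ 0 ∧ Q.T (w * s) = 1 ∧ ∀ y, Q.T (y * s) = t →
      Q.T (a + (b + a * y) * x0) = Q.T (as + x0 * (bs + y * as)) := by
  -- the map `x ↦ x a - a* x`
  let ε : Λ →ₗ[R] Λ := LinearMap.mulRight R a - LinearMap.mulLeft R as
  have hε : ∀ x, ε x = x * a - as * x := fun x => rfl
  have h0 : ε ≠ 0 := by
    intro h1
    apply h0
    intro x
    have h2 : ε x = 0 := by rw [h1]; rfl
    rwa [hε, sub_eq_zero] at h2
  obtain ⟨x0, c0, s, f, hc0, hs, hf, hdiv⟩ := smith ε h0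
  obtain ⟨w, hw⟩ := Q.unimod f
  have hws : Q.T (w * s) = 1 := by rw [Q.T_comm, ← hw, hf]
  obtain ⟨d, hd⟩ := hdiv 1
  rw [hε, one_mul, mul_one] at hd
  -- `a` is scalar modulo `c0`
  have hcomm : ∀ x, ∃ y, x * a - a * x = c0 • y := by
    intro x
    obtain ⟨y, hy⟩ := hdiv x
    rw [hε] at hy
    refine ⟨y - d * x, ?_⟩
    rw [smul_sub, ← hy, ← smul_mul_assoc, ← hd, sub_mul]
    abel
  obtain ⟨σ, y1, ha⟩ := Q.centre a c0 hc0 hcomm
  obtain ⟨c, hc⟩ := hprim
  -- `σ (b - b#)` is divisible by `c0`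
  have h2 : ∃ y, σ • (b - bs) = c0 • y := by
    refine ⟨y1 * bs - b * (y1 - d), ?_⟩
    have has : as = algebraMap R Λ σ + c0 • (y1 - d) := by
      rw [smul_sub, ← hd, ← add_sub_assoc, ← ha]; abel
    rw [ha, has] at h
    rw [mul_add, add_mul, ← Algebra.commutes, ← Algebra.smul_def, ← Algebra.smul_def,
      mul_smul_comm, smul_mul_assoc] at h
    rw [smul_sub, smul_sub]
    rw [sub_eq_sub_iff_add_eq_add]
    rw [h]; abel
  obtain ⟨y2, hy2⟩ := h2
  -- `σ` is a unit modulo `c0`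
  have h3 : 1 = σ * Q.T c + c0 * Q.T (y1 * c) := by
    rw [← hc]
    conv_lhs => rw [ha]
    rw [add_mul, map_add, ← Algebra.smul_def, map_smul, smul_mul_assoc, map_smul, smul_eq_mul,
      smul_eq_mul]
  have h4 : b - bs = c0 • (Q.T c • y2 + Q.T (y1 * c) • (b - bs)) := by
    calc b - bs = (1 : R) • (b - bs) := (one_smul _ _).symm
      _ = (σ * Q.T c + c0 * Q.T (y1 * c)) • (b - bs) := by rw [← h3]
      _ = Q.T c • (σ • (b - bs)) + c0 • (Q.T (y1 * c) • (b - bs)) := by
          rw [add_smul, mul_comm σ, mul_smul, mul_smul]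
      _ = _ := by rw [hy2, smul_comm, ← smul_add]
  set y3 := Q.T c • y2 + Q.T (y1 * c) • (b - bs) with hy3
  refine ⟨x0, s, w, -(Q.T d + Q.T (y3 * x0)), ?_, hws, fun y hy => ?_⟩
  · rintro rfl
    rw [map_zero] at hs
    have : s = 0 := by
      refine smul_right_injective Λ hc0 ?_
      change c0 • s = c0 • (0 : Λ)
      rw [← hs, smul_zero]
    rw [this, mul_zero, map_zero] at hws
    exact zero_ne_one hws
  have e1 : Q.T (a + (b + a * y) * x0) - Q.T (as + x0 * (bs + y * as)) =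
      Q.T (a - as) + Q.T ((b - bs) * x0) + Q.T (y * ε x0) := by
    have e2 : Q.T (a * y * x0) = Q.T (y * (x0 * a)) := by
      rw [mul_assoc, Q.T_comm, mul_assoc]
    have e3 : Q.T (x0 * (y * as)) = Q.T (y * (as * x0)) := by
      rw [Q.T_comm, mul_assoc]
    have e4 : Q.T (x0 * bs) = Q.T (bs * x0) := Q.T_comm _ _
    rw [hε, mul_sub, sub_mul, add_mul, mul_add]
    simp only [map_add, map_sub, e2, e3, e4]
    ring
  have e5 : Q.T (y * ε x0) = -(c0 * (Q.T d + Q.T (y3 * x0))) := by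
    rw [hs, mul_smul_comm, map_smul, hy, smul_eq_mul]; ring
  rw [← sub_eq_zero, e1, e5, hd, h4, map_smul, smul_mul_assoc, map_smul, smul_eq_mul, smul_eq_mul]
  ring

/-- (C1) the trace step with a non-zero new `a` -/
theorem trace_strong (hN : N ≠ 0) (a b bs as : Λ) (h : b * as = a * bs)
    (hprim : ∃ c, Q.T (a * c) = 1) (hna : Q.n a ≠ 0) :
    ∃ x y : Λ, Q.T (a + (b + a * y) * x) = Q.T (as + x * (bs + y * as)) ∧
      a + (b + a * y) * x ≠ 0 := by
  by_cases h0 : ∀ x, x * a = as * x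
  · refine ⟨0, 0, ?_, ?_⟩
    · have := h0 1
      rw [one_mul, mul_one] at this
      rw [this]; simp
    · simpa using Q.ne_zero_of_n hna
  obtain ⟨x0, s, w, t, hx0, hws, hy⟩ := Q.trace_family a b bs as h hprim h0
  by_contra hcon
  push Not at hcon
  have hall : ∀ y, Q.T (y * s) = t → a + (b + a * y) * x0 = 0 := fun y h1 =>
    hcon x0 y (hy y h1)
  have hall0 := hall (t • w) (by rw [smul_mul_assoc, map_smul, hws, smul_eq_mul, mul_one])
  -- the kernel kills `x0`
  have hk : ∀ u, u * x0 = Q.T (u * s) • (w * x0) := by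
    intro u
    have h1 := hall (t • w + (u - Q.T (u * s) • w)) (by
      rw [add_mul, sub_mul, map_add, map_sub, smul_mul_assoc, smul_mul_assoc, map_smul, map_smul,
        hws, smul_eq_mul, smul_eq_mul]; ring)
    have h2 : a * ((u - Q.T (u * s) • w) * x0) = 0 := by
      have h3 : a + (b + a * (t • w + (u - Q.T (u * s) • w))) * x0 =
          (a + (b + a * (t • w)) * x0) + a * ((u - Q.T (u * s) • w) * x0) := by
        noncomm_ring
      rw [h3, hall0, zero_add] at h1
      exact h1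
    have h4 := Q.mul_left_cancel_of_n hna h2
    rw [sub_mul, sub_eq_zero, smul_mul_assoc] at h4
    exact h4
  have hμ : ∀ u, u * (w * x0) = Q.T (u * w * s) • (w * x0) := by
    intro u
    rw [← mul_assoc, hk]
  obtain ⟨u, v, huv⟩ := Q.exists_comm hN
  have h5 : (u * v - v * u) * (w * x0) = 0 := by
    have e : ∀ u v : Λ, u * v * (w * x0) =
        (Q.T (v * w * s) * Q.T (u * w * s)) • (w * x0) := by
      intro u v
      rw [mul_assoc, hμ v, mul_smul_comm, hμ u, smul_smul]
    rw [sub_mul, e, e, mul_comm, sub_self]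
  have h6 := Q.mul_left_cancel_of_n huv h5
  have h7 := hk 1
  rw [h6, smul_zero, one_mul] at h7
  exact hx0 h7

/-- a central element is fixed by the conjugation -/
theorem conj_of_central [CharZero R] (hN : N ≠ 0) (a : Λ) (h : ∀ x, x * a = a * x) :
    Q.conj a = a := by
  by_contra hne
  have hδ : a - Q.conj a ≠ 0 := fun h0 => hne (sub_eq_zero.1 h0).symm
  obtain ⟨c, v0, w, h0, h1, h2⟩ := Q.content_ne _ hδ
  obtain ⟨p, hp1, hp⟩ := Nat.exists_infinite_primes (N + 1)
  have hpN : ¬ p ∣ N := fun hd => by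
    have := Nat.le_of_dvd (Nat.pos_of_ne_zero hN) hd
    omega
  have : Fact p.Prime := ⟨hp⟩
  have hp0 : (p : R) ≠ 0 := by exact_mod_cast hp.ne_zero
  obtain ⟨s, y, hy⟩ := Q.centre a (c * p) (mul_ne_zero h0 hp0) fun x =>
    ⟨0, by rw [h, sub_self, smul_zero]⟩
  have h3 : c • v0 = c • ((p : R) • (y - Q.conj y)) := by
    rw [← h1, smul_smul, smul_sub]
    conv_lhs => rw [hy]
    rw [conj_add, conj_smul, conj_algebraMap]; abel
  have h4 := smul_right_injective Λ h0 h3
  have h5 : (p : R) * Q.T ((y - Q.conj y) * w) = 1 := by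
    rw [← h2, h4, smul_mul_assoc, map_smul, smul_eq_mul]
  obtain ⟨ρ, hs, -, -⟩ := Q.fibre p hp hpN
  have h6 := congrArg (fun r => ρ (algebraMap R Λ r)) h5
  simp only [map_mul, map_natCast, map_one] at h6
  have h7 := congrFun (congrFun h6 0) 0
  rw [← Matrix.diagonal_natCast, Matrix.diagonal_mul] at h7
  simp at h7

/-- (C2) the element `g` with `a g = g a*`, also for `g = 0` -/
theorem g_step [CharZero R] (hN : N ≠ 0) (a as g u v : Λ) (h : a * g = g * as)
    (hT : Q.T a = Q.T as) (hn : Q.n a = Q.n as) (h1 : a * u + g * v = 1) :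
    ∃ (y g0 w : Λ) (c : R), c ≠ 0 ∧ a * y = y * as ∧ g + a * y = c • g0 ∧
      Q.T (g0 * w) = 1 ∧ a * g0 = g0 * as := by
  -- it is enough to find `y` with `g + a y` non-zero
  suffices hy : ∃ y, a * y = y * as ∧ g + a * y ≠ 0 by
    obtain ⟨y, hy1, hy2⟩ := hy
    obtain ⟨c, g0, w, h0, h2, h3⟩ := Q.content_ne _ hy2
    refine ⟨y, g0, w, c, h0, hy1, h2, h3, ?_⟩
    refine smul_right_injective Λ h0 ?_
    change c • (a * g0) = c • (g0 * as)
    rw [← mul_smul_comm, ← h2, ← smul_mul_assoc, ← h2, mul_add, add_mul, h, mul_assoc a y, hy1]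
  by_cases hg : g = 0
  · rw [hg, zero_mul, add_zero] at h1
    have hna : Q.n a ≠ 0 := fun h0 => by
      have := congrArg Q.n h1
      rw [n_mul, h0, zero_mul, n_one] at this
      exact zero_ne_one this
    suffices hy : ∃ y, a * y = y * as ∧ y ≠ 0 by
      obtain ⟨y, hy1, hy2⟩ := hy
      exact ⟨y, hy1, fun h0 => hy2 (Q.mul_left_cancel_of_n hna (by rwa [hg, zero_add] at h0))⟩
    by_cases hw : ∃ w, a * w - w * Q.conj as ≠ 0
    · obtain ⟨w, hw⟩ := hw
      refine ⟨_, ?_, hw⟩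
      have e1 : a * a = Q.T as • a - algebraMap R Λ (Q.n as) := by rw [Q.quad a, hT, hn]
      have e2 : w * Q.conj as * as = algebraMap R Λ (Q.n as) * w := by
        rw [mul_assoc, Q.conj_mul_self, Algebra.commutes]
      have e3 : a * w * as + a * w * Q.conj as = Q.T as • (a * w) := by
        rw [← mul_add, Q.add_conj, ← Algebra.commutes, Algebra.smul_def]
      rw [mul_sub, sub_mul, e2, ← mul_assoc, e1, sub_mul, smul_mul_assoc, ← e3, mul_assoc a w]
      simp only [mul_assoc]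
      abel
    · push Not at hw
      have h2 := hw 1
      rw [mul_one, one_mul, sub_eq_zero] at h2
      have h3 : Q.conj a = a := Q.conj_of_central hN a fun x => by
        have := hw x
        rw [← h2, sub_eq_zero] at this
        exact this.symm
      refine ⟨1, ?_, ?_⟩
      · rw [mul_one, one_mul, ← Q.conj_conj as, ← h2, h3]
      · exact Q.ne_zero_of_n (by rw [n_one]; exact one_ne_zero)
  · exact ⟨0, by simp, by simpa using hg⟩

end QAlg

end BW
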