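import Pool.Agent.BW.Family
import Pool.Agent.BW.Choice
import Pool.Agent.BW.Comp

/-!
# Bounded width: the reduced norm
-/

namespace BW

open Matrix

section Block

variable {Λ k m : Type*} [Ring Λ] [CommRing k] [Fintype m] [DecidableEq m]

theorem nrdAt_apply (ρ : Λ →+* Matrix (Fin 2) (Fin 2) k) (X : Matrix m m Λ) :
    nrdAt ρ X = (Matrix.compRingEquiv m (Fin 2) k (X.map ρ)).det := rfl

/-- elementary matrices have reduced norm one -/
theorem nrdAt_el (ρ : Λ →+* Matrix (Fin 2) (Fin 2) k) (i j : m) (h : i ≠ j) (x : Λ) :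
    nrdAt ρ (el i j h x).val = 1 := by
  classical
  let U : Matrix (m × Fin 2) (Fin 2) k := fun a s => if a.1 = i then ρ x a.2 s else 0
  let V : Matrix (Fin 2) (m × Fin 2) k := fun s a => if a = (j, s) then 1 else 0
  have h1 : Matrix.compRingEquiv m (Fin 2) k ((el i j h x).val.map ρ) = 1 + U * V := by
    ext ⟨a, s⟩ ⟨b, t⟩
    rw [el_val]
    have e1 : (Matrix.compRingEquiv m (Fin 2) k ((1 + Matrix.single i j x).map ρ)) (a, s) (b, t) =
        ρ ((1 + Matrix.single i j x : Matrix m m Λ) a b) s t := rfl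
    rw [e1, Matrix.add_apply, Matrix.add_apply, map_add, Matrix.add_apply]
    congr 1
    · rw [Matrix.one_apply, Matrix.one_apply]
      by_cases hab : a = b
      · by_cases hst : s = t
        · simp [hab, hst]
        · simp [hab, hst]
      · simp [hab]
    · rw [Matrix.mul_apply]
      simp only [U, V]
      rw [Finset.sum_eq_single t]
      · by_cases ha : i = a
        · by_cases hb : j = b
          · simp [ha, hb]
          · have : ¬ b = j := fun h => hb h.symm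
            simp [ha, hb, this, Matrix.single_apply]
        · have : ¬ a = i := fun h => ha h.symm
          simp [ha, this, Matrix.single_apply]
      · intro s' _ hs'
        have : ¬ ((b, t) = (j, s')) := fun h => hs' (by rw [Prod.mk.injEq] at h; exact h.2.symm)
        rw [if_neg this, mul_zero]
      · simp
  have h2 : V * U = 0 := by
    ext s t
    rw [Matrix.mul_apply]
    refine Finset.sum_eq_zero fun a _ => ?_
    simp only [U, V]
    by_cases ha : a = (j, s)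
    · have : ¬ a.1 = i := by rw [ha]; exact h.symm
      rw [if_neg this, mul_zero]
    · rw [if_neg ha, zero_mul]
  rw [nrdAt_apply, h1, Matrix.det_one_add_mul_comm, h2, add_zero, Matrix.det_one]

theorem el_mem_SL1 (N : ℕ) (i j : m) (h : i ≠ j) (x : Λ) : el i j h x ∈ SL1 N m Λ :=
  fun _ _ _ ρ => nrdAt_el ρ i j h x

theorem E_le_SL1 (N : ℕ) : E m Λ ≤ SL1 N m Λ := by
  rw [E, Subgroup.closure_le]
  rintro _ ⟨i, j, h, x, rfl⟩
  exact el_mem_SL1 N i j h x

/-- the block determinant of a `2 x 2` matrix over `Λ` -/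
theorem nrdAt_fin_two (ρ : Λ →+* Matrix (Fin 2) (Fin 2) k) (X : Matrix (Fin 2) (Fin 2) Λ) :
    nrdAt ρ X = (Matrix.fromBlocks (ρ (X 0 0)) (ρ (X 0 1)) (ρ (X 1 0)) (ρ (X 1 1))).det := by
  let e : (Fin 2 ⊕ Fin 2) ≃ (Fin 2 × Fin 2) :=
    ((finTwoEquiv.prodCongr (Equiv.refl (Fin 2))).trans (Equiv.boolProdEquivSum (Fin 2))).symm
  rw [nrdAt_apply, ← Matrix.det_submatrix_equiv_self e]
  congr 1
  ext a b
  rcases a with a | a <;> rcases b with b | b <;> rfl

theorem nrdAt_lower (ρ : Λ →+* Matrix (Fin 2) (Fin 2) k) (a c d : Λ) :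
    nrdAt ρ !![a, 0; c, d] = (ρ a).det * (ρ d).det := by
  rw [nrdAt_fin_two]
  simp only [Matrix.of_apply, Matrix.cons_val', Matrix.cons_val_zero, Matrix.cons_val_one,
    Matrix.cons_val_fin_one, map_zero]
  rw [Matrix.det_fromBlocks_zero₁₂]

theorem nrdAt_upper (ρ : Λ →+* Matrix (Fin 2) (Fin 2) k) (a b d : Λ) :
    nrdAt ρ !![a, b; 0, d] = (ρ a).det * (ρ d).det := by
  rw [nrdAt_fin_two]
  simp only [Matrix.of_apply, Matrix.cons_val', Matrix.cons_val_zero, Matrix.cons_val_one,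
    Matrix.cons_val_fin_one, map_zero]
  rw [Matrix.det_fromBlocks_zero₂₁]

/-- `nrd(A) n(t) = n(a)` for the entry `a` of `A` and the opposite entry `t` of the inverse -/
theorem nrdAt_mul (ρ : Λ →+* Matrix (Fin 2) (Fin 2) k) (A : (Matrix (Fin 2) (Fin 2) Λ)ˣ) :
    nrdAt ρ A.val * (ρ (A⁻¹.val 1 1)).det = (ρ (A.val 0 0)).det := by
  obtain ⟨⟨r1, r2⟩, ⟨r3, r4⟩⟩ := row_col A
  have h1 : A.val * !![1, A⁻¹.val 0 1; 0, A⁻¹.val 1 1] = !![A.val 0 0, 0; A.val 1 0, 1] := by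
    ext i j
    fin_cases i <;> fin_cases j <;> simp [Matrix.mul_apply, Fin.sum_univ_two, r2, r4]
  have h2 := congrArg (nrdAt ρ) h1
  rw [map_mul, nrdAt_upper, nrdAt_lower] at h2
  simpa using h2

end Block

section Norm

variable {N : ℕ} {R Λ : Type*} [CommRing R] [IsLocalization.Away (N : ℤ) R]
  [Ring Λ] [Algebra R Λ] (Q : QAlg N R Λ)

/-- matrices of reduced norm one have `n(a) = n(a*)` -/
theorem QAlg.n_eq (hN : N ≠ 0) (A : (Matrix (Fin 2) (Fin 2) Λ)ˣ) (hA : A ∈ SL1 N (Fin 2) Λ) :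
    Q.n (A.val 0 0) = Q.n (A⁻¹.val 1 1) := by
  rw [← sub_eq_zero]
  refine Loc.eq_zero_of_eventually hN _ 0 ?_
  intro p hp _ hpN
  obtain ⟨ρ, -, -, hdet⟩ := Q.fibre p hp hpN
  rw [← Loc.phi_eq_zero_iff hp hpN, map_sub, ← Choice.det_rho Q hp hpN ρ hdet,
    ← Choice.det_rho Q hp hpN ρ hdet, ← nrdAt_mul, hA p hp hpN ρ, one_mul, sub_self]

theorem W_mem_SL1 : (W : (Matrix (Fin 2) (Fin 2) Λ)ˣ) ∈ SL1 N (Fin 2) Λ :=
  mul_mem (mul_mem (el_mem_SL1 _ _ _ _ _) (el_mem_SL1 _ _ _ _ _)) (el_mem_SL1 _ _ _ _ _)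

/-- matrices of reduced norm one have `conj a · b = b# · conj a*` -/
theorem QAlg.conj_eq_of_SL1 [Module.Free R Λ] [Module.Finite R Λ] (hN : N ≠ 0)
    (A : (Matrix (Fin 2) (Fin 2) Λ)ˣ) (hA : A ∈ SL1 N (Fin 2) Λ) :
    Q.conj (A.val 0 0) * A.val 0 1 + A⁻¹.val 0 1 * Q.conj (A⁻¹.val 1 1) = 0 := by
  have := Loc.isDomain N R hN
  have := Loc.isPrincipalIdealRing N R
  have := Loc.charZero N R hN
  obtain ⟨⟨r1, r2⟩, ⟨r3, r4⟩⟩ := row_col A
  have h := Q.conj_mul_eq' (A.val 0 0) (A.val 0 1) (-A⁻¹.val 0 1) (A⁻¹.val 1 1)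
    (A⁻¹.val 0 0) (A⁻¹.val 1 0) (by rw [mul_neg]; exact eq_neg_of_add_eq_zero_right r2) r1 ?_ ?_
  · rw [h, neg_mul, neg_add_cancel]
  · intro x
    have h1 := Q.n_eq hN (A * el 1 0 (by decide) x) (mul_mem hA (el_mem_SL1 _ _ _ _ _))
    have e1 : (A * el 1 0 (by decide) x).val 0 0 = A.val 0 0 + A.val 0 1 * x := by
      rw [Units.val_mul, el_val, Matrix.mul_apply, Fin.sum_univ_two]
      simp [Matrix.add_apply, Matrix.one_apply, Matrix.single_apply]
    have e2 : (A * el 1 0 (by decide) x)⁻¹.val 1 1 = A⁻¹.val 1 1 + x * -A⁻¹.val 0 1 := by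
      rw [_root_.mul_inv_rev, el_inv, Units.val_mul, el_val, Matrix.mul_apply, Fin.sum_univ_two]
      simp [Matrix.add_apply, Matrix.one_apply, Matrix.single_apply, add_comm]
    rwa [e1, e2] at h1
  · have h1 := Q.n_eq hN (A * W) (mul_mem hA W_mem_SL1)
    have e1 : (A * W).val 0 0 = A.val 0 1 := by
      rw [Units.val_mul, W_val, Matrix.mul_apply, Fin.sum_univ_two]; simp
    have e2 : (A * W)⁻¹.val 1 1 = -A⁻¹.val 0 1 := by
      rw [_root_.mul_inv_rev, Units.val_mul, W_inv_val, Matrix.mul_apply, Fin.sum_univ_two]; simp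
    rwa [e1, e2] at h1

end Norm

end BW
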