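import Pool.Agent.BW.Unip
import Pool.Agent.BW.Nrd

/-!
# Bounded width: factorization of unipotent radicals, elementary matrices from a parabolic pair
-/

namespace BW

open Matrix

section Par

variable {n Λ : Type*} [DecidableEq n] [Fintype n] [Ring Λ]

theorem el_mul_apply (i j : n) (h : i ≠ j) (x : Λ) (X : (Matrix n n Λ)ˣ) (a b : n) :
    (el i j h x * X).val a b = X.val a b + if a = i then x * X.val j b else 0 := by
  rw [Units.val_mul]
  change ((1 + Matrix.single i j x) * X.val) a b = _
  rw [add_mul, one_mul, Matrix.add_apply]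
  congr 1
  by_cases ha : a = i
  · rw [ha, if_pos rfl, Matrix.single_mul_apply_same]
  · rw [if_neg ha, Matrix.single_mul_apply_of_ne _ _ _ _ _ ha]

open Classical in
/-- the non-zero entries outside the diagonal -/
noncomputable def offSupp (X : (Matrix n n Λ)ˣ) : Finset (n × n) :=
  Finset.univ.filter fun p => p.1 ≠ p.2 ∧ X.val p.1 p.2 ≠ 0

theorem mem_offSupp {X : (Matrix n n Λ)ˣ} {p : n × n} :
    p ∈ offSupp X ↔ p.1 ≠ p.2 ∧ X.val p.1 p.2 ≠ 0 := by
  classical
  simp [offSupp]

/-- every element of the unipotent radical is a product of elementary matrices, one for every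
non-zero entry -/
theorem U_factor (f : n → ℤ) : ∀ (k : ℕ) (X : (Matrix n n Λ)ˣ), X ∈ U f →
    (offSupp X).card = k → ∃ l : List ((Matrix n n Λ)ˣ), l.length = k ∧
      (∀ g ∈ l, ∃ (a b : n) (h : a ≠ b) (x : Λ), f a < f b ∧ g = el a b h x) ∧ l.prod = X := by
  classical
  intro k
  induction k with
  | zero =>
    intro X hX hk
    rw [Finset.card_eq_zero] at hk
    refine ⟨[], rfl, by simp, ?_⟩
    rw [List.prod_nil]
    ext a b
    rw [Units.val_one]
    by_cases hab : a = b
    · rw [hab, hX b b (lt_irrefl _)]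
    · by_contra hne
      have : (a, b) ∈ offSupp X := mem_offSupp.2 ⟨hab, fun h0 => hne (by
        rw [h0, Matrix.one_apply_ne hab])⟩
      rw [hk] at this
      exact absurd this (Finset.notMem_empty _)
  | succ k ih =>
    intro X hX hk
    have hne : (offSupp X).Nonempty := by
      rw [← Finset.card_pos, hk]; exact Nat.succ_pos k
    obtain ⟨⟨i, j⟩, hij, hmax⟩ := Finset.exists_max_image (offSupp X) (fun p => f p.1) hne
    obtain ⟨h1, h2⟩ := mem_offSupp.1 hij
    change i ≠ j at h1
    change X.val i j ≠ 0 at h2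
    have hfij : f i < f j := by
      by_contra hcon
      exact h2 (by rw [hX i j hcon, Matrix.one_apply_ne h1])
    -- the row `j` is trivial
    have hrow : ∀ b, b ≠ j → X.val j b = 0 := by
      intro b hb
      by_contra hcon
      have := hmax (j, b) (mem_offSupp.2 ⟨fun h => hb h.symm, hcon⟩)
      exact absurd hfij (not_lt.2 this)
    have hjj : X.val j j = 1 := by rw [hX j j (lt_irrefl _), Matrix.one_apply_eq]
    let X' := el i j h1 (-X.val i j) * X
    have hX'a : ∀ a b, (a, b) ≠ (i, j) → X'.val a b = X.val a b := by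
      intro a b hab
      rw [el_mul_apply]
      by_cases ha : a = i
      · have hb : b ≠ j := fun hb => hab (by rw [ha, hb])
        rw [if_pos ha, hrow b hb, mul_zero, add_zero]
      · rw [if_neg ha, add_zero]
    have hX'ij : X'.val i j = 0 := by
      rw [el_mul_apply, if_pos rfl, hjj, mul_one, add_neg_cancel]
    have hX' : X' ∈ U f := mul_mem (el_mem_U i j h1 _ hfij) hX
    have hsupp : offSupp X' = (offSupp X).erase (i, j) := by
      ext ⟨a, b⟩
      rw [Finset.mem_erase, mem_offSupp, mem_offSupp]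
      by_cases hab : (a, b) = (i, j)
      · rw [Prod.mk.injEq] at hab
        obtain ⟨rfl, rfl⟩ := hab
        exact ⟨fun h => absurd hX'ij h.2, fun h => absurd rfl h.1⟩
      · change a ≠ b ∧ X'.val a b ≠ 0 ↔ _
        rw [hX'a a b hab]
        exact ⟨fun h => ⟨hab, h⟩, fun h => h.2⟩
    obtain ⟨l, hl1, hl2, hl3⟩ := ih X' hX' (by
      rw [hsupp, Finset.card_erase_of_mem hij, hk]; rfl)
    refine ⟨el i j h1 (X.val i j) :: l, by rw [List.length_cons, hl1], ?_, ?_⟩
    · intro g hg
      rcases List.mem_cons.1 hg with rfl | hg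
      · exact ⟨i, j, h1, _, hfij, rfl⟩
      · exact hl2 g hg
    · rw [List.prod_cons, hl3]
      change el i j h1 (X.val i j) * (el i j h1 (-X.val i j) * X) = X
      rw [← mul_assoc, ← el_inv, mul_inv_cancel, one_mul]

/-- (c) elements of `U f` are products of at most `|n|²` elementary matrices of `U f` -/
theorem U_le_prod (f : n → ℤ) (X : (Matrix n n Λ)ˣ) (hX : X ∈ U f) :
    ∃ l : List ((Matrix n n Λ)ˣ), l.length ≤ Fintype.card n * Fintype.card n ∧
      (∀ g ∈ l, ∃ (a b : n) (h : a ≠ b) (x : Λ), f a < f b ∧ g = el a b h x) ∧ l.prod = X := by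
  classical
  obtain ⟨l, h1, h2, h3⟩ := U_factor f _ X hX rfl
  refine ⟨l, ?_, h2, h3⟩
  rw [h1]
  refine (Finset.card_le_univ _).trans ?_
  rw [Fintype.card_prod]

theorem U_le_E (f : n → ℤ) : (U f : Subgroup (Matrix n n Λ)ˣ) ≤ E n Λ := by
  intro X hX
  obtain ⟨l, -, h2, rfl⟩ := U_le_prod f X hX
  refine Subgroup.list_prod_mem _ fun g hg => ?_
  obtain ⟨a, b, h, x, -, rfl⟩ := h2 g hg
  exact el_mem a b h x

/-- (a) the unipotent radicals have reduced norm one -/
theorem U_le_SL1 (N : ℕ) (f : n → ℤ) : (U f : Subgroup (Matrix n n Λ)ˣ) ≤ SL1 N n Λ :=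
  (U_le_E f).trans (E_le_SL1 N)

open Pointwise in
theorem mem_pow_four {G : Type*} [Group G] (S : Set G) {a b c d : G} (ha : a ∈ S) (hb : b ∈ S)
    (hc : c ∈ S) (hd : d ∈ S) : a * b * c * d ∈ S ^ 4 := by
  rw [pow_succ, pow_succ, pow_succ, pow_one]
  exact Set.mul_mem_mul (Set.mul_mem_mul (Set.mul_mem_mul ha hb) hc) hd

/-- the commutator formula -/
theorem el_comm (i j k : n) (hij : i ≠ j) (hik : i ≠ k) (hkj : k ≠ j) (x : Λ) :
    el i j hij x = el i k hik x * el k j hkj 1 * el i k hik (-x) * el k j hkj (-1) := by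
  ext1
  simp only [Units.val_mul, el_val]
  have e1 : Matrix.single i k x * Matrix.single k j (1 : Λ) = Matrix.single i j x := by
    rw [Matrix.single_mul_single_same, mul_one]
  have e2 : Matrix.single k j (1 : Λ) * Matrix.single i k (-x) = 0 :=
    Matrix.single_mul_single_of_ne _ _ _ _ hij.symm _
  have e3 : Matrix.single i k x * Matrix.single i k (-x) = 0 :=
    Matrix.single_mul_single_of_ne _ _ _ _ hik.symm _
  have e4 : Matrix.single k j (1 : Λ) * Matrix.single k j (-1 : Λ) = 0 :=
    Matrix.single_mul_single_of_ne _ _ _ _ hkj.symm _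
  have e5 : Matrix.single i j x * Matrix.single i k (-x) = 0 :=
    Matrix.single_mul_single_of_ne _ _ _ _ hij.symm _
  have e6 : Matrix.single i j x * Matrix.single k j (-1 : Λ) = 0 :=
    Matrix.single_mul_single_of_ne _ _ _ _ hkj.symm _
  have e7 : Matrix.single i k (-x) * Matrix.single k j (-1 : Λ) = Matrix.single i j x := by
    rw [Matrix.single_mul_single_same, mul_neg, mul_one, neg_neg]
  have e8 : Matrix.single i k x * Matrix.single k j (-1 : Λ) = -Matrix.single i j x := by
    rw [Matrix.single_mul_single_same, mul_neg, mul_one, Matrix.single_neg]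
  have s1 : (1 + Matrix.single i k x) * (1 + Matrix.single k j (1 : Λ)) =
      1 + Matrix.single i k x + Matrix.single k j 1 + Matrix.single i j x := by
    rw [add_mul, mul_add, mul_add, e1]; simp only [one_mul, mul_one]; abel
  have s2 : (1 + Matrix.single i k x + Matrix.single k j 1 + Matrix.single i j x) *
      (1 + Matrix.single i k (-x)) = 1 + Matrix.single k j (1 : Λ) + Matrix.single i j x := by
    rw [add_mul, add_mul, add_mul, mul_add, mul_add, mul_add, mul_add, e2, e3, e5]
    simp only [one_mul, mul_one, ← Matrix.single_neg]; abel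
  have s3 : (1 + Matrix.single k j (1 : Λ) + Matrix.single i j x) *
      (1 + Matrix.single k j (-1 : Λ)) = 1 + Matrix.single i j x := by
    rw [add_mul, add_mul, mul_add, mul_add, mul_add, e4, e6]
    simp only [one_mul, mul_one, ← Matrix.single_neg]; abel
  rw [s1, s2, s3]

open Pointwise in
/-- (b) every elementary matrix is a product of four elements of `U_P U_P^-` -/
theorem el_mem_four (f : n → ℤ) (hf : ∃ a b, f a ≠ f b) (i j : n) (h : i ≠ j) (x : Λ) :
    el i j h x ∈ (((U f : Subgroup (Matrix n n Λ)ˣ) : Set (Matrix n n Λ)ˣ) *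
      ((U (-f) : Subgroup (Matrix n n Λ)ˣ) : Set (Matrix n n Λ)ˣ)) ^ 4 := by
  set S : Set (Matrix n n Λ)ˣ := ((U f : Subgroup (Matrix n n Λ)ˣ) : Set (Matrix n n Λ)ˣ) *
      ((U (-f) : Subgroup (Matrix n n Λ)ˣ) : Set (Matrix n n Λ)ˣ) with hS
  have hmem : ∀ u v, u ∈ (U f : Subgroup (Matrix n n Λ)ˣ) →
      v ∈ (U (-f) : Subgroup (Matrix n n Λ)ˣ) → u * v ∈ S := fun u v hu hv =>
    Set.mul_mem_mul hu hv
  have h1 : (1 : (Matrix n n Λ)ˣ) ∈ S := by
    have := hmem 1 1 (one_mem _) (one_mem _)
    rwa [one_mul] at this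
  have hu : ∀ u, u ∈ (U f : Subgroup (Matrix n n Λ)ˣ) → u ∈ S := fun u hu => by
    have := hmem u 1 hu (one_mem _)
    rwa [mul_one] at this
  have hv : ∀ v, v ∈ (U (-f) : Subgroup (Matrix n n Λ)ˣ) → v ∈ S := fun v hv => by
    have := hmem 1 v (one_mem _) hv
    rwa [one_mul] at this
  have hneg : ∀ a b, f b < f a → (-f) a < (-f) b := fun a b hab => neg_lt_neg hab
  rcases lt_trichotomy (f i) (f j) with hlt | heq | hgt
  · have := mem_pow_four S (hu _ (el_mem_U i j h x hlt)) h1 h1 h1
    rwa [mul_one, mul_one, mul_one] at this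
  · obtain ⟨k, hk⟩ : ∃ k, f k ≠ f i := by
      obtain ⟨a, b, hab⟩ := hf
      by_cases ha : f a = f i
      · exact ⟨b, fun hb => hab (ha.trans hb.symm)⟩
      · exact ⟨a, ha⟩
    have hik : i ≠ k := fun e => hk (by rw [e])
    have hkj : k ≠ j := fun e => hk (by rw [e, heq])
    rw [el_comm i j k h hik hkj x]
    rcases lt_or_gt_of_ne hk with hlt | hgt
    · -- `f k < f i`
      have hlt' : f k < f j := heq ▸ hlt
      have := mem_pow_four S (hv _ (el_mem_U i k hik x (hneg i k hlt)))
        (hmem _ _ (el_mem_U k j hkj 1 hlt') (el_mem_U i k hik (-x) (hneg i k hlt)))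
        (hu _ (el_mem_U k j hkj (-1) hlt')) h1
      rw [mul_one, ← mul_assoc] at this
      exact this
    · have hgt' : f j < f k := heq ▸ hgt
      have := mem_pow_four S (hmem _ _ (el_mem_U i k hik x hgt)
        (el_mem_U k j hkj 1 (hneg k j hgt')))
        (hmem _ _ (el_mem_U i k hik (-x) hgt) (el_mem_U k j hkj (-1) (hneg k j hgt'))) h1 h1
      rw [mul_one, mul_one, ← mul_assoc] at this
      exact this
  · have := mem_pow_four S (hv _ (el_mem_U i j h x (hneg i j hgt))) h1 h1 h1
    rwa [mul_one, mul_one, mul_one] at this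

end Par

end BW
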