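import Pool.Agent.BW.Family

/-!
# Bounded width: the unipotent radicals of the standard parabolic subgroups
-/

namespace BW

open Matrix

section Unip

variable {n Λ : Type*} [DecidableEq n] [Fintype n] [Ring Λ]

/-- an invertible matrix which is unitriangular with respect to `f` has an inverse of this form -/
theorem unip_inv (f : n → ℤ) (X : (Matrix n n Λ)ˣ)
    (hX : ∀ i j, ¬ f i < f j → X.val i j = (1 : Matrix n n Λ) i j) :
    ∀ i j, ¬ f i < f j → X⁻¹.val i j = (1 : Matrix n n Λ) i j := by
  classical
  have key : ∀ (m : ℕ) (i j : n), ((Finset.univ.filter fun k => f i < f k).card = m) →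
      ¬ f i < f j → X⁻¹.val i j = (1 : Matrix n n Λ) i j := by
    intro m
    induction m using Nat.strong_induction_on with
    | _ m ih =>
      intro i j hm hij
      have h1 : (X.val * X⁻¹.val) i j = (1 : Matrix n n Λ) i j := by rw [X.mul_inv]
      rw [Matrix.mul_apply, Finset.sum_eq_single i] at h1
      · rw [hX i i (lt_irrefl _), Matrix.one_apply_eq, one_mul] at h1
        exact h1
      · intro k _ hk
        by_cases hik : f i < f k
        · have hkj : ¬ f k < f j := fun h => hij (hik.trans h)
          have h2 : (Finset.univ.filter fun l => f k < f l).card < m := by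
            rw [← hm]
            refine Finset.card_lt_card ⟨?_, fun h => ?_⟩
            · intro l hl
              rw [Finset.mem_filter] at hl ⊢
              exact ⟨hl.1, hik.trans hl.2⟩
            · have := h (Finset.mem_filter.mpr ⟨Finset.mem_univ k, hik⟩)
              rw [Finset.mem_filter] at this
              exact lt_irrefl _ this.2
          rw [ih _ h2 k j rfl hkj, Matrix.one_apply_ne, mul_zero]
          rintro rfl
          exact hij hik
        · rw [hX i k hik, Matrix.one_apply_ne (Ne.symm hk), zero_mul]
      · intro h
        exact absurd (Finset.mem_univ _) h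
  intro i j hij
  exact key _ i j rfl hij

/-- The unipotent radical of the standard parabolic subgroup of `GL_n(Λ)` attached to
`f : n → ℤ`: the matrices `X` with `X i j = δ i j` unless `f i < f j`. The blocks of the parabolic
subgroup are the fibres of `f`, `U (-f)` is the unipotent radical of the opposite parabolic
subgroup, and for `n = Fin m`, `f i = i`, it is the group of upper unitriangular matrices. -/
def U (f : n → ℤ) : Subgroup (Matrix n n Λ)ˣ where
  carrier := {X | ∀ i j, ¬ f i < f j → X.val i j = (1 : Matrix n n Λ) i j}
  one_mem' := fun i j _ => by rw [Units.val_one]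
  mul_mem' := fun {X Y} hX hY i j hij => by
    rw [Units.val_mul, Matrix.mul_apply, Finset.sum_eq_single i]
    · rw [hX i i (lt_irrefl _), Matrix.one_apply_eq, one_mul, hY i j hij]
    · intro k _ hk
      by_cases hik : f i < f k
      · rw [hY k j (fun h => hij (hik.trans h)), Matrix.one_apply_ne, mul_zero]
        rintro rfl
        exact hij hik
      · rw [hX i k hik, Matrix.one_apply_ne (Ne.symm hk), zero_mul]
    · intro h
      exact absurd (Finset.mem_univ _) h
  inv_mem' := fun {X} hX => unip_inv f X hX

/-- the conjugate `g U(f) g⁻¹` of the unipotent radical `U f` -/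
def Uc (g : (Matrix n n Λ)ˣ) (f : n → ℤ) : Subgroup (Matrix n n Λ)ˣ :=
  (U f).map (MulAut.conj g).toMonoidHom

theorem mem_U {f : n → ℤ} {X : (Matrix n n Λ)ˣ} :
    X ∈ (U f : Subgroup (Matrix n n Λ)ˣ) ↔
      ∀ i j, ¬ f i < f j → X.val i j = (1 : Matrix n n Λ) i j := Iff.rfl

theorem el_mem_U {f : n → ℤ} (i j : n) (h : i ≠ j) (x : Λ) (hf : f i < f j) :
    el i j h x ∈ (U f : Subgroup (Matrix n n Λ)ˣ) := by
  intro k l hkl
  change ((1 : Matrix n n Λ) + Matrix.single i j x) k l = _
  rw [Matrix.add_apply, Matrix.single_apply, if_neg, add_zero]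
  rintro ⟨rfl, rfl⟩
  exact hkl hf

end Unip

end BW
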