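import Pool.Agent.BW.Stable
import Pool.Agent.BW.Unip

/-!
# Bounded width: triangular factorisation
-/

set_option autoImplicit false

open Pool.Agent.Helper24.BWR (SR2' Std)

namespace BW

open Matrix

/-- The usual stable range condition, from `SR2'`. -/
theorem sr2_of_sr2' {P : Type*} [Ring P] (h : SR2' P) {a b C γ u v w : P}
    (h1 : u * a + v * b + C + w * γ = 1) : ∃ t₀ t₁ z₀ z₁ z₂ : P,
      z₀ * (a + t₀ * γ) + z₁ * (b + t₁ * γ) + z₂ * C = 1 := by
  obtain ⟨s, t, x, y, hxy⟩ := h a b (C + w * γ) u v (by rw [← h1]; abel)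
  refine ⟨s * w - s * v * (t * (1 - u * s) * w), t * (1 - u * s) * w, x + y * t * u,
    (x + y * t * u) * s * v + y, (x + y * t * u) * s + y * t * (1 - u * s), ?_⟩
  refine Eq.trans ?_ hxy
  noncomm_ring

section col

variable {n P : Type*} [DecidableEq n] [Fintype n] [Ring P]

/-- A matrix with one non-zero column. -/
def ncol (q : n) (t : n → P) : Matrix n n P := fun i j => if j = q then t i else 0

/-- A matrix with one non-zero row. -/
def nrow (q : n) (w : n → P) : Matrix n n P := fun i j => if i = q then w j else 0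

theorem mul_ncol (X : Matrix n n P) (q : n) (t : n → P) :
    X * ncol q t = ncol q (X *ᵥ t) := by
  ext i j
  rw [Matrix.mul_apply]
  unfold ncol
  by_cases h : j = q
  · simp only [h, if_true]
    rfl
  · simp [h]

theorem nrow_mul (X : Matrix n n P) (q : n) (w : n → P) :
    nrow q w * X = nrow q (w ᵥ* X) := by
  ext i j
  rw [Matrix.mul_apply]
  unfold nrow
  by_cases h : i = q
  · simp only [h, if_true]
    rfl
  · simp [h]

theorem ncol_mul (X : Matrix n n P) (q : n) (t : n → P) (i j : n) :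
    (ncol q t * X) i j = t i * X q j := by
  rw [Matrix.mul_apply, Finset.sum_eq_single q]
  · unfold ncol
    rw [if_pos rfl]
  · intro k _ hk
    unfold ncol
    rw [if_neg hk, zero_mul]
  · intro h
    exact absurd (Finset.mem_univ _) h

theorem mul_nrow (X : Matrix n n P) (q : n) (w : n → P) (i j : n) :
    (X * nrow q w) i j = X i q * w j := by
  rw [Matrix.mul_apply, Finset.sum_eq_single q]
  · unfold nrow
    rw [if_pos rfl]
  · intro k _ hk
    unfold nrow
    rw [if_neg hk, mul_zero]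
  · intro h
    exact absurd (Finset.mem_univ _) h

/-- The unipotent matrices of one column. -/
def cu (q : n) (t : n → P) (h : t q = 0) : (Matrix n n P)ˣ where
  val := 1 + ncol q t
  inv := 1 - ncol q t
  val_inv := by
    have h1 : ncol q t * ncol q t = 0 := by
      ext i j
      rw [ncol_mul]
      unfold ncol
      rw [h, ite_self, mul_zero]
      rfl
    rw [mul_sub, add_mul, add_mul, h1]
    simp
  inv_val := by
    have h1 : ncol q t * ncol q t = 0 := by
      ext i j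
      rw [ncol_mul]
      unfold ncol
      rw [h, ite_self, mul_zero]
      rfl
    rw [mul_add, sub_mul, sub_mul, h1]
    simp

/-- The unipotent matrices of one row. -/
def ru (q : n) (w : n → P) (h : w q = 0) : (Matrix n n P)ˣ where
  val := 1 + nrow q w
  inv := 1 - nrow q w
  val_inv := by
    have h1 : nrow q w * nrow q w = 0 := by
      ext i j
      rw [mul_nrow]
      unfold nrow
      rw [h, ite_self, zero_mul]
      rfl
    rw [mul_sub, add_mul, add_mul, h1]
    simp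
  inv_val := by
    have h1 : nrow q w * nrow q w = 0 := by
      ext i j
      rw [mul_nrow]
      unfold nrow
      rw [h, ite_self, zero_mul]
      rfl
    rw [mul_add, sub_mul, sub_mul, h1]
    simp

theorem cu_mulVec (q : n) (t : n → P) (h : t q = 0) (c : n → P) :
    (cu q t h).val *ᵥ c = fun i => c i + t i * c q := by
  change (1 + ncol q t) *ᵥ c = _
  rw [Matrix.add_mulVec, Matrix.one_mulVec]
  funext i
  rw [Pi.add_apply]
  congr 1
  change ∑ l, ncol q t i l * c l = _
  rw [Finset.sum_eq_single q]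
  · unfold ncol
    rw [if_pos rfl]
  · intro k _ hk
    unfold ncol
    rw [if_neg hk, zero_mul]
  · intro h
    exact absurd (Finset.mem_univ _) h

theorem ru_mulVec (q : n) (w : n → P) (h : w q = 0) (c : n → P) :
    (ru q w h).val *ᵥ c = fun i => c i + if i = q then ∑ l, w l * c l else 0 := by
  change (1 + nrow q w) *ᵥ c = _
  rw [Matrix.add_mulVec, Matrix.one_mulVec]
  funext i
  rw [Pi.add_apply]
  congr 1
  change ∑ l, nrow q w i l * c l = _
  unfold nrow
  by_cases hi : i = q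
  · simp [hi]
  · simp [hi]

/-- The subgroups of the unipotent matrices of one column. -/
def CU (q : n) (J : Finset n) (X : (Matrix n n P)ˣ) : Prop :=
  ∃ (t : n → P) (h : t q = 0), (∀ k, k ∉ J → t k = 0) ∧ X = cu q t h

/-- The subgroups of the unipotent matrices of one row. -/
def RU (q : n) (J : Finset n) (X : (Matrix n n P)ˣ) : Prop :=
  ∃ (w : n → P) (h : w q = 0), (∀ k, k ∉ J → w k = 0) ∧ X = ru q w h

theorem cu_inv (q : n) (t : n → P) (h : t q = 0) :
    (cu q t h)⁻¹ = cu q (-t) (by rw [Pi.neg_apply, h, neg_zero]) := by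
  apply Units.ext
  change 1 - ncol q t = 1 + ncol q (-t)
  rw [sub_eq_add_neg]
  congr 1
  ext i j
  unfold ncol
  rw [Matrix.neg_apply]
  split_ifs <;> simp

theorem ru_inv (q : n) (w : n → P) (h : w q = 0) :
    (ru q w h)⁻¹ = ru q (-w) (by rw [Pi.neg_apply, h, neg_zero]) := by
  apply Units.ext
  change 1 - nrow q w = 1 + nrow q (-w)
  rw [sub_eq_add_neg]
  congr 1
  ext i j
  unfold nrow
  rw [Matrix.neg_apply]
  split_ifs <;> simp

theorem CU.inv {q : n} {J : Finset n} {X : (Matrix n n P)ˣ} (h : CU q J X) : CU q J X⁻¹ := by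
  obtain ⟨t, h, hJ, rfl⟩ := h
  exact ⟨-t, by rw [Pi.neg_apply, h, neg_zero], fun k hk => by rw [Pi.neg_apply, hJ k hk, neg_zero],
    cu_inv _ _ _⟩

theorem RU.inv {q : n} {J : Finset n} {X : (Matrix n n P)ˣ} (h : RU q J X) : RU q J X⁻¹ := by
  obtain ⟨t, h, hJ, rfl⟩ := h
  exact ⟨-t, by rw [Pi.neg_apply, h, neg_zero], fun k hk => by rw [Pi.neg_apply, hJ k hk, neg_zero],
    ru_inv _ _ _⟩

/-- The matrices at the indices in `J` normalise the column group. -/
theorem CU.conj {q : n} {J : Finset n} (hq : q ∉ J) {X g : (Matrix n n P)ˣ} (hg : Std J g.val)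
    (h : CU q J X) : CU q J (g⁻¹ * X * g) := by
  obtain ⟨t, ht, hJ, rfl⟩ := h
  have hginv := hg.inv
  have h0 : ∀ k, k ∉ J → ((g⁻¹).val *ᵥ t) k = 0 := by
    intro k hk
    change ∑ l, (g⁻¹).val k l * t l = 0
    refine Finset.sum_eq_zero fun l _ => ?_
    rw [hginv k l (Or.inl hk), Matrix.one_apply]
    by_cases hkl : k = l
    · rw [← hkl, hJ k hk, mul_zero]
    · rw [if_neg hkl, zero_mul]
  refine ⟨(g⁻¹).val *ᵥ t, h0 q hq, h0, ?_⟩
  apply Units.ext
  change (g⁻¹).val * (1 + ncol q t) * g.val = 1 + ncol q ((g⁻¹).val *ᵥ t)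
  rw [mul_add, mul_one, add_mul, Units.inv_mul, mul_ncol]
  congr 1
  ext i j
  rw [ncol_mul, hg q j (Or.inl hq), Matrix.one_apply]
  unfold ncol
  by_cases hj : j = q
  · rw [if_pos hj, if_pos hj.symm, mul_one]
  · rw [if_neg hj, if_neg (Ne.symm hj), mul_zero]

/-- The matrices at the indices in `J` normalise the row group. -/
theorem RU.conj {q : n} {J : Finset n} (hq : q ∉ J) {X g : (Matrix n n P)ˣ} (hg : Std J g.val)
    (h : RU q J X) : RU q J (g⁻¹ * X * g) := by
  obtain ⟨t, ht, hJ, rfl⟩ := h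
  have hginv := hg.inv
  have h0 : ∀ k, k ∉ J → (t ᵥ* g.val) k = 0 := by
    intro k hk
    change ∑ l, t l * g.val l k = 0
    refine Finset.sum_eq_zero fun l _ => ?_
    rw [hg l k (Or.inr hk), Matrix.one_apply]
    by_cases hkl : l = k
    · rw [hkl, hJ k hk, zero_mul]
    · rw [if_neg hkl, mul_zero]
  refine ⟨t ᵥ* g.val, h0 q hq, h0, ?_⟩
  apply Units.ext
  change (g⁻¹).val * (1 + nrow q t) * g.val = 1 + nrow q (t ᵥ* g.val)
  rw [mul_add, mul_one, add_mul, Units.inv_mul, mul_assoc, nrow_mul]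
  congr 1
  ext i j
  rw [mul_nrow, hginv i q (Or.inr hq), Matrix.one_apply]
  unfold nrow
  by_cases hi : i = q
  · rw [if_pos hi, if_pos hi, one_mul]
  · rw [if_neg hi, if_neg hi, zero_mul]

theorem CU.mem_U {q : n} {J : Finset n} {X : (Matrix n n P)ˣ} {f : n → ℤ}
    (hf : ∀ k ∈ J, f k < f q) (h : CU q J X) : X ∈ (U f : Subgroup (Matrix n n P)ˣ) := by
  obtain ⟨t, ht, hJ, rfl⟩ := h
  intro i j hij
  change (1 + ncol q t) i j = _
  rw [Matrix.add_apply]
  unfold ncol
  by_cases hj : j = q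
  · rw [if_pos hj, hJ i (fun hi => hij (by rw [hj]; exact hf i hi)), add_zero]
  · rw [if_neg hj, add_zero]

theorem RU.mem_U {q : n} {J : Finset n} {X : (Matrix n n P)ˣ} {f : n → ℤ}
    (hf : ∀ k ∈ J, f q < f k) (h : RU q J X) : X ∈ (U f : Subgroup (Matrix n n P)ˣ) := by
  obtain ⟨t, ht, hJ, rfl⟩ := h
  intro i j hij
  change (1 + nrow q t) i j = _
  rw [Matrix.add_apply]
  unfold nrow
  by_cases hi : i = q
  · rw [if_pos hi, hJ j (fun hj => hij (by rw [hi]; exact hf j hj)), add_zero]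
  · rw [if_neg hi, add_zero]

theorem CU.std {q : n} {J J' : Finset n} {X : (Matrix n n P)ˣ} (hJJ : J ⊆ J') (hq : q ∈ J')
    (h : CU q J X) : Std J' X.val := by
  obtain ⟨t, ht, hJ, rfl⟩ := h
  intro i j hij
  change (1 + ncol q t) i j = _
  rw [Matrix.add_apply]
  unfold ncol
  rcases hij with h | h
  · rw [hJ i (fun hi => h (hJJ hi)), ite_self, add_zero]
  · rw [if_neg (fun hj => h (by rw [hj]; exact hq)), add_zero]

theorem RU.std {q : n} {J J' : Finset n} {X : (Matrix n n P)ˣ} (hJJ : J ⊆ J') (hq : q ∈ J')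
    (h : RU q J X) : Std J' X.val := by
  obtain ⟨t, ht, hJ, rfl⟩ := h
  intro i j hij
  change (1 + nrow q t) i j = _
  rw [Matrix.add_apply]
  unfold nrow
  rcases hij with h | h
  · rw [if_neg (fun hj => h (by rw [hj]; exact hq)), add_zero]
  · rw [hJ j (fun hi => h (hJJ hi)), ite_self, add_zero]

/-- One step of the triangular factorisation. -/
theorem tri_step (hS : SR2' P) {J : Finset n} {i₀ i₁ q : n} (h0 : i₀ ∈ J) (h1 : i₁ ∈ J)
    (hq : q ∈ J) (h01 : i₀ ≠ i₁) (h0q : i₀ ≠ q) (h1q : i₁ ≠ q) {X : (Matrix n n P)ˣ}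
    (hX : Std J X.val) : ∃ p₁ r₁ p₂ g r₂ : (Matrix n n P)ˣ, CU q (J.erase q) p₁ ∧
      RU q (J.erase q) r₁ ∧ CU q (J.erase q) p₂ ∧ Std (J.erase q) g.val ∧
      RU q (J.erase q) r₂ ∧ X = p₁ * r₁ * p₂ * g * r₂ := by
  classical
  set J' := J.erase q with hJ'
  have hqJ' : q ∉ J' := fun h => (Finset.mem_erase.mp h).1 rfl
  have h0' : i₀ ∈ J' := Finset.mem_erase.mpr ⟨h0q, h0⟩
  have h1' : i₁ ∈ J'.erase i₀ := Finset.mem_erase.mpr ⟨h01.symm, Finset.mem_erase.mpr ⟨h1q, h1⟩⟩
  set T := (J'.erase i₀).erase i₁ with hT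
  have hi0T : i₀ ∉ T := fun h => (Finset.mem_erase.mp (Finset.mem_erase.mp h).2).1 rfl
  have hi1T : i₁ ∉ T := fun h => (Finset.mem_erase.mp h).1 rfl
  have hqT : q ∉ T := fun h => hqJ' (Finset.mem_erase.mp (Finset.mem_erase.mp h).2).2
  set c : n → P := fun k => X.val k q with hc
  set u : n → P := fun k => (X⁻¹).val q k with hu
  have hcJ : ∀ k, k ∉ J → c k = 0 := fun k hk => by
    rw [hc]
    change X.val k q = 0
    rw [hX k q (Or.inl hk), Matrix.one_apply_ne (fun h => hk (by rw [h]; exact hq))]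
  have hsumJ : ∀ F : n → P, ∑ k ∈ J', F k = F i₀ + (F i₁ + ∑ k ∈ T, F k) := fun F => by
    rw [← Finset.add_sum_erase J' _ h0', ← Finset.add_sum_erase (J'.erase i₀) _ h1']
  have huc : ∑ k, u k * c k = 1 := by
    have h3 : ((X⁻¹).val * X.val) q q = 1 := by rw [Units.inv_mul, Matrix.one_apply_eq]
    rw [Matrix.mul_apply] at h3
    exact h3
  have huc' : u i₀ * c i₀ + u i₁ * c i₁ + ∑ k ∈ T, u k * c k + u q * c q = 1 := by
    rw [← huc, ← Finset.sum_subset (Finset.subset_univ J) (fun k _ hk => by rw [hcJ k hk, mul_zero]),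
      ← Finset.add_sum_erase J _ hq, hsumJ]
    abel
  obtain ⟨t₀, t₁, z₀, z₁, z₂, hz⟩ := sr2_of_sr2' hS huc'
  -- the first column operation
  set t : n → P := fun k => if k = i₀ then t₀ else if k = i₁ then t₁ else 0 with ht
  have ht0 : t i₀ = t₀ := if_pos rfl
  have ht1 : t i₁ = t₁ := by
    rw [ht]
    change (if i₁ = i₀ then t₀ else if i₁ = i₁ then t₁ else 0) = t₁
    rw [if_neg h01.symm, if_pos rfl]
  have htn : ∀ k, k ≠ i₀ → k ≠ i₁ → t k = 0 := fun k h h' => by
    rw [ht]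
    change (if k = i₀ then t₀ else if k = i₁ then t₁ else 0) = 0
    rw [if_neg h, if_neg h']
  have htq : t q = 0 := htn q h0q.symm h1q.symm
  have htJ : ∀ k, k ∉ J' → t k = 0 := fun k hk => htn k (fun h => hk (by rw [h]; exact h0'))
    (fun h => hk (by rw [h]; exact (Finset.mem_erase.mp h1').2))
  set c1 : n → P := fun k => c k + t k * c q with hc1
  have hc1q : c1 q = c q := by
    rw [hc1]
    change c q + t q * c q = c q
    rw [htq, zero_mul, add_zero]
  -- the row operation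
  set z : n → P := fun k => if k = i₀ then z₀ else if k = i₁ then z₁ else
    if k ∈ T then z₂ * u k else 0 with hzdef
  have hzn : ∀ k, k ∉ J' → z k = 0 := fun k hk => by
    rw [hzdef]
    change (if k = i₀ then z₀ else if k = i₁ then z₁ else if k ∈ T then z₂ * u k else 0) = 0
    rw [if_neg (fun h => hk (by rw [h]; exact h0')),
      if_neg (fun h => hk (by rw [h]; exact (Finset.mem_erase.mp h1').2)),
      if_neg (fun h => hk (Finset.mem_erase.mp (Finset.mem_erase.mp h).2).2)]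
  have hzc : ∑ k, z k * c1 k = 1 := by
    rw [← Finset.sum_subset (Finset.subset_univ J') (fun k _ hk => by rw [hzn k hk, zero_mul]),
      hsumJ]
    have e0 : z i₀ * c1 i₀ = z₀ * (c i₀ + t₀ * c q) := by
      have : z i₀ = z₀ := if_pos rfl
      rw [this]
      change z₀ * (c i₀ + t i₀ * c q) = _
      rw [ht0]
    have e1 : z i₁ * c1 i₁ = z₁ * (c i₁ + t₁ * c q) := by
      have : z i₁ = z₁ := by
        rw [hzdef]
        change (if i₁ = i₀ then z₀ else if i₁ = i₁ then z₁ else if i₁ ∈ T then z₂ * u i₁ else 0) =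
          z₁
        rw [if_neg h01.symm, if_pos rfl]
      rw [this]
      change z₁ * (c i₁ + t i₁ * c q) = _
      rw [ht1]
    have e2 : ∑ k ∈ T, z k * c1 k = z₂ * ∑ k ∈ T, u k * c k := by
      rw [Finset.mul_sum]
      refine Finset.sum_congr rfl fun k hk => ?_
      have h4 : k ≠ i₀ := fun h => hi0T (by rw [← h]; exact hk)
      have h5 : k ≠ i₁ := fun h => hi1T (by rw [← h]; exact hk)
      have : z k = z₂ * u k := by
        rw [hzdef]
        change (if k = i₀ then z₀ else if k = i₁ then z₁ else if k ∈ T then z₂ * u k else 0) = _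
        rw [if_neg h4, if_neg h5, if_pos hk]
      rw [this]
      change z₂ * u k * (c k + t k * c q) = _
      rw [htn k h4 h5, zero_mul, add_zero, mul_assoc]
    rw [e0, e1, e2, ← add_assoc, hz]
  set w : n → P := fun k => (1 - c q) * z k with hw
  have hwn : ∀ k, k ∉ J' → w k = 0 := fun k hk => by
    rw [hw]
    change (1 - c q) * z k = 0
    rw [hzn k hk, mul_zero]
  have hwc : ∑ k, w k * c1 k = 1 - c q := by
    have : ∀ k, w k * c1 k = (1 - c q) * (z k * c1 k) := fun k => mul_assoc _ _ _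
    simp only [this]
    rw [← Finset.mul_sum, hzc, mul_one]
  set c2 : n → P := fun k => c1 k + if k = q then ∑ l, w l * c1 l else 0 with hc2
  have hc2q : c2 q = 1 := by
    rw [hc2]
    change c1 q + (if q = q then ∑ l, w l * c1 l else 0) = 1
    rw [if_pos rfl, hwc, hc1q, add_sub_cancel]
  have hc2n : ∀ k, k ∉ J → c2 k = 0 := fun k hk => by
    rw [hc2]
    change c k + t k * c q + (if k = q then ∑ l, w l * c1 l else 0) = 0
    rw [hcJ k hk, htJ k (fun h => hk (Finset.mem_erase.mp h).2),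
      if_neg (fun h => hk (by rw [h]; exact hq)), zero_mul, add_zero, add_zero]
  -- the second column operation
  set s : n → P := fun k => if k = q then 0 else - c2 k with hs
  have hsq : s q = 0 := if_pos rfl
  have hsn : ∀ k, k ∉ J' → s k = 0 := fun k hk => by
    by_cases hkq : k = q
    · rw [hkq, hsq]
    · rw [hs]
      change (if k = q then 0 else - c2 k) = 0
      rw [if_neg hkq, hc2n k (fun h => hk (Finset.mem_erase.mpr ⟨hkq, h⟩)), neg_zero]
  set A := cu q t htq with hA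
  set B := ru q w (hwn q hqJ') with hB
  set C := cu q s hsq with hC
  have hAc : CU q J' A := ⟨t, htq, htJ, rfl⟩
  have hBc : RU q J' B := ⟨w, hwn q hqJ', hwn, rfl⟩
  have hCc : CU q J' C := ⟨s, hsq, hsn, rfl⟩
  have hsub : J' ⊆ J := Finset.erase_subset _ _
  have hY : ∀ k, (C * B * A * X).val k q = (1 : Matrix n n P) k q := by
    intro k
    have e1 : (C * B * A * X).val k q = (C.val *ᵥ (B.val *ᵥ (A.val *ᵥ c))) k := by
      rw [Matrix.mulVec_mulVec, Matrix.mulVec_mulVec, Units.val_mul, Units.val_mul, Units.val_mul,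
        Matrix.mul_apply]
      rfl
    have hAv : A.val *ᵥ c = c1 := cu_mulVec q t htq c
    have hBv : B.val *ᵥ c1 = c2 := ru_mulVec q w (hwn q hqJ') c1
    have hCv : C.val *ᵥ c2 = fun i => c2 i + s i * c2 q := cu_mulVec q s hsq c2
    rw [e1, hAv, hBv, hCv]
    change c2 k + s k * c2 q = _
    rw [hc2q, mul_one, Matrix.one_apply]
    by_cases hk : k = q
    · rw [hk, hc2q, hsq, add_zero, if_pos rfl]
    · rw [if_neg hk]
      change c2 k + (if k = q then 0 else - c2 k) = 0
      rw [if_neg hk, add_neg_cancel]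
  set Y := C * B * A * X with hYdef
  have hYstd : Std J Y.val := by
    rw [hYdef, Units.val_mul, Units.val_mul, Units.val_mul]
    exact ((((hCc.std hsub hq).mul (hBc.std hsub hq)).mul (hAc.std hsub hq)).mul hX)
  -- the last row operation
  set v : n → P := fun k => if k = q then 0 else Y.val q k with hv
  have hvq : v q = 0 := if_pos rfl
  have hvn : ∀ k, k ∉ J' → v k = 0 := fun k hk => by
    by_cases hkq : k = q
    · rw [hkq, hvq]
    · rw [hv]
      change (if k = q then 0 else Y.val q k) = 0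
      rw [if_neg hkq, hYstd q k (Or.inr fun h => hk (Finset.mem_erase.mpr ⟨hkq, h⟩)),
        Matrix.one_apply_ne (Ne.symm hkq)]
  refine ⟨A⁻¹, B⁻¹, C⁻¹, Y * (ru q v hvq)⁻¹, ru q v hvq, hAc.inv, hBc.inv, hCc.inv, ?_,
    ⟨v, hvq, hvn, rfl⟩, ?_⟩
  · intro k j hkj
    rw [Units.val_mul]
    change (Y.val * (1 - nrow q v)) k j = _
    rw [mul_sub, mul_one, Matrix.sub_apply, mul_nrow, hY k]
    by_cases hkq : k = q
    · rw [hkq, Matrix.one_apply_eq, one_mul]
      by_cases hjq : j = q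
      · rw [hjq, hvq, sub_zero, hY q]
      · change Y.val q j - (if j = q then 0 else Y.val q j) = _
        rw [if_neg hjq, sub_self, Matrix.one_apply_ne (Ne.symm hjq)]
    · rw [Matrix.one_apply_ne hkq, zero_mul, sub_zero]
      by_cases hjq : j = q
      · rw [hjq, hY k]
      · refine hYstd k j (hkj.imp (fun h h' => h (Finset.mem_erase.mpr ⟨hkq, h'⟩))
          fun h h' => h (Finset.mem_erase.mpr ⟨hjq, h'⟩))
  · rw [hYdef]
    group

end col

/-- The first `k` indices. -/
def fk (n k : ℕ) : Finset (Fin n) := Finset.univ.filter fun i => (i : ℕ) < k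

theorem mem_fk {n k : ℕ} {i : Fin n} : i ∈ fk n k ↔ (i : ℕ) < k := by
  rw [fk, Finset.mem_filter]
  exact ⟨fun h => h.2, fun h => ⟨Finset.mem_univ _, h⟩⟩

/-- The triangular factorisation. -/
theorem tri_aux {P : Type*} [Ring P] (hS : SR2' P) (m k : ℕ) (hk : k ≤ m)
    (X : (Matrix (Fin (2 + m)) (Fin (2 + m)) P)ˣ) (hX : Std (fk (2 + m) (2 + k)) X.val) :
    ∃ u₁ l₁ u₂ g l₂ : (Matrix (Fin (2 + m)) (Fin (2 + m)) P)ˣ,
      (u₁ ∈ (U (fun i : Fin (2 + m) => ((i : ℕ) : ℤ)) : Subgroup _) ∧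
        Std (fk (2 + m) (2 + k)) u₁.val) ∧
      (l₁ ∈ (U (fun i : Fin (2 + m) => -((i : ℕ) : ℤ)) : Subgroup _) ∧
        Std (fk (2 + m) (2 + k)) l₁.val) ∧
      u₂ ∈ (U (fun i : Fin (2 + m) => ((i : ℕ) : ℤ)) : Subgroup _) ∧
      Std {ca m 0, ca m 1} g.val ∧
      l₂ ∈ (U (fun i : Fin (2 + m) => -((i : ℕ) : ℤ)) : Subgroup _) ∧
      X = u₁ * l₁ * u₂ * g * l₂ := by
  induction k generalizing X with
  | zero =>
    refine ⟨1, 1, 1, X, 1, ⟨one_mem _, fun _ _ _ => rfl⟩, ⟨one_mem _, fun _ _ _ => rfl⟩,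
      one_mem _, ?_, one_mem _, by group⟩
    intro i j hij
    have key : ∀ i : Fin (2 + m), i ∈ fk (2 + m) (2 + 0) → i ∈ ({ca m 0, ca m 1} :
        Finset (Fin (2 + m))) := by
      intro i hi
      rw [mem_fk] at hi
      rw [Finset.mem_insert, Finset.mem_singleton]
      have h : (i : ℕ) = 0 ∨ (i : ℕ) = 1 := by omega
      rcases h with h | h
      · exact Or.inl (Fin.ext h)
      · exact Or.inr (Fin.ext h)
    exact hX i j (hij.imp (fun h h' => h (key i h')) fun h h' => h (key j h'))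
  | succ k ih =>
    set q : Fin (2 + m) := ⟨2 + k, by omega⟩ with hq
    have hqmem : q ∈ fk (2 + m) (2 + (k + 1)) := mem_fk.mpr (by
      change 2 + k < 2 + (k + 1)
      omega)
    have herase : (fk (2 + m) (2 + (k + 1))).erase q = fk (2 + m) (2 + k) := by
      ext i
      rw [Finset.mem_erase, mem_fk, mem_fk]
      constructor
      · rintro ⟨h, h'⟩
        have : (i : ℕ) ≠ 2 + k := fun h'' => h (Fin.ext h'')
        omega
      · intro h
        refine ⟨fun h' => ?_, by omega⟩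
        have : (i : ℕ) = 2 + k := by rw [h']
        omega
    have h0 : (ca m 0 : Fin (2 + m)) ∈ fk (2 + m) (2 + (k + 1)) := mem_fk.mpr (by
      change 0 < _
      omega)
    have h1 : (ca m 1 : Fin (2 + m)) ∈ fk (2 + m) (2 + (k + 1)) := mem_fk.mpr (by
      change 1 < _
      omega)
    have h01 : (ca m 0 : Fin (2 + m)) ≠ ca m 1 := fun h => by
      have := (ca m).injective h
      exact absurd this (by decide)
    have h0q : (ca m 0 : Fin (2 + m)) ≠ q := fun h => by
      have : (0 : ℕ) = 2 + k := congrArg Fin.val h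
      omega
    have h1q : (ca m 1 : Fin (2 + m)) ≠ q := fun h => by
      have : (1 : ℕ) = 2 + k := congrArg Fin.val h
      omega
    obtain ⟨p₁, r₁, p₂, h, r₂, c1, c2, c3, c4, c5, rfl⟩ :=
      tri_step hS h0 h1 hqmem h01 h0q h1q hX
    rw [herase] at c1 c2 c3 c4 c5
    obtain ⟨a, b, c, g, d, ⟨ha, ha'⟩, ⟨hb, hb'⟩, hc, hg, hd, rfl⟩ := ih (by omega) h c4
    have hqn : q ∉ fk (2 + m) (2 + k) := fun h => by
      have := mem_fk.mp h
      exact lt_irrefl _ this
    have hfu : ∀ k' ∈ fk (2 + m) (2 + k), ((k' : ℕ) : ℤ) < ((q : ℕ) : ℤ) := fun k' hk' => by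
      have := mem_fk.mp hk'
      exact_mod_cast this
    have hfl : ∀ k' ∈ fk (2 + m) (2 + k), -((q : ℕ) : ℤ) < -((k' : ℕ) : ℤ) := fun k' hk' =>
      neg_lt_neg (hfu k' hk')
    have hsub : fk (2 + m) (2 + k) ⊆ fk (2 + m) (2 + (k + 1)) := by
      rw [← herase]
      exact Finset.erase_subset _ _
    have d1 := c1.conj hqn ha'
    have d2 := (c2.conj hqn ha')
    have d3 := ((c3.conj hqn ha').conj hqn hb')
    have hstd : ∀ Z : Matrix (Fin (2 + m)) (Fin (2 + m)) P, Std (fk (2 + m) (2 + k)) Z →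
        Std (fk (2 + m) (2 + (k + 1))) Z := fun Z hZ i j hij =>
      hZ i j (hij.imp (fun h h' => h (hsub h')) fun h h' => h (hsub h'))
    refine ⟨a * (a⁻¹ * p₁ * a), (a⁻¹ * r₁ * a) * b, (b⁻¹ * (a⁻¹ * p₂ * a) * b) * c, g, d * r₂,
      ⟨mul_mem ha (d1.mem_U (f := fun i : Fin (2 + m) => ((i : ℕ) : ℤ)) hfu), ?_⟩,
      ⟨mul_mem (d2.mem_U (f := fun i : Fin (2 + m) => -((i : ℕ) : ℤ)) hfl) hb, ?_⟩,
      mul_mem (d3.mem_U (f := fun i : Fin (2 + m) => ((i : ℕ) : ℤ)) hfu) hc, hg,
      mul_mem hd (c5.mem_U (f := fun i : Fin (2 + m) => -((i : ℕ) : ℤ)) hfl), by group⟩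
    · rw [Units.val_mul]
      exact (hstd _ ha').mul (d1.std hsub hqmem)
    · rw [Units.val_mul]
      exact (d2.std hsub hqmem).mul (hstd _ hb')

/-- **The triangular factorisation**: the number of triangular factors does not depend on `m`. -/
theorem tri_reduction {P : Type*} [Ring P] (hS : SR2' P) (m : ℕ)
    (X : (Matrix (Fin (2 + m)) (Fin (2 + m)) P)ˣ) :
    ∃ u₁ ∈ (U (fun i : Fin (2 + m) => ((i : ℕ) : ℤ)) : Subgroup (Matrix (Fin (2 + m)) _ P)ˣ),
    ∃ l₁ ∈ (U (fun i : Fin (2 + m) => -((i : ℕ) : ℤ)) : Subgroup (Matrix (Fin (2 + m)) _ P)ˣ),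
    ∃ u₂ ∈ (U (fun i : Fin (2 + m) => ((i : ℕ) : ℤ)) : Subgroup (Matrix (Fin (2 + m)) _ P)ˣ),
    ∃ A : (Matrix (Fin 2) (Fin 2) P)ˣ,
    ∃ l₂ ∈ (U (fun i : Fin (2 + m) => -((i : ℕ) : ℤ)) : Subgroup (Matrix (Fin (2 + m)) _ P)ˣ),
      X = u₁ * l₁ * u₂ * Units.map (km m) A * l₂ := by
  obtain ⟨u₁, l₁, u₂, g, l₂, ⟨h1, -⟩, ⟨h2, -⟩, h3, h4, h5, rfl⟩ := tri_aux hS m m le_rfl X
    (fun i j hij => by
      have : ∀ i : Fin (2 + m), i ∈ fk (2 + m) (2 + m) := fun i => mem_fk.mpr i.2
      rcases hij with h | h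
      · exact absurd (this i) h
      · exact absurd (this j) h)
  obtain ⟨A, rfl⟩ := exists_km h4
  exact ⟨u₁, h1, l₁, h2, u₂, h3, A, l₂, h5, rfl⟩

end BW
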