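import Pool.Agent.BW.Unif2
import Pool.Agent.BW.Par
import Pool.Agent.BW.Tri

/-!
# Bounded width: the main theorems
-/

set_option autoImplicit false

open Pool.Agent.Helper24.BWR (SR2' emb emb_c2 emb_emb emb_el c2)

namespace BW

open Matrix Pointwise

section Sets

variable {G : Type*} [Group G]

theorem list_prod_mem_pow {S : Set G} (h1 : (1 : G) ∈ S) (k : ℕ) :
    ∀ (L : ℕ) (l : List G), l.length ≤ L → (∀ g ∈ l, g ∈ S ^ k) → l.prod ∈ S ^ (k * L) := by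
  intro L
  induction L with
  | zero =>
    intro l hl _
    rw [List.eq_nil_of_length_eq_zero (Nat.le_zero.mp hl), List.prod_nil, mul_zero, pow_zero]
    exact Set.mem_one.mpr rfl
  | succ L ih =>
    intro l hl hg
    cases l with
    | nil =>
      rw [List.prod_nil]
      exact Set.one_mem_pow h1
    | cons a l =>
      rw [List.prod_cons, mul_add, mul_one, add_comm, pow_add]
      refine Set.mul_mem_mul (hg a List.mem_cons_self) (ih l ?_ fun g hg' =>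
        hg g (List.mem_cons_of_mem _ hg'))
      rw [List.length_cons] at hl
      omega

end Sets

section Two

variable {Λ : Type*} [Ring Λ]

/-- the reduced norm of `diag(A, 1, …, 1)` -/
theorem km_mem_SL1 (N m : ℕ) (A : (Matrix (Fin 2) (Fin 2) Λ)ˣ) :
    Units.map (km m) A ∈ SL1 N (Fin (2 + m)) Λ ↔ A ∈ SL1 N (Fin 2) Λ := by
  have key : ∀ (k : Type) [CommRing k] (ρ : Λ →+* Matrix (Fin 2) (Fin 2) k),
      nrdAt ρ (Units.map (km m) A).val = nrdAt ρ A.val := by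
    intro k _ ρ
    change nrdAt ρ (Matrix.submatrix (Matrix.fromBlocks A.val 0 0 1)
      finSumFinEquiv.symm finSumFinEquiv.symm) = _
    rw [nrdAt_submatrix, nrdAt_fromBlocks, map_one, mul_one]
  constructor
  · intro h p hp hpN ρ
    rw [← key]
    exact h p hp hpN ρ
  · intro h p hp hpN ρ
    rw [key]
    exact h p hp hpN ρ

/-- the index function of the upper unitriangular matrices -/
def up (n : ℕ) : Fin n → ℤ := fun i => ((i : ℕ) : ℤ)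

/-- products of an element of `U f` and one of `U (-f)` -/
def UU' {n : Type*} [Fintype n] [DecidableEq n] (Λ : Type*) [Ring Λ] (f : n → ℤ) :
    Set (Matrix n n Λ)ˣ :=
  ((U f : Subgroup (Matrix n n Λ)ˣ) : Set (Matrix n n Λ)ˣ) *
    ((U (-f) : Subgroup (Matrix n n Λ)ˣ) : Set (Matrix n n Λ)ˣ)

theorem one_mem_UU' {n : Type*} [Fintype n] [DecidableEq n] (f : n → ℤ) :
    (1 : (Matrix n n Λ)ˣ) ∈ UU' Λ f := by
  have := Set.mul_mem_mul (one_mem (U f : Subgroup (Matrix n n Λ)ˣ))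
    (one_mem (U (-f) : Subgroup (Matrix n n Λ)ˣ))
  rwa [one_mul] at this

theorem left_mem_UU' {n : Type*} [Fintype n] [DecidableEq n] {f : n → ℤ}
    {g : (Matrix n n Λ)ˣ} (hg : g ∈ (U f : Subgroup (Matrix n n Λ)ˣ)) : g ∈ UU' Λ f := by
  have := Set.mul_mem_mul hg (one_mem (U (-f) : Subgroup (Matrix n n Λ)ˣ))
  rwa [mul_one] at this

theorem right_mem_UU' {n : Type*} [Fintype n] [DecidableEq n] {f : n → ℤ}
    {g : (Matrix n n Λ)ˣ} (hg : g ∈ (U (-f) : Subgroup (Matrix n n Λ)ˣ)) : g ∈ UU' Λ f := by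
  have := Set.mul_mem_mul (one_mem (U f : Subgroup (Matrix n n Λ)ˣ)) hg
  rwa [one_mul] at this

theorem el_mem_UU'_up {n : ℕ} (i j : Fin n) (h : i ≠ j) (x : Λ) :
    el i j h x ∈ UU' Λ (up n) := by
  rcases lt_or_gt_of_ne (fun h' => h (Fin.ext h') : (i : ℕ) ≠ (j : ℕ)) with h' | h'
  · refine left_mem_UU' (el_mem_U i j h x ?_)
    exact Int.ofNat_lt.mpr h'
  · refine right_mem_UU' (el_mem_U i j h x ?_)
    change -((i : ℕ) : ℤ) < -((j : ℕ) : ℤ)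
    exact neg_lt_neg (Int.ofNat_lt.mpr h')

/-- `diag(A, 1, …, 1)` in terms of `diag(A, 1)` -/
theorem km_eq_emb (m : ℕ) (hm : 1 ≤ m) (A : (Matrix (Fin 2) (Fin 2) Λ)ˣ) :
    Units.map (km m) A = Units.map (emb (⟨Fin.castLE (by omega), Fin.castLE_injective _⟩ :
      Fin 3 ↪ Fin (2 + m))) (K A) := by
  apply Units.ext
  change km m A.val = emb _ (k12 A.val)
  rw [km_eq, ← emb_c2, emb_emb]
  congr 1

theorem km_mem_pow {L : ℕ} (m : ℕ) (hm : 1 ≤ m) (A : (Matrix (Fin 2) (Fin 2) Λ)ˣ)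
    (l : List ((Matrix (Fin 3) (Fin 3) Λ)ˣ)) (hl : l.length ≤ L)
    (hl' : ∀ g ∈ l, ∃ (a b : Fin 3) (h : a ≠ b) (x : Λ), g = el a b h x) (hA : l.prod = K A) :
    Units.map (km m) A ∈ UU' Λ (up (2 + m)) ^ L := by
  rw [km_eq_emb m hm, ← hA, map_list_prod]
  have := list_prod_mem_pow (one_mem_UU' (Λ := Λ) (up (2 + m))) 1 L
    (l.map (Units.map (emb (⟨Fin.castLE (by omega), Fin.castLE_injective _⟩ :
      Fin 3 ↪ Fin (2 + m))))) (by rw [List.length_map]; exact hl) ?_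
  · rwa [one_mul] at this
  · intro g hg
    rw [List.mem_map] at hg
    obtain ⟨g', hg', rfl⟩ := hg
    obtain ⟨a, b, h, x, rfl⟩ := hl' g' hg'
    rw [pow_one, emb_el]
    exact el_mem_UU'_up _ _ _ _

end Two

section Final

theorem UU'_pow_le {n : Type*} [Fintype n] [DecidableEq n] {Λ : Type*} [Ring Λ]
    (S : Subgroup (Matrix n n Λ)ˣ) (f : n → ℤ) (h1 : U f ≤ S) (h2 : U (-f) ≤ S) (L : ℕ) :
    UU' Λ f ^ L ⊆ (S : Set (Matrix n n Λ)ˣ) := by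
  induction L with
  | zero =>
    rw [pow_zero]
    intro g hg
    rw [Set.mem_one] at hg
    rw [hg]
    exact one_mem S
  | succ L ih =>
    rw [pow_succ]
    rintro _ ⟨a, ha, b, ⟨u, hu, v, hv, rfl⟩, rfl⟩
    exact mul_mem (ih ha) (mul_mem (h1 hu) (h2 hv))

/-- **the absolute bound** for the unitriangular subgroups -/
theorem unitriangular_width : ∃ L : ℕ, ∀ n : ℕ, 3 ≤ n → ∀ (N : ℕ), N ≠ 0 → ∀ (R Λ : Type)
    [CommRing R] [Ring Λ] [Algebra R Λ] [IsLocalization.Away (N : ℤ) R],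
    IsQuaternionAzumaya N R Λ →
    UU' Λ (up n) ^ L = ((SL1 N (Fin n) Λ : Subgroup _) : Set (Matrix (Fin n) (Fin n) Λ)ˣ) := by
  obtain ⟨L, hL⟩ := exists_bound_two
  refine ⟨2 + L + 1, fun n hn N hN R Λ _ _ _ _ haz => ?_⟩
  obtain ⟨m, rfl⟩ : ∃ m, n = 2 + m := ⟨n - 2, by omega⟩
  obtain ⟨Q⟩ := haz.qalg hN
  refine Set.Subset.antisymm (UU'_pow_le _ _ (U_le_SL1 N _) (U_le_SL1 N _) _) fun X hX => ?_
  obtain ⟨u₁, hu₁, l₁, hl₁, u₂, hu₂, A, l₂, hl₂, rfl⟩ := tri_reduction (Q.sr2' hN) m X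
  have hA : A ∈ SL1 N (Fin 2) Λ := by
    rw [← km_mem_SL1 N m A]
    have h1 := U_le_SL1 N _ hu₁
    have h2 := U_le_SL1 N _ hl₁
    have h3 := U_le_SL1 N _ hu₂
    have h4 := U_le_SL1 N _ hl₂
    have h5 := mul_mem (inv_mem (mul_mem (mul_mem h1 h2) h3)) (mul_mem hX (inv_mem h4))
    have h6 : (u₁ * l₁ * u₂)⁻¹ * (u₁ * l₁ * u₂ * Units.map (km m) A * l₂ * l₂⁻¹) =
        Units.map (km m) A := by group
    rwa [h6] at h5
  obtain ⟨l, h1, h2, h3⟩ := hL N hN R Λ haz A hA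
  have h4 := km_mem_pow m (by omega) A l h1 h2 h3
  rw [pow_add, pow_add, pow_one, pow_two]
  exact Set.mul_mem_mul (Set.mul_mem_mul (Set.mul_mem_mul (Set.mul_mem_mul hu₁ hl₁)
    (left_mem_UU' hu₂)) h4) (right_mem_UU' hl₂)

theorem width_of_width {n : ℕ} {Λ : Type} [Ring Λ] {G : Subgroup (Matrix (Fin n) (Fin n) Λ)ˣ}
    {L : ℕ} (h : UU' Λ (up n) ^ L = (G : Set (Matrix (Fin n) (Fin n) Λ)ˣ)) (f : Fin n → ℤ)
    (hf : ∃ i j, f i ≠ f j) (h1 : U f ≤ G) (h2 : U (-f) ≤ G) :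
    UU' Λ f ^ (8 * n * n * L) = (G : Set (Matrix (Fin n) (Fin n) Λ)ˣ) := by
  refine Set.Subset.antisymm (UU'_pow_le _ _ h1 h2 _) ?_
  have key : UU' Λ (up n) ⊆ UU' Λ f ^ (8 * n * n) := by
    rintro _ ⟨u, hu, v, hv, rfl⟩
    have hpart : ∀ (f' : Fin n → ℤ) (u : (Matrix (Fin n) (Fin n) Λ)ˣ), u ∈ U f' →
        u ∈ UU' Λ f ^ (4 * (n * n)) := by
      intro f' u hu
      obtain ⟨l, h1, h2, rfl⟩ := U_le_prod f' u hu
      refine list_prod_mem_pow (one_mem_UU' f) 4 (n * n) l ?_ fun g hg => ?_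
      · rwa [Fintype.card_fin] at h1
      · obtain ⟨a, b, h, x, -, rfl⟩ := h2 g hg
        exact el_mem_four f hf a b h x
    have e : 8 * n * n = 4 * (n * n) + 4 * (n * n) := by ring
    rw [e, pow_add]
    exact Set.mul_mem_mul (hpart _ u hu) (hpart _ v hv)
  rw [← h, pow_mul]
  exact Set.pow_subset_pow_left key

/-- the reindexing of matrices by a permutation -/
def reix {n : ℕ} (Λ : Type) [Ring Λ] (σ : Equiv.Perm (Fin n)) :
    (Matrix (Fin n) (Fin n) Λ)ˣ ≃* (Matrix (Fin n) (Fin n) Λ)ˣ :=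
  Units.mapEquiv (Matrix.reindexRingEquiv (R := Λ) σ.symm).toMulEquiv

theorem reix_val {n : ℕ} {Λ : Type} [Ring Λ] (σ : Equiv.Perm (Fin n))
    (X : (Matrix (Fin n) (Fin n) Λ)ˣ) (i j : Fin n) :
    (reix Λ σ X).val i j = X.val (σ i) (σ j) := rfl

theorem reix_U {n : ℕ} {Λ : Type} [Ring Λ] (σ : Equiv.Perm (Fin n)) (f : Fin n → ℤ) :
    (reix Λ σ) '' (U f : Subgroup (Matrix (Fin n) (Fin n) Λ)ˣ) =
      (U (f ∘ σ) : Subgroup (Matrix (Fin n) (Fin n) Λ)ˣ) := by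
  have h1 : ∀ (σ : Equiv.Perm (Fin n)) (f : Fin n → ℤ) (X : (Matrix (Fin n) (Fin n) Λ)ˣ),
      X ∈ U f → reix Λ σ X ∈ U (f ∘ σ) := by
    intro σ f X hX i j hij
    rw [reix_val, hX _ _ hij, Matrix.one_apply, Matrix.one_apply]
    simp only [EmbeddingLike.apply_eq_iff_eq]
  ext X
  constructor
  · rintro ⟨Y, hY, rfl⟩
    exact h1 σ f Y hY
  · intro hX
    refine ⟨reix Λ σ.symm X, ?_, ?_⟩
    · have := h1 σ.symm _ X hX
      rwa [Function.comp_assoc, Equiv.self_comp_symm, Function.comp_id] at this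
    · ext i j
      rw [reix_val, reix_val, Equiv.symm_apply_apply, Equiv.symm_apply_apply]

theorem reix_SL1 {n : ℕ} {Λ : Type} [Ring Λ] (N : ℕ) (σ : Equiv.Perm (Fin n)) :
    (reix Λ σ) '' (SL1 N (Fin n) Λ : Subgroup (Matrix (Fin n) (Fin n) Λ)ˣ) =
      (SL1 N (Fin n) Λ : Subgroup (Matrix (Fin n) (Fin n) Λ)ˣ) := by
  have h1 : ∀ (σ : Equiv.Perm (Fin n)) (X : (Matrix (Fin n) (Fin n) Λ)ˣ),
      X ∈ SL1 N (Fin n) Λ → reix Λ σ X ∈ SL1 N (Fin n) Λ := by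
    intro σ X hX p hp hpN ρ
    have := nrdAt_submatrix ρ σ X.val
    rw [hX p hp hpN ρ] at this
    exact this
  ext X
  constructor
  · rintro ⟨Y, hY, rfl⟩
    exact h1 σ Y hY
  · intro hX
    refine ⟨reix Λ σ.symm X, h1 σ.symm X hX, ?_⟩
    ext i j
    rw [reix_val, reix_val, Equiv.symm_apply_apply, Equiv.symm_apply_apply]

theorem U_congr {n : ℕ} {Λ : Type} [Ring Λ] {f f' : Fin n → ℤ}
    (h : ∀ i j, f i < f j ↔ f' i < f' j) :
    (U f : Subgroup (Matrix (Fin n) (Fin n) Λ)ˣ) = U f' := by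
  ext X
  rw [mem_U, mem_U]
  simp only [h]

theorem width_of_injective {n : ℕ} {Λ : Type} [Ring Λ] {N L : ℕ}
    (h : UU' Λ (up n) ^ L = ((SL1 N (Fin n) Λ : Subgroup _) : Set (Matrix (Fin n) (Fin n) Λ)ˣ))
    (f : Fin n → ℤ) (hf : Function.Injective f) :
    UU' Λ f ^ L = ((SL1 N (Fin n) Λ : Subgroup _) : Set (Matrix (Fin n) (Fin n) Λ)ˣ) := by
  have h1 : StrictMono (f ∘ Tuple.sort f) :=
    (Tuple.monotone_sort f).strictMono_of_injective (hf.comp (Tuple.sort f).injective)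
  have h2 : (U (f ∘ Tuple.sort f) : Subgroup (Matrix (Fin n) (Fin n) Λ)ˣ) = U (up n) :=
    U_congr fun i j => by
      rw [h1.lt_iff_lt]
      unfold up
      rw [Nat.cast_lt, Fin.val_fin_lt]
  have h3 : (U ((-f) ∘ Tuple.sort f) : Subgroup (Matrix (Fin n) (Fin n) Λ)ˣ) = U (-up n) :=
    U_congr fun i j => by
      change -(f (Tuple.sort f i)) < -(f (Tuple.sort f j)) ↔ -(up n i) < -(up n j)
      rw [neg_lt_neg_iff, neg_lt_neg_iff]
      have := h1.lt_iff_lt (a := j) (b := i)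
      unfold up
      rw [Nat.cast_lt, Fin.val_fin_lt]
      exact this
  have h4 : (reix Λ (Tuple.sort f)) '' (UU' Λ f ^ L) = UU' Λ (up n) ^ L := by
    rw [Set.image_pow, UU', Set.image_mul, reix_U, reix_U, h2, h3, UU']
  rw [h, ← reix_SL1 N (Tuple.sort f)] at h4
  exact (reix Λ (Tuple.sort f)).injective.image_injective h4

/-- matrices of reduced norm one form a normal subgroup -/
theorem SL1_conj {n : ℕ} {Λ : Type} [Ring Λ] (N : ℕ) (g : (Matrix (Fin n) (Fin n) Λ)ˣ) :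
    (SL1 N (Fin n) Λ).map (MulAut.conj g).toMonoidHom = SL1 N (Fin n) Λ := by
  have h1 : ∀ (g X : (Matrix (Fin n) (Fin n) Λ)ˣ), X ∈ SL1 N (Fin n) Λ →
      g * X * g⁻¹ ∈ SL1 N (Fin n) Λ := by
    intro g X hX p hp hpN ρ
    rw [Units.val_mul, Units.val_mul, map_mul, map_mul, hX p hp hpN ρ, mul_one, ← map_mul,
      ← Units.val_mul, mul_inv_cancel, Units.val_one, map_one]
  ext X
  constructor
  · rintro ⟨Y, hY, rfl⟩
    exact h1 g Y hY
  · intro hX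
    refine ⟨g⁻¹ * X * g, ?_, ?_⟩
    · have := h1 g⁻¹ X hX
      rwa [inv_inv] at this
    · change g * (g⁻¹ * X * g) * g⁻¹ = X
      group

end Final

theorem conj_width {n : ℕ} {Λ : Type} [Ring Λ] {N L : ℕ} {f : Fin n → ℤ}
    (h : UU' Λ f ^ L = ((SL1 N (Fin n) Λ : Subgroup _) : Set (Matrix (Fin n) (Fin n) Λ)ˣ))
    (g : (Matrix (Fin n) (Fin n) Λ)ˣ) :
    ((Uc g f : Set (Matrix (Fin n) (Fin n) Λ)ˣ) * (Uc g (-f) : Set (Matrix (Fin n) (Fin n) Λ)ˣ)) ^ L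
      = ((SL1 N (Fin n) Λ : Subgroup _) : Set (Matrix (Fin n) (Fin n) Λ)ˣ) := by
  rw [← SL1_conj N g, Subgroup.coe_map, ← h, Uc, Uc, Subgroup.coe_map, Subgroup.coe_map,
    ← Set.image_mul, ← Set.image_pow]
  rfl

theorem sup_eq {n : ℕ} {Λ : Type} [Ring Λ] {N L : ℕ} {P Q : Subgroup (Matrix (Fin n) (Fin n) Λ)ˣ}
    (h : ((P : Set (Matrix (Fin n) (Fin n) Λ)ˣ) * (Q : Set (Matrix (Fin n) (Fin n) Λ)ˣ)) ^ L
      = ((SL1 N (Fin n) Λ : Subgroup _) : Set (Matrix (Fin n) (Fin n) Λ)ˣ))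
    (hP : P ≤ SL1 N (Fin n) Λ) (hQ : Q ≤ SL1 N (Fin n) Λ) :
    P ⊔ Q = SL1 N (Fin n) Λ := by
  refine le_antisymm (sup_le hP hQ) fun X hX => ?_
  rw [← SetLike.mem_coe, ← h] at hX
  clear h hP hQ
  induction L generalizing X with
  | zero =>
    rw [pow_zero, Set.mem_one] at hX
    rw [hX]
    exact one_mem _
  | succ L ih =>
    rw [pow_succ] at hX
    obtain ⟨a, ha, b, ⟨u, hu, v, hv, rfl⟩, rfl⟩ := hX
    exact mul_mem (ih a ha) (mul_mem (Subgroup.mem_sup_left hu) (Subgroup.mem_sup_right hv))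

/-- **bounded width for `SL_n(Λ)`** -/
theorem main : ∃ (L₀ : ℕ) (L : ℕ → ℕ), ∀ n : ℕ, 3 ≤ n → ∀ N : ℕ, N ≠ 0 → ∀ (R Λ : Type)
    [CommRing R] [Ring Λ] [Algebra R Λ] [IsLocalization.Away (N : ℤ) R],
    IsQuaternionAzumaya N R Λ → ∀ (g : (Matrix (Fin n) (Fin n) Λ)ˣ) (f : Fin n → ℤ),
    (∃ i j, f i ≠ f j) →
      Uc g f ⊔ Uc g (-f) = SL1 N (Fin n) Λ ∧
      ((Uc g f : Set (Matrix (Fin n) (Fin n) Λ)ˣ) * (Uc g (-f) : Set (Matrix (Fin n) (Fin n) Λ)ˣ))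
        ^ L n = (SL1 N (Fin n) Λ : Set (Matrix (Fin n) (Fin n) Λ)ˣ) ∧
      (Function.Injective f → ((Uc g f : Set (Matrix (Fin n) (Fin n) Λ)ˣ) *
        (Uc g (-f) : Set (Matrix (Fin n) (Fin n) Λ)ˣ)) ^ L₀ =
          (SL1 N (Fin n) Λ : Set (Matrix (Fin n) (Fin n) Λ)ˣ)) := by
  obtain ⟨L₀, h⟩ := unitriangular_width
  refine ⟨L₀, fun n => 8 * n * n * L₀, fun n hn N hN R Λ _ _ _ _ haz g f hf => ?_⟩
  have h0 := h n hn N hN R Λ haz
  have h1 := conj_width (width_of_width h0 f hf (U_le_SL1 N _) (U_le_SL1 N _)) g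
  refine ⟨sup_eq h1 ?_ ?_, h1, fun hinj => conj_width (width_of_injective h0 f hinj) g⟩
  · rw [← SL1_conj N g]
    exact Subgroup.map_mono (U_le_SL1 N _)
  · rw [← SL1_conj N g]
    exact Subgroup.map_mono (U_le_SL1 N _)

end BW
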