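import Pool.Agent.BW.APRing
import Pool.Agent.BW.Main

/-!
# Systems of idempotents and the unipotent radicals attached to them
-/

set_option autoImplicit false

namespace BW.AP

open Matrix Pointwise

/-- the unipotent radical of the parabolic subgroup attached to a system of idempotents: the
units `X` such that `X - 1` is strictly upper triangular with respect to `e` -/
def Rad {A : Type*} [Ring A] {k : ℕ} (e : Fin k → A) : Set Aˣ :=
  {X | ∀ i j, ¬ i < j → e i * (X.val - 1) * e j = 0}

/-- the opposite one: `X - 1` is strictly lower triangular with respect to `e` -/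
def RadOp {A : Type*} [Ring A] {k : ℕ} (e : Fin k → A) : Set Aˣ :=
  {X | ∀ i j, ¬ j < i → e i * (X.val - 1) * e j = 0}

section ring

variable {A : Type*} [Ring A] {k : ℕ} {e : Fin k → A} (he : CompleteOrthogonalIdempotents e)

include he

theorem mul_self_e (i : Fin k) : e i * e i = e i := he.idem i

theorem mul_ne_e {i j : Fin k} (h : i ≠ j) : e i * e j = 0 := he.ortho h

theorem one_sub_mul {i j : Fin k} (h : i ≠ j) : (1 - e i) * e j = e j := by
  rw [sub_mul, one_mul, mul_ne_e he h, sub_zero]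

theorem mul_one_sub {i j : Fin k} (h : i ≠ j) : e j * (1 - e i) = e j := by
  rw [mul_sub, mul_one, mul_ne_e he h.symm, sub_zero]

theorem UP_le_Rad (hk : 0 < k) : UP (e ⟨0, hk⟩) ⊆ Rad e := by
  rintro X ⟨x, hx⟩ i j hij
  have h0 : X.val - 1 = e ⟨0, hk⟩ * x * (1 - e ⟨0, hk⟩) := by rw [hx]; abel
  rw [h0]
  by_cases hi : i = ⟨0, hk⟩
  · have hj : j = ⟨0, hk⟩ := by
      apply Fin.ext
      change j.val = 0
      by_contra h
      apply hij
      rw [hi, Fin.lt_def]
      exact Nat.pos_of_ne_zero h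
    rw [hj, mul_assoc, mul_assoc, f_mul_e (mul_self_e he _), mul_zero, mul_zero]
  · have h1 : e i * (e ⟨0, hk⟩ * x * (1 - e ⟨0, hk⟩)) * e j =
        e i * e ⟨0, hk⟩ * x * (1 - e ⟨0, hk⟩) * e j := by simp only [mul_assoc]
    rw [h1, mul_ne_e he hi, zero_mul, zero_mul, zero_mul]

theorem UM_le_RadOp (hk : 0 < k) : UM (e ⟨0, hk⟩) ⊆ RadOp e := by
  rintro X ⟨x, hx⟩ i j hij
  have h0 : X.val - 1 = (1 - e ⟨0, hk⟩) * x * e ⟨0, hk⟩ := by rw [hx]; abel
  rw [h0]
  by_cases hj : j = ⟨0, hk⟩
  · have hi : i = ⟨0, hk⟩ := by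
      apply Fin.ext
      change i.val = 0
      by_contra h
      apply hij
      rw [hj, Fin.lt_def]
      exact Nat.pos_of_ne_zero h
    have h1 : e i * ((1 - e ⟨0, hk⟩) * x * e ⟨0, hk⟩) * e j =
        e i * (1 - e ⟨0, hk⟩) * x * e ⟨0, hk⟩ * e j := by simp only [mul_assoc]
    rw [h1, hi, e_mul_f (mul_self_e he _), zero_mul, zero_mul, zero_mul]
  · rw [mul_assoc, mul_assoc, mul_ne_e he (Ne.symm hj), mul_zero, mul_zero]

/-- strictly upper triangular elements are nilpotent -/
theorem pow_eq_zero_of_strict {x : A} (hx : ∀ i j, ¬ i < j → e i * x * e j = 0) : x ^ k = 0 := by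
  have key : ∀ (m : ℕ) (i j : Fin k), ¬ (i : ℕ) + m ≤ j → e i * x ^ m * e j = 0 := by
    intro m
    induction m with
    | zero =>
      intro i j hij
      rw [pow_zero, mul_one]
      refine mul_ne_e he ?_
      rintro rfl
      omega
    | succ m ih =>
      intro i j hij
      have h1 : e i * x ^ (m + 1) * e j = ∑ l, (e i * x ^ m * e l) * (e l * x * e j) := by
        have h2 : ∀ l, (e i * x ^ m * e l) * (e l * x * e j) = e i * x ^ m * e l * (x * e j) := by
          intro l
          calc _ = e i * x ^ m * (e l * e l) * (x * e j) := by simp only [mul_assoc]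
            _ = _ := by rw [mul_self_e he l]
        simp only [h2]
        rw [← Finset.sum_mul, ← Finset.mul_sum, he.complete, mul_one, pow_succ]
        simp only [mul_assoc]
      rw [h1]
      refine Finset.sum_eq_zero fun l _ => ?_
      by_cases h3 : (i : ℕ) + m ≤ l
      · have h4 : ¬ l < j := by
          rw [Fin.lt_def]
          omega
        rw [hx l j h4, mul_zero]
      · rw [ih i l h3, zero_mul]
  have h1 : x ^ k = ∑ i, ∑ j, e i * x ^ k * e j := by
    have h2 : ∀ i, ∑ j, e i * x ^ k * e j = e i * x ^ k := by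
      intro i
      rw [← Finset.mul_sum, he.complete, mul_one]
    simp only [h2]
    rw [← Finset.sum_mul, he.complete, one_mul]
  rw [h1]
  refine Finset.sum_eq_zero fun i _ => Finset.sum_eq_zero fun j _ => key k i j ?_
  have := j.isLt
  omega

theorem rev : CompleteOrthogonalIdempotents (fun i => e (Fin.rev i)) where
  idem i := he.idem _
  ortho i j hij := he.ortho (fun h => hij (Fin.rev_injective h))
  complete := by
    rw [← he.complete]
    exact Equiv.sum_comp Fin.revPerm e

omit he in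
theorem RadOp_eq : RadOp e = Rad (fun i => e (Fin.rev i)) := by
  ext X
  constructor
  · intro h i j hij
    exact h _ _ (by rwa [Fin.rev_lt_rev])
  · intro h i j hij
    have h1 := h (Fin.rev i) (Fin.rev j) (by rwa [Fin.rev_lt_rev])
    simpa only [Fin.rev_rev] using h1

end ring

section nrd

variable {Λ : Type*} [Ring Λ] {m : Type*} [Fintype m] [DecidableEq m]

/-- unipotent matrices have reduced norm one -/
theorem mem_SL1_of_pow (N : ℕ) {X : (Matrix m m Λ)ˣ} {k : ℕ} (h : (X.val - 1) ^ k = 0) :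
    X ∈ SL1 N m Λ := by
  intro p hp hpN ρ
  have := Fact.mk hp
  set Y := Matrix.compRingEquiv m (Fin 2) (ZMod p) (X.val.map ρ) with hY
  have h1 : (Y - 1) ^ k = 0 := by
    have h2 : Y - 1 = Matrix.compRingEquiv m (Fin 2) (ZMod p) (ρ.mapMatrix (X.val - 1)) := by
      rw [map_sub, map_sub, map_one, map_one]
      rfl
    rw [h2, ← map_pow, ← map_pow, h, map_zero, map_zero]
  change Y.det = 1
  rcases isEmpty_or_nonempty m with hm | hm
  · exact Matrix.det_isEmpty
  have h3 : Y ^ p ^ k = 1 := by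
    have h4 : Y = 1 + (Y - 1) := by abel
    have h5 : k ≤ p ^ k := (Nat.lt_pow_self hp.one_lt).le
    rw [h4, add_pow_char_pow_of_commute p k (Commute.one_left _), one_pow,
      pow_eq_zero_of_le h5 h1, add_zero]
  have h6 : Y.det ^ p ^ k = 1 := by rw [← Matrix.det_pow, h3, Matrix.det_one]
  rwa [ZMod.pow_card_pow] at h6

theorem Rad_le_SL1 (N : ℕ) {k : ℕ} {e : Fin k → Matrix m m Λ}
    (he : CompleteOrthogonalIdempotents e) : Rad e ⊆ SL1 N m Λ := fun _ hX =>
  mem_SL1_of_pow N (pow_eq_zero_of_strict he hX)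

theorem RadOp_le_SL1 (N : ℕ) {k : ℕ} {e : Fin k → Matrix m m Λ}
    (he : CompleteOrthogonalIdempotents e) : RadOp e ⊆ SL1 N m Λ := by
  rw [RadOp_eq]
  exact Rad_le_SL1 N (rev he)

/-- from the inclusion to the two equalities -/
theorem width_eq (N : ℕ) {k L : ℕ} (hk : 0 < k) {e : Fin k → Matrix m m Λ}
    (he : CompleteOrthogonalIdempotents e)
    (h : (SL1 N m Λ : Set (Matrix m m Λ)ˣ) ⊆ SS (e ⟨0, hk⟩) ^ L) :
    (Rad e * RadOp e) ^ L = (SL1 N m Λ : Set (Matrix m m Λ)ˣ) ∧
      Subgroup.closure (Rad e ∪ RadOp e) = SL1 N m Λ := by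
  have h1 : (Rad e * RadOp e) ^ L ⊆ (SL1 N m Λ : Set (Matrix m m Λ)ˣ) := by
    clear h
    induction L with
    | zero =>
      rw [pow_zero]
      intro g hg
      rw [Set.mem_one] at hg
      rw [hg]
      exact one_mem (SL1 N m Λ)
    | succ L ih =>
      rw [pow_succ]
      rintro _ ⟨a, ha, b, ⟨u, hu, v, hv, rfl⟩, rfl⟩
      exact mul_mem (ih ha) (mul_mem (Rad_le_SL1 N he hu) (RadOp_le_SL1 N he hv))
  have h2 : (SL1 N m Λ : Set (Matrix m m Λ)ˣ) ⊆ (Rad e * RadOp e) ^ L :=
    h.trans (Set.pow_subset_pow_left (Set.mul_subset_mul (UP_le_Rad he hk) (UM_le_RadOp he hk)))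
  have h3 := Set.Subset.antisymm h1 h2
  refine ⟨h3, le_antisymm ?_ ?_⟩
  · rw [Subgroup.closure_le]
    exact Set.union_subset (Rad_le_SL1 N he) (RadOp_le_SL1 N he)
  · intro X hX
    rw [← SetLike.mem_coe, ← h3] at hX
    clear h h1 h2 h3
    induction L generalizing X with
    | zero =>
      rw [pow_zero, Set.mem_one] at hX
      rw [hX]
      exact one_mem _
    | succ L ih =>
      rw [pow_succ] at hX
      obtain ⟨a, ha, b, ⟨u, hu, v, hv, rfl⟩, rfl⟩ := hX
      exact mul_mem (ih ha) (mul_mem (Subgroup.subset_closure (Or.inl hu))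
        (Subgroup.subset_closure (Or.inr hv)))

end nrd

end BW.AP
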