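import Pool.Agent.BW.SLoc

/-!
# Structure theory of a quaternion Azumaya algebra over `ℤ[1/N]` from its fibres
-/

set_option autoImplicit false

namespace BW.S

open Matrix

section M2

variable {F : Type*} [Field F]

/-- the trace of the left multiplication on `M₂(F)` -/
theorem trace_lmul (A : Matrix (Fin 2) (Fin 2) F) :
    LinearMap.trace F (Matrix (Fin 2) (Fin 2) F) (LinearMap.mulLeft F A) = 2 * A.trace := by
  rw [LinearMap.trace_eq_matrix_trace F (Matrix.stdBasis F (Fin 2) (Fin 2))]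
  simp only [Matrix.trace, Matrix.diag, LinearMap.toMatrix_apply, LinearMap.mulLeft_apply,
    Fintype.sum_prod_type, Fin.sum_univ_two, Matrix.stdBasis_eq_single]
  simp [Matrix.stdBasis, Matrix.mul_apply, Matrix.single, Matrix.of_apply]
  ring

end M2

section M2R

variable {F : Type*} [CommRing F]

theorem ch (A : Matrix (Fin 2) (Fin 2) F) : A * (A.trace • 1 - A) = A.det • 1 := by
  ext i j
  fin_cases i <;> fin_cases j <;>
    simp [Matrix.mul_apply, Fin.sum_univ_two, Matrix.trace, Matrix.det_fin_two] <;> ring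

theorem ch' (A : Matrix (Fin 2) (Fin 2) F) : (A.trace • 1 - A) * A = A.det • 1 := by
  ext i j
  fin_cases i <;> fin_cases j <;>
    simp [Matrix.mul_apply, Fin.sum_univ_two, Matrix.trace, Matrix.det_fin_two] <;> ring

theorem conj_mul (A B : Matrix (Fin 2) (Fin 2) F) :
    (A * B).trace • 1 - A * B = (B.trace • 1 - B) * (A.trace • 1 - A) := by
  ext i j
  fin_cases i <;> fin_cases j <;>
    simp [Matrix.mul_apply, Fin.sum_univ_two, Matrix.trace] <;> ring

end M2R

section M2

variable {F : Type*} [Field F]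

theorem nondeg (A : Matrix (Fin 2) (Fin 2) F) (h : ∀ B, (B * A).trace = 0) : A = 0 := by
  have h00 := h !![1, 0; 0, 0]
  have h01 := h !![0, 1; 0, 0]
  have h10 := h !![0, 0; 1, 0]
  have h11 := h !![0, 0; 0, 1]
  simp [Fin.sum_univ_two, Matrix.trace, Matrix.vecMul, dotProduct] at h00 h01 h10 h11
  ext i j
  fin_cases i <;> fin_cases j <;> simp_all

/-- a matrix commuting with everything is scalar -/
theorem central (A : Matrix (Fin 2) (Fin 2) F) (h : ∀ B, B * A = A * B) : A = A 0 0 • 1 := by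
  have h01 := h !![0, 1; 0, 0]
  have h10 := h !![0, 0; 1, 0]
  have e1 := congrFun (congrFun h01 0) 0
  have e2 := congrFun (congrFun h01 0) 1
  have e3 := congrFun (congrFun h10 0) 0
  simp [Matrix.mul_apply, Fin.sum_univ_two] at e1 e2 e3
  ext i j
  fin_cases i <;> fin_cases j <;> simp [← e3, e1, e2]

end M2

section Alg

variable {N : ℕ} {R Λ : Type*} [CommRing R] [IsLocalization.Away (N : ℤ) R] [Ring Λ] [Algebra R Λ]

theorem rho_alg {p : ℕ} (hp : p.Prime) (hpN : ¬ p ∣ N)
    (ρ : Λ →+* Matrix (Fin 2) (Fin 2) (ZMod p)) (r : R) :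
    ρ (algebraMap R Λ r) = phi R hp hpN r • (1 : Matrix (Fin 2) (Fin 2) (ZMod p)) := by
  have : Fact p.Prime := ⟨hp⟩
  obtain ⟨k, a, h⟩ := exists_int N r
  have h1 : ρ (algebraMap R Λ r) * (N : Matrix (Fin 2) (Fin 2) (ZMod p)) ^ k = a := by
    rw [← map_natCast ρ, ← map_natCast (algebraMap R Λ), ← map_pow, ← map_pow, ← map_mul,
      ← map_mul, h, map_intCast, map_intCast]
  have h2 : phi R hp hpN r * (N : ZMod p) ^ k = a := by
    rw [← map_natCast (phi R hp hpN), ← map_pow, ← map_mul, h, map_intCast]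
  have hN : (N : ZMod p) ^ k ≠ 0 :=
    pow_ne_zero _ fun h => hpN ((ZMod.natCast_eq_zero_iff N p).1 h)
  have h3 : ((N : ZMod p) ^ k) • ρ (algebraMap R Λ r) =
      ((N : ZMod p) ^ k) • (phi R hp hpN r • (1 : Matrix (Fin 2) (Fin 2) (ZMod p))) := by
    have e1 : (N : Matrix (Fin 2) (Fin 2) (ZMod p)) ^ k =
        ((N : ZMod p) ^ k) • (1 : Matrix (Fin 2) (Fin 2) (ZMod p)) := by
      have : (N : Matrix (Fin 2) (Fin 2) (ZMod p)) =
          algebraMap (ZMod p) (Matrix (Fin 2) (Fin 2) (ZMod p)) (N : ZMod p) := by simp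
      rw [this, ← map_pow, Algebra.algebraMap_eq_smul_one]
    rw [e1, mul_smul_comm, mul_one] at h1
    rw [h1, smul_smul, mul_comm, h2]
    rw [← Algebra.algebraMap_eq_smul_one, map_intCast]
  exact smul_right_injective _ hN h3

theorem rho_smul {p : ℕ} (hp : p.Prime) (hpN : ¬ p ∣ N)
    (ρ : Λ →+* Matrix (Fin 2) (Fin 2) (ZMod p)) (r : R) (x : Λ) :
    ρ (r • x) = phi R hp hpN r • ρ x := by
  rw [Algebra.smul_def, map_mul, rho_alg hp hpN, smul_mul_assoc, one_mul]

/-- the trace of left multiplication -/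
noncomputable def tr (R Λ : Type*) [CommRing R] [Ring Λ] [Algebra R Λ] : Λ →ₗ[R] R :=
  LinearMap.trace R Λ ∘ₗ LinearMap.mul R Λ

section Basis

variable (b : Module.Basis (Fin 4) R Λ) {p : ℕ} (hp : p.Prime) (hpN : ¬ p ∣ N)
  (ρ : Λ →+* Matrix (Fin 2) (Fin 2) (ZMod p)) (hs : Function.Surjective ρ)

include hp hpN in
theorem rho_sum (x : Λ) : ρ x = ∑ i, phi R hp hpN (b.repr x i) • ρ (b i) := by
  conv_lhs => rw [← b.sum_repr x]
  rw [map_sum]
  exact Finset.sum_congr rfl fun i _ => rho_smul hp hpN ρ _ _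

include hp hpN hs in
theorem span_top : (⊤ : Submodule (ZMod p) (Matrix (Fin 2) (Fin 2) (ZMod p))) ≤
    Submodule.span (ZMod p) (Set.range fun i => ρ (b i)) := by
  intro A _
  obtain ⟨x, rfl⟩ := hs A
  rw [rho_sum b hp hpN ρ x]
  exact Submodule.sum_mem _ fun i _ => Submodule.smul_mem _ _ (Submodule.subset_span ⟨i, rfl⟩)

/-- the basis of the fibre -/
noncomputable def eb : Module.Basis (Fin 4) (ZMod p) (Matrix (Fin 2) (Fin 2) (ZMod p)) :=
  haveI : Fact p.Prime := ⟨hp⟩
  basisOfTopLeSpanOfCardEqFinrank (fun i => ρ (b i)) (span_top b hp hpN ρ hs)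
    (by rw [Module.finrank_matrix]; simp)

theorem eb_apply (i : Fin 4) : eb b hp hpN ρ hs i = ρ (b i) := by
  unfold eb; simp

theorem eb_repr (x : Λ) (i : Fin 4) :
    (eb b hp hpN ρ hs).repr (ρ x) i = phi R hp hpN (b.repr x i) := by
  have : Fact p.Prime := ⟨hp⟩
  rw [rho_sum b hp hpN ρ x]
  simp only [← eb_apply b hp hpN ρ hs]
  rw [Module.Basis.repr_sum_self]

include b hs in
theorem phi_tr (x : Λ) : phi R hp hpN (tr R Λ x) = 2 * (ρ x).trace := by
  have : Fact p.Prime := ⟨hp⟩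
  rw [← trace_lmul, LinearMap.trace_eq_matrix_trace (ZMod p) (eb b hp hpN ρ hs)]
  unfold tr
  rw [LinearMap.comp_apply, LinearMap.trace_eq_matrix_trace R b]
  simp only [Matrix.trace, Matrix.diag, LinearMap.toMatrix_apply, map_sum]
  refine Finset.sum_congr rfl fun i _ => ?_
  rw [LinearMap.mulLeft_apply, eb_apply, ← map_mul, eb_repr]
  rfl

end Basis

section Main

variable (hN : N ≠ 0) (h : IsQuaternionAzumaya N R Λ)

include hN h in
theorem exists_basis : Nonempty (Module.Basis (Fin 4) R Λ) := by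
  have := isDomain (R := R) hN
  have := h.free
  have : Module.Finite R Λ := Module.finite_of_finrank_pos (by rw [h.rank]; norm_num)
  exact ⟨Module.finBasisOfFinrankEq R Λ h.rank⟩

theorem natCast_mul (p : ℕ) (y : Λ) : (p : Λ) * y = (p : R) • y := by
  rw [Algebra.smul_def, map_natCast]

include hN in
/-- an element divisible by almost all primes is zero -/
theorem zero_test (b : Module.Basis (Fin 4) R Λ) (x : Λ) (B : ℕ)
    (hx : ∀ p : ℕ, p.Prime → B ≤ p → ¬ p ∣ N → ∃ y, x = (p : Λ) * y) : x = 0 := by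
  refine b.repr.map_eq_zero_iff.1 (Finsupp.ext fun i => ?_)
  refine eq_zero_of_dvd hN _ (B + N + 1) fun p hp hB => ?_
  have hpN : ¬ p ∣ N := fun hd => by
    have := Nat.le_of_dvd (Nat.pos_of_ne_zero hN) hd
    omega
  obtain ⟨y, rfl⟩ := hx p hp (by omega) hpN
  exact ⟨b.repr y i, by rw [natCast_mul (R := R), map_smul, Finsupp.smul_apply, smul_eq_mul]⟩

include hN in
theorem prim (b : Module.Basis (Fin 4) R Λ) (v : Λ)
    (hv : ∀ (p : ℕ), p.Prime → ¬ p ∣ N →
      ∃ ρ : Λ →+* Matrix (Fin 2) (Fin 2) (ZMod p), ρ v ≠ 0) :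
    ∃ f : Λ →ₗ[R] R, f v = 1 := by
  have htop : Ideal.span (Set.range fun i => b.repr v i) = ⊤ := by
    refine eq_top_of_phi hN _ fun p hp hpN => ?_
    by_contra hcon
    push Not at hcon
    obtain ⟨ρ, hρ⟩ := hv p hp hpN
    apply hρ
    rw [rho_sum b hp hpN ρ v]
    refine Finset.sum_eq_zero fun i _ => ?_
    rw [hcon _ (Ideal.subset_span ⟨i, rfl⟩), zero_smul]
  have h1 : (1 : R) ∈ Ideal.span (Set.range fun i => b.repr v i) := by rw [htop]; trivial
  obtain ⟨c, hc⟩ := (Ideal.mem_span_range_iff_exists_fun).1 h1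
  refine ⟨∑ i, c i • b.coord i, ?_⟩
  rw [LinearMap.sum_apply]
  simpa using hc

include hN h in
theorem one_prim : ∃ f : Λ →ₗ[R] R, f 1 = 1 := by
  obtain ⟨b⟩ := exists_basis hN h
  refine prim hN b 1 fun p hp hpN => ?_
  obtain ⟨ρ, -, -⟩ := h.fibre p hp hpN
  have : Fact p.Prime := ⟨hp⟩
  exact ⟨ρ, by rw [map_one]; exact one_ne_zero⟩

include hN h in
/-- an element whose images in almost all fibres are scalar is scalar -/
theorem scalar_test (y : Λ) (B : ℕ)
    (hy : ∀ (p : ℕ), p.Prime → B ≤ p → ¬ p ∣ N →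
      ∀ ρ : Λ →+* Matrix (Fin 2) (Fin 2) (ZMod p), Function.Surjective ρ →
        (∀ x, ρ x = 0 → ∃ z, x = (p : Λ) * z) → ∃ c : ZMod p, ρ y = c • 1) :
    ∃ r : R, y = algebraMap R Λ r := by
  obtain ⟨b⟩ := exists_basis hN h
  obtain ⟨f, hf⟩ := one_prim hN h
  refine ⟨f y, sub_eq_zero.1 (zero_test hN b _ B fun p hp hB hpN => ?_)⟩
  have : Fact p.Prime := ⟨hp⟩
  obtain ⟨ρ, hs, hk⟩ := h.fibre p hp hpN
  obtain ⟨c, hc⟩ := hy p hp hB hpN ρ hs hk
  -- lift `c`
  have h0 : ρ (y - algebraMap R Λ (f y) - ((c.val : R) - f y) • 1) = 0 := by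
    rw [Algebra.smul_def, mul_one, map_sub, map_sub, map_sub, map_sub, hc,
      rho_alg hp hpN, rho_alg hp hpN, map_natCast, ZMod.natCast_zmod_val]
    abel
  obtain ⟨z, hz⟩ := hk _ h0
  have h1 := congrArg f hz
  have e1 : f (algebraMap R Λ (f y)) = f y := by
    rw [Algebra.algebraMap_eq_smul_one, map_smul, hf, smul_eq_mul, mul_one]
  rw [natCast_mul (R := R), map_sub, map_sub, map_smul, map_smul, hf, e1, sub_self, zero_sub,
    smul_eq_mul, smul_eq_mul, mul_one] at h1
  refine ⟨z - algebraMap R Λ (f z), ?_⟩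
  have h2 : y - algebraMap R Λ (f y) = (p : Λ) * z + ((c.val : R) - f y) • 1 := by
    rw [← hz]; abel
  have h3 : ((c.val : R) - f y) = -((p : R) * f z) := by rw [← h1]; ring
  rw [h2, h3, Algebra.smul_def, mul_one, map_neg, map_mul, map_natCast, mul_sub]
  abel

include hN h in
theorem exists_T : ∃ T : Λ →ₗ[R] R, ∀ x, tr R Λ x = 2 * T x := by
  have := isDomain (R := R) hN
  have h2 : (2 : R) ≠ 0 := by exact_mod_cast natCast_ne (R := R) hN (m := 2) (by norm_num)
  obtain ⟨b⟩ := exists_basis hN h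
  have key : ∀ x : Λ, ∃ t : R, tr R Λ x = 2 * t := by
    intro x
    by_cases hd : 2 ∣ N
    · obtain ⟨u, hu⟩ := isUnit_of_dvd (N := N) (R := R) hd
      refine ⟨((u⁻¹ : Rˣ) : R) * tr R Λ x, ?_⟩
      have : (2 : R) = u := by rw [hu]; norm_num
      rw [this, ← mul_assoc, Units.mul_inv, one_mul]
    · obtain ⟨ρ, hs, -⟩ := h.fibre 2 Nat.prime_two hd
      have h3 := phi_tr b Nat.prime_two hd ρ hs x
      rw [show (2 : ZMod 2) = 0 from rfl, zero_mul, phi_dvd] at h3
      obtain ⟨s, hs⟩ := h3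
      exact ⟨s, by rw [hs]; norm_num⟩
  choose t ht using key
  refine ⟨{ toFun := t, map_add' := fun x y => ?_, map_smul' := fun c x => ?_ }, fun x => ht x⟩
  · apply mul_left_cancel₀ h2
    rw [← ht, map_add, ht, ht]; ring
  · apply mul_left_cancel₀ h2
    rw [← ht, map_smul, ht, RingHom.id_apply, smul_eq_mul, smul_eq_mul]; ring

variable (T : Λ →ₗ[R] R) (hT : ∀ x, tr R Λ x = 2 * T x)

include hN h hT in
theorem phi_T {p : ℕ} (hp : p.Prime) (hpN : ¬ p ∣ N) (hp2 : 3 ≤ p)
    (ρ : Λ →+* Matrix (Fin 2) (Fin 2) (ZMod p)) (hs : Function.Surjective ρ) (x : Λ) :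
    phi R hp hpN (T x) = (ρ x).trace := by
  have : Fact p.Prime := ⟨hp⟩
  obtain ⟨b⟩ := exists_basis hN h
  have h3 := phi_tr b hp hpN ρ hs x
  have h2 : (2 : ZMod p) ≠ 0 := by
    intro h0
    have : ((2 : ℕ) : ZMod p) = 0 := by exact_mod_cast h0
    have := Nat.le_of_dvd (by norm_num) ((ZMod.natCast_eq_zero_iff 2 p).1 this)
    omega
  rw [hT, map_mul, map_ofNat] at h3
  exact mul_left_cancel₀ h2 h3

include hN h hT in
theorem rho_conj {p : ℕ} (hp : p.Prime) (hpN : ¬ p ∣ N) (hp2 : 3 ≤ p)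
    (ρ : Λ →+* Matrix (Fin 2) (Fin 2) (ZMod p)) (hs : Function.Surjective ρ) (x : Λ) :
    ρ (algebraMap R Λ (T x) - x) = (ρ x).trace • 1 - ρ x := by
  rw [map_sub, rho_alg hp hpN, phi_T hN h T hT hp hpN hp2 ρ hs]

include hN h hT in
theorem exists_n (x : Λ) : ∃ r : R, x * (algebraMap R Λ (T x) - x) = algebraMap R Λ r := by
  refine scalar_test hN h _ 3 fun p hp hp3 hpN ρ hs _ => ?_
  exact ⟨(ρ x).det, by rw [map_mul, rho_conj hN h T hT hp hpN hp3 ρ hs, ch]⟩

theorem conj_comm (x : Λ) (t : R) :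
    (algebraMap R Λ t - x) * x = x * (algebraMap R Λ t - x) := by
  rw [sub_mul, mul_sub, Algebra.commutes]

include hN h hT in
theorem conj_antihom (x y : Λ) : algebraMap R Λ (T (x * y)) - x * y =
    (algebraMap R Λ (T y) - y) * (algebraMap R Λ (T x) - x) := by
  obtain ⟨b⟩ := exists_basis hN h
  refine sub_eq_zero.1 (zero_test hN b _ 3 fun p hp hp3 hpN => ?_)
  obtain ⟨ρ, hs, hk⟩ := h.fibre p hp hpN
  have : Fact p.Prime := ⟨hp⟩
  refine hk _ ?_
  rw [map_sub ρ, map_mul ρ (algebraMap R Λ (T y) - y), rho_conj hN h T hT hp hpN hp3 ρ hs,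
    rho_conj hN h T hT hp hpN hp3 ρ hs, rho_conj hN h T hT hp hpN hp3 ρ hs, map_mul ρ, conj_mul,
    sub_self]

include hN h in
theorem alg_inj : Function.Injective (algebraMap R Λ) := by
  obtain ⟨f, hf⟩ := one_prim hN h
  intro r s hrs
  have := congrArg f hrs
  simpa [Algebra.algebraMap_eq_smul_one, hf] using this

include hN h hT in
theorem T_one : T 1 = 2 := by
  have := isDomain (R := R) hN
  have h2 : (2 : R) ≠ 0 := by exact_mod_cast natCast_ne (R := R) hN (m := 2) (by norm_num)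
  apply mul_left_cancel₀ h2
  rw [← hT]
  have h1 : LinearMap.mul R Λ 1 = LinearMap.id := by ext x; simp
  unfold tr
  have := h.free
  have : Module.Finite R Λ := Module.finite_of_finrank_pos (by rw [h.rank]; norm_num)
  rw [LinearMap.comp_apply, h1, LinearMap.trace_id, h.rank]
  norm_num

variable (n : Λ → R) (hn : ∀ x, x * (algebraMap R Λ (T x) - x) = algebraMap R Λ (n x))

include hN h hT hn in
theorem phi_n_odd {p : ℕ} (hp : p.Prime) (hpN : ¬ p ∣ N) (hp2 : 3 ≤ p)
    (ρ : Λ →+* Matrix (Fin 2) (Fin 2) (ZMod p)) (hs : Function.Surjective ρ) (x : Λ) :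
    ρ (algebraMap R Λ (n x)) = (ρ x).det • 1 := by
  rw [← hn, map_mul, rho_conj hN h T hT hp hpN hp2 ρ hs, ch]

/-- if `A` is not scalar then `A ^ 2 - t A + n = 0` determines `t` and `n` -/
theorem ch_unique {F : Type*} [Field F] (A : Matrix (Fin 2) (Fin 2) F) (t m : F)
    (hA : ∀ c : F, A ≠ c • 1) (he : A * (t • 1 - A) = m • 1) : t = A.trace ∧ m = A.det := by
  have h1 := ch A
  have h2 : (t - A.trace) • A = (m - A.det) • (1 : Matrix (Fin 2) (Fin 2) F) := by
    rw [sub_smul, sub_smul, ← h1, ← he, mul_sub, mul_sub, mul_smul_comm, mul_smul_comm, mul_one]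
    abel
  have h3 : t = A.trace := by
    by_contra hne
    have h4 : t - A.trace ≠ 0 := sub_ne_zero.2 hne
    refine hA ((t - A.trace)⁻¹ * (m - A.det)) ?_
    rw [mul_smul, ← h2, smul_smul, inv_mul_cancel₀ h4, one_smul]
  refine ⟨h3, ?_⟩
  rw [h3] at h2
  rw [sub_self, zero_smul] at h2
  have := congrFun (congrFun h2 0) 0
  simp at this
  exact sub_eq_zero.1 this.symm

include hN h hT hn in
/-- trace and determinant in the fibres -/
theorem phi_both {p : ℕ} (hp : p.Prime) (hpN : ¬ p ∣ N)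
    (ρ : Λ →+* Matrix (Fin 2) (Fin 2) (ZMod p))
    (hk : ∀ x, ρ x = 0 → ∃ y, x = (p : Λ) * y) (x : Λ) :
    phi R hp hpN (T x) = (ρ x).trace ∧ phi R hp hpN (n x) = (ρ x).det := by
  have : Fact p.Prime := ⟨hp⟩
  by_cases hA : ∀ c : ZMod p, ρ x ≠ c • 1
  · refine ch_unique (ρ x) _ _ hA ?_
    rw [← rho_alg hp hpN ρ, ← rho_alg hp hpN ρ, ← hn, map_mul, map_sub]
  · push Not at hA
    obtain ⟨c, hc⟩ := hA
    -- `x = s + p y`
    have h0 : ρ (x - algebraMap R Λ (c.val : R)) = 0 := by
      rw [map_sub, rho_alg hp hpN, hc, map_natCast, ZMod.natCast_zmod_val, sub_self]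
    obtain ⟨y, hy⟩ := hk _ h0
    rw [natCast_mul (R := R)] at hy
    have hx : x = (c.val : R) • 1 + (p : R) • y := by
      rw [← hy, Algebra.algebraMap_eq_smul_one]; abel
    have hTx : T x = 2 * (c.val : R) + p * T y := by
      rw [hx, map_add, map_smul, map_smul, T_one hN h T hT, smul_eq_mul, smul_eq_mul]; ring
    have hnx : n x = (c.val : R) ^ 2 + p * ((c.val : R) * T y + p * n y) := by
      apply alg_inj hN h
      rw [← hn, hTx]
      have hny := hn y
      simp only [map_add, map_mul, map_pow, ← hny]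
      simp only [Algebra.algebraMap_eq_smul_one]
      rw [hx]
      simp only [add_mul, mul_add, mul_sub, smul_mul_assoc, mul_smul_comm, one_mul, mul_one,
        smul_add, smul_smul, pow_two]
      module
    constructor
    · rw [hTx, hc]
      simp only [map_add, map_mul, map_natCast, map_ofNat, ZMod.natCast_self, zero_mul, add_zero,
        ZMod.natCast_zmod_val, Matrix.trace_smul, Matrix.trace_one, Fintype.card_fin]
      push_cast
      rw [smul_eq_mul]; ring
    · rw [hnx, hc]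
      simp only [map_add, map_mul, map_pow, map_natCast, ZMod.natCast_self, zero_mul, add_zero,
        ZMod.natCast_zmod_val, Matrix.det_smul, Matrix.det_one, Fintype.card_fin, mul_one]

include hN h hT hn in
/-- the trace form is unimodular -/
theorem unimod (f : Λ →ₗ[R] R) : ∃ c, ∀ x, f x = T (x * c) := by
  obtain ⟨b⟩ := exists_basis hN h
  set G : Matrix (Fin 4) (Fin 4) R := fun i j => T (b i * b j) with hG
  have hdet : IsUnit G.det := by
    refine isUnit_of_phi hN _ fun p hp hpN h0 => ?_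
    have : Fact p.Prime := ⟨hp⟩
    obtain ⟨ρ, hs, hk⟩ := h.fibre p hp hpN
    rw [RingHom.map_det, ← Matrix.exists_mulVec_eq_zero_iff] at h0
    obtain ⟨v, hv, hv0⟩ := h0
    set e := eb b hp hpN ρ hs with he
    have hw : ∑ j, v j • e j ≠ 0 := by
      intro hw
      apply hv
      have h1 : e.repr (∑ j, v j • e j) = 0 := by rw [hw, map_zero]
      funext j
      have h2 := DFunLike.congr_fun h1 j
      rw [Module.Basis.repr_sum_self] at h2
      exact h2
    apply hw
    refine nondeg _ fun B => ?_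
    have key : ∀ i, (e i * ∑ j, v j • e j).trace = 0 := by
      intro i
      have h1 := congrFun hv0 i
      simp only [Matrix.mulVec, dotProduct, Pi.zero_apply] at h1
      rw [← h1, Finset.mul_sum, Matrix.trace_sum]
      refine Finset.sum_congr rfl fun j _ => ?_
      rw [mul_smul_comm, Matrix.trace_smul, smul_eq_mul, mul_comm]
      congr 1
      rw [he, eb_apply, eb_apply, ← map_mul, ← (phi_both hN h T hT n hn hp hpN ρ hk _).1]
      rfl
    rw [← e.sum_repr B, Finset.sum_mul, Matrix.trace_sum]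
    refine Finset.sum_eq_zero fun i _ => ?_
    rw [smul_mul_assoc, Matrix.trace_smul, key, smul_zero]
  set c : Fin 4 → R := G⁻¹ *ᵥ (fun i => f (b i)) with hc
  refine ⟨∑ j, c j • b j, ?_⟩
  have h1 : ∀ i, f (b i) = T (b i * ∑ j, c j • b j) := by
    intro i
    have h2 : (G *ᵥ c) i = f (b i) := by
      rw [hc, Matrix.mulVec_mulVec, Matrix.mul_nonsing_inv _ hdet, Matrix.one_mulVec]
    rw [← h2, Finset.mul_sum, map_sum]
    simp only [Matrix.mulVec, dotProduct]
    refine Finset.sum_congr rfl fun j _ => ?_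
    rw [mul_smul_comm, map_smul, smul_eq_mul, mul_comm]
  have h3 : f = T ∘ₗ (LinearMap.mulRight R (∑ j, c j • b j)) := b.ext fun i => h1 i
  intro x
  conv_lhs => rw [h3]
  rfl

include hN h in
theorem centre_nat (m : ℕ) : 0 < m → m.Coprime N → ∀ a : Λ,
    (∀ x, ∃ y, x * a - a * x = (m : R) • y) →
      ∃ (s : R) (y : Λ), a = algebraMap R Λ s + (m : R) • y := by
  have := isDomain (R := R) hN
  obtain ⟨b⟩ := exists_basis hN h
  induction m using Nat.strong_induction_on with
  | _ m ih =>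
    intro hm hmN a ha
    by_cases h1 : m = 1
    · exact ⟨0, a, by rw [h1]; simp⟩
    · obtain ⟨p, hp, m', rfl⟩ := Nat.exists_prime_and_dvd h1
      have hpN : ¬ p ∣ N := fun hd =>
        hp.one_lt.ne' (Nat.eq_one_of_dvd_coprimes hmN (Dvd.intro _ rfl) hd)
      have hm' : 0 < m' := Nat.pos_of_ne_zero (by rintro rfl; simp at hm)
      have hmN' : m'.Coprime N := Nat.Coprime.coprime_mul_left hmN
      have hlt : m' < p * m' := by
        have := hp.two_le
        nlinarith
      obtain ⟨s, a', hs⟩ := ih m' hlt hm' hmN' a fun x => by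
        obtain ⟨y, hy⟩ := ha x
        exact ⟨(p : R) • y, by rw [hy, smul_smul]; push_cast; ring_nf⟩
      have hne : (m' : R) ≠ 0 := natCast_ne hN hm'.ne'
      have hinj : ∀ u v : Λ, (m' : R) • u = (m' : R) • v → u = v := by
        intro u v huv
        apply b.repr.injective
        ext i
        have h2 := DFunLike.congr_fun (congrArg b.repr huv) i
        rw [map_smul, map_smul, Finsupp.smul_apply, Finsupp.smul_apply, smul_eq_mul,
          smul_eq_mul] at h2
        exact mul_left_cancel₀ hne h2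
      have hcomm : ∀ x, ∃ y, x * a' - a' * x = (p : R) • y := by
        intro x
        obtain ⟨y, hy⟩ := ha x
        refine ⟨y, hinj _ _ ?_⟩
        rw [hs] at hy
        rw [smul_smul, mul_comm (m' : R), ← Nat.cast_mul, ← hy, smul_sub, mul_add, add_mul,
          Algebra.commutes s x, mul_smul_comm, smul_mul_assoc]
        abel
      have : Fact p.Prime := ⟨hp⟩
      obtain ⟨ρ, hsur, hk⟩ := h.fibre p hp hpN
      have hcen : ρ a' = ρ a' 0 0 • 1 := by
        refine central _ fun B => ?_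
        obtain ⟨x, rfl⟩ := hsur B
        obtain ⟨y, hy⟩ := hcomm x
        have := congrArg ρ hy
        rw [map_sub, map_mul, map_mul, rho_smul hp hpN, map_natCast, ZMod.natCast_self,
          zero_smul] at this
        exact sub_eq_zero.1 this
      have h0 : ρ (a' - algebraMap R Λ ((ρ a' 0 0).val : R)) = 0 := by
        rw [map_sub, rho_alg hp hpN, map_natCast, ZMod.natCast_zmod_val, ← hcen, sub_self]
      obtain ⟨y, hy⟩ := hk _ h0
      refine ⟨s + (m' : R) * ((ρ a' 0 0).val : R), y, ?_⟩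
      have ha' : a' = algebraMap R Λ ((ρ a' 0 0).val : R) + (p : Λ) * y := by rw [← hy]; abel
      rw [hs]
      conv_lhs => rw [ha']
      rw [natCast_mul (R := R), smul_add, smul_smul, map_add, map_mul, ← Algebra.smul_def,
        add_assoc]
      congr 3
      push_cast; ring

include hN h in
theorem centre (a : Λ) (c : R) (hc : c ≠ 0) (ha : ∀ x, ∃ y, x * a - a * x = c • y) :
    ∃ (s : R) (y : Λ), a = algebraMap R Λ s + c • y := by
  obtain ⟨u, m, hm, hmN, rfl⟩ := split (N := N) c hc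
  obtain ⟨s, y, h1⟩ := centre_nat hN h m hm hmN a fun x => by
    obtain ⟨y, hy⟩ := ha x
    exact ⟨(u : R) • y, by rw [hy, smul_smul, mul_comm]⟩
  refine ⟨s, ((u⁻¹ : Rˣ) : R) • y, ?_⟩
  rw [h1, smul_smul, mul_right_comm, Units.mul_inv, one_mul]

end Main

end Alg

end BW.S

namespace BW

/-- **R1.** -/
theorem IsQuaternionAzumaya.qalg {N : ℕ} (hN : N ≠ 0) {R Λ : Type*} [CommRing R]
    [IsLocalization.Away (N : ℤ) R] [Ring Λ] [Algebra R Λ] (h : IsQuaternionAzumaya N R Λ) :
    Nonempty (QAlg N R Λ) := by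
  obtain ⟨T, hT⟩ := S.exists_T hN h
  choose n hn using S.exists_n hN h T hT
  exact ⟨{
    T := T
    n := n
    conj := fun x => algebraMap R Λ (T x) - x
    T_one := S.T_one hN h T hT
    add_conj := fun x => by abel
    mul_conj := hn
    conj_mul_self := fun x => by rw [S.conj_comm, hn]
    conj_mul := S.conj_antihom hN h T hT
    inj := S.alg_inj hN h
    unimod := S.unimod hN h T hT n hn
    one_prim := S.one_prim hN h
    centre := S.centre hN h
    fibre := fun p hp hpN => by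
      obtain ⟨ρ, hs, hk⟩ := h.fibre p hp hpN
      exact ⟨ρ, hs, hk, fun x => by
        rw [S.rho_alg hp hpN, (S.phi_both hN h T hT n hn hp hpN ρ hk x).2]⟩ }⟩

end BW
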