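import Pool.Agent.BW.APMat
import Pool.Agent.BW.APSys
import Pool.Agent.BW.Struct

/-!
# Bounded width of `SL_n(Λ)` for all pairs of opposite parabolic subgroups
-/

set_option autoImplicit false

namespace BW.AP

open Matrix Pointwise

section

variable {N : ℕ} {R Λ : Type*} [CommRing R] [IsLocalization.Away (N : ℤ) R] [Ring Λ]
  [Algebra R Λ] [Module.Free R Λ] [Module.Finite R Λ]

/-- what is needed of an idempotent: fullness with two terms -/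
def Full {ν Λ : Type*} [Fintype ν] [Ring Λ] (e : Matrix ν ν Λ) : Prop :=
  ∃ φ w : Fin 2 → ν → Λ, ∑ t, φ t ⬝ᵥ (e *ᵥ w t) = 1

/-- an idempotent splits off a free summand -/
def Splits {ν Λ : Type*} [Fintype ν] [Ring Λ] (e : Matrix ν ν Λ) : Prop :=
  ∃ v φ : ν → Λ, e *ᵥ v = v ∧ φ ⬝ᵥ v = 1

/-- without zero divisors: fullness of every idempotent different from zero -/
theorem full_of_domain (hN : N ≠ 0) (Q : QAlg N R Λ) (hΛ : ∀ x : Λ, x ≠ 0 → Q.n x ≠ 0)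
    {ν : Type*} [Fintype ν] [DecidableEq ν] {e : Matrix ν ν Λ} (he : e * e = e) (h0 : e ≠ 0) :
    Full e := by
  obtain ⟨i, j, hij⟩ : ∃ i j, e i j ≠ 0 := by
    by_contra h
    push Not at h
    exact h0 (Matrix.ext h)
  set y : ν → Λ := e *ᵥ Pi.single j 1 with hy
  have hyi : y i = e i j := by rw [hy, Matrix.mulVec_single_one]; rfl
  have hey : e *ᵥ y = y := by rw [hy, Matrix.mulVec_mulVec, he]
  have hn : Q.n (y i) ≠ 0 := hΛ _ (by rw [hyi]; exact hij)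
  obtain ⟨w, hw, φ, μ, h⟩ := exists_unimod hN Q (sat_fix R hN e) (y := y) hey hn (fun _ => 0)
    (y i) hn
  refine ⟨![φ, Pi.single i μ], ![w, y], ?_⟩
  rw [Fin.sum_univ_two]
  simp only [Matrix.cons_val_zero, Matrix.cons_val_one]
  have hw' : e *ᵥ w = w := hw
  rw [hw', hey, single_dotProduct, ← h]
  simp only [zero_add]
  rfl

/-- without zero divisors: a free summand -/
theorem splits_of_domain (hN : N ≠ 0) (Q : QAlg N R Λ) (hΛ : ∀ x : Λ, x ≠ 0 → Q.n x ≠ 0)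
    {ν : Type*} [Fintype ν] [DecidableEq ν] {e : Matrix ν ν Λ} {v y : ν → Λ} {i : ν}
    (hv : e *ᵥ v = v) (hvi : v i ≠ 0) (hy0 : y ≠ 0) (hy : e *ᵥ y = y) (hyi : y i = 0) :
    Splits e := by
  obtain ⟨j, hj⟩ : ∃ j, y j ≠ 0 := by
    by_contra h
    push Not at h
    exact hy0 (funext h)
  obtain ⟨w, hw, φ, μ, h⟩ := exists_unimod hN Q (sat_inf R hN (sat_fix R hN e) i) (y := y)
    ⟨hy, hyi⟩ (hΛ _ hj) v (v i) (hΛ _ hvi)
  obtain ⟨hw1, hw2⟩ := hw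
  have hw1' : e *ᵥ w = w := hw1
  refine ⟨v + w, φ + Pi.single i μ, by rw [Matrix.mulVec_add, hv, hw1'], ?_⟩
  rw [add_dotProduct, single_dotProduct, Pi.add_apply, hw2, add_zero, ← h]
  rfl

/-- without zero divisors: one of two complementary idempotents splits -/
theorem splits_or (hN : N ≠ 0) (Q : QAlg N R Λ) (hΛ : ∀ x : Λ, x ≠ 0 → Q.n x ≠ 0)
    (h4 : Module.finrank R Λ = 4) {n : ℕ} (hn : 3 ≤ n) {e : Matrix (Fin n) (Fin n) Λ}
    (he : e * e = e) (h0 : e ≠ 0) (h1 : e ≠ 1) : Splits e ∨ Splits (1 - e) := by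
  have key : ∀ {e : Matrix (Fin n) (Fin n) Λ}, e * e = e → e ≠ 0 →
      ∃ (v : Fin n → Λ) (i : Fin n), e *ᵥ v = v ∧ v i ≠ 0 := by
    intro e he h0
    obtain ⟨i, j, hij⟩ : ∃ i j, e i j ≠ 0 := by
      by_contra h
      push Not at h
      exact h0 (Matrix.ext h)
    refine ⟨e *ᵥ Pi.single j 1, i, by rw [Matrix.mulVec_mulVec, he], ?_⟩
    rw [Matrix.mulVec_single_one]
    exact hij
  obtain ⟨v, i, hv, hvi⟩ := key he h0
  obtain ⟨v', i', hv', hvi'⟩ := key (f_mul_f he) (fun h => h1 (sub_eq_zero.mp h).symm)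
  rcases exists_ker hN h4 hn he i i' with ⟨y, hy0, hy, hyi⟩ | ⟨y, hy0, hy, hyi⟩
  · exact Or.inl (splits_of_domain hN Q hΛ hv hvi hy0 hy hyi)
  · exact Or.inr (splits_of_domain hN Q hΛ hv' hvi' hy0 hy hyi)

end

section

variable {N : ℕ} {n : ℕ} {Λ : Type} [Ring Λ]

/-- **the width** with respect to `e` if `1 - e` splits off a free summand and `e` is full -/
theorem le_of_splits (hS : Pool.Agent.Helper24.BWR.SR2' Λ) {n : ℕ} (hn : 3 ≤ n) {L : ℕ}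
    (hL : ∀ (g : (Matrix (Fin n) (Fin n) Λ)ˣ) (f : Fin n → ℤ), (∃ i j, f i ≠ f j) →
      ((Uc g f : Set (Matrix (Fin n) (Fin n) Λ)ˣ) *
        (Uc g (-f) : Set (Matrix (Fin n) (Fin n) Λ)ˣ)) ^ L =
          (SL1 N (Fin n) Λ : Set (Matrix (Fin n) (Fin n) Λ)ˣ))
    {e : Matrix (Fin n) (Fin n) Λ} (he : e * e = e) (hfull : Full e) (hsp : Splits (1 - e)) :
    (SL1 N (Fin n) Λ : Set (Matrix (Fin n) (Fin n) Λ)ˣ) ⊆
      SS e ^ ((1 + 3 * (n * 2) + (1 + 3 * (n * 2))) * L) := by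
  obtain ⟨v, φ, hv, hφ⟩ := hsp
  obtain ⟨φ', w', h'⟩ := hfull
  obtain ⟨a, b, hab⟩ := full_of_scalars φ' w' h'
  -- the idempotent of rank one
  set φ₁ := φ ᵥ* (1 - e) with hφ₁
  have hφv : φ₁ ⬝ᵥ v = 1 := by rw [hφ₁, ← Matrix.dotProduct_mulVec, hv, hφ]
  set g := Matrix.vecMulVec v φ₁ with hg
  have hev : e *ᵥ v = 0 := by
    have h1 : (1 - e) *ᵥ v = v := hv
    rw [Matrix.sub_mulVec, Matrix.one_mulVec, sub_eq_self] at h1
    exact h1
  have hφe : φ₁ ᵥ* e = 0 := by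
    rw [hφ₁, Matrix.vecMul_vecMul, f_mul_e he, Matrix.vecMul_zero]
  have hgg : g * g = g := by
    rw [hg, Matrix.vecMulVec_mul_vecMulVec, hφv, one_smul]
  have heg : e * g = 0 := by rw [hg, Matrix.mul_vecMulVec, hev, Matrix.zero_vecMulVec]
  have hge : g * e = 0 := by rw [hg, Matrix.vecMulVec_mul, hφe, Matrix.vecMulVec_zero]
  have h01 : (⟨0, by omega⟩ : Fin n) ≠ ⟨1, by omega⟩ := by
    simp [Fin.ext_iff]
  have h02 : (⟨0, by omega⟩ : Fin n) ≠ ⟨2, by omega⟩ := by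
    simp [Fin.ext_iff]
  have h12 : (⟨1, by omega⟩ : Fin n) ≠ ⟨2, by omega⟩ := by
    simp [Fin.ext_iff]
  obtain ⟨h, hh⟩ := exists_conj hS h01 h02 h12 hφv
  have h2 := hL h (fun i => if i = ⟨2, by omega⟩ then 0 else 1)
    ⟨⟨0, by omega⟩, ⟨2, by omega⟩, by simp [h02]⟩
  have h3 : (SL1 N (Fin n) Λ : Set (Matrix (Fin n) (Fin n) Λ)ˣ) ⊆ (UP g * UM g) ^ L := by
    rw [← h2, hg, hh]
    exact Set.pow_subset_pow_left (Set.mul_subset_mul (Uc_le_UP h _) (Uc_le_UM h _))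
  have h4 := width_of_width he hgg heg hge a b hab h3
  rwa [Fintype.card_prod, Fintype.card_fin, Fintype.card_fin] at h4

/-- **the width** with respect to all systems of idempotents -/
theorem width_of (hS : Pool.Agent.Helper24.BWR.SR2' Λ) {n : ℕ} (hn : 3 ≤ n) {L : ℕ}
    (hL : ∀ (g : (Matrix (Fin n) (Fin n) Λ)ˣ) (f : Fin n → ℤ), (∃ i j, f i ≠ f j) →
      ((Uc g f : Set (Matrix (Fin n) (Fin n) Λ)ˣ) *
        (Uc g (-f) : Set (Matrix (Fin n) (Fin n) Λ)ˣ)) ^ L =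
          (SL1 N (Fin n) Λ : Set (Matrix (Fin n) (Fin n) Λ)ˣ))
    (hfull : ∀ e : Matrix (Fin n) (Fin n) Λ, e * e = e → e ≠ 0 → Full e)
    (hsp : ∀ e : Matrix (Fin n) (Fin n) Λ, e * e = e → e ≠ 0 → e ≠ 1 →
      Splits e ∨ Splits (1 - e))
    {k : ℕ} (hk : 2 ≤ k) (e : Fin k → Matrix (Fin n) (Fin n) Λ)
    (he : CompleteOrthogonalIdempotents e) (he0 : ∀ i, e i ≠ 0) :
    Subgroup.closure (Rad e ∪ RadOp e) = SL1 N (Fin n) Λ ∧
      (Rad e * RadOp e) ^ (2 * ((1 + 3 * (n * 2) + (1 + 3 * (n * 2))) * L)) =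
        (SL1 N (Fin n) Λ : Set (Matrix (Fin n) (Fin n) Λ)ˣ) := by
  have hk0 : 0 < k := by omega
  set e₀ := e ⟨0, hk0⟩ with he₀
  have hid : e₀ * e₀ = e₀ := he.idem _
  have h0 : e₀ ≠ 0 := he0 _
  have h1 : e₀ ≠ 1 := by
    intro h
    have h2 : e₀ * e ⟨1, by omega⟩ = 0 := he.ortho (by
      simp [Fin.ext_iff])
    rw [h, one_mul] at h2
    exact he0 _ h2
  have key : (SL1 N (Fin n) Λ : Set (Matrix (Fin n) (Fin n) Λ)ˣ) ⊆
      SS e₀ ^ (2 * ((1 + 3 * (n * 2) + (1 + 3 * (n * 2))) * L)) := by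
    rcases hsp e₀ hid h0 h1 with h | h
    · have h2 := le_of_splits hS hn hL (f_mul_f hid)
        (hfull _ (f_mul_f hid) (fun h => h1 (sub_eq_zero.mp h).symm)) (by rwa [sub_sub_cancel])
      exact h2.trans (swap_le e₀ _)
    · have h2 := le_of_splits hS hn hL hid (hfull _ hid h0) h
      refine h2.trans (pow_le ?_)
      omega
  exact (width_eq N hk0 he key).symm

end

/-- **Theorem**: all parabolic subgroups, algebras without zero divisors -/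
theorem width_domain : ∃ L : ℕ → ℕ, ∀ n : ℕ, 3 ≤ n → ∀ N : ℕ, N ≠ 0 → ∀ (R Λ : Type)
    [CommRing R] [Ring Λ] [Algebra R Λ] [IsLocalization.Away (N : ℤ) R],
    IsQuaternionAzumaya N R Λ → (∀ x y : Λ, x * y = 0 → x = 0 ∨ y = 0) →
    ∀ (k : ℕ) (e : Fin k → Matrix (Fin n) (Fin n) Λ), 2 ≤ k →
      CompleteOrthogonalIdempotents e → (∀ i, e i ≠ 0) →
        Subgroup.closure (Rad e ∪ RadOp e) = SL1 N (Fin n) Λ ∧
        (Rad e * RadOp e) ^ L n = (SL1 N (Fin n) Λ : Set (Matrix (Fin n) (Fin n) Λ)ˣ) := by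
  obtain ⟨_, L, hL⟩ := BW.main
  refine ⟨fun n => 2 * ((1 + 3 * (n * 2) + (1 + 3 * (n * 2))) * L n),
    fun n hn N hN R Λ _ _ _ _ haz hdom k e hk he he0 => ?_⟩
  obtain ⟨Q⟩ := haz.qalg hN
  have hD := Loc.isDomain N R hN
  have hfree := haz.free
  have hfin : Module.Finite R Λ := Module.finite_of_finrank_pos (by rw [haz.rank]; norm_num)
  have hΛ : ∀ x : Λ, x ≠ 0 → Q.n x ≠ 0 := by
    intro x hx h
    have h1 := Q.mul_conj x
    rw [h, map_zero] at h1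
    rcases hdom _ _ h1 with h2 | h2
    · exact hx h2
    · have h3 := Q.conj_conj x
      rw [h2, Q.conj_zero] at h3
      exact hx h3.symm
  exact width_of (Q.sr2' hN) hn (fun g f hf => (hL n hn N hN R Λ haz g f hf).2.1)
    (fun e he h0 => full_of_domain hN Q hΛ he h0)
    (fun e he h0 h1 => splits_or hN Q hΛ haz.rank hn he h0 h1) hk e he he0

end BW.AP
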