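import Mathlib

/-!
# Opposite unipotent radicals of a pair of complementary idempotents

`A` is a ring and `e` an idempotent. `UP e` is the set of the units `1 + e x (1 - e)` and `UM e`
the set of the units `1 + (1 - e) x e`. If `e` is full, `1 = ∑ a_k e b_k`, and `g ≤ 1 - e` is
another idempotent, then the elements of `UP g` and `UM g` are products of a bounded number of
elements of `UP e` and `UM e`.
-/

set_option autoImplicit false

namespace BW.AP

open Pointwise

variable {A : Type*} [Ring A]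

/-- the units `1 + e x (1 - e)` -/
def UP (e : A) : Set Aˣ := {X | ∃ x : A, X.val = 1 + e * x * (1 - e)}

/-- the units `1 + (1 - e) x e` -/
def UM (e : A) : Set Aˣ := {X | ∃ x : A, X.val = 1 + (1 - e) * x * e}

/-- the unit `1 + x`, `x ^ 2 = 0` -/
def uu (x : A) (hx : x * x = 0) : Aˣ where
  val := 1 + x
  inv := 1 - x
  val_inv := by rw [add_mul, mul_sub, mul_sub, hx]; simp
  inv_val := by rw [sub_mul, mul_add, mul_add, hx]; simp

@[simp] theorem uu_val (x : A) (hx : x * x = 0) : (uu x hx).val = 1 + x := rfl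

theorem uu_inv (x : A) (hx : x * x = 0) :
    (uu x hx)⁻¹ = uu (-x) (by rw [neg_mul_neg, hx]) := by
  apply Units.ext
  change 1 - x = 1 + -x
  rw [sub_eq_add_neg]

theorem one_mem_UP (e : A) : (1 : Aˣ) ∈ UP e := ⟨0, by simp⟩

theorem one_mem_UM (e : A) : (1 : Aˣ) ∈ UM e := ⟨0, by simp⟩

theorem UM_eq (e : A) : UM (1 - e) = UP e := by
  ext X
  simp only [UM, UP, Set.mem_setOf_eq, sub_sub_cancel]

theorem UP_eq (e : A) : UP (1 - e) = UM e := by
  ext X
  simp only [UM, UP, Set.mem_setOf_eq, sub_sub_cancel]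

section idem

variable {e : A} (he : e * e = e)

include he

theorem e_mul_f : e * (1 - e) = 0 := by rw [mul_sub, mul_one, he, sub_self]

theorem f_mul_e : (1 - e) * e = 0 := by rw [sub_mul, one_mul, he, sub_self]

theorem f_mul_f : (1 - e) * (1 - e) = 1 - e := by rw [sub_mul, one_mul, e_mul_f he, sub_zero]

theorem sq_P (x : A) : e * x * (1 - e) * (e * x * (1 - e)) = 0 := by
  have h : e * x * (1 - e) * (e * x * (1 - e)) = e * x * ((1 - e) * e) * x * (1 - e) := by
    noncomm_ring
  rw [h, f_mul_e he]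
  simp

theorem sq_M (x : A) : (1 - e) * x * e * ((1 - e) * x * e) = 0 := by
  have h : (1 - e) * x * e * ((1 - e) * x * e) = (1 - e) * x * (e * (1 - e)) * x * e := by
    noncomm_ring
  rw [h, e_mul_f he]
  simp

theorem uu_mem_UP (x : A) : uu _ (sq_P he x) ∈ UP e := ⟨x, rfl⟩

theorem uu_mem_UM (x : A) : uu _ (sq_M he x) ∈ UM e := ⟨x, rfl⟩

theorem inv_mem_UP {X : Aˣ} (hX : X ∈ UP e) : X⁻¹ ∈ UP e := by
  obtain ⟨x, hx⟩ := hX
  have h : X = uu _ (sq_P he x) := Units.ext hx
  rw [h, uu_inv]
  exact ⟨-x, by rw [uu_val]; noncomm_ring⟩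

theorem inv_mem_UM {X : Aˣ} (hX : X ∈ UM e) : X⁻¹ ∈ UM e := by
  obtain ⟨x, hx⟩ := hX
  have h : X = uu _ (sq_M he x) := Units.ext hx
  rw [h, uu_inv]
  exact ⟨-x, by rw [uu_val]; noncomm_ring⟩

end idem

/-- the set `UP e * UM e` -/
def SS (e : A) : Set Aˣ := UP e * UM e

theorem one_mem_SS (e : A) : (1 : Aˣ) ∈ SS e := ⟨1, one_mem_UP e, 1, one_mem_UM e, mul_one 1⟩

theorem UP_le_SS (e : A) : UP e ⊆ SS e := fun X hX => ⟨X, hX, 1, one_mem_UM e, mul_one X⟩

theorem UM_le_SS (e : A) : UM e ⊆ SS e := fun X hX => ⟨1, one_mem_UP e, X, hX, one_mul X⟩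

/-- the commutator of an element of `UM e` and an element of `UP e` -/
theorem comm_mem {e : A} (he : e * e = e) {v u : Aˣ} (hv : v ∈ UM e) (hu : u ∈ UP e) :
    v * u * v⁻¹ * u⁻¹ ∈ SS e ^ 3 := by
  have h1 : v * u * v⁻¹ * u⁻¹ = v * (u * v⁻¹) * u⁻¹ := by group
  rw [h1, pow_succ, pow_two]
  exact Set.mul_mem_mul (Set.mul_mem_mul (UM_le_SS e hv) (Set.mul_mem_mul hu (inv_mem_UM he hv)))
    (UP_le_SS e (inv_mem_UP he hu))

/-- the commutator of an element of `UP e` and an element of `UM e` -/
theorem comm_mem' {e : A} (he : e * e = e) {u v : Aˣ} (hu : u ∈ UP e) (hv : v ∈ UM e) :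
    u * v * u⁻¹ * v⁻¹ ∈ SS e ^ 3 := by
  have h1 : u * v * u⁻¹ * v⁻¹ = (u * v) * (u⁻¹ * v⁻¹) * 1 := by group
  rw [h1, pow_succ, pow_two]
  exact Set.mul_mem_mul (Set.mul_mem_mul (Set.mul_mem_mul hu hv)
    (Set.mul_mem_mul (inv_mem_UP he hu) (inv_mem_UM he hv))) (one_mem_SS e)

/-- the commutator of `1 + x` and `1 + y` is `1 + x y` if `x ^ 2 = y ^ 2 = y x = 0` -/
theorem comm_val (x y : A) (hx : x * x = 0) (hy : y * y = 0) (hyx : y * x = 0) :
    (uu x hx * uu y hy * (uu x hx)⁻¹ * (uu y hy)⁻¹).val = 1 + x * y := by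
  rw [uu_inv, uu_inv]
  simp only [Units.val_mul, uu_val]
  have h1 : (1 + x) * (1 + y) * (1 + -x) * (1 + -y) = 1 + x * y - x * x - x * x * y * 0 +
      (x * x) * y - (y * x) - x * (y * x) + (y * x) * y + x * (y * x) * y - y * y - x * (y * y)
      + (x * x) * 0 := by
    noncomm_ring
  rw [h1, hx, hy, hyx]
  simp

section main

variable {e g : A} (he : e * e = e) (hg : g * g = g) (heg : e * g = 0) (hge : g * e = 0)
  {κ : Type*} [Fintype κ] [DecidableEq κ] (a b : κ → A) (hab : ∑ k, a k * e * b k = 1)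

include he hg heg hge

theorem f2_mul_g : (1 - e - g) * g = 0 := by
  rw [sub_mul, sub_mul, one_mul, heg, hg, sub_zero, sub_self]

theorem g_mul_f2 : g * (1 - e - g) = 0 := by
  rw [mul_sub, mul_sub, mul_one, hge, hg, sub_zero, sub_self]

theorem f2_mul_e : (1 - e - g) * e = 0 := by
  rw [sub_mul, sub_mul, one_mul, hge, he, sub_zero, sub_self]

theorem e_mul_f2 : e * (1 - e - g) = 0 := by
  rw [mul_sub, mul_sub, mul_one, heg, he, sub_zero, sub_self]

theorem f_mul_g : (1 - e) * g = g := by rw [sub_mul, one_mul, heg, sub_zero]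

theorem g_mul_f : g * (1 - e) = g := by rw [mul_sub, mul_one, hge, sub_zero]

theorem f_mul_f2 : (1 - e) * (1 - e - g) = 1 - e - g := by
  rw [mul_sub, f_mul_f he, f_mul_g he hg heg hge]

theorem f2_mul_f : (1 - e - g) * (1 - e) = 1 - e - g := by
  rw [sub_mul, f_mul_f he, g_mul_f he hg heg hge]

/-- the partial products -/
theorem prod_P (s : Finset κ) (z : A) : ∃ Y ∈ SS e ^ (3 * s.card),
    Y.val = 1 + ∑ k ∈ s, g * (a k * e * b k) * z * (1 - e - g) := by
  induction s using Finset.induction_on with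
  | empty => exact ⟨1, by simp, by simp⟩
  | insert k s hk ih =>
    obtain ⟨Y, hY, hY'⟩ := ih
    set f2 := 1 - e - g with hf2
    have h1 : f2 * g = 0 := f2_mul_g he hg heg hge
    have h2 : f2 * e = 0 := f2_mul_e he hg heg hge
    have hf : (1 - e) * g = g := f_mul_g he hg heg hge
    have hf' : f2 * (1 - e) = f2 := f2_mul_f he hg heg hge
    -- the two factors
    have hx : (1 - e) * (g * a k) * e = g * a k * e := by rw [← mul_assoc, hf]
    have hy : e * (b k * z * f2) * (1 - e) = e * b k * z * f2 := by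
      have : e * (b k * z * f2) * (1 - e) = e * b k * z * (f2 * (1 - e)) := by
        simp only [mul_assoc]
      rw [this, hf']
    have hxx : g * a k * e * (g * a k * e) = 0 := by
      have := sq_M he (g * a k)
      rwa [hx] at this
    have hyy : e * b k * z * f2 * (e * b k * z * f2) = 0 := by
      have := sq_P he (b k * z * f2)
      rwa [hy] at this
    have hyx : e * b k * z * f2 * (g * a k * e) = 0 := by
      have : e * b k * z * f2 * (g * a k * e) = e * b k * z * (f2 * g) * a k * e := by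
        simp only [mul_assoc]
      rw [this, h1]
      simp
    have hu : uu _ hxx ∈ UM e := ⟨g * a k, by rw [uu_val, hx]⟩
    have hv : uu _ hyy ∈ UP e := ⟨b k * z * f2, by rw [uu_val, hy]⟩
    have hc := comm_mem he hu hv
    have hcv := comm_val _ _ hxx hyy hyx
    refine ⟨Y * (uu _ hxx * uu _ hyy * (uu _ hxx)⁻¹ * (uu _ hyy)⁻¹), ?_, ?_⟩
    · rw [Finset.card_insert_of_notMem hk, mul_add, mul_one, pow_add]
      exact Set.mul_mem_mul hY hc
    · rw [Units.val_mul, hcv, hY', Finset.sum_insert hk]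
      have h3 : (∑ k ∈ s, g * (a k * e * b k) * z * f2) * (g * a k * e * (e * b k * z * f2)) =
          0 := by
        rw [Finset.sum_mul]
        refine Finset.sum_eq_zero fun l _ => ?_
        have : g * (a l * e * b l) * z * f2 * (g * a k * e * (e * b k * z * f2)) =
            g * (a l * e * b l) * z * (f2 * g) * a k * e * (e * b k * z * f2) := by
          simp only [mul_assoc]
        rw [this, h1]
        simp
      have h4 : g * a k * e * (e * b k * z * f2) = g * (a k * e * b k) * z * f2 := by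
        have : g * a k * e * (e * b k * z * f2) = g * a k * (e * e) * b k * z * f2 := by
          simp only [mul_assoc]
        rw [this, he]
        simp only [mul_assoc]
      rw [add_mul, one_mul, mul_add, mul_one, h3, add_zero, h4]
      abel

/-- the partial products -/
theorem prod_M (s : Finset κ) (z : A) : ∃ Y ∈ SS e ^ (3 * s.card),
    Y.val = 1 + ∑ k ∈ s, (1 - e - g) * z * (a k * e * b k) * g := by
  induction s using Finset.induction_on with
  | empty => exact ⟨1, by simp, by simp⟩
  | insert k s hk ih =>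
    obtain ⟨Y, hY, hY'⟩ := ih
    set f2 := 1 - e - g with hf2
    have h1 : g * f2 = 0 := g_mul_f2 he hg heg hge
    have hf : g * (1 - e) = g := g_mul_f he hg heg hge
    have hf' : (1 - e) * f2 = f2 := f_mul_f2 he hg heg hge
    -- the two factors
    have hx : (1 - e) * (f2 * z * a k) * e = f2 * z * a k * e := by
      have : (1 - e) * (f2 * z * a k) * e = ((1 - e) * f2) * z * a k * e := by
        simp only [mul_assoc]
      rw [this, hf']
    have hy : e * (b k * g) * (1 - e) = e * b k * g := by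
      have : e * (b k * g) * (1 - e) = e * b k * (g * (1 - e)) := by
        simp only [mul_assoc]
      rw [this, hf]
    have hxx : f2 * z * a k * e * (f2 * z * a k * e) = 0 := by
      have := sq_M he (f2 * z * a k)
      rwa [hx] at this
    have hyy : e * b k * g * (e * b k * g) = 0 := by
      have := sq_P he (b k * g)
      rwa [hy] at this
    have hyx : e * b k * g * (f2 * z * a k * e) = 0 := by
      have : e * b k * g * (f2 * z * a k * e) = e * b k * (g * f2) * z * a k * e := by
        simp only [mul_assoc]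
      rw [this, h1]
      simp
    have hu : uu _ hxx ∈ UM e := ⟨f2 * z * a k, by rw [uu_val, hx]⟩
    have hv : uu _ hyy ∈ UP e := ⟨b k * g, by rw [uu_val, hy]⟩
    have hc := comm_mem he hu hv
    have hcv := comm_val _ _ hxx hyy hyx
    refine ⟨Y * (uu _ hxx * uu _ hyy * (uu _ hxx)⁻¹ * (uu _ hyy)⁻¹), ?_, ?_⟩
    · rw [Finset.card_insert_of_notMem hk, mul_add, mul_one, pow_add]
      exact Set.mul_mem_mul hY hc
    · rw [Units.val_mul, hcv, hY', Finset.sum_insert hk]
      have h4 : f2 * z * a k * e * (e * b k * g) = f2 * z * (a k * e * b k) * g := by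
        have : f2 * z * a k * e * (e * b k * g) = f2 * z * a k * (e * e) * b k * g := by
          simp only [mul_assoc]
        rw [this, he]
        simp only [mul_assoc]
      have h3 : (∑ k ∈ s, f2 * z * (a k * e * b k) * g) * (f2 * z * (a k * e * b k) * g) = 0 := by
        rw [Finset.sum_mul]
        refine Finset.sum_eq_zero fun l _ => ?_
        have : f2 * z * (a l * e * b l) * g * (f2 * z * (a k * e * b k) * g) =
            f2 * z * (a l * e * b l) * (g * f2) * z * (a k * e * b k) * g := by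
          simp only [mul_assoc]
        rw [this, h1]
        simp
      rw [h4, add_mul, one_mul, mul_add, mul_one, h3, add_zero]
      abel

include hab

/-- the elements of `UP g` -/
theorem UP_le : UP g ⊆ SS e ^ (1 + 3 * Fintype.card κ) := by
  rintro X ⟨x, hx⟩
  obtain ⟨Y, hY, hY'⟩ := prod_P he hg heg hge a b Finset.univ x
  have h1 : (1 - e) * g = g := f_mul_g he hg heg hge
  have hz : (1 - e) * (g * x) * e = g * x * e := by rw [← mul_assoc, h1]
  have hzz : g * x * e * (g * x * e) = 0 := by
    have := sq_M he (g * x)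
    rwa [hz] at this
  have hu : uu _ hzz ∈ UM e := ⟨g * x, by rw [uu_val, hz]⟩
  have hX : X = uu _ hzz * Y := by
    apply Units.ext
    rw [Units.val_mul, uu_val, hY', ← Finset.sum_mul, ← Finset.sum_mul, ← Finset.mul_sum, hab, hx,
      mul_one]
    have h2 : g * x * e * (g * x * (1 - e - g)) = g * x * (e * g) * x * (1 - e - g) := by
      simp only [mul_assoc]
    rw [add_mul, one_mul, mul_add, mul_one, h2, heg]
    noncomm_ring
  rw [hX, pow_add, pow_one]
  refine Set.mul_mem_mul (UM_le_SS e hu) ?_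
  rwa [Finset.card_univ] at hY

/-- the elements of `UM g` -/
theorem UM_le : UM g ⊆ SS e ^ (1 + 3 * Fintype.card κ) := by
  rintro X ⟨x, hx⟩
  obtain ⟨Y, hY, hY'⟩ := prod_M he hg heg hge a b Finset.univ x
  have h1 : g * (1 - e) = g := g_mul_f he hg heg hge
  have hz : e * (x * g) * (1 - e) = e * x * g := by
    have : e * (x * g) * (1 - e) = e * x * (g * (1 - e)) := by simp only [mul_assoc]
    rw [this, h1]
  have hzz : e * x * g * (e * x * g) = 0 := by
    have := sq_P he (x * g)
    rwa [hz] at this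
  have hu : uu _ hzz ∈ UP e := ⟨x * g, by rw [uu_val, hz]⟩
  have hX : X = uu _ hzz * Y := by
    apply Units.ext
    have h0 : ∀ k, (1 - e - g) * x * (a k * e * b k) * g = (1 - e - g) * x * (a k * e * b k) * g :=
      fun _ => rfl
    rw [Units.val_mul, uu_val, hY', ← Finset.sum_mul, ← Finset.mul_sum, hab, hx, mul_one]
    have h2 : e * x * g * ((1 - e - g) * x * g) = e * x * (g * (1 - e - g)) * x * g := by
      simp only [mul_assoc]
    rw [add_mul, one_mul, mul_add, mul_one, h2, g_mul_f2 he hg heg hge]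
    noncomm_ring
  rw [hX, pow_add, pow_one]
  refine Set.mul_mem_mul (UP_le_SS e hu) ?_
  rwa [Finset.card_univ] at hY

/-- **bounded width passes from `g` to `e`** -/
theorem width_of_width {L : ℕ} {G : Set Aˣ} (h : G ⊆ (UP g * UM g) ^ L) :
    G ⊆ SS e ^ ((1 + 3 * Fintype.card κ + (1 + 3 * Fintype.card κ)) * L) := by
  refine h.trans ?_
  rw [pow_mul]
  refine Set.pow_subset_pow_left ?_
  rw [pow_add]
  exact Set.mul_subset_mul (UP_le he hg heg hge a b hab) (UM_le he hg heg hge a b hab)

end main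

theorem pow_le {e : A} {k l : ℕ} (h : k ≤ l) : SS e ^ k ⊆ SS e ^ l :=
  Set.pow_subset_pow_right (one_mem_SS e) h

/-- exchange of the two radicals -/
theorem swap_le (e : A) (L : ℕ) : SS (1 - e) ^ L ⊆ SS e ^ (2 * L) := by
  rw [pow_mul]
  refine Set.pow_subset_pow_left ?_
  rw [SS, UP_eq, UM_eq, pow_two]
  exact Set.mul_subset_mul (UM_le_SS e) (UP_le_SS e)

end BW.AP
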