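import Pool.Agent.BW.APLat
import Pool.Agent.BW.APRing
import Pool.Agent.BW.Main

/-!
# Idempotent matrices over `Λ`: fullness, splitting, conjugation to a standard idempotent
-/

set_option autoImplicit false

namespace BW.AP

open Matrix Pointwise
open Pool.Agent.Helper24.BWR (Rel SR2' EJ)

section conj

variable {n S : Type*} [DecidableEq n] [Fintype n] [Ring S]

/-- an idempotent `v φ`, `φ v = 1`, of rank one is conjugate to `E_qq` -/
theorem exists_conj (hS : SR2' S) {i₀ i₁ q : n} (h01 : i₀ ≠ i₁) (h0q : i₀ ≠ q) (h1q : i₁ ≠ q)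
    {v φ : n → S} (hφ : φ ⬝ᵥ v = 1) :
    ∃ h : (Matrix n n S)ˣ,
      Matrix.vecMulVec v φ = h.val * Matrix.single q q 1 * (h⁻¹).val := by
  obtain ⟨e, -, he⟩ := Rel.unimod hS (J := Finset.univ) (Finset.mem_univ i₀) (Finset.mem_univ i₁)
    (Finset.mem_univ q) h01 h0q h1q (c := v) (u := φ)
    (fun k hk => absurd (Finset.mem_univ k) hk) hφ
  set φ' := φ ᵥ* (e⁻¹).val with hφ'
  set t := φ' - Pi.single q 1 with ht
  have hv : v = (e⁻¹).val *ᵥ Pi.single q 1 := by
    rw [he, Matrix.mulVec_mulVec, ← Units.val_mul, inv_mul_cancel, Units.val_one,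
      Matrix.one_mulVec]
  have hφe : φ = φ' ᵥ* e.val := by
    rw [hφ', Matrix.vecMul_vecMul, ← Units.val_mul, inv_mul_cancel, Units.val_one,
      Matrix.vecMul_one]
  have hq : φ' q = 1 := by
    have h1 : φ' ⬝ᵥ Pi.single q 1 = 1 := by
      rw [he, hφ', Matrix.dotProduct_mulVec, Matrix.vecMul_vecMul, ← Units.val_mul,
        inv_mul_cancel, Units.val_one, Matrix.vecMul_one, hφ]
    rwa [dotProduct_single, mul_one] at h1
  have htq : t ⬝ᵥ Pi.single q 1 = 0 := by
    rw [dotProduct_single, mul_one, ht, Pi.sub_apply, hq, Pi.single_eq_same, sub_self]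
  have hE : (Matrix.single q q 1 : Matrix n n S) =
      Matrix.vecMulVec (Pi.single q 1) (Pi.single q 1) := by
    ext i j
    rw [Matrix.vecMulVec_apply, Matrix.single_apply]
    by_cases h1 : i = q
    · by_cases h2 : j = q
      · subst h1; subst h2; simp
      · subst h1
        rw [if_neg (fun h => h2 h.2.symm), Pi.single_eq_of_ne h2, mul_zero]
    · rw [if_neg (fun h => h1 h.1.symm), Pi.single_eq_of_ne h1, zero_mul]
  have hsq : Matrix.vecMulVec (Pi.single q 1) t * Matrix.vecMulVec (Pi.single q 1) t = 0 := by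
    rw [Matrix.vecMulVec_mul_vecMulVec, htq, zero_smul, Matrix.vecMulVec_zero]
  have h1 : Matrix.vecMulVec (Pi.single q 1) t * Matrix.single q q (1 : S) = 0 := by
    rw [hE, Matrix.vecMulVec_mul_vecMulVec, htq, zero_smul, Matrix.vecMulVec_zero]
  have h2 : Matrix.single q q (1 : S) * (1 + Matrix.vecMulVec (Pi.single q 1) t) =
      Matrix.vecMulVec (Pi.single q 1) φ' := by
    have h3 : (Pi.single q (1 : S) : n → S) ⬝ᵥ Pi.single q 1 = 1 := by
      rw [dotProduct_single, Pi.single_eq_same, mul_one]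
    rw [mul_add, mul_one, hE, Matrix.vecMulVec_mul_vecMulVec, h3, one_smul, ← Matrix.vecMulVec_add,
      ht, add_sub_cancel]
  refine ⟨e⁻¹ * (uu _ hsq)⁻¹, ?_⟩
  rw [_root_.mul_inv_rev, inv_inv, inv_inv, Units.val_mul, Units.val_mul, uu_val, uu_inv, uu_val]
  have h4 : (1 + -Matrix.vecMulVec (Pi.single q 1) t) * Matrix.single q q (1 : S) =
      Matrix.single q q 1 := by
    rw [add_mul, one_mul, neg_mul, h1, neg_zero, add_zero]
  calc Matrix.vecMulVec v φ = (e⁻¹).val * Matrix.vecMulVec (Pi.single q 1) φ' * e.val := by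
        rw [Matrix.mul_vecMulVec, Matrix.vecMulVec_mul, ← hv, ← hφe]
    _ = _ := by
        rw [← h2]
        nth_rewrite 1 [← h4]
        simp only [mul_assoc]

/-- the first radical of the standard idempotent -/
theorem Uc_le_UP (h : (Matrix n n S)ˣ) (q : n) :
    (Uc h (fun i => if i = q then 0 else 1) : Set (Matrix n n S)ˣ) ⊆
      UP (h.val * Matrix.single q q 1 * (h⁻¹).val) := by
  rintro _ ⟨Y, hY, rfl⟩
  have hY' : ∀ i j, ¬ (i = q ∧ j ≠ q) → (Y.val - 1) i j = 0 := by
    intro i j hij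
    have h1 := hY i j
    rw [Matrix.sub_apply, sub_eq_zero]
    apply h1
    intro h2
    apply hij
    by_cases hi : i = q
    · refine ⟨hi, fun hj => ?_⟩
      simp [hi, hj] at h2
    · by_cases hj : j = q
      · simp [hi, hj] at h2
      · simp [hi, hj] at h2
  set E : Matrix n n S := Matrix.single q q 1 with hE
  have h1 : E * (Y.val - 1) = Y.val - 1 := by
    ext i j
    by_cases hi : i = q
    · subst hi
      rw [hE, Matrix.single_mul_apply_same, one_mul]
    · rw [hE, Matrix.single_mul_apply_of_ne _ _ _ _ _ hi, hY' i j (fun h => hi h.1)]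
  have h2 : (Y.val - 1) * E = 0 := by
    ext i j
    by_cases hj : j = q
    · subst hj
      rw [hE, Matrix.mul_single_apply_same, mul_one, hY' i j (fun h => h.2 rfl)]
      rfl
    · rw [hE, Matrix.mul_single_apply_of_ne _ _ _ _ _ hj]
      rfl
  refine ⟨h.val * (Y.val - 1) * (h⁻¹).val, ?_⟩
  have hh : (h⁻¹).val * h.val = 1 := by rw [← Units.val_mul, inv_mul_cancel, Units.val_one]
  have hh' : h.val * (h⁻¹).val = 1 := by rw [← Units.val_mul, mul_inv_cancel, Units.val_one]
  have h3 : h.val * E * (h⁻¹).val * (h.val * (Y.val - 1) * (h⁻¹).val) *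
      (1 - h.val * E * (h⁻¹).val) = h.val * (Y.val - 1) * (h⁻¹).val := by
    calc _ = h.val * E * ((h⁻¹).val * h.val) * (Y.val - 1) * (h⁻¹).val -
          h.val * E * ((h⁻¹).val * h.val) * (Y.val - 1) * ((h⁻¹).val * h.val) * E * (h⁻¹).val := by
          noncomm_ring
      _ = h.val * (E * (Y.val - 1)) * (h⁻¹).val -
          h.val * E * ((Y.val - 1) * E) * (h⁻¹).val := by
          rw [hh]
          noncomm_ring
      _ = _ := by rw [h1, h2]; simp
  rw [h3]
  change h.val * Y.val * (h⁻¹).val = _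
  have h4 : h.val * (Y.val - 1) * (h⁻¹).val = h.val * Y.val * (h⁻¹).val - h.val * (h⁻¹).val := by
    noncomm_ring
  rw [h4, hh']
  abel

/-- the second radical of the standard idempotent -/
theorem Uc_le_UM (h : (Matrix n n S)ˣ) (q : n) :
    (Uc h (-(fun i => if i = q then 0 else 1)) : Set (Matrix n n S)ˣ) ⊆
      UM (h.val * Matrix.single q q 1 * (h⁻¹).val) := by
  rintro _ ⟨Y, hY, rfl⟩
  have hY' : ∀ i j, ¬ (j = q ∧ i ≠ q) → (Y.val - 1) i j = 0 := by
    intro i j hij
    have h1 := hY i j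
    rw [Matrix.sub_apply, sub_eq_zero]
    apply h1
    intro h2
    apply hij
    rw [Pi.neg_apply, Pi.neg_apply, neg_lt_neg_iff] at h2
    by_cases hj : j = q
    · refine ⟨hj, fun hi => ?_⟩
      simp [hi, hj] at h2
    · by_cases hi : i = q
      · simp [hi, hj] at h2
      · simp [hi, hj] at h2
  set E : Matrix n n S := Matrix.single q q 1 with hE
  have h1 : (Y.val - 1) * E = Y.val - 1 := by
    ext i j
    by_cases hj : j = q
    · subst hj
      rw [hE, Matrix.mul_single_apply_same, mul_one]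
    · rw [hE, Matrix.mul_single_apply_of_ne _ _ _ _ _ hj, hY' i j (fun h => hj h.1)]
  have h2 : E * (Y.val - 1) = 0 := by
    ext i j
    by_cases hi : i = q
    · subst hi
      rw [hE, Matrix.single_mul_apply_same, one_mul, hY' i j (fun h => h.2 rfl)]
      rfl
    · rw [hE, Matrix.single_mul_apply_of_ne _ _ _ _ _ hi]
      rfl
  refine ⟨h.val * (Y.val - 1) * (h⁻¹).val, ?_⟩
  have hh : (h⁻¹).val * h.val = 1 := by rw [← Units.val_mul, inv_mul_cancel, Units.val_one]
  have hh' : h.val * (h⁻¹).val = 1 := by rw [← Units.val_mul, mul_inv_cancel, Units.val_one]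
  have h3 : (1 - h.val * E * (h⁻¹).val) * (h.val * (Y.val - 1) * (h⁻¹).val) *
      (h.val * E * (h⁻¹).val) = h.val * (Y.val - 1) * (h⁻¹).val := by
    calc _ = h.val * (Y.val - 1) * ((h⁻¹).val * h.val) * E * (h⁻¹).val -
          h.val * E * ((h⁻¹).val * h.val) * (Y.val - 1) * ((h⁻¹).val * h.val) * E * (h⁻¹).val := by
          noncomm_ring
      _ = h.val * ((Y.val - 1) * E) * (h⁻¹).val -
          h.val * (E * (Y.val - 1)) * E * (h⁻¹).val := by
          rw [hh]
          noncomm_ring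
      _ = _ := by rw [h1, h2]; simp
  rw [h3]
  change h.val * Y.val * (h⁻¹).val = _
  have h4 : h.val * (Y.val - 1) * (h⁻¹).val = h.val * Y.val * (h⁻¹).val - h.val * (h⁻¹).val := by
    noncomm_ring
  rw [h4, hh']
  abel

end conj

section full

variable {n S : Type*} [DecidableEq n] [Fintype n] [Ring S]

theorem vec_e_vec (x φ w z : n → S) (e : Matrix n n S) (i j : n) :
    (Matrix.vecMulVec x φ * e * Matrix.vecMulVec w z) i j = x i * (φ ⬝ᵥ (e *ᵥ w)) * z j := by
  rw [Matrix.vecMulVec_mul, Matrix.vecMulVec_mul_vecMulVec, Matrix.vecMulVec_apply, Pi.smul_apply,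
    smul_eq_mul, Matrix.dotProduct_mulVec, mul_assoc]

/-- from two scalars to the identity matrix -/
theorem full_of_scalars {e : Matrix n n S} (φ w : Fin 2 → n → S)
    (h : ∑ t, φ t ⬝ᵥ (e *ᵥ w t) = 1) :
    ∃ a b : n × Fin 2 → Matrix n n S, ∑ k, a k * e * b k = 1 := by
  refine ⟨fun k => Matrix.vecMulVec (Pi.single k.1 1) (φ k.2),
    fun k => Matrix.vecMulVec (w k.2) (Pi.single k.1 1), ?_⟩
  ext i j
  rw [Matrix.sum_apply, Fintype.sum_prod_type]
  simp only [vec_e_vec]
  have h1 : ∀ l : n, ∑ t : Fin 2, (Pi.single l (1 : S) : n → S) i * (φ t ⬝ᵥ (e *ᵥ w t)) *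
      (Pi.single l (1 : S) : n → S) j =
      (Pi.single l (1 : S) : n → S) i * (Pi.single l (1 : S) : n → S) j := by
    intro l
    rw [← Finset.sum_mul, ← Finset.mul_sum, h, mul_one]
  simp only [h1]
  rw [Finset.sum_eq_single i]
  · rw [Pi.single_eq_same, one_mul, Matrix.one_apply]
    by_cases hij : i = j
    · subst hij; simp
    · rw [if_neg hij, Pi.single_eq_of_ne (Ne.symm hij)]
  · intro l _ hl
    rw [Pi.single_eq_of_ne hl.symm, zero_mul]
  · intro hi
    exact absurd (Finset.mem_univ i) hi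

end full

section idem

variable {N : ℕ} {R Λ : Type*} [CommRing R] [IsLocalization.Away (N : ℤ) R] [Ring Λ]
  [Algebra R Λ] [Module.Free R Λ] [Module.Finite R Λ] {ν : Type*} [Fintype ν] [DecidableEq ν]

omit [Module.Free R Λ] [Module.Finite R Λ] in
theorem natCast_cancel (R : Type*) [CommRing R] [IsLocalization.Away (N : ℤ) R] [Algebra R Λ]
    [Module.Free R Λ] [Module.Finite R Λ] (hN : N ≠ 0) {p : ℕ} (hp : p.Prime) (hpN : ¬ p ∣ N)
    {x y : Λ} (h : (p : Λ) * x = (p : Λ) * y) : x = y := by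
  have hD := Loc.isDomain N R hN
  have hp0 : (p : R) ≠ 0 := (Loc.prime hp hpN hN).ne_zero
  rw [natCast_smul (R := R), natCast_smul (R := R)] at h
  exact smul_right_injective Λ hp0 h

/-- the vectors fixed by `e` -/
theorem sat_fix (R : Type*) [CommRing R] [IsLocalization.Away (N : ℤ) R] [Algebra R Λ]
    [Module.Free R Λ] [Module.Finite R Λ] (hN : N ≠ 0) (e : Matrix ν ν Λ) :
    Sat N {y : ν → Λ | e *ᵥ y = y} where
  add v w hv hw := by
    change e *ᵥ (v + w) = v + w
    rw [Matrix.mulVec_add, hv, hw]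
  rmul v hv x := by
    funext i
    have h1 := congrFun hv i
    change ∑ j, e i j * (v j * x) = v i * x
    rw [← h1]
    change _ = (∑ j, e i j * v j) * x
    rw [Finset.sum_mul]
    exact Finset.sum_congr rfl fun j _ => (mul_assoc _ _ _).symm
  div p hp hpN v hv := by
    funext i
    have h1 := congrFun hv i
    refine natCast_cancel R hN hp hpN ?_
    change _ = (p : Λ) * v i
    rw [← h1]
    change (p : Λ) * ∑ j, e i j * v j = ∑ j, e i j * ((p : Λ) * v j)
    rw [Finset.mul_sum]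
    refine Finset.sum_congr rfl fun j _ => ?_
    rw [← mul_assoc, ← mul_assoc, (Nat.cast_commute p (e i j)).eq]

/-- the vectors with an entry equal to zero -/
theorem sat_inf {S : Set (ν → Λ)} (R : Type*) [CommRing R] [IsLocalization.Away (N : ℤ) R]
    [Algebra R Λ] [Module.Free R Λ] [Module.Finite R Λ] (hN : N ≠ 0) (hS : Sat N S) (j : ν) :
    Sat N {y : ν → Λ | y ∈ S ∧ y j = 0} where
  add v w hv hw := by
    refine ⟨hS.add v w hv.1 hw.1, ?_⟩
    change v j + w j = 0
    rw [hv.2, hw.2, add_zero]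
  rmul v hv x := by
    refine ⟨hS.rmul v hv.1 x, ?_⟩
    change v j * x = 0
    rw [hv.2, zero_mul]
  div p hp hpN v hv := by
    refine ⟨hS.div p hp hpN v hv.1, natCast_cancel R hN hp hpN ?_⟩
    rw [mul_zero]
    exact hv.2

/-- the number of linearly independent columns -/
theorem exists_ker (hN : N ≠ 0) (h4 : Module.finrank R Λ = 4) {n : ℕ} (hn : 3 ≤ n)
    {e : Matrix (Fin n) (Fin n) Λ} (he : e * e = e) (i j : Fin n) :
    (∃ y : Fin n → Λ, y ≠ 0 ∧ e *ᵥ y = y ∧ y i = 0) ∨
      ∃ y : Fin n → Λ, y ≠ 0 ∧ (1 - e) *ᵥ y = y ∧ y j = 0 := by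
  by_contra hcon
  push Not at hcon
  obtain ⟨h1, h2⟩ := hcon
  have hD := Loc.isDomain N R hN
  let T : (Fin n → Λ) →ₗ[R] Λ × Λ :=
    { toFun := fun y => ((e *ᵥ y) i, ((1 - e) *ᵥ y) j)
      map_add' := fun y z => by
        simp only [Matrix.mulVec_add, Pi.add_apply, Prod.mk_add_mk]
      map_smul' := fun r y => by
        simp only [Matrix.mulVec_smul, Pi.smul_apply, RingHom.id_apply, Prod.smul_mk] }
  have hT : Function.Injective T := by
    rw [injective_iff_map_eq_zero]
    intro y hy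
    have h3 : (e *ᵥ y) i = 0 := congrArg Prod.fst hy
    have h4 : ((1 - e) *ᵥ y) j = 0 := congrArg Prod.snd hy
    have h5 : e *ᵥ y = 0 := by
      by_contra h6
      exact h1 _ h6 (by rw [Matrix.mulVec_mulVec, he]) h3
    have h7 : (1 - e) *ᵥ y = 0 := by
      by_contra h6
      exact h2 _ h6 (by rw [Matrix.mulVec_mulVec, f_mul_f he]) h4
    have h8 : y = e *ᵥ y + (1 - e) *ᵥ y := by
      rw [← Matrix.add_mulVec, add_sub_cancel, Matrix.one_mulVec]
    rw [h8, h5, h7, add_zero]
  have h9 := LinearMap.finrank_le_finrank_of_injective hT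
  rw [Module.finrank_pi_fintype, Module.finrank_prod] at h9
  simp only [h4, Finset.sum_const, Finset.card_univ, Fintype.card_fin, smul_eq_mul] at h9
  omega

end idem

end BW.AP
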