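import Pool.Agent.BW.APMain

/-!
# All parabolic subgroups of `SL_n(Λ)`: algebras with zero divisors
-/

set_option autoImplicit false
set_option linter.unusedSectionVars false

namespace BW.AP

open Matrix Pointwise

section mat

variable {F : Type*} [Field F]

/-- matrices over a field form a prime ring -/
theorem prime_mat {A B : Matrix (Fin 2) (Fin 2) F} (h : ∀ M, A * M * B = 0) : A = 0 ∨ B = 0 := by
  by_contra hcon
  push Not at hcon
  obtain ⟨hA, hB⟩ := hcon
  obtain ⟨i, j, hij⟩ : ∃ i j, A i j ≠ 0 := by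
    by_contra h
    push Not at h
    exact hA (Matrix.ext h)
  obtain ⟨k, l, hkl⟩ : ∃ i j, B i j ≠ 0 := by
    by_contra h
    push Not at h
    exact hB (Matrix.ext h)
  have h1 := congrFun (congrFun (h (Matrix.single j k 1)) i) l
  have h2 : (A * (Matrix.single j k 1 : Matrix (Fin 2) (Fin 2) F) * B :
      Matrix (Fin 2) (Fin 2) F) i l = A i j * B k l := by
    rw [mul_assoc, Matrix.mul_apply, Finset.sum_eq_single j]
    · rw [Matrix.single_mul_apply_same, one_mul]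
    · intro a _ ha
      rw [Matrix.single_mul_apply_of_ne _ _ _ _ _ ha, mul_zero]
    · intro h; exact absurd (Finset.mem_univ j) h
  rw [h2] at h1
  exact mul_ne_zero hij hkl h1

end mat

variable {N : ℕ} {R Λ : Type*} [CommRing R] [IsLocalization.Away (N : ℤ) R] [Ring Λ]
  [Algebra R Λ] [Module.Free R Λ] [Module.Finite R Λ]

omit [Module.Free R Λ] [Module.Finite R Λ] in
/-- corner of an idempotent of norm `0` -/
theorem corner (Q : QAlg N R Λ) {ε : Λ} (h0 : Q.n ε = 0) (z : Λ) :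
    ε * z * ε = Q.T (z * ε) • ε := by
  have h1 := congrArg (fun x => ε * x) (Q.add_conj (z * ε))
  simp only [mul_add] at h1
  rw [Q.conj_mul, ← mul_assoc ε (Q.conj ε), Q.mul_conj, h0, map_zero, zero_mul, add_zero] at h1
  rw [mul_assoc, h1, Algebra.smul_def, Algebra.commutes]

/-- matrix units -/
structure MU (Q : QAlg N R Λ) (ε p q : Λ) : Prop where
  idem : ε * ε = ε
  ep : ε * p = p
  pe : p * ε = 0
  qe : q * ε = q
  eq : ε * q = 0
  pq : p * q = ε
  qp : q * p = 1 - ε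
  T1 : Q.T ε = 1
  cor : ∀ z, ε * z * ε = Q.T (z * ε) • ε

/-- **matrix units** in an algebra with a non-zero element of norm `0` -/
theorem exists_mu (hN : N ≠ 0) (Q : QAlg N R Λ) {x : Λ} (hx : x ≠ 0) (hnx : Q.n x = 0) :
    ∃ ε p q : Λ, MU Q ε p q := by
  have hD := Loc.isDomain N R hN
  have hP := Loc.isPrincipalIdealRing N R
  obtain ⟨c, x0, w, hc, rfl, hw⟩ := Q.content_ne x hx
  have hn0 : Q.n x0 = 0 := by
    rw [Q.n_smul] at hnx
    rcases mul_eq_zero.mp hnx with h | h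
    · exact absurd (pow_eq_zero_iff (two_ne_zero)|>.mp h) hc
    · exact h
  set ε := x0 * w with hε
  have hnε : Q.n ε = 0 := by rw [hε, Q.n_mul, hn0, zero_mul]
  have hTε : Q.T ε = 1 := hw
  have hadd : ε + Q.conj ε = 1 := by rw [Q.add_conj, hTε, map_one]
  have hconj : Q.conj ε = 1 - ε := by rw [← hadd]; abel
  have hidem : ε * ε = ε := by
    have h1 := Q.mul_conj ε
    rw [hnε, map_zero, hconj, mul_sub, mul_one, sub_eq_zero] at h1
    exact h1.symm
  have hcor := corner Q hnε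
  have hnε' : Q.n (1 - ε) = 0 := by
    apply Q.inj
    rw [← Q.mul_conj, map_zero]
    have h1 : Q.conj (1 - ε) = ε := by
      rw [← hconj, Q.conj_conj]
    rw [h1, sub_mul, one_mul, hidem, sub_self]
  have hcor' := corner Q hnε'
  -- a non-zero element of `ε Λ (1 - ε)`
  obtain ⟨z, hz⟩ : ∃ z, ε * z * (1 - ε) ≠ 0 := by
    by_contra hcon
    push Not at hcon
    obtain ⟨p, hpN, hp⟩ := Nat.exists_infinite_primes (N + 1)
    have hpN' : ¬ p ∣ N := fun h => by
      have := Nat.le_of_dvd (Nat.pos_of_ne_zero hN) h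
      omega
    have := Fact.mk hp
    obtain ⟨ρ, hρ, hker, -⟩ := Q.fibre p hp hpN'
    have hnu := Loc.not_isUnit hp hpN' (R := R)
    have h1 : ∀ M, ρ ε * M * ρ (1 - ε) = 0 := by
      intro M
      obtain ⟨z, rfl⟩ := hρ M
      rw [← map_mul, ← map_mul, hcon, map_zero]
    have hT1 : Q.T (1 - ε) = 1 := by
      rw [map_sub, Q.T_one, hTε]; norm_num
    rcases prime_mat h1 with h2 | h2
    · obtain ⟨y, hy⟩ := hker _ h2
      rw [hy, natCast_smul (R := R), map_smul, smul_eq_mul] at hTε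
      exact hnu (IsUnit.of_mul_eq_one _ hTε)
    · obtain ⟨y, hy⟩ := hker _ h2
      rw [hy, natCast_smul (R := R), map_smul, smul_eq_mul] at hT1
      exact hnu (IsUnit.of_mul_eq_one _ hT1)
  obtain ⟨d, p, t, hd, hp, ht⟩ := Q.content_ne _ hz
  have hep : ε * p = p := by
    apply smul_right_injective Λ hd
    simp only
    rw [← mul_smul_comm, ← hp, ← mul_assoc, ← mul_assoc, hidem]
  have hpe : p * ε = 0 := by
    apply smul_right_injective Λ hd
    simp only
    rw [← smul_mul_assoc, ← hp, smul_zero, mul_assoc, sub_mul, one_mul, hidem, sub_self, mul_zero]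
  have hTpt : Q.T (p * t * ε) = 1 := by
    rw [Q.T_comm, ← mul_assoc, hep, ht]
  have hTtp : Q.T (t * p) = 1 := by rw [Q.T_comm, ht]
  refine ⟨ε, p, (1 - ε) * t * ε, ⟨hidem, hep, hpe, ?_, ?_, ?_, ?_, hTε, hcor⟩⟩
  · rw [mul_assoc, hidem]
  · have h1 : ε * ((1 - ε) * t * ε) = (ε - ε * ε) * t * ε := by noncomm_ring
    rw [h1, hidem, sub_self, zero_mul, zero_mul]
  · have h1 : p * ((1 - ε) * t * ε) = ε * (p * t) * ε := by
      have h2 : p * ((1 - ε) * t * ε) = p * t * ε - (p * ε) * t * ε := by noncomm_ring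
      rw [h2, hpe, zero_mul, zero_mul, sub_zero, ← mul_assoc ε, hep]
    rw [h1, hcor, hTpt, one_smul]
  · have h1 : (1 - ε) * t * ε * p = (1 - ε) * (t * p) * (1 - ε) := by
      have h2 : (1 - ε) * (t * p) * (1 - ε) = (1 - ε) * (t * p) - (1 - ε) * t * (p * ε) := by
        noncomm_ring
      rw [h2, hpe, mul_zero, sub_zero, mul_assoc ((1 - ε) * t), hep, mul_assoc]
    rw [h1, hcor']
    have h3 : Q.T (t * p * (1 - ε)) = 1 := by
      rw [mul_sub, mul_one, map_sub, mul_assoc, hpe, mul_zero, map_zero, sub_zero, hTtp]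
    rw [h3, one_smul]

section vec

variable {ν : Type*} [Fintype ν] [DecidableEq ν]

omit [DecidableEq ν] in
theorem smul_dot (c : R) (v w : ν → Λ) : (c • v) ⬝ᵥ w = c • (v ⬝ᵥ w) := by
  simp only [dotProduct, Pi.smul_apply, Finset.smul_sum, smul_mul_assoc]

/-- primitive vectors in `Λ ^ ν ε` -/
theorem exists_prim (hN : N ≠ 0) (Q : QAlg N R Λ) {ε p q : Λ} (hM : MU Q ε p q) {v : ν → Λ}
    (hv0 : v ≠ 0) (hv : ∀ i, v i * ε = v i) :
    ∃ (c : R) (v0 φ : ν → Λ), c ≠ 0 ∧ v = c • v0 ∧ (∀ i, v0 i * ε = v0 i) ∧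
      (∀ i, ε * φ i = φ i) ∧ φ ⬝ᵥ v0 = ε := by
  have hD := Loc.isDomain N R hN
  have hP := Loc.isPrincipalIdealRing N R
  obtain ⟨c, v0, f, hc, rfl, hf⟩ := BW.content (R := R) v hv0
  have hv0 : ∀ i, v0 i * ε = v0 i := by
    intro i
    apply smul_right_injective Λ hc
    simp only
    have := hv i
    rwa [Pi.smul_apply, smul_mul_assoc] at this
  choose a ha using fun i => Q.unimod (f ∘ₗ LinearMap.single R (fun _ => Λ) i)
  have h1 : Q.T (a ⬝ᵥ v0) = 1 := by
    have h2 : f v0 = ∑ i, f (Pi.single i (v0 i)) := by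
      rw [← map_sum, Finset.univ_sum_single]
    rw [dotProduct, map_sum, ← hf, h2]
    refine Finset.sum_congr rfl fun i _ => ?_
    have h3 := ha i (v0 i)
    rw [LinearMap.comp_apply] at h3
    rw [Q.T_comm]
    exact h3.symm
  have h2 : (a ⬝ᵥ v0) * ε = a ⬝ᵥ v0 := by
    rw [dotProduct, Finset.sum_mul]
    exact Finset.sum_congr rfl fun i _ => by rw [mul_assoc, hv0]
  refine ⟨c, v0, fun i => ε * a i, hc, rfl, hv0, fun i => by rw [← mul_assoc, hM.idem], ?_⟩
  have h3 : (fun i => ε * a i) ⬝ᵥ v0 = ε * (a ⬝ᵥ v0) := by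
    rw [dotProduct, dotProduct, Finset.mul_sum]
    exact Finset.sum_congr rfl fun i _ => mul_assoc _ _ _
  rw [h3, ← h2, ← mul_assoc, hM.cor, h2, h1, one_smul]

/-- an idempotent fixes a non-zero vector of `Λ ^ ν ε` -/
theorem exists_fix (Q : QAlg N R Λ) {ε p q : Λ} (hM : MU Q ε p q) {e : Matrix ν ν Λ}
    (he : e * e = e) (h0 : e ≠ 0) :
    ∃ v : ν → Λ, v ≠ 0 ∧ e *ᵥ v = v ∧ ∀ i, v i * ε = v i := by
  obtain ⟨i, j, hij⟩ : ∃ i j, e i j ≠ 0 := by
    by_contra h
    push Not at h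
    exact h0 (Matrix.ext h)
  have key : ∀ x : Λ, e *ᵥ (e *ᵥ Pi.single j x) = e *ᵥ Pi.single j x := fun x => by
    rw [Matrix.mulVec_mulVec, he]
  have key2 : ∀ x : Λ, ∀ k, (e *ᵥ Pi.single j x) k = e k j * x := fun x k => by
    rw [Matrix.mulVec_single]; rfl
  by_cases h1 : e i j * ε = 0
  · refine ⟨e *ᵥ Pi.single j q, ?_, key q, fun k => by rw [key2, mul_assoc, hM.qe]⟩
    intro h2
    apply hij
    have h3 := congrFun h2 i
    rw [key2] at h3
    have h4 : e i j = e i j * ε + e i j * q * p := by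
      rw [mul_assoc, hM.qp, ← mul_add, add_sub_cancel, mul_one]
    rw [h4, h1, h3]
    simp
  · refine ⟨e *ᵥ Pi.single j ε, ?_, key ε, fun k => by rw [key2, mul_assoc, hM.idem]⟩
    intro h2
    apply h1
    rw [← key2, h2]
    rfl

omit [Module.Finite R Λ] in
theorem fix_of_smul (hN : N ≠ 0) {e : Matrix ν ν Λ} {c : R} (hc : c ≠ 0) {v : ν → Λ}
    (h : e *ᵥ (c • v) = c • v) : e *ᵥ v = v := by
  have hD := Loc.isDomain N R hN
  rw [Matrix.mulVec_smul] at h
  funext i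
  exact smul_right_injective Λ hc (congrFun h i)

/-- fullness -/
theorem full_of_mu (hN : N ≠ 0) (Q : QAlg N R Λ) {ε p q : Λ} (hM : MU Q ε p q)
    {e : Matrix ν ν Λ} (he : e * e = e) (h0 : e ≠ 0) : Full e := by
  obtain ⟨v, hv0, hev, hvε⟩ := exists_fix Q hM he h0
  obtain ⟨c, w, φ, hc, rfl, hwε, hφ, h1⟩ := exists_prim hN Q hM hv0 hvε
  have hew := fix_of_smul hN hc hev
  refine ⟨![φ, fun i => q * φ i], ![w, fun i => w i * p], ?_⟩
  rw [Fin.sum_univ_two]
  simp only [Matrix.cons_val_zero, Matrix.cons_val_one]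
  have h2 : e *ᵥ (fun i => w i * p) = fun i => w i * p := by
    funext i
    have h3 := congrFun hew i
    change ∑ j, e i j * (w j * p) = _
    rw [← h3]
    change _ = (∑ j, e i j * w j) * p
    rw [Finset.sum_mul]
    exact Finset.sum_congr rfl fun j _ => (mul_assoc _ _ _).symm
  rw [hew, h1, h2]
  have h3 : (fun i => q * φ i) ⬝ᵥ (fun i => w i * p) = q * (φ ⬝ᵥ w) * p := by
    rw [dotProduct, dotProduct, Finset.mul_sum, Finset.sum_mul]
    exact Finset.sum_congr rfl fun i _ => by simp only [mul_assoc]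
  rw [h3, h1, hM.qe, hM.qp, add_sub_cancel]

/-- splitting from two vectors -/
theorem splits_of_mu (hN : N ≠ 0) (Q : QAlg N R Λ) {ε p q : Λ} (hM : MU Q ε p q)
    {e : Matrix ν ν Λ} {v φ y : ν → Λ} (hev : e *ᵥ v = v) (hvε : ∀ i, v i * ε = v i)
    (h1 : φ ⬝ᵥ v = ε) (hy0 : y ≠ 0) (hey : e *ᵥ y = y)
    (hyε : ∀ i, y i * ε = y i) (hφy : φ ⬝ᵥ y = 0) : Splits e := by
  have hD := Loc.isDomain N R hN
  obtain ⟨c, w, ψ, hc, rfl, hwε, hψ, h2⟩ := exists_prim hN Q hM hy0 hyε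
  have hew := fix_of_smul hN hc hey
  have hφw : φ ⬝ᵥ w = 0 := by
    rw [dotProduct_smul] at hφy
    apply smul_right_injective Λ hc
    simp only
    rw [hφy, smul_zero]
  set s := Q.T (ψ ⬝ᵥ v) with hs
  have hψv : ψ ⬝ᵥ v = s • ε := by
    have h3 : ε * (ψ ⬝ᵥ v) * ε = ψ ⬝ᵥ v := by
      rw [dotProduct, Finset.mul_sum, Finset.sum_mul]
      exact Finset.sum_congr rfl fun i _ => by rw [mul_assoc, mul_assoc, hvε, ← mul_assoc, hψ]
    have h4 : (ψ ⬝ᵥ v) * ε = ψ ⬝ᵥ v := by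
      rw [dotProduct, Finset.sum_mul]
      exact Finset.sum_congr rfl fun i _ => by rw [mul_assoc, hvε]
    rw [← h3, hM.cor, h4]
  set χ := ψ - s • φ with hχ
  have hχv : χ ⬝ᵥ v = 0 := by
    rw [hχ, sub_dotProduct, smul_dot, h1, hψv, sub_self]
  have hχw : χ ⬝ᵥ w = ε := by
    rw [hχ, sub_dotProduct, smul_dot, hφw, smul_zero, sub_zero, h2]
  refine ⟨v + fun i => w i * p, φ + fun i => q * χ i, ?_, ?_⟩
  · rw [Matrix.mulVec_add, hev]
    congr 1
    funext i
    have h3 := congrFun hew i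
    change ∑ j, e i j * (w j * p) = w i * p
    rw [← h3]
    change _ = (∑ j, e i j * w j) * p
    rw [Finset.sum_mul]
    exact Finset.sum_congr rfl fun j _ => (mul_assoc _ _ _).symm
  · have e1 : φ ⬝ᵥ (fun i => w i * p) = (φ ⬝ᵥ w) * p := by
      rw [dotProduct, dotProduct, Finset.sum_mul]
      exact Finset.sum_congr rfl fun i _ => (mul_assoc _ _ _).symm
    have e2 : (fun i => q * χ i) ⬝ᵥ v = q * (χ ⬝ᵥ v) := by
      rw [dotProduct, dotProduct, Finset.mul_sum]
      exact Finset.sum_congr rfl fun i _ => mul_assoc _ _ _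
    have e3 : (fun i => q * χ i) ⬝ᵥ (fun i => w i * p) = q * (χ ⬝ᵥ w) * p := by
      rw [dotProduct, dotProduct, Finset.mul_sum, Finset.sum_mul]
      exact Finset.sum_congr rfl fun i _ => by simp only [mul_assoc]
    rw [add_dotProduct, dotProduct_add, dotProduct_add, h1, e1, e2, e3, hφw, hχv, hχw, hM.qe,
      hM.qp, zero_mul, mul_zero, add_zero, zero_add, add_sub_cancel]

end vec

/-- one of two complementary idempotents splits -/
theorem splits_or_mu (hN : N ≠ 0) (Q : QAlg N R Λ) {ε p q : Λ} (hM : MU Q ε p q)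
    {n : ℕ} (hn : 3 ≤ n) {e : Matrix (Fin n) (Fin n) Λ}
    (he : e * e = e) (h0 : e ≠ 0) (h1 : e ≠ 1) : Splits e ∨ Splits (1 - e) := by
  have hD := Loc.isDomain N R hN
  have key : ∀ {e : Matrix (Fin n) (Fin n) Λ}, e * e = e → e ≠ 0 →
      ∃ v φ : Fin n → Λ, e *ᵥ v = v ∧ (∀ i, v i * ε = v i) ∧ (∀ i, ε * φ i = φ i) ∧
        φ ⬝ᵥ v = ε := by
    intro e he h0
    obtain ⟨v, hv0, hev, hvε⟩ := exists_fix Q hM he h0
    obtain ⟨c, w, φ, hc, rfl, hwε, hφ, h1⟩ := exists_prim hN Q hM hv0 hvε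
    exact ⟨w, φ, fix_of_smul hN hc hev, hwε, hφ, h1⟩
  obtain ⟨v, φ, hev, hvε, hφ, h2⟩ := key he h0
  obtain ⟨v', φ', hev', hvε', hφ', h2'⟩ := key (f_mul_f he) (fun h => h1 (sub_eq_zero.mp h).symm)
  by_contra hcon
  push Not at hcon
  obtain ⟨hc1, hc2⟩ := hcon
  have g1 : ∀ y : Fin n → Λ, e *ᵥ y = y → (∀ i, y i * ε = y i) → φ ⬝ᵥ y = 0 → y = 0 := by
    intro y ha hb hc
    by_contra hy0
    exact hc1 (splits_of_mu hN Q hM hev hvε h2 hy0 ha hb hc)
  have g2 : ∀ y : Fin n → Λ, (1 - e) *ᵥ y = y → (∀ i, y i * ε = y i) → φ' ⬝ᵥ y = 0 →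
      y = 0 := by
    intro y ha hb hc
    by_contra hy0
    exact hc2 (splits_of_mu hN Q hM hev' hvε' h2' hy0 ha hb hc)
  have hdot : ∀ (f : Fin n → Λ) (y : Fin n → Λ), (∀ i, ε * f i = f i) →
      (∀ i, y i * ε = y i) → Q.T (f ⬝ᵥ y) = 0 → f ⬝ᵥ y = 0 := by
    intro f y hf hy hT
    have h3 : ε * (f ⬝ᵥ y) * ε = f ⬝ᵥ y := by
      rw [dotProduct, Finset.mul_sum, Finset.sum_mul]
      exact Finset.sum_congr rfl fun i _ => by rw [mul_assoc, mul_assoc, hy, ← mul_assoc, hf]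
    have h4 : (f ⬝ᵥ y) * ε = f ⬝ᵥ y := by
      rw [dotProduct, Finset.sum_mul]
      exact Finset.sum_congr rfl fun i _ => by rw [mul_assoc, hy]
    rw [← h3, hM.cor, h4, hT, zero_smul]
  have hmul : ∀ (A : Matrix (Fin n) (Fin n) Λ) (r : Fin n → R) (i : Fin n),
      (A *ᵥ fun j => r j • ε) i * ε = (A *ᵥ fun j => r j • ε) i := by
    intro A r i
    change (∑ j, A i j * (r j • ε)) * ε = ∑ j, A i j * (r j • ε)
    rw [Finset.sum_mul]
    exact Finset.sum_congr rfl fun j _ => by rw [mul_assoc, smul_mul_assoc, hM.idem]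
  let T : (Fin n → R) →ₗ[R] R × R :=
    { toFun := fun r => (Q.T (φ ⬝ᵥ (e *ᵥ fun j => r j • ε)),
        Q.T (φ' ⬝ᵥ ((1 - e) *ᵥ fun j => r j • ε)))
      map_add' := fun r s => by
        have h3 : (fun j => (r + s) j • ε) = (fun j => r j • ε) + fun j => s j • ε := by
          funext j
          simp only [Pi.add_apply, add_smul]
        simp only [h3, Matrix.mulVec_add, dotProduct_add, map_add, Prod.mk_add_mk]
      map_smul' := fun c r => by
        have h3 : (fun j => (c • r) j • ε) = c • (fun j => r j • ε) := by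
          funext j
          simp only [Pi.smul_apply, smul_eq_mul, mul_smul]
        simp only [h3, Matrix.mulVec_smul, dotProduct_smul, map_smul, RingHom.id_apply,
          Prod.smul_mk] }
  have hT : Function.Injective T := by
    rw [injective_iff_map_eq_zero]
    intro r hr
    have h3 : Q.T (φ ⬝ᵥ (e *ᵥ fun j => r j • ε)) = 0 := congrArg Prod.fst hr
    have h4 : Q.T (φ' ⬝ᵥ ((1 - e) *ᵥ fun j => r j • ε)) = 0 := congrArg Prod.snd hr
    have h5 := g1 _ (by rw [Matrix.mulVec_mulVec, he]) (hmul e r)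
      (hdot φ _ hφ (hmul e r) h3)
    have h6 := g2 _ (by rw [Matrix.mulVec_mulVec, f_mul_f he]) (hmul (1 - e) r)
      (hdot φ' _ hφ' (hmul (1 - e) r) h4)
    have h7 : (fun j => r j • ε) = 0 := by
      have h8 : (fun j => r j • ε) = e *ᵥ (fun j => r j • ε) + (1 - e) *ᵥ fun j => r j • ε := by
        rw [← Matrix.add_mulVec, add_sub_cancel, Matrix.one_mulVec]
      rw [h8, h5, h6, add_zero]
    funext j
    have h9 := congrArg Q.T (congrFun h7 j)
    simp only [map_smul, hM.T1, smul_eq_mul, mul_one, Pi.zero_apply, map_zero] at h9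
    exact h9
  have h9 := LinearMap.finrank_le_finrank_of_injective hT
  rw [Module.finrank_prod, Module.finrank_self, Module.finrank_fintype_fun_eq_card,
    Fintype.card_fin] at h9
  omega

end BW.AP
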