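import Pool.Agent.BW.Core

namespace BW
open Matrix

/-!
# Row R3: the Carter - Keller argument in the product ring
-/

/-- the Mennicke symbol of the row `(a, b)` is trivial -/
def SymOne {R : Type*} [CommRing R] (a b : R) : Prop :=
  ∀ A : (Matrix (Fin 2) (Fin 2) R)ˣ, A.val.det = 1 → A.val 0 0 = a → A.val 0 1 = b → A ∈ H R

section sym
variable {R : Type*} [CommRing R]

/-- the unit with given matrix of determinant one -/
def mkU (M : Matrix (Fin 2) (Fin 2) R) (h : M.det = 1) : (Matrix (Fin 2) (Fin 2) R)ˣ where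
  val := M
  inv := M.adjugate
  val_inv := by rw [Matrix.mul_adjugate, h, one_smul]
  inv_val := by rw [Matrix.adjugate_mul, h, one_smul]

theorem el_memH (i j : Fin 2) (h : i ≠ j) (x : R) : el i j h x ∈ H R := by
  apply comm_elementary
  · fin_cases i <;> fin_cases j <;> first
      | exact absurd rfl h
      | simp [el, Matrix.det_fin_two, Matrix.single]
  · left
    fin_cases i <;> fin_cases j <;> first
      | exact absurd rfl h
      | simp [el, Matrix.single]

theorem det_el (i j : Fin 2) (h : i ≠ j) (x : R) : (el i j h x).val.det = 1 := by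
  fin_cases i <;> fin_cases j <;> first
    | exact absurd rfl h
    | simp [el, Matrix.det_fin_two, Matrix.single]

theorem SymOne.left {a b : R} (t : R) (h : SymOne (a + t * b) b) : SymOne a b := by
  intro A hA ha hb
  have h1 : A * el 1 0 (by decide) t ∈ H R := by
    apply h
    · rw [Units.val_mul, Matrix.det_mul, hA, det_el, one_mul]
    · simp [Units.val_mul, Matrix.mul_apply, Fin.sum_univ_two, el, Matrix.single, ha, hb, mul_comm]
    · simp [Units.val_mul, Matrix.mul_apply, Fin.sum_univ_two, el, Matrix.single, ha, hb]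
  exact (Subgroup.mul_mem_cancel_right _ (el_memH _ _ _ _)).1 h1

theorem SymOne.right {a b : R} (t : R) (h : SymOne a (b + t * a)) : SymOne a b := by
  intro A hA ha hb
  have h1 : A * el 0 1 (by decide) t ∈ H R := by
    apply h
    · rw [Units.val_mul, Matrix.det_mul, hA, det_el, one_mul]
    · simp [Units.val_mul, Matrix.mul_apply, Fin.sum_univ_two, el, Matrix.single, ha, hb, mul_comm]
    · simp [Units.val_mul, Matrix.mul_apply, Fin.sum_univ_two, el, Matrix.single, ha, hb,
        mul_comm, add_comm]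
  exact (Subgroup.mul_mem_cancel_right _ (el_memH _ _ _ _)).1 h1

theorem SymOne.unit_left {a b : R} (h : IsUnit a) : SymOne a b := by
  intro A hA ha hb
  exact comm_elementary A hA (Or.inl (ha ▸ h))

theorem SymOne.mul {a b b' : R} (h : SymOne a b) (h' : SymOne a b') : SymOne a (b * b') := by
  intro C hC ha hb
  have hd : a * C.val 1 1 - b * b' * C.val 1 0 = 1 := by
    rw [← hC, Matrix.det_fin_two, ha, hb]
  let A := mkU (!![a, b; b' * C.val 1 0, C.val 1 1] : Matrix (Fin 2) (Fin 2) R) (by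
    rw [Matrix.det_fin_two_of]; linear_combination hd)
  let B := mkU (!![a, b'; b * C.val 1 0, C.val 1 1] : Matrix (Fin 2) (Fin 2) R) (by
    rw [Matrix.det_fin_two_of]; linear_combination hd)
  have hA : A ∈ H R := h A (by
    show Matrix.det !![a, b; b' * C.val 1 0, C.val 1 1] = 1
    rw [Matrix.det_fin_two_of]; linear_combination hd) rfl rfl
  have hB : B ∈ H R := h' B (by
    show Matrix.det !![a, b'; b * C.val 1 0, C.val 1 1] = 1
    rw [Matrix.det_fin_two_of]; linear_combination hd) rfl rfl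
  have hs := comm_star A B C (by
    show Matrix.det !![a, b; b' * C.val 1 0, C.val 1 1] = 1
    rw [Matrix.det_fin_two_of]; linear_combination hd) (by
    show Matrix.det !![a, b'; b * C.val 1 0, C.val 1 1] = 1
    rw [Matrix.det_fin_two_of]; linear_combination hd) hC rfl ha hb
  have := (Subgroup.mul_mem_cancel_left _ (mul_mem hA hB)).1 hs
  exact (Subgroup.inv_mem_iff _).1 this

theorem SymOne.of_mem {A : (Matrix (Fin 2) (Fin 2) R)ˣ} (hA : A.val.det = 1) (h : A ∈ H R) :
    SymOne (A.val 0 0) (A.val 0 1) := by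
  intro B hB h0 h1
  have := comm_same_row B A hB hA h0.symm h1.symm
  exact (Subgroup.mul_mem_cancel_right _ (inv_mem h)).1 this

end sym

section prod
variable {ι : Type*}

/-- a family of matrices of determinant one -/
def F : (ι → SpecialLinearGroup (Fin 2) ℤ) →* (Matrix (Fin 2) (Fin 2) (ι → ℤ))ˣ :=
  Units.liftRight
    { toFun := fun X => Matrix.of fun r s i => (X i).val r s
      map_one' := by
        ext r s i
        fin_cases r <;> fin_cases s <;> simp
      map_mul' := fun X Y => by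
        ext r s i
        simp [Matrix.mul_apply, Fin.sum_univ_two] }
    (fun X => mkU (Matrix.of fun r s i => (X i).val r s) (by
      ext i
      have := (X i).2
      rw [Matrix.det_fin_two] at this ⊢
      simpa using this)) (fun X => rfl)

@[simp] theorem F_apply (X : ι → SpecialLinearGroup (Fin 2) ℤ) (r s : Fin 2) (i : ι) :
    (F X).val r s i = (X i).val r s := rfl

theorem det_F (X : ι → SpecialLinearGroup (Fin 2) ℤ) : (F X).val.det = 1 := by
  ext i
  have := (X i).2
  rw [Matrix.det_fin_two] at this ⊢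
  simpa using this

theorem exists_F (A : (Matrix (Fin 2) (Fin 2) (ι → ℤ))ˣ) (hA : A.val.det = 1) :
    ∃ X, F X = A := by
  refine ⟨fun i => ⟨Matrix.of fun r s => A.val r s i, ?_⟩, ?_⟩
  · have := congrFun hA i
    rw [Matrix.det_fin_two] at this ⊢
    simpa using this
  · ext r s i
    rfl

theorem val_mul_apply (X Y : SpecialLinearGroup (Fin 2) ℤ) (r s : Fin 2) :
    (X * Y).val r s = X.val r 0 * Y.val 0 s + X.val r 1 * Y.val 1 s := by
  have : (X * Y).val = X.val * Y.val := rfl
  rw [this, Matrix.mul_apply, Fin.sum_univ_two]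

theorem det_eq (X : SpecialLinearGroup (Fin 2) ℤ) :
    X.val 0 0 * X.val 1 1 - X.val 0 1 * X.val 1 0 = 1 := by
  have := X.2
  rwa [Matrix.det_fin_two] at this

/-- Cayley - Hamilton for powers -/
theorem pow_form (X : SpecialLinearGroup (Fin 2) ℤ) (m : ℕ) :
    ∃ f g : ℤ, ((X ^ m).val 0 0 = f + g * X.val 0 0 ∧ (X ^ m).val 0 1 = g * X.val 0 1 ∧
      (X ^ m).val 1 0 = g * X.val 1 0 ∧ (X ^ m).val 1 1 = f + g * X.val 1 1) ∧
      (X.val 0 1) ∣ (X ^ m).val 0 0 - (X.val 0 0) ^ m := by
  induction m with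
  | zero => exact ⟨1, 0, by simp, by simp⟩
  | succ m ih =>
    obtain ⟨f, g, ⟨h1, h2, h3, h4⟩, k, hk⟩ := ih
    have hdet := det_eq X
    refine ⟨-g, f + g * (X.val 0 0 + X.val 1 1), ⟨?_, ?_, ?_, ?_⟩, ?_⟩
    · rw [pow_succ, val_mul_apply, h1, h2]
      linear_combination (-g) * hdet
    · rw [pow_succ, val_mul_apply, h1, h2]
      ring
    · rw [pow_succ, val_mul_apply, h3, h4]
      ring
    · rw [pow_succ, val_mul_apply, h3, h4]
      linear_combination (-g) * hdet
    · rw [pow_succ, val_mul_apply, h2]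
      exact ⟨k * X.val 0 0 + g * X.val 1 0, by rw [pow_succ]; linear_combination X.val 0 0 * hk⟩

theorem det_form (X Y : SpecialLinearGroup (Fin 2) ℤ) (f g : ℤ)
    (h : Y.val 0 0 = f + g * X.val 0 0 ∧ Y.val 0 1 = g * X.val 0 1 ∧
      Y.val 1 0 = g * X.val 1 0 ∧ Y.val 1 1 = f + g * X.val 1 1) :
    g ∣ (f + 1) * (f - 1) := by
  have h1 := det_eq Y
  have hdet := det_eq X
  rw [h.1, h.2.1, h.2.2.1, h.2.2.2] at h1
  exact ⟨-(f * (X.val 0 0 + X.val 1 1) + g), by linear_combination h1 - g ^ 2 * hdet⟩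

/-- the power lemma (first row) -/
theorem pow_memH (X : ι → SpecialLinearGroup (Fin 2) ℤ) (m : ι → ℕ)
    (h : ∀ i, (X i).val 0 1 ∣ (X i).val 0 0 ^ m i - 1 ∨ (X i).val 0 1 ∣ (X i).val 0 0 ^ m i + 1) :
    F (fun i => X i ^ m i) ∈ H (ι → ℤ) := by
  choose f g h1 h2 using fun i => pow_form (X i) (m i)
  have h3 := fun i => det_form (X i) (X i ^ m i) (f i) (g i) (h1 i)
  choose g1 g2 h4 h5 h6 using fun i => exists_dvd_and_dvd_of_dvd_mul (h3 i)
  choose k1 hk1 using h4
  choose k2 hk2 using h5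
  set a : ι → ℤ := fun i => (X i).val 0 0 with ha
  set b : ι → ℤ := fun i => (X i).val 0 1 with hb
  have e0 : (F (fun i => X i ^ m i)).val 0 0 = f + g * a := by
    ext i
    exact (h1 i).1
  have e1 : (F (fun i => X i ^ m i)).val 0 1 = g1 * (g2 * b) := by
    ext i
    simp only [F_apply, Pi.mul_apply]
    rw [(h1 i).2.1, h6 i, hb, mul_assoc]
  have s1 : SymOne (f + g * a) g1 := by
    apply SymOne.left (-(k1 + g2 * a))
    apply SymOne.unit_left
    have : f + g * a + -(k1 + g2 * a) * g1 = -1 := by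
      ext i
      simp only [Pi.add_apply, Pi.mul_apply, Pi.neg_apply, Pi.one_apply]
      rw [h6 i]
      linear_combination hk1 i
    rw [this]
    exact isUnit_one.neg
  have s2 : SymOne (f + g * a) g2 := by
    apply SymOne.left (-(k2 + g1 * a))
    apply SymOne.unit_left
    have : f + g * a + -(k2 + g1 * a) * g2 = 1 := by
      ext i
      simp only [Pi.add_apply, Pi.mul_apply, Pi.neg_apply, Pi.one_apply]
      rw [h6 i]
      linear_combination hk2 i
    rw [this]
    exact isUnit_one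
  have s3 : SymOne (f + g * a) b := by
    have : ∀ i, ∃ t u : ℤ, (f i + g i * a i) + t * b i = u ∧ (u = 1 ∨ u = -1) := by
      intro i
      obtain ⟨k, hk⟩ := h2 i
      have e2 : (X i ^ m i).val 0 0 = f i + g i * a i := (h1 i).1
      rw [e2] at hk
      rcases h i with ⟨l, hl⟩ | ⟨l, hl⟩
      · exact ⟨-(k + l), 1, by linear_combination hk + hl, Or.inl rfl⟩
      · exact ⟨-(k + l), -1, by linear_combination hk + hl, Or.inr rfl⟩
    choose t u ht hu using this
    apply SymOne.left t
    apply SymOne.unit_left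
    have : f + g * a + t * b = u := by
      ext i
      exact ht i
    rw [this]
    refine isUnit_iff_exists_inv.2 ⟨u, ?_⟩
    ext i
    rcases hu i with h | h <;> simp [h]
  have s := (s1.mul (s2.mul s3))
  exact s _ (det_F _) e0 e1

/-- the power lemma (first column) -/
theorem pow_memH' (X : ι → SpecialLinearGroup (Fin 2) ℤ) (m : ι → ℕ)
    (h : ∀ i, (X i).val 1 0 ∣ (X i).val 0 0 ^ m i - 1 ∨ (X i).val 1 0 ∣ (X i).val 0 0 ^ m i + 1) :
    F (fun i => X i ^ m i) ∈ H (ι → ℤ) := by
  have h1 := pow_memH (fun i => (X i).transpose) m (by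
    intro i
    simpa using h i)
  refine comm_transpose _ _ ?_ h1
  ext r s i
  simp only [F_apply, Matrix.transpose_apply]
  have : ((X i).transpose ^ m i).val = ((X i ^ m i).val)ᵀ := by
    simp [Matrix.transpose_pow]
  rw [this]
  rfl

/-- the arithmetic choice in the Carter - Keller argument -/
theorem exists_pq (a b : ℤ) (ha : a ≠ 0) (hab : IsCoprime a b) :
    ∃ (p q t u s d : ℤ) (m : ℕ), b + t * a = p ∧ a + u * p = s ∧ s * d - p * q = 1 ∧
      p ∣ s ^ (m + 1) - 1 ∧ (q ∣ s ^ m - 1 ∨ q ∣ s ^ m + 1) := by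
  obtain ⟨p, hp2, hp, hpb⟩ := Nat.forall_exists_prime_gt_and_zmodEq 2 (q := a.natAbs) (a := b)
    (Int.natAbs_ne_zero.2 ha) (by
      rw [Int.isCoprime_iff_nat_coprime, Int.natAbs_natCast, Nat.coprime_comm]
      exact Int.isCoprime_iff_nat_coprime.1 hab)
  obtain ⟨t, ht⟩ : a ∣ (p : ℤ) - b := by
    have := hpb.symm.dvd
    rwa [Int.natAbs_dvd] at this
  have hodd : Odd p := hp.odd_of_ne_two (by omega)
  obtain ⟨k, hk⟩ := hodd
  have hk1 : 1 ≤ k := by omega
  have hpk : (p : ℤ) = 2 * k + 1 := by exact_mod_cast hk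
  set u : ℤ := (1 - a) * (1 - 2 * k) with hu
  set v : ℤ := (a - 1) * k with hv
  set s : ℤ := 1 + 4 * k * v with hs
  have hsu : a + u * p = s := by rw [hs, hu, hv, hpk]; ring
  have hap : IsCoprime a (p : ℤ) := by
    have : (p : ℤ) = b + a * t := by linear_combination ht
    rw [this]
    exact (IsCoprime.add_mul_left_right_iff).2 hab
  have hsp : IsCoprime s (p : ℤ) := by
    rw [← hsu]
    exact (IsCoprime.add_mul_right_left_iff).2 hap
  obtain ⟨x, y, hxy⟩ := id hsp
  -- `x * s + y * p = 1`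
  have hs0 : s ≠ 0 := by
    intro h
    have : (4 : ℤ) ∣ 1 := ⟨-(k * v), by linear_combination h⟩
    omega
  have hk0 : (k : ℤ) ≠ 0 := by exact_mod_cast (by omega : k ≠ 0)
  set q0 : ℤ := -1 + 4 * k * (v * (y - 1)) with hq0
  have hq0' : p * q0 = -1 + s * (x + p * (y - 1)) := by
    rw [hq0]; linear_combination (-1 : ℤ) * hxy - p * (y - 1) * hs
  have hq0s : IsCoprime q0 s := ⟨-p, x + p * (y - 1), by linear_combination (-1 : ℤ) * hq0'⟩
  have hq0k : IsCoprime q0 (4 * k) := ⟨-1, v * (y - 1), by rw [hq0]; ring⟩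
  have hmod : s * (4 * k) ≠ 0 := mul_ne_zero hs0 (mul_ne_zero (by norm_num) hk0)
  obtain ⟨q, hq2, hq, hqb⟩ := Nat.forall_exists_prime_gt_and_zmodEq 2
    (q := (s * (4 * k)).natAbs) (a := q0) (Int.natAbs_ne_zero.2 hmod) (by
      rw [Int.isCoprime_iff_nat_coprime, Int.natAbs_natCast]
      exact Int.isCoprime_iff_nat_coprime.1 (hq0s.mul_right hq0k))
  obtain ⟨w, hw⟩ : s * (4 * k) ∣ (q : ℤ) - q0 := by
    have := hqb.symm.dvd
    rwa [Int.natAbs_dvd] at this
  have hqe : (q : ℤ) = -1 + 4 * k * (v * (y - 1) + s * w) := by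
    linear_combination hw + hq0
  obtain ⟨l, hl⟩ := hq.odd_of_ne_two (by omega)
  have hql : (q : ℤ) = 2 * l + 1 := by exact_mod_cast hl
  have hl2 : (l : ℤ) + 1 = (2 * k) * (v * (y - 1) + s * w) := by linarith
  obtain ⟨e, he⟩ : ∃ e : ℕ, l + 1 = 2 * k * e := by
    have : (2 * k) ∣ (l + 1) := by
      have : ((2 * k : ℕ) : ℤ) ∣ ((l + 1 : ℕ) : ℤ) := ⟨v * (y - 1) + s * w, by push_cast; exact hl2⟩
      exact_mod_cast this
    exact this
  have hdet : s * (x + p * (y - 1) + 4 * k * p * w) - p * q = 1 := by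
    linear_combination (-1 : ℤ) * hq0' - p * hw
  refine ⟨p, q, t, u, s, x + p * (y - 1) + 4 * k * p * w, l, ?_, hsu, hdet, ?_, ?_⟩
  · linear_combination (-1 : ℤ) * ht
  · rw [he]
    have h1 : s ^ (p - 1) ≡ 1 [ZMOD p] := Int.ModEq.pow_card_sub_one_eq_one hp hsp
    have h2 : p - 1 = 2 * k := by omega
    rw [h2] at h1
    have h3 := (h1.pow e).symm.dvd
    rwa [one_pow, ← pow_mul] at h3
  · have : Fact q.Prime := ⟨hq⟩
    have hs1 : ((s : ℤ) : ZMod q) ≠ 0 := by
      intro h
      rw [ZMod.intCast_zmod_eq_zero_iff_dvd] at h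
      have : (q : ℤ) ∣ 1 := by
        rw [← hdet]
        exact dvd_sub (Dvd.dvd.mul_right h _) (Dvd.intro_left _ rfl)
      have := Int.natAbs_dvd_natAbs.2 this
      simp at this
      omega
    have h4 : q / 2 = l := by omega
    rcases ZMod.pow_div_two_eq_neg_one_or_one q hs1 with h | h
    · left
      rw [h4] at h
      rw [← ZMod.intCast_zmod_eq_zero_iff_dvd]
      push_cast
      rw [h, sub_self]
    · right
      rw [h4] at h
      rw [← ZMod.intCast_zmod_eq_zero_iff_dvd]
      push_cast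
      rw [h, neg_add_cancel]

theorem ck_aux (X : ι → SpecialLinearGroup (Fin 2) ℤ) (m : ι → ℕ)
    (h : ∀ i, (X i).val 0 1 ∣ (X i).val 0 0 ^ (m i + 1) - 1)
    (h' : ∀ i, (X i).val 1 0 ∣ (X i).val 0 0 ^ m i - 1 ∨
      (X i).val 1 0 ∣ (X i).val 0 0 ^ m i + 1) : F X ∈ H (ι → ℤ) := by
  have h1 := pow_memH X (fun i => m i + 1) (fun i => Or.inl (h i))
  have h2 := pow_memH' X m h'
  have h3 : X = (fun i => X i ^ (m i + 1)) * (fun i => X i ^ m i)⁻¹ := by
    funext i
    rw [Pi.mul_apply, Pi.inv_apply, pow_succ']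
    group
  rw [h3, map_mul, map_inv]
  exact mul_mem h1 (inv_mem h2)

/-- **Carter - Keller**: all families of matrices in `SL₂(ℤ)` become elementary in
`SL₃(ℤ^ι)` -/
theorem ck (A : (Matrix (Fin 2) (Fin 2) (ι → ℤ))ˣ) (hA : A.val.det = 1) :
    A ∈ H (ι → ℤ) := by
  set a := A.val 0 0 with ha
  set b := A.val 0 1 with hb
  have hdet : ∀ i, a i * A.val 1 1 i - b i * A.val 1 0 i = 1 := by
    intro i
    have := congrFun hA i
    rw [Matrix.det_fin_two] at this
    simpa using this
  let e : ι → ℤ := fun i => if a i = 0 then 1 else 0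
  have hcop : ∀ i, IsCoprime ((a + e * b) i) (b i) := by
    intro i
    have : IsCoprime (a i) (b i) := ⟨A.val 1 1 i, -A.val 1 0 i, by linear_combination hdet i⟩
    exact (IsCoprime.add_mul_right_left_iff).2 this
  have hne : ∀ i, (a + e * b) i ≠ 0 := by
    intro i
    by_cases h0 : a i = 0
    · have h1 := hdet i
      simp only [Pi.add_apply, Pi.mul_apply, e, h0, if_true, one_mul, zero_add]
      intro h2
      rw [h0, h2] at h1
      simp at h1
    · simp [e, h0]
  choose p q t u s d m h1 h2 h3 h4 h5 using fun i => exists_pq _ _ (hne i) (hcop i)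
  have key : SymOne a b := by
    apply SymOne.left e
    apply SymOne.right t
    have e1 : b + t * (a + e * b) = p := by ext i; exact h1 i
    rw [e1]
    apply SymOne.left u
    have e2 : a + e * b + u * p = s := by ext i; exact h2 i
    rw [e2]
    let X : ι → SpecialLinearGroup (Fin 2) ℤ := fun i =>
      ⟨!![s i, p i; q i, d i], by rw [Matrix.det_fin_two_of]; exact h3 i⟩
    have h6 : F X ∈ H (ι → ℤ) := ck_aux X m h4 h5
    exact SymOne.of_mem (det_F X) h6
  exact key A hA rfl rfl

end prod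

end BW
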