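import Pool.Agent.BW.Core

/-!
# Bounded width: calculus of symbols over a ring with conjugation
-/

namespace BW

open Matrix

/-- an algebra with conjugation, trace and norm -/
structure QStr (C P : Type*) [CommRing C] [Ring P] [Algebra C P] where
  /-- trace -/
  T : P → C
  /-- norm -/
  n : P → C
  /-- conjugation -/
  conj : P → P
  T_add : ∀ x y, T (x + y) = T x + T y
  T_smul : ∀ (c : C) x, T (c • x) = c * T x
  T_one : T 1 = 2
  add_conj : ∀ x, x + conj x = algebraMap C P (T x)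
  mul_conj : ∀ x, x * conj x = algebraMap C P (n x)
  conj_mul_self : ∀ x, conj x * x = algebraMap C P (n x)
  conj_mul : ∀ x y, conj (x * y) = conj y * conj x
  inj : Function.Injective (algebraMap C P)

namespace QStr

variable {C P : Type*} [CommRing C] [Ring P] [Algebra C P] (Q : QStr C P)

theorem conj_eq (x : P) : Q.conj x = Q.T x • (1 : P) - x := by
  rw [← Algebra.algebraMap_eq_smul_one, ← Q.add_conj]; abel

theorem mul_conj' (x : P) : x * Q.conj x = Q.n x • (1 : P) := by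
  rw [Q.mul_conj, Algebra.algebraMap_eq_smul_one]

theorem conj_mul_self' (x : P) : Q.conj x * x = Q.n x • (1 : P) := by
  rw [Q.conj_mul_self, Algebra.algebraMap_eq_smul_one]

theorem add_conj' (x : P) : x + Q.conj x = Q.T x • (1 : P) := by
  rw [Q.add_conj, Algebra.algebraMap_eq_smul_one]

include Q in
theorem smul_one_inj {c d : C} (h : c • (1 : P) = d • (1 : P)) : c = d := by
  apply Q.inj
  rw [Algebra.algebraMap_eq_smul_one, Algebra.algebraMap_eq_smul_one, h]

theorem conj_add (x y : P) : Q.conj (x + y) = Q.conj x + Q.conj y := by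
  rw [Q.conj_eq, Q.conj_eq, Q.conj_eq, Q.T_add]; module

theorem conj_smul (c : C) (x : P) : Q.conj (c • x) = c • Q.conj x := by
  rw [Q.conj_eq, Q.conj_eq, Q.T_smul]; module

theorem conj_one : Q.conj 1 = 1 := by
  rw [Q.conj_eq, Q.T_one]; module

theorem T_neg (x : P) : Q.T (-x) = -Q.T x := by
  have := Q.T_smul (-1) x
  simpa using this

theorem T_sub (x y : P) : Q.T (x - y) = Q.T x - Q.T y := by
  rw [sub_eq_add_neg, Q.T_add, Q.T_neg]; ring

theorem conj_neg (x : P) : Q.conj (-x) = -Q.conj x := by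
  rw [Q.conj_eq, Q.conj_eq, Q.T_neg]; module

theorem conj_sub (x y : P) : Q.conj (x - y) = Q.conj x - Q.conj y := by
  rw [sub_eq_add_neg, Q.conj_add, Q.conj_neg]; abel

theorem T_conj (x : P) : Q.T (Q.conj x) = Q.T x := by
  rw [Q.conj_eq, Q.T_sub, Q.T_smul, Q.T_one]; ring

theorem conj_conj (x : P) : Q.conj (Q.conj x) = x := by
  rw [Q.conj_eq (Q.conj x), Q.T_conj, Q.conj_eq]; abel

theorem T_smul_one (c : C) : Q.T (c • (1 : P)) = 2 * c := by
  rw [Q.T_smul, Q.T_one]; ring

theorem n_mul (x y : P) : Q.n (x * y) = Q.n x * Q.n y := by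
  apply Q.smul_one_inj
  rw [← Q.mul_conj', Q.conj_mul]
  calc x * y * (Q.conj y * Q.conj x) = x * (y * Q.conj y) * Q.conj x := by noncomm_ring
    _ = _ := by
      rw [Q.mul_conj', mul_smul_comm, mul_one, smul_mul_assoc, Q.mul_conj', smul_smul, mul_comm]

theorem n_smul (c : C) (x : P) : Q.n (c • x) = c * c * Q.n x := by
  apply Q.smul_one_inj
  rw [← Q.mul_conj', Q.conj_smul, mul_smul_comm, smul_mul_assoc, Q.mul_conj']; module

theorem n_one : Q.n 1 = 1 := by
  apply Q.smul_one_inj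
  rw [← Q.mul_conj', Q.conj_one]; simp

theorem n_neg (x : P) : Q.n (-x) = Q.n x := by
  apply Q.smul_one_inj
  rw [← Q.mul_conj', ← Q.mul_conj', Q.conj_neg]; noncomm_ring

theorem n_conj (x : P) : Q.n (Q.conj x) = Q.n x := by
  apply Q.smul_one_inj
  rw [← Q.mul_conj', Q.conj_conj, Q.conj_mul_self']

theorem T_conj_mul (x y : P) : Q.T (x * Q.conj y) = Q.T (Q.conj x * y) := by
  apply Q.smul_one_inj
  have h1 := Q.mul_conj' (x + y)
  have h2 := Q.conj_mul_self' (x + y)
  have h : (x + y) * Q.conj (x + y) = Q.conj (x + y) * (x + y) := by rw [h1, h2]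
  rw [Q.conj_add] at h
  rw [← Q.add_conj', ← Q.add_conj', Q.conj_mul, Q.conj_mul, Q.conj_conj, Q.conj_conj]
  have e1 : (x + y) * (Q.conj x + Q.conj y) = x * Q.conj x + y * Q.conj y +
    (x * Q.conj y + y * Q.conj x) := by noncomm_ring
  have e2 : (Q.conj x + Q.conj y) * (x + y) = Q.conj x * x + Q.conj y * y +
    (Q.conj x * y + Q.conj y * x) := by noncomm_ring
  rw [e1, e2, Q.mul_conj', Q.mul_conj', Q.conj_mul_self', Q.conj_mul_self'] at h
  exact add_left_cancel h

theorem T_mul_comm (x y : P) : Q.T (x * y) = Q.T (y * x) := by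
  have h := Q.T_conj_mul x (Q.conj y)
  rw [Q.conj_conj, ← Q.conj_mul, Q.T_conj] at h
  exact h

/-- polarization of the norm -/
theorem n_add (x y : P) : Q.n (x + y) = Q.n x + Q.n y + Q.T (x * Q.conj y) := by
  apply Q.smul_one_inj
  rw [← Q.mul_conj', Q.conj_add, add_smul, add_smul, ← Q.mul_conj', ← Q.mul_conj', ← Q.add_conj',
    Q.conj_mul, Q.conj_conj]
  noncomm_ring

/-! ### symbols of T-type -/

/-- the matrix `[[x, r], [-β, α conj x]]` with `α n(x) + β r = 1` -/
def Tm (x : P) (r α β : C) (h : α * Q.n x + β * r = 1) : (Matrix (Fin 2) (Fin 2) P)ˣ where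
  val := !![x, r • 1; -(β • 1), α • Q.conj x]
  inv := !![α • Q.conj x, -(r • 1); β • 1, x]
  val_inv := by
    have e : (α * Q.n x + β * r) • (1 : P) = 1 := by rw [h, one_smul]
    ext i j
    fin_cases i <;> fin_cases j <;>
      simp [Matrix.mul_apply, Fin.sum_univ_two, Q.mul_conj', Q.conj_mul_self', smul_smul]
    · linear_combination (norm := module) e
    · module
    · linear_combination (norm := module) e
  inv_val := by
    have e : (α * Q.n x + β * r) • (1 : P) = 1 := by rw [h, one_smul]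
    ext i j
    fin_cases i <;> fin_cases j <;>
      simp [Matrix.mul_apply, Fin.sum_univ_two, Q.mul_conj', Q.conj_mul_self', smul_smul]
    · linear_combination (norm := module) e
    · module
    · linear_combination (norm := module) e

theorem Tm_inv_val (x : P) (r α β : C) (h : α * Q.n x + β * r = 1) :
    (Q.Tm x r α β h)⁻¹.val = !![α • Q.conj x, -(r • 1); β • 1, x] := rfl

theorem Tm_val (x : P) (r α β : C) (h : α * Q.n x + β * r = 1) :
    (Q.Tm x r α β h).val = !![x, r • 1; -(β • 1), α • Q.conj x] := rfl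

end QStr

/-! ### the moves -/

section Moves

variable {P : Type*} [Ring P] (A : (Matrix (Fin 2) (Fin 2) P)ˣ)

theorem mul_el01 (y : P) :
    (A * el 0 1 (by decide) y).val 0 0 = A.val 0 0 ∧
    (A * el 0 1 (by decide) y).val 0 1 = A.val 0 1 + A.val 0 0 * y ∧
    (A * el 0 1 (by decide) y)⁻¹.val 0 1 = A⁻¹.val 0 1 - y * A⁻¹.val 1 1 ∧
    (A * el 0 1 (by decide) y)⁻¹.val 1 1 = A⁻¹.val 1 1 := by
  refine ⟨?_, ?_, ?_, ?_⟩
  · rw [Units.val_mul, el_val, Matrix.mul_apply, Fin.sum_univ_two]; simp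
  · rw [Units.val_mul, el_val, Matrix.mul_apply, Fin.sum_univ_two]; simp [add_comm]
  · rw [_root_.mul_inv_rev, Units.val_mul, el_inv, el_val, Matrix.mul_apply, Fin.sum_univ_two]
    simp [sub_eq_add_neg]
  · rw [_root_.mul_inv_rev, Units.val_mul, el_inv, el_val, Matrix.mul_apply, Fin.sum_univ_two]
    simp

theorem mul_el10 (x : P) :
    (A * el 1 0 (by decide) x).val 0 0 = A.val 0 0 + A.val 0 1 * x ∧
    (A * el 1 0 (by decide) x).val 0 1 = A.val 0 1 ∧
    (A * el 1 0 (by decide) x)⁻¹.val 0 1 = A⁻¹.val 0 1 ∧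
    (A * el 1 0 (by decide) x)⁻¹.val 1 1 = A⁻¹.val 1 1 - x * A⁻¹.val 0 1 := by
  refine ⟨?_, ?_, ?_, ?_⟩
  · rw [Units.val_mul, el_val, Matrix.mul_apply, Fin.sum_univ_two]; simp
  · rw [Units.val_mul, el_val, Matrix.mul_apply, Fin.sum_univ_two]; simp
  · rw [_root_.mul_inv_rev, Units.val_mul, el_inv, el_val, Matrix.mul_apply, Fin.sum_univ_two]
    simp
  · rw [_root_.mul_inv_rev, Units.val_mul, el_inv, el_val, Matrix.mul_apply, Fin.sum_univ_two]
    simp [sub_eq_add_neg, add_comm]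

theorem mul_W :
    (A * W).val 0 0 = A.val 0 1 ∧ (A * W).val 0 1 = -A.val 0 0 ∧
    (A * W).val 1 0 = A.val 1 1 ∧ (A * W).val 1 1 = -A.val 1 0 ∧
    (A * W)⁻¹.val 0 0 = A⁻¹.val 1 0 ∧ (A * W)⁻¹.val 0 1 = A⁻¹.val 1 1 ∧
    (A * W)⁻¹.val 1 0 = -A⁻¹.val 0 0 ∧ (A * W)⁻¹.val 1 1 = -A⁻¹.val 0 1 := by
  refine ⟨?_, ?_, ?_, ?_, ?_, ?_, ?_, ?_⟩
  · rw [Units.val_mul, W_val, Matrix.mul_apply, Fin.sum_univ_two]; simp
  · rw [Units.val_mul, W_val, Matrix.mul_apply, Fin.sum_univ_two]; simp
  · rw [Units.val_mul, W_val, Matrix.mul_apply, Fin.sum_univ_two]; simp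
  · rw [Units.val_mul, W_val, Matrix.mul_apply, Fin.sum_univ_two]; simp
  · rw [_root_.mul_inv_rev, Units.val_mul, W_inv_val, Matrix.mul_apply, Fin.sum_univ_two]; simp
  · rw [_root_.mul_inv_rev, Units.val_mul, W_inv_val, Matrix.mul_apply, Fin.sum_univ_two]; simp
  · rw [_root_.mul_inv_rev, Units.val_mul, W_inv_val, Matrix.mul_apply, Fin.sum_univ_two]; simp
  · rw [_root_.mul_inv_rev, Units.val_mul, W_inv_val, Matrix.mul_apply, Fin.sum_univ_two]; simp

theorem mem_of_mul {S : Subgroup (Matrix (Fin 2) (Fin 2) P)ˣ} {A B : (Matrix (Fin 2) (Fin 2) P)ˣ}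
    (hB : B ∈ S) : A * B ∈ S ↔ A ∈ S :=
  ⟨fun h => by simpa using mul_mem h (inv_mem hB), fun h => mul_mem h hB⟩

theorem iff_of_star {S : Subgroup (Matrix (Fin 2) (Fin 2) P)ˣ}
    {T B D w : (Matrix (Fin 2) (Fin 2) P)ˣ} (h : T * (B * w) * (D * w)⁻¹ ∈ S)
    (hT : T ∈ S) (hw : w ∈ S) : D ∈ S ↔ B ∈ S := by
  constructor
  · intro hD
    have := mul_mem (mul_mem (mul_mem (inv_mem hT) h) (mul_mem hD hw)) (inv_mem hw)
    have e : T⁻¹ * (T * (B * w) * (D * w)⁻¹) * (D * w) * w⁻¹ = B := by group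
    rwa [e] at this
  · intro hB
    have := mul_mem (mul_mem (inv_mem h) (mul_mem hT (mul_mem hB hw))) (inv_mem hw)
    have e : (T * (B * w) * (D * w)⁻¹)⁻¹ * (T * (B * w)) * w⁻¹ = D := by group
    rwa [e] at this

theorem iff_of_star' {S : Subgroup (Matrix (Fin 2) (Fin 2) P)ˣ}
    {T B D : (Matrix (Fin 2) (Fin 2) P)ˣ} (h : T * B * D⁻¹ ∈ S)
    (hT : T ∈ S) : D ∈ S ↔ B ∈ S := by
  constructor
  · intro hD
    have := mul_mem (mul_mem (inv_mem hT) h) hD
    have e : T⁻¹ * (T * B * D⁻¹) * D = B := by group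
    rwa [e] at this
  · intro hB
    have := mul_mem (inv_mem h) (mul_mem hT hB)
    have e : (T * B * D⁻¹)⁻¹ * (T * B) = D := by group
    rwa [e] at this

end Moves

namespace QStr

variable {C P : Type*} [CommRing C] [Ring P] [Algebra C P] (Q : QStr C P)

/-- step 1a: the content of the first entry can be removed modulo T-types -/
theorem content_step (A : (Matrix (Fin 2) (Fin 2) P)ˣ) (c : C) (a0 : P)
    (ha : A.val 0 0 = c • a0) :
    ∃ (B : (Matrix (Fin 2) (Fin 2) P)ˣ), B.val 0 0 = a0 ∧ B.val 0 1 = A.val 0 1 ∧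
      B⁻¹.val 0 1 = A⁻¹.val 0 1 ∧ A⁻¹.val 1 1 = c • B⁻¹.val 1 1 ∧
      ∀ S : Subgroup (Matrix (Fin 2) (Fin 2) P)ˣ, H P ≤ S →
        (∀ x r α β h, Q.Tm x r α β h ∈ S) → (A ∈ S ↔ B ∈ S) := by
  obtain ⟨⟨r1, r2⟩, ⟨r3, r4⟩⟩ := row_col A
  obtain ⟨⟨l1, l2⟩, ⟨l3, l4⟩⟩ := row_col' A
  obtain ⟨w1, w2, w3, w4, w5, w6, w7, w8⟩ := mul_W A
  rw [ha] at r1 r2 l1 l3 w2
  generalize hb : A.val 0 1 = b at *
  generalize hc1 : A.val 1 0 = c1 at *
  generalize hd : A.val 1 1 = d at *
  generalize hp : A⁻¹.val 0 0 = p at *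
  generalize hq : A⁻¹.val 0 1 = q at *
  generalize hs : A⁻¹.val 1 0 = s at *
  generalize ht : A⁻¹.val 1 1 = t at *
  set α : C := Q.n s with hα
  set β : C := Q.T (a0 * p) - c * Q.n (a0 * p) with hβ
  have hαβ : α * Q.n b + β * c = 1 := by
    have e : b * s = 1 + (-(c • (a0 * p))) := by
      rw [smul_mul_assoc] at r1
      linear_combination (norm := abel) r1
    have e2 : Q.n (b * s) = 1 + c * c * Q.n (a0 * p) - c * Q.T (a0 * p) := by
      rw [e, Q.n_add, Q.n_one, Q.n_neg, Q.n_smul, Q.conj_neg, Q.conj_smul, one_mul, Q.T_neg,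
        Q.T_smul, Q.T_conj]; ring
    rw [Q.n_mul] at e2
    rw [hα, hβ]
    linear_combination e2
  have eb : Q.conj b * b = Q.n b • (1 : P) := Q.conj_mul_self' b
  have eb' : b * Q.conj b = Q.n b • (1 : P) := Q.mul_conj' b
  have e1 : ∀ x : P, (α * Q.n b) • x + (β * c) • x = x := fun x => by
    rw [← add_smul, hαβ, one_smul]
  set t0 : P := -(α • (Q.conj b * a0 * q)) + β • t with ht0
  have hct : c • t0 = t := by
    have e : c • t0 = (α * Q.n b) • t + (β * c) • t := by
      have h1 := congrArg (fun z => α • (Q.conj b * z)) r2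
      simp only [mul_add, ← mul_assoc, eb, smul_mul_assoc, mul_smul_comm, smul_add, mul_zero,
        smul_zero, one_mul] at h1
      rw [ht0]
      linear_combination (norm := module) -h1
    rw [e, e1]
  have m12 : a0 * q + b * t0 = 0 := by
    have e : b * t0 = -((α * Q.n b) • (a0 * q) + (β * c) • (a0 * q)) := by
      rw [ht0, mul_add, mul_neg, mul_smul_comm, mul_smul_comm]
      have h1 : b * (Q.conj b * a0 * q) = Q.n b • (a0 * q) := by
        rw [← mul_assoc, ← mul_assoc, eb', smul_mul_assoc, smul_mul_assoc, one_mul]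
      have h2 : b * t = -(c • (a0 * q)) := by
        rw [smul_mul_assoc] at r2
        linear_combination (norm := abel) r2
      rw [h1, h2]; module
    rw [e, e1]; abel
  have m21 : s * a0 + t0 * c1 = 0 := by
    have h1 : t0 * c1 = -(α • (Q.conj b * a0 * (q * c1))) + β • (t * c1) := by
      rw [ht0]; simp only [add_mul, neg_mul, smul_mul_assoc, mul_assoc]
    have h2 : q * c1 = 1 - c • (p * a0) := by
      rw [mul_smul_comm] at l1
      linear_combination (norm := abel) l1
    have h3 : t * c1 = -(c • (s * a0)) := by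
      rw [mul_smul_comm] at l3
      linear_combination (norm := abel) l3
    have h4 : (α * Q.n b) • (s * a0) = α • (Q.conj b * (b * s * a0)) := by
      have : Q.conj b * (b * s * a0) = Q.n b • (s * a0) := by
        rw [← mul_assoc, ← mul_assoc, eb, smul_mul_assoc, smul_mul_assoc, one_mul]
      rw [this, smul_smul]
    have h5 : b * s = 1 - c • (a0 * p) := by
      rw [smul_mul_assoc] at r1
      linear_combination (norm := abel) r1
    have h6 := e1 (s * a0)
    rw [h4, h5] at h6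
    rw [h1, h2, h3]
    simp only [sub_mul, mul_sub, smul_sub, smul_mul_assoc, mul_smul_comm, one_mul, mul_one,
      ← mul_assoc] at h6 ⊢
    linear_combination (norm := module) -h6
  let B : (Matrix (Fin 2) (Fin 2) P)ˣ :=
    { val := !![a0, b; c1, c • d]
      inv := !![c • p, q; s, t0]
      val_inv := by
        rw [smul_mul_assoc] at r1
        ext i j
        fin_cases i <;> fin_cases j <;>
          simp [Matrix.mul_apply, Fin.sum_univ_two, m12, r1]
        · rw [← smul_add, r3, smul_zero]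
        · rw [← mul_smul_comm, hct, r4]
      inv_val := by
        rw [mul_smul_comm] at l1
        ext i j
        fin_cases i <;> fin_cases j <;>
          simp [Matrix.mul_apply, Fin.sum_univ_two, m21, l1]
        · rw [← smul_add, l2, smul_zero]
        · rw [← smul_mul_assoc, hct, l4] }
  have hBv : B.val = !![a0, b; c1, c • d] := rfl
  have hBi : B⁻¹.val = !![c • p, q; s, t0] := rfl
  refine ⟨B, by rw [hBv]; simp, by rw [hBv]; simp, by rw [hBi]; simp, by rw [hBi]; simp [hct], ?_⟩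
  intro S hS hT
  obtain ⟨v1, v2, v3, v4, v5, v6, v7, v8⟩ := mul_W B
  have k := star_data (Q.Tm b c α β hαβ) (B * W) (A * W) ?_ ?_ ?_ ?_ ?_
  · exact iff_of_star (hS k) (hT _ _ _ _ _) (hS W_mem)
  · rw [Q.Tm_inv_val, v1, hBv]; simp
  · rw [Q.Tm_val, w1]; simp
  · rw [Q.Tm_val, w2, v2, hBv]; simp
  · rw [Q.Tm_inv_val, w6, v6, hBi]; simp [hct]
  · rw [w8, v8, hBi]; simp

/-- coprimality of norm and scalar -/
theorem coprime (x p s : P) (r : C) (h : x * p + r • s = 1) :
    Q.n p * Q.n x + (Q.T s - r * Q.n s) * r = 1 := by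
  have e : x * p = 1 + (-(r • s)) := by
    linear_combination (norm := abel) h
  have e2 : Q.n (x * p) = 1 + r * r * Q.n s - r * Q.T s := by
    rw [e, Q.n_add, Q.n_one, Q.n_neg, Q.n_smul, Q.conj_neg, Q.conj_smul, one_mul, Q.T_neg,
      Q.T_smul, Q.T_conj]; ring
  rw [Q.n_mul] at e2
  linear_combination e2

/-- step 1d: equal traces and norms: the second entry can be made an intertwiner -/
theorem conj_step (A : (Matrix (Fin 2) (Fin 2) P)ˣ) (w : P)
    (hT : Q.T (A.val 0 0) = Q.T (A⁻¹.val 1 1)) (hn : Q.n (A.val 0 0) = Q.n (A⁻¹.val 1 1))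
    (hZ : Q.conj (A.val 0 0) * A.val 0 1 + A⁻¹.val 0 1 * Q.conj (A⁻¹.val 1 1) = 0)
    (hw : Q.T (A⁻¹.val 1 1 * w) = 1) :
    ∃ (y g : P), (A * el 0 1 (by decide) y).val 0 0 = A.val 0 0 ∧
      (A * el 0 1 (by decide) y).val 0 1 = g ∧
      (A * el 0 1 (by decide) y)⁻¹.val 0 1 = -g ∧
      (A * el 0 1 (by decide) y)⁻¹.val 1 1 = A⁻¹.val 1 1 ∧
      A.val 0 0 * g = g * A⁻¹.val 1 1 := by
  obtain ⟨⟨r1, r2⟩, ⟨r3, r4⟩⟩ := row_col A
  set y : P := A⁻¹.val 0 1 * w - A.val 0 1 * Q.conj w with hy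
  obtain ⟨e1, e2, e3, e4⟩ := mul_el01 A y
  refine ⟨y, A.val 0 1 + A.val 0 0 * y, e1, e2, ?_, e4, ?_⟩
  · rw [e3, hy]
    generalize A.val 0 0 = a at *
    generalize A.val 0 1 = b at *
    generalize A⁻¹.val 0 1 = q at *
    generalize A⁻¹.val 1 1 = t at *
    have c1 : t * w + Q.conj w * Q.conj t = 1 := by
      rw [← Q.conj_mul, Q.add_conj', hw, one_smul]
    have c2 : w * t + Q.conj t * Q.conj w = 1 := by
      rw [← Q.conj_mul, Q.add_conj', Q.T_mul_comm, hw, one_smul]
    have c3 : Q.conj a = Q.T t • (1 : P) - a := by rw [Q.conj_eq, hT]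
    have c4 : Q.conj t = Q.T t • (1 : P) - t := Q.conj_eq t
    have k1 : a * (q * w) = -(b * (t * w)) := by
      have := congrArg (fun z => z * w) r2
      simp only [add_mul, zero_mul, mul_assoc] at this
      linear_combination (norm := abel) this
    have k2 : q * (w * t) = q - q * (Q.conj t * Q.conj w) := by
      have := congrArg (fun z => q * z) c2
      simp only [mul_add, mul_one] at this
      linear_combination (norm := abel) this
    have k3 : b * (t * w) = b - b * (Q.conj w * Q.conj t) := by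
      have := congrArg (fun z => b * z) c1
      simp only [mul_add, mul_one] at this
      linear_combination (norm := abel) this
    have k4 := congrArg (fun z => z * Q.conj w) hZ
    simp only [add_mul, zero_mul, mul_assoc] at k4
    rw [c3] at k4
    simp only [sub_mul, smul_mul_assoc, one_mul, mul_assoc] at k4
    simp only [mul_sub, sub_mul, mul_assoc]
    rw [k1, k2, k3]
    have k5 : b * (Q.conj w * Q.conj t) = Q.T t • (b * Q.conj w) - b * (Q.conj w * t) := by
      rw [c4]; simp only [mul_sub, mul_smul_comm, mul_one]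
    rw [k5]
    linear_combination (norm := module) k4
  · rw [hy]
    generalize A.val 0 0 = a at *
    generalize A.val 0 1 = b at *
    generalize A⁻¹.val 0 1 = q at *
    generalize A⁻¹.val 1 1 = t at *
    have c1 : t * w + Q.conj w * Q.conj t = 1 := by
      rw [← Q.conj_mul, Q.add_conj', hw, one_smul]
    have k1 : a * (q * w) = -(b * (t * w)) := by
      have := congrArg (fun z => z * w) r2
      simp only [add_mul, zero_mul, mul_assoc] at this
      linear_combination (norm := abel) this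
    have k3 : b * (t * w) = b - b * (Q.conj w * Q.conj t) := by
      have := congrArg (fun z => b * z) c1
      simp only [mul_add, mul_one] at this
      linear_combination (norm := abel) this
    have g1 : b + a * (q * w - b * Q.conj w) = b * Q.conj w * Q.conj t - a * b * Q.conj w := by
      rw [mul_sub, k1, k3]; simp only [mul_assoc]; abel
    rw [g1]
    have s1 : a * a = Q.T t • a - Q.n t • (1 : P) := by
      have : a * Q.conj a = Q.n t • (1 : P) := by rw [Q.mul_conj', hn]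
      rw [Q.conj_eq, hT, mul_sub, mul_smul_comm, mul_one] at this
      linear_combination (norm := abel) -this
    have s2 : Q.conj t * t = Q.n t • (1 : P) := Q.conj_mul_self' t
    have s3 : Q.conj t = Q.T t • (1 : P) - t := Q.conj_eq t
    have l1 : a * (b * Q.conj w * Q.conj t - a * b * Q.conj w) =
        Q.T t • (a * b * Q.conj w) - a * b * Q.conj w * t - (a * a) * b * Q.conj w := by
      rw [s3]; simp only [mul_sub, mul_smul_comm, mul_one, mul_assoc]
    have l2 : (b * Q.conj w * Q.conj t - a * b * Q.conj w) * t =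
        b * Q.conj w * (Q.conj t * t) - a * b * Q.conj w * t := by
      simp only [sub_mul, mul_assoc]
    rw [l1, l2, s1, s2]
    simp only [sub_mul, smul_mul_assoc, mul_smul_comm, one_mul, mul_one]
    module

/-- step 1e: the content of the intertwiner can be removed modulo T-types -/
theorem content2_step (A : (Matrix (Fin 2) (Fin 2) P)ˣ) (c : C) (g0 : P)
    (h01 : A.val 0 1 = c • g0) (h0 : A⁻¹.val 0 1 = -(c • g0))
    (hg : A.val 0 0 * g0 = g0 * A⁻¹.val 1 1) :
    ∃ (B : (Matrix (Fin 2) (Fin 2) P)ˣ), B.val 0 0 = A.val 0 0 ∧ B.val 0 1 = g0 ∧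
      B⁻¹.val 0 1 = -g0 ∧ B⁻¹.val 1 1 = A⁻¹.val 1 1 ∧
      ∀ S : Subgroup (Matrix (Fin 2) (Fin 2) P)ˣ, H P ≤ S →
        (∀ x r α β h, Q.Tm x r α β h ∈ S) → (A ∈ S ↔ B ∈ S) := by
  obtain ⟨⟨r1, r2⟩, ⟨r3, r4⟩⟩ := row_col A
  obtain ⟨⟨l1, l2⟩, ⟨l3, l4⟩⟩ := row_col' A
  rw [h01] at r1 r2 l2 l4
  rw [h0] at r2 r4 l1 l2
  generalize ha : A.val 0 0 = a at *
  generalize hc1 : A.val 1 0 = c1 at *
  generalize hd : A.val 1 1 = d at *
  generalize hp : A⁻¹.val 0 0 = p at *
  generalize hs : A⁻¹.val 1 0 = s at *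
  generalize ht : A⁻¹.val 1 1 = t at *
  have hαβ : Q.n p * Q.n a + (Q.T (g0 * s) - c * Q.n (g0 * s)) * c = 1 :=
    Q.coprime a p (g0 * s) c (by rw [← r1, smul_mul_assoc])
  -- X = p g0 - g0 d = 0
  have aX : a * (p * g0 - g0 * d) = 0 := by
    have e1 : a * p = 1 - c • (g0 * s) := by
      rw [smul_mul_assoc] at r1; linear_combination (norm := abel) r1
    have e2 : t * d = 1 - c • (s * g0) := by
      rw [mul_smul_comm] at l4; linear_combination (norm := abel) l4
    rw [mul_sub, ← mul_assoc, ← mul_assoc, e1, hg, mul_assoc, e2]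
    simp only [sub_mul, mul_sub, smul_mul_assoc, mul_smul_comm, mul_assoc, one_mul, mul_one]
    abel
  have cX : c • (p * g0 - g0 * d) = 0 := by
    rw [mul_smul_comm, neg_mul, smul_mul_assoc] at l2
    rw [smul_sub]; linear_combination (norm := abel) l2
  have hX : p * g0 = g0 * d := by
    have e : p * g0 - g0 * d = (p * a + -(c • g0) * c1) * (p * g0 - g0 * d) := by
      rw [l1, one_mul]
    have e' : (p * a + -(c • g0) * c1) * (p * g0 - g0 * d) =
        p * (a * (p * g0 - g0 * d)) - g0 * c1 * (c • (p * g0 - g0 * d)) := by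
      simp only [add_mul, neg_mul, smul_mul_assoc, mul_smul_comm, mul_assoc]; abel
    rw [e', aX, cX] at e
    simp only [mul_zero, sub_zero] at e
    exact sub_eq_zero.1 e
  let B : (Matrix (Fin 2) (Fin 2) P)ˣ :=
    { val := !![a, g0; c • c1, d]
      inv := !![p, -g0; c • s, t]
      val_inv := by
        rw [smul_mul_assoc] at r1
        rw [mul_neg, mul_smul_comm] at r4
        ext i j
        fin_cases i <;> fin_cases j <;>
          simp [Matrix.mul_apply, Fin.sum_univ_two, r1, hg]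
        · rw [← smul_add, r3, smul_zero]
        · exact r4
      inv_val := by
        rw [neg_mul, smul_mul_assoc] at l1
        rw [mul_smul_comm] at l4
        ext i j
        fin_cases i <;> fin_cases j <;>
          simp [Matrix.mul_apply, Fin.sum_univ_two, l1, l4, hX]
        rw [← smul_add, l3, smul_zero] }
  have hBv : B.val = !![a, g0; c • c1, d] := rfl
  have hBi : B⁻¹.val = !![p, -g0; c • s, t] := rfl
  refine ⟨B, by rw [hBv]; simp, by rw [hBv]; simp, by rw [hBi]; simp, by rw [hBi]; simp, ?_⟩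
  intro S hS hT
  have k := star_data (Q.Tm a c _ _ hαβ) B A ?_ ?_ ?_ ?_ ?_
  · exact iff_of_star' (hS k) (hT _ _ _ _ _)
  · rw [Q.Tm_inv_val, hBv]; simp
  · rw [Q.Tm_val, ha]; simp
  · rw [Q.Tm_val, hBv, h01]; simp
  · rw [Q.Tm_inv_val, hBi, h0]; simp
  · rw [hBi, ht]; simp

/-- step 1f: a primitive intertwiner -/
theorem final_step (A : (Matrix (Fin 2) (Fin 2) P)ˣ) (g0 w : P)
    (h01 : A.val 0 1 = g0) (h0 : A⁻¹.val 0 1 = -g0)
    (hg : A.val 0 0 * g0 = g0 * A⁻¹.val 1 1) (hTr : Q.T (A.val 0 0) = Q.T (A⁻¹.val 1 1))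
    (hw : Q.T (g0 * w) = 1) (S : Subgroup (Matrix (Fin 2) (Fin 2) P)ˣ) (hS : H P ≤ S)
    (hT : ∀ x r α β h, Q.Tm x r α β h ∈ S) : A ∈ S := by
  obtain ⟨w1, w2, w3, w4, w5, w6, w7, w8⟩ := mul_W A
  set a := A.val 0 0 with ha
  set t := A⁻¹.val 1 1 with ht
  set τ : C := Q.T (a * Q.conj w * Q.conj g0) with hτ
  set z : P := t * w - w * Q.conj a with hz
  have ea : a = τ • (1 : P) + g0 * z := by
    have e1 : g0 * w + Q.conj (g0 * w) = 1 := by rw [Q.add_conj', hw, one_smul]
    have e2 : τ • (1 : P) = a * Q.conj (g0 * w) + g0 * w * Q.conj a := by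
      rw [hτ, ← Q.add_conj']
      simp only [Q.conj_mul, Q.conj_conj, mul_assoc]
    rw [e2, hz, mul_sub, ← mul_assoc, ← mul_assoc, ← hg]
    calc a = a * (g0 * w + Q.conj (g0 * w)) := by rw [e1, mul_one]
      _ = _ := by noncomm_ring
  have hg' : t * Q.conj g0 = Q.conj g0 * a := by
    have := congrArg Q.conj hg
    rw [Q.conj_mul, Q.conj_mul, Q.conj_eq a, Q.conj_eq t, hTr] at this
    simp only [mul_sub, sub_mul, mul_smul_comm, smul_mul_assoc, mul_one, one_mul] at this
    linear_combination (norm := abel) this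
  have et : t = τ • (1 : P) + z * g0 := by
    have e1 : w * g0 + Q.conj (w * g0) = 1 := by rw [Q.add_conj', Q.T_mul_comm, hw, one_smul]
    have e2 : τ • (1 : P) = Q.conj g0 * a * Q.conj w + w * Q.conj a * g0 := by
      rw [hτ, mul_assoc, ← Q.T_mul_comm (Q.conj w * Q.conj g0) a, mul_assoc, Q.T_mul_comm,
        ← Q.add_conj']
      simp only [Q.conj_mul, Q.conj_conj, mul_assoc]
    rw [e2, ← hg', hz, sub_mul]
    calc t = t * (w * g0 + Q.conj (w * g0)) := by rw [e1, mul_one]
      _ = _ := by rw [Q.conj_mul]; noncomm_ring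
  obtain ⟨v1, v2, v3, v4⟩ := mul_el01 (A * W) z
  rw [w1, h01] at v1 v2
  rw [w2] at v2
  rw [w8, h0, neg_neg] at v3 v4
  rw [w6] at v3
  have v2' : (A * W * el 0 1 (by decide) z).val 0 1 = (-τ) • (1 : P) := by
    rw [v2, ea]; module
  have v3' : (A * W * el 0 1 (by decide) z)⁻¹.val 0 1 = -((-τ) • (1 : P)) := by
    rw [v3, et]; module
  obtain ⟨⟨r1, r2⟩, ⟨r3, r4⟩⟩ := row_col (A * W * el 0 1 (by decide) z)
  rw [v1, v2', smul_mul_assoc, one_mul] at r1
  have hαβ := Q.coprime _ _ _ _ r1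
  have k := same_data (A * W * el 0 1 (by decide) z) (Q.Tm g0 (-τ) _ _ hαβ) ?_ ?_ ?_ ?_
  · have k1 := mul_mem (hS k) (hT g0 (-τ) _ _ hαβ)
    rw [inv_mul_cancel_right] at k1
    exact (mem_of_mul (hS W_mem)).1 ((mem_of_mul (hS (el01_mem z))).1 k1)
  · rw [Q.Tm_val, v1]; simp
  · rw [Q.Tm_val, v2']; simp
  · rw [Q.Tm_inv_val, v3']; simp
  · rw [Q.Tm_inv_val, v4]; simp

end QStr

end BW
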