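import Pool.Agent.BW.Defs

/-!
# Bounded width: the group `H`, the multiplication lemma
-/

namespace BW

open Matrix

variable {R : Type*} [Ring R]

/-- the embedding `A ↦ diag(A, 1)` of unit groups -/
def K (A : (Matrix (Fin 2) (Fin 2) R)ˣ) : (Matrix (Fin 3) (Fin 3) R)ˣ :=
  Units.map (k12 (R := R)) A

theorem K_mul (A B : (Matrix (Fin 2) (Fin 2) R)ˣ) : K (A * B) = K A * K B := by
  simp [K]

theorem K_inv (A : (Matrix (Fin 2) (Fin 2) R)ˣ) : K A⁻¹ = (K A)⁻¹ := by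
  simp [K]

theorem K_one : K (1 : (Matrix (Fin 2) (Fin 2) R)ˣ) = 1 := by
  simp [K]

theorem mem_H {A : (Matrix (Fin 2) (Fin 2) R)ˣ} : A ∈ H R ↔ K A ∈ E (Fin 3) R := Iff.rfl

theorem K_val (A : (Matrix (Fin 2) (Fin 2) R)ˣ) :
    (K A).val = !![A.val 0 0, A.val 0 1, 0; A.val 1 0, A.val 1 1, 0; 0, 0, 1] := rfl

theorem el_val {n : Type*} [DecidableEq n] [Fintype n] (i j : n) (h : i ≠ j) (x : R) :
    (el i j h x).val = 1 + Matrix.single i j x := rfl

theorem el_inv {n : Type*} [DecidableEq n] [Fintype n] (i j : n) (h : i ≠ j) (x : R) :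
    (el i j h x)⁻¹ = el i j h (-x) := by
  ext1
  change 1 - Matrix.single i j x = 1 + Matrix.single i j (-x)
  rw [← Matrix.single_neg]; abel

theorem el_add {n : Type*} [DecidableEq n] [Fintype n] (i j : n) (h : i ≠ j) (x y : R) :
    el i j h (x + y) = el i j h x * el i j h y := by
  ext1
  change 1 + Matrix.single i j (x + y) = (1 + Matrix.single i j x) * (1 + Matrix.single i j y)
  have : Matrix.single i j x * Matrix.single i j y = 0 :=
    Matrix.single_mul_single_of_ne x i j i h.symm y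
  rw [Matrix.single_add, add_mul, mul_add, mul_add, this]; simp [add_assoc]; abel

theorem row_col (A : (Matrix (Fin 2) (Fin 2) R)ˣ) :
    (A.val 0 0 * A⁻¹.val 0 0 + A.val 0 1 * A⁻¹.val 1 0 = 1 ∧
      A.val 0 0 * A⁻¹.val 0 1 + A.val 0 1 * A⁻¹.val 1 1 = 0) ∧
    (A.val 1 0 * A⁻¹.val 0 0 + A.val 1 1 * A⁻¹.val 1 0 = 0 ∧
      A.val 1 0 * A⁻¹.val 0 1 + A.val 1 1 * A⁻¹.val 1 1 = 1) := by
  have h : A.val * A⁻¹.val = 1 := by rw [← Units.val_mul, mul_inv_cancel]; rfl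
  have e : ∀ i j, (A.val * A⁻¹.val) i j = A.val i 0 * A⁻¹.val 0 j + A.val i 1 * A⁻¹.val 1 j := by
    intro i j; rw [Matrix.mul_apply, Fin.sum_univ_two]
  refine ⟨⟨?_, ?_⟩, ⟨?_, ?_⟩⟩ <;> rw [← e, h] <;> simp

theorem row_col' (A : (Matrix (Fin 2) (Fin 2) R)ˣ) :
    (A⁻¹.val 0 0 * A.val 0 0 + A⁻¹.val 0 1 * A.val 1 0 = 1 ∧
      A⁻¹.val 0 0 * A.val 0 1 + A⁻¹.val 0 1 * A.val 1 1 = 0) ∧
    (A⁻¹.val 1 0 * A.val 0 0 + A⁻¹.val 1 1 * A.val 1 0 = 0 ∧
      A⁻¹.val 1 0 * A.val 0 1 + A⁻¹.val 1 1 * A.val 1 1 = 1) := by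
  have := row_col A⁻¹
  rwa [inv_inv] at this

/-! ### `E_3` is normalized by `diag(A, 1)` -/

theorem K_el02 (A : (Matrix (Fin 2) (Fin 2) R)ˣ) (x : R) :
    K A * el 0 2 (by decide) x * (K A)⁻¹ =
      el 0 2 (by decide) (A.val 0 0 * x) * el 1 2 (by decide) (A.val 1 0 * x) := by
  rw [mul_inv_eq_iff_eq_mul]
  ext1
  simp only [Units.val_mul, K_val, el_val]
  ext i j
  fin_cases i <;> fin_cases j <;>
    simp [Matrix.mul_apply, Fin.sum_univ_three, Matrix.add_apply, Matrix.one_apply,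
      Matrix.single_apply]

theorem K_el12 (A : (Matrix (Fin 2) (Fin 2) R)ˣ) (x : R) :
    K A * el 1 2 (by decide) x * (K A)⁻¹ =
      el 0 2 (by decide) (A.val 0 1 * x) * el 1 2 (by decide) (A.val 1 1 * x) := by
  rw [mul_inv_eq_iff_eq_mul]
  ext1
  simp only [Units.val_mul, K_val, el_val]
  ext i j
  fin_cases i <;> fin_cases j <;>
    simp [Matrix.mul_apply, Fin.sum_univ_three, Matrix.add_apply, Matrix.one_apply,
      Matrix.single_apply]

theorem K_el20 (A : (Matrix (Fin 2) (Fin 2) R)ˣ) (x : R) :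
    K A * el 2 0 (by decide) x * (K A)⁻¹ =
      el 2 0 (by decide) (x * A⁻¹.val 0 0) * el 2 1 (by decide) (x * A⁻¹.val 0 1) := by
  rw [mul_inv_eq_iff_eq_mul]
  obtain ⟨⟨h1, h2⟩, ⟨h3, h4⟩⟩ := row_col' A
  ext1
  simp only [Units.val_mul, K_val, el_val]
  ext i j
  fin_cases i <;> fin_cases j <;>
    simp [Matrix.mul_apply, Fin.sum_univ_three, Matrix.add_apply, Matrix.one_apply,
      Matrix.single_apply, mul_assoc, ← mul_add, h1, h2]

theorem K_el21 (A : (Matrix (Fin 2) (Fin 2) R)ˣ) (x : R) :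
    K A * el 2 1 (by decide) x * (K A)⁻¹ =
      el 2 0 (by decide) (x * A⁻¹.val 1 0) * el 2 1 (by decide) (x * A⁻¹.val 1 1) := by
  rw [mul_inv_eq_iff_eq_mul]
  obtain ⟨⟨h1, h2⟩, ⟨h3, h4⟩⟩ := row_col' A
  ext1
  simp only [Units.val_mul, K_val, el_val]
  ext i j
  fin_cases i <;> fin_cases j <;>
    simp [Matrix.mul_apply, Fin.sum_univ_three, Matrix.add_apply, Matrix.one_apply,
      Matrix.single_apply, mul_assoc, ← mul_add, h3, h4]

theorem el01_comm (x : R) : (el 0 1 (by decide) x : (Matrix (Fin 3) (Fin 3) R)ˣ) =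
    el 0 2 (by decide) x * el 2 1 (by decide) 1 * el 0 2 (by decide) (-x) *
      el 2 1 (by decide) (-1) := by
  ext1
  simp only [Units.val_mul, el_val]
  ext i j
  fin_cases i <;> fin_cases j <;>
    simp [Matrix.mul_apply, Fin.sum_univ_three, Matrix.add_apply, Matrix.one_apply,
      Matrix.single_apply]

theorem el10_comm (x : R) : (el 1 0 (by decide) x : (Matrix (Fin 3) (Fin 3) R)ˣ) =
    el 1 2 (by decide) x * el 2 0 (by decide) 1 * el 1 2 (by decide) (-x) *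
      el 2 0 (by decide) (-1) := by
  ext1
  simp only [Units.val_mul, el_val]
  ext i j
  fin_cases i <;> fin_cases j <;>
    simp [Matrix.mul_apply, Fin.sum_univ_three, Matrix.add_apply, Matrix.one_apply,
      Matrix.single_apply]

theorem conj_mem_E (A : (Matrix (Fin 2) (Fin 2) R)ˣ) {g : (Matrix (Fin 3) (Fin 3) R)ˣ}
    (hg : g ∈ E (Fin 3) R) : K A * g * (K A)⁻¹ ∈ E (Fin 3) R := by
  have key : E (Fin 3) R ≤ (E (Fin 3) R).comap (MulAut.conj (K A)).toMonoidHom := by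
    have h02 : ∀ x, K A * el 0 2 (by decide) x * (K A)⁻¹ ∈ E (Fin 3) R := fun x => by
      rw [K_el02]; exact mul_mem (el_mem _ _ _ _) (el_mem _ _ _ _)
    have h12 : ∀ x, K A * el 1 2 (by decide) x * (K A)⁻¹ ∈ E (Fin 3) R := fun x => by
      rw [K_el12]; exact mul_mem (el_mem _ _ _ _) (el_mem _ _ _ _)
    have h20 : ∀ x, K A * el 2 0 (by decide) x * (K A)⁻¹ ∈ E (Fin 3) R := fun x => by
      rw [K_el20]; exact mul_mem (el_mem _ _ _ _) (el_mem _ _ _ _)
    have h21 : ∀ x, K A * el 2 1 (by decide) x * (K A)⁻¹ ∈ E (Fin 3) R := fun x => by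
      rw [K_el21]; exact mul_mem (el_mem _ _ _ _) (el_mem _ _ _ _)
    rw [E, Subgroup.closure_le]
    rintro _ ⟨i, j, h, x, rfl⟩
    change (MulAut.conj (K A)) (el i j h x) ∈ E (Fin 3) R
    have hx : ∀ (i j : Fin 3) (h : i ≠ j) (x : R), (i, j) ≠ (0, 1) → (i, j) ≠ (1, 0) →
        (MulAut.conj (K A)) (el i j h x) ∈ E (Fin 3) R := by
      intro i j h x h1 h2
      fin_cases i <;> fin_cases j
      · exact absurd rfl h
      · exact absurd rfl h1
      · exact h02 x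
      · exact absurd rfl h2
      · exact absurd rfl h
      · exact h12 x
      · exact h20 x
      · exact h21 x
      · exact absurd rfl h
    by_cases h1 : (i, j) = ((0, 1) : Fin 3 × Fin 3)
    · obtain ⟨rfl, rfl⟩ : i = 0 ∧ j = 1 := by simpa using h1
      rw [el01_comm, map_mul, map_mul, map_mul]
      exact mul_mem (mul_mem (mul_mem (hx _ _ _ _ (by decide) (by decide))
        (hx _ _ _ _ (by decide) (by decide))) (hx _ _ _ _ (by decide) (by decide)))
        (hx _ _ _ _ (by decide) (by decide))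
    · by_cases h2 : (i, j) = ((1, 0) : Fin 3 × Fin 3)
      · obtain ⟨rfl, rfl⟩ : i = 1 ∧ j = 0 := by simpa using h2
        rw [el10_comm, map_mul, map_mul, map_mul]
        exact mul_mem (mul_mem (mul_mem (hx _ _ _ _ (by decide) (by decide))
          (hx _ _ _ _ (by decide) (by decide))) (hx _ _ _ _ (by decide) (by decide)))
          (hx _ _ _ _ (by decide) (by decide))
      · exact hx i j h x h1 h2
  exact key hg

theorem H_normal : (H R).Normal := by
  constructor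
  intro n hn g
  rw [mem_H, K_mul, K_mul, K_inv]
  exact conj_mem_E g hn

instance : (H R).Normal := H_normal

/-! ### elements of `H` -/

theorem K_el01 (x : R) : K (el 0 1 (by decide) x) = el 0 1 (by decide) x := by
  ext1
  simp only [K_val, el_val]
  ext i j
  fin_cases i <;> fin_cases j <;> simp

theorem K_el10 (x : R) : K (el 1 0 (by decide) x) = el 1 0 (by decide) x := by
  ext1
  simp only [K_val, el_val]
  ext i j
  fin_cases i <;> fin_cases j <;> simp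

theorem el01_mem (x : R) : el 0 1 (by decide) x ∈ H R := by
  rw [mem_H, K_el01]; exact el_mem _ _ _ _

theorem el10_mem (x : R) : el 1 0 (by decide) x ∈ H R := by
  rw [mem_H, K_el10]; exact el_mem _ _ _ _

/-- the Weyl element `[[0, -1], [1, 0]]` -/
def W : (Matrix (Fin 2) (Fin 2) R)ˣ :=
  el 1 0 (by decide) 1 * el 0 1 (by decide) (-1) * el 1 0 (by decide) 1

theorem W_mem : (W : (Matrix (Fin 2) (Fin 2) R)ˣ) ∈ H R :=
  mul_mem (mul_mem (el10_mem _) (el01_mem _)) (el10_mem _)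

theorem W_val : (W : (Matrix (Fin 2) (Fin 2) R)ˣ).val = !![0, -1; 1, 0] := by
  simp only [W, Units.val_mul, el_val]
  ext i j
  fin_cases i <;> fin_cases j <;>
    simp [Matrix.mul_apply, Fin.sum_univ_two, Matrix.add_apply, Matrix.one_apply,
      Matrix.single_apply]

theorem W_inv_val : (W⁻¹ : (Matrix (Fin 2) (Fin 2) R)ˣ).val = !![0, 1; -1, 0] := by
  simp only [W, _root_.mul_inv_rev, el_inv, Units.val_mul, el_val]
  ext i j
  fin_cases i <;> fin_cases j <;>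
    simp [Matrix.mul_apply, Fin.sum_univ_two, Matrix.add_apply, Matrix.one_apply,
      Matrix.single_apply]

/-! ### the Weyl elements of `GL_3` -/

/-- `e_1 ↦ e_2`, `e_2 ↦ -e_1` -/
def W12 : (Matrix (Fin 3) (Fin 3) R)ˣ :=
  el 2 1 (by decide) 1 * el 1 2 (by decide) (-1) * el 2 1 (by decide) 1

theorem W12_mem : (W12 : (Matrix (Fin 3) (Fin 3) R)ˣ) ∈ E (Fin 3) R :=
  mul_mem (mul_mem (el_mem _ _ _ _) (el_mem _ _ _ _)) (el_mem _ _ _ _)

theorem W12_val : (W12 : (Matrix (Fin 3) (Fin 3) R)ˣ).val = !![1, 0, 0; 0, 0, -1; 0, 1, 0] := by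
  simp only [W12, Units.val_mul, el_val]
  ext i j
  fin_cases i <;> fin_cases j <;>
    simp [Matrix.mul_apply, Fin.sum_univ_three, Matrix.add_apply, Matrix.one_apply,
      Matrix.single_apply]

/-- the cyclic permutation -/
def WC : (Matrix (Fin 3) (Fin 3) R)ˣ := K W * W12

theorem WC_mem : (WC : (Matrix (Fin 3) (Fin 3) R)ˣ) ∈ E (Fin 3) R :=
  mul_mem W_mem W12_mem

theorem WC_val : (WC : (Matrix (Fin 3) (Fin 3) R)ˣ).val = !![0, 0, 1; 1, 0, 0; 0, 1, 0] := by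
  simp only [WC, Units.val_mul, K_val, W_val, W12_val]
  ext i j
  fin_cases i <;> fin_cases j <;>
    simp [Matrix.mul_apply, Fin.sum_univ_three]

theorem k23_eq (B : (Matrix (Fin 2) (Fin 2) R)ˣ) :
    Units.map (k23 (R := R)) B = WC * K B * WC⁻¹ := by
  rw [eq_mul_inv_iff_mul_eq]
  ext1
  simp only [Units.val_mul, WC_val, K_val]
  change !![1, 0, 0; 0, B.val 0 0, B.val 0 1; 0, B.val 1 0, B.val 1 1] * _ = _
  ext i j
  fin_cases i <;> fin_cases j <;>
    simp [Matrix.mul_apply, Fin.sum_univ_three]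

theorem k13_eq (B : (Matrix (Fin 2) (Fin 2) R)ˣ) :
    Units.map (k13 (R := R)) B = W12 * K B * W12⁻¹ := by
  rw [eq_mul_inv_iff_mul_eq]
  ext1
  simp only [Units.val_mul, W12_val, K_val]
  change !![B.val 0 0, 0, B.val 0 1; 0, 1, 0; B.val 1 0, 0, B.val 1 1] * _ = _
  ext i j
  fin_cases i <;> fin_cases j <;>
    simp [Matrix.mul_apply, Fin.sum_univ_three]

/-! ### the multiplication lemma -/

theorem mem_of_eq (A B C : (Matrix (Fin 2) (Fin 2) R)ˣ) {e e' : (Matrix (Fin 3) (Fin 3) R)ˣ}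
    (he : e ∈ E (Fin 3) R) (he' : e' ∈ E (Fin 3) R)
    (h : e * (K A * Units.map (k23 (R := R)) B) * e' = Units.map (k13 (R := R)) C) :
    A * B * C⁻¹ ∈ H R := by
  rw [k23_eq, k13_eq] at h
  have h1 : K A * WC * (K A)⁻¹ ∈ E (Fin 3) R := conj_mem_E A WC_mem
  have h2 : K C * (W12⁻¹ * e'⁻¹ * WC) * (K C)⁻¹ ∈ E (Fin 3) R :=
    conj_mem_E C (mul_mem (mul_mem (inv_mem W12_mem) (inv_mem he')) WC_mem)
  have h3 : K (A * B * C⁻¹) = (K A * WC * (K A)⁻¹)⁻¹ * e⁻¹ * W12 *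
      (K C * (W12⁻¹ * e'⁻¹ * WC) * (K C)⁻¹) := by
    have h4 : (K A * WC * (K A)⁻¹)⁻¹ * e⁻¹ * W12 *
      (K C * (W12⁻¹ * e'⁻¹ * WC) * (K C)⁻¹) = (K A * WC * (K A)⁻¹)⁻¹ * e⁻¹ * (W12 *
      K C * W12⁻¹) * e'⁻¹ * WC * (K C)⁻¹ := by group
    rw [h4, ← h, K_mul, K_mul, K_inv]
    group
  rw [mem_H, h3]
  exact mul_mem (mul_mem (mul_mem (inv_mem h1) (inv_mem he)) W12_mem) h2

/-- the value of the product in the multiplication lemma (H2) of the page -/
theorem star_val (A B : (Matrix (Fin 2) (Fin 2) R)ˣ) (h : A⁻¹.val 1 1 = B.val 0 0) :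
    (el 2 1 (by decide) (-(B.val 1 0)) * (K A * Units.map (k23 (R := R)) B) *
      (el 0 1 (by decide) (A⁻¹.val 0 1) * el 1 0 (by decide) (-(A.val 1 0)) *
      el 1 2 (by decide) (-(A.val 1 1 * B.val 0 1)))).val =
    !![A.val 0 0, 0, A.val 0 1 * B.val 0 1; 0, 1, 0; -(B.val 1 0 * A.val 1 0), 0,
      B.val 1 1 - B.val 1 0 * A.val 1 1 * B.val 0 1] := by
  obtain ⟨⟨r1, r2⟩, ⟨r3, r4⟩⟩ := row_col A
  rw [h] at r2 r4
  simp only [Units.val_mul, K_val, el_val]
  change _ * (_ * !![1, 0, 0; 0, B.val 0 0, B.val 0 1; 0, B.val 1 0, B.val 1 1]) * _ = _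
  set a := A.val 0 0
  set b := A.val 0 1
  set c := A.val 1 0
  set d := A.val 1 1
  set q := A⁻¹.val 0 1
  set a' := B.val 0 0
  set b' := B.val 0 1
  set c' := B.val 1 0
  set d' := B.val 1 1
  have s1 : (!![a, b, 0; c, d, 0; 0, 0, 1] * !![1, 0, 0; 0, a', b'; 0, c', d'] :
      Matrix (Fin 3) (Fin 3) R) = !![a, b * a', b * b'; c, d * a', d * b'; 0, c', d'] := by
    ext i j; fin_cases i <;> fin_cases j <;> simp [Matrix.mul_apply, Fin.sum_univ_three]
  have s2 : (!![a, b * a', b * b'; c, d * a', d * b'; 0, c', d'] * (1 + Matrix.single 0 1 q) :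
      Matrix (Fin 3) (Fin 3) R) = !![a, 0, b * b'; c, 1, d * b'; 0, c', d'] := by
    ext i j; fin_cases i <;> fin_cases j <;>
      simp [Matrix.mul_apply, Fin.sum_univ_three, Matrix.one_apply, Matrix.single_apply, r2, r4]
  have s3 : ((1 + Matrix.single 2 1 (-c')) * !![a, 0, b * b'; c, 1, d * b'; 0, c', d'] :
      Matrix (Fin 3) (Fin 3) R) =
      !![a, 0, b * b'; c, 1, d * b'; -(c' * c), 0, d' - c' * d * b'] := by
    ext i j; fin_cases i <;> fin_cases j <;>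
      simp [Matrix.mul_apply, Fin.sum_univ_three, Matrix.one_apply, Matrix.single_apply, mul_assoc,
        sub_eq_add_neg, add_comm]
  have s4 : (!![a, 0, b * b'; c, 1, d * b'; -(c' * c), 0, d' - c' * d * b'] *
      (1 + Matrix.single 1 0 (-c)) : Matrix (Fin 3) (Fin 3) R) =
      !![a, 0, b * b'; 0, 1, d * b'; -(c' * c), 0, d' - c' * d * b'] := by
    ext i j; fin_cases i <;> fin_cases j <;>
      simp [Matrix.mul_apply, Fin.sum_univ_three, Matrix.one_apply, Matrix.single_apply]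
  have s5 : (!![a, 0, b * b'; 0, 1, d * b'; -(c' * c), 0, d' - c' * d * b'] *
      (1 + Matrix.single 1 2 (-(d * b'))) : Matrix (Fin 3) (Fin 3) R) =
      !![a, 0, b * b'; 0, 1, 0; -(c' * c), 0, d' - c' * d * b'] := by
    ext i j; fin_cases i <;> fin_cases j <;>
      simp [Matrix.mul_apply, Fin.sum_univ_three, Matrix.one_apply, Matrix.single_apply]
  calc _ = (1 + Matrix.single 2 1 (-c')) * ((!![a, b, 0; c, d, 0; 0, 0, 1] *
        !![1, 0, 0; 0, a', b'; 0, c', d']) * (1 + Matrix.single 0 1 q)) *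
        (1 + Matrix.single 1 0 (-c)) * (1 + Matrix.single 1 2 (-(d * b'))) := by
        simp only [mul_assoc]
    _ = _ := by rw [s1, s2, s3, s4, s5]

/-- the multiplication lemma (H2) of the page -/
theorem star (A B C : (Matrix (Fin 2) (Fin 2) R)ˣ) (h : A⁻¹.val 1 1 = B.val 0 0)
    (h00 : C.val 0 0 = A.val 0 0) (h01 : C.val 0 1 = A.val 0 1 * B.val 0 1)
    (h10 : C.val 1 0 = -(B.val 1 0 * A.val 1 0))
    (h11 : C.val 1 1 = B.val 1 1 - B.val 1 0 * A.val 1 1 * B.val 0 1) :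
    A * B * C⁻¹ ∈ H R := by
  refine mem_of_eq A B C (e := el 2 1 (by decide) (-(B.val 1 0)))
    (e' := el 0 1 (by decide) (A⁻¹.val 0 1) * el 1 0 (by decide) (-(A.val 1 0)) *
      el 1 2 (by decide) (-(A.val 1 1 * B.val 0 1))) (el_mem _ _ _ _)
    (mul_mem (mul_mem (el_mem _ _ _ _) (el_mem _ _ _ _)) (el_mem _ _ _ _)) ?_
  ext1
  rw [star_val A B h]
  change _ = !![C.val 0 0, 0, C.val 0 1; 0, 1, 0; C.val 1 0, 0, C.val 1 1]
  rw [h00, h01, h10, h11]

/-- a unit of `GL_3` of the shape of `k13` comes from `GL_2` -/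
theorem k13_extract (X : (Matrix (Fin 3) (Fin 3) R)ˣ) (a b c d : R)
    (h : X.val = !![a, 0, b; 0, 1, 0; c, 0, d]) :
    ∃ C : (Matrix (Fin 2) (Fin 2) R)ˣ, C.val = !![a, b; c, d] ∧
      C⁻¹.val 0 1 = X⁻¹.val 0 2 ∧ C⁻¹.val 1 1 = X⁻¹.val 2 2 := by
  have h1 : X.val * X⁻¹.val = 1 := by rw [← Units.val_mul, mul_inv_cancel]; rfl
  have h2 : X⁻¹.val * X.val = 1 := by rw [← Units.val_mul, inv_mul_cancel]; rfl
  rw [h] at h1 h2
  generalize hY : X⁻¹.val = Y at *
  have e1 : ∀ i j, (!![a, 0, b; 0, 1, 0; c, 0, d] * Y) i j = (1 : Matrix (Fin 3) (Fin 3) R) i j :=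
    fun i j => by rw [h1]
  have e2 : ∀ i j, (Y * !![a, 0, b; 0, 1, 0; c, 0, d]) i j = (1 : Matrix (Fin 3) (Fin 3) R) i j :=
    fun i j => by rw [h2]
  refine ⟨⟨!![a, b; c, d], !![Y 0 0, Y 0 2; Y 2 0, Y 2 2], ?_, ?_⟩, rfl, rfl, rfl⟩
  · have a1 := e1 0 0
    have a2 := e1 0 2
    have a3 := e1 2 0
    have a4 := e1 2 2
    simp [Matrix.mul_apply, Fin.sum_univ_three] at a1 a2 a3 a4
    ext i j
    fin_cases i <;> fin_cases j <;> simp [Matrix.mul_apply, Fin.sum_univ_two, a1, a2, a3, a4]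
  · have a1 := e2 0 0
    have a2 := e2 0 2
    have a3 := e2 2 0
    have a4 := e2 2 2
    simp [Matrix.mul_apply, Fin.sum_univ_three] at a1 a2 a3 a4
    ext i j
    fin_cases i <;> fin_cases j <;> simp [Matrix.mul_apply, Fin.sum_univ_two, a1, a2, a3, a4]

/-- the multiplication lemma with the data of the product -/
theorem star_exists (A B : (Matrix (Fin 2) (Fin 2) R)ˣ) (h : A⁻¹.val 1 1 = B.val 0 0) :
    ∃ C : (Matrix (Fin 2) (Fin 2) R)ˣ, C.val 0 0 = A.val 0 0 ∧ C.val 0 1 = A.val 0 1 * B.val 0 1 ∧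
      C⁻¹.val 0 1 = -(A⁻¹.val 0 1 * B⁻¹.val 0 1) ∧ C⁻¹.val 1 1 = B⁻¹.val 1 1 ∧
      A * B * C⁻¹ ∈ H R := by
  obtain ⟨C, hC, c1, c2⟩ := k13_extract _ _ _ _ _ (star_val A B h)
  have e : (el 2 1 (by decide) (-(B.val 1 0)) * (K A * Units.map (k23 (R := R)) B) *
      (el 0 1 (by decide) (A⁻¹.val 0 1) * el 1 0 (by decide) (-(A.val 1 0)) *
      el 1 2 (by decide) (-(A.val 1 1 * B.val 0 1))))⁻¹ =
      el 1 2 (by decide) (A.val 1 1 * B.val 0 1) * el 1 0 (by decide) (A.val 1 0) *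
      el 0 1 (by decide) (-(A⁻¹.val 0 1)) * Units.map (k23 (R := R)) B⁻¹ * K A⁻¹ *
      el 2 1 (by decide) (B.val 1 0) := by
    simp only [_root_.mul_inv_rev, el_inv, neg_neg, K_inv, map_inv, mul_assoc]
  refine ⟨C, by rw [hC]; simp, by rw [hC]; simp, ?_, ?_, ?_⟩
  · rw [c1, e]
    simp only [Units.val_mul, K_val, el_val]
    change (_ * !![1, 0, 0; 0, B⁻¹.val 0 0, B⁻¹.val 0 1; 0, B⁻¹.val 1 0, B⁻¹.val 1 1] * _ * _ :
      Matrix (Fin 3) (Fin 3) R) 0 2 = _
    simp [Matrix.mul_apply, Fin.sum_univ_three, Matrix.one_apply, Matrix.single_apply]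
  · rw [c2, e]
    simp only [Units.val_mul, K_val, el_val]
    change (_ * !![1, 0, 0; 0, B⁻¹.val 0 0, B⁻¹.val 0 1; 0, B⁻¹.val 1 0, B⁻¹.val 1 1] * _ * _ :
      Matrix (Fin 3) (Fin 3) R) 2 2 = _
    simp [Matrix.mul_apply, Fin.sum_univ_three, Matrix.one_apply, Matrix.single_apply]
  · exact star A B C h (by rw [hC]; simp) (by rw [hC]; simp) (by rw [hC]; simp)
      (by rw [hC]; simp)

/-- matrices with the same first row and the same second column of the inverse agree modulo `H` -/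
theorem same_data (A B : (Matrix (Fin 2) (Fin 2) R)ˣ) (h00 : A.val 0 0 = B.val 0 0)
    (h01 : A.val 0 1 = B.val 0 1) (h0 : A⁻¹.val 0 1 = B⁻¹.val 0 1)
    (h1 : A⁻¹.val 1 1 = B⁻¹.val 1 1) : A * B⁻¹ ∈ H R := by
  obtain ⟨⟨r1, r2⟩, ⟨r3, r4⟩⟩ := row_col B
  obtain ⟨⟨q1, q2⟩, ⟨q3, q4⟩⟩ := row_col A
  have : A * B⁻¹ = el 1 0 (by decide) ((A * B⁻¹).val 1 0) := by
    ext1
    rw [el_val]
    have e : ∀ i j, (A * B⁻¹).val i j = A.val i 0 * B⁻¹.val 0 j + A.val i 1 * B⁻¹.val 1 j := by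
      intro i j; rw [Units.val_mul, Matrix.mul_apply, Fin.sum_univ_two]
    ext i j
    fin_cases i <;> fin_cases j
    · change (A * B⁻¹).val 0 0 = _
      rw [e, h00, h01, r1]; simp
    · change (A * B⁻¹).val 0 1 = _
      rw [e, h00, h01, r2]; simp
    · simp
    · change (A * B⁻¹).val 1 1 = _
      rw [e, ← h0, ← h1, q4]; simp
  rw [this]
  exact el10_mem _

/-- the multiplication lemma in terms of data -/
theorem star_data (A B D : (Matrix (Fin 2) (Fin 2) R)ˣ) (h : A⁻¹.val 1 1 = B.val 0 0)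
    (h00 : D.val 0 0 = A.val 0 0) (h01 : D.val 0 1 = A.val 0 1 * B.val 0 1)
    (h0 : D⁻¹.val 0 1 = -(A⁻¹.val 0 1 * B⁻¹.val 0 1)) (h1 : D⁻¹.val 1 1 = B⁻¹.val 1 1) :
    A * B * D⁻¹ ∈ H R := by
  obtain ⟨C, c1, c2, c3, c4, c5⟩ := star_exists A B h
  have k := same_data C D (by rw [c1, h00]) (by rw [c2, h01]) (by rw [c3, h0]) (by rw [c4, h1])
  have : A * B * D⁻¹ = A * B * C⁻¹ * (C * D⁻¹) := by group
  rw [this]
  exact mul_mem c5 k

/-! ### commutative rings -/

section Comm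

variable {S : Type*} [CommRing S]

theorem comm_inv (A : (Matrix (Fin 2) (Fin 2) S)ˣ) (hA : A.val.det = 1) :
    A⁻¹.val = !![A.val 1 1, -A.val 0 1; -A.val 1 0, A.val 0 0] := by
  have h : A.val * !![A.val 1 1, -A.val 0 1; -A.val 1 0, A.val 0 0] = 1 := by
    rw [Matrix.det_fin_two] at hA
    ext i j
    fin_cases i <;> fin_cases j <;> simp [Matrix.mul_apply, Fin.sum_univ_two]
    · linear_combination hA
    · ring
    · ring
    · linear_combination hA
  calc A⁻¹.val = A⁻¹.val * (A.val * !![A.val 1 1, -A.val 0 1; -A.val 1 0, A.val 0 0]) := by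
        rw [h, mul_one]
    _ = _ := by rw [← mul_assoc, ← Units.val_mul, inv_mul_cancel, Units.val_one, one_mul]

theorem comm_same_row (A B : (Matrix (Fin 2) (Fin 2) S)ˣ)
    (hA : A.val.det = 1) (hB : B.val.det = 1)
    (h1 : B.val 0 0 = A.val 0 0) (h2 : B.val 0 1 = A.val 0 1) : A * B⁻¹ ∈ H S := by
  refine same_data A B h1.symm h2.symm ?_ ?_
  · rw [comm_inv A hA, comm_inv B hB]; simp [h2]
  · rw [comm_inv A hA, comm_inv B hB]; simp [h1]

theorem comm_star (A B C : (Matrix (Fin 2) (Fin 2) S)ˣ)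
    (hA : A.val.det = 1) (hB : B.val.det = 1) (hC : C.val.det = 1)
    (h1 : B.val 0 0 = A.val 0 0) (h2 : C.val 0 0 = A.val 0 0)
    (h3 : C.val 0 1 = A.val 0 1 * B.val 0 1) : A * B * C⁻¹ ∈ H S := by
  have hA' := hA
  have hB' := hB
  rw [Matrix.det_fin_two] at hA' hB'
  rw [h1] at hB'
  have hD : (!![A.val 0 0, A.val 0 1 * B.val 0 1; -(B.val 1 0 * A.val 1 0),
      B.val 1 1 - B.val 1 0 * A.val 1 1 * B.val 0 1] : Matrix (Fin 2) (Fin 2) S).det = 1 := by
    rw [Matrix.det_fin_two_of]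
    linear_combination hB' - B.val 1 0 * B.val 0 1 * hA'
  let D : (Matrix (Fin 2) (Fin 2) S)ˣ :=
    (((Matrix.isUnit_iff_isUnit_det _).2 (by rw [hD]; exact isUnit_one)) : IsUnit _).unit
  have hDv : D.val = !![A.val 0 0, A.val 0 1 * B.val 0 1; -(B.val 1 0 * A.val 1 0),
      B.val 1 1 - B.val 1 0 * A.val 1 1 * B.val 0 1] := rfl
  have k1 : A * B * D⁻¹ ∈ H S := by
    refine star A B D ?_ ?_ ?_ ?_ ?_
    · rw [comm_inv A hA]; simp [h1]
    · rw [hDv]; simp
    · rw [hDv]; simp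
    · rw [hDv]; simp
    · rw [hDv]; simp
  have k2 : D * C⁻¹ ∈ H S := by
    refine comm_same_row D C (by rw [hDv, hD]) hC ?_ ?_
    · rw [h2, hDv]; simp
    · rw [h3, hDv]; simp
  have : A * B * C⁻¹ = A * B * D⁻¹ * (D * C⁻¹) := by group
  rw [this]
  exact mul_mem k1 k2

theorem comm_elementary (A : (Matrix (Fin 2) (Fin 2) S)ˣ)
    (hA : A.val.det = 1) (h : IsUnit (A.val 0 0) ∨ IsUnit (A.val 0 1)) : A ∈ H S := by
  -- case of a unit in position (0,1): make the entry (0,0) equal to 1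
  have key : ∀ A : (Matrix (Fin 2) (Fin 2) S)ˣ, A.val.det = 1 → A.val 0 0 = 1 → A ∈ H S := by
    intro A hA h
    rw [Matrix.det_fin_two, h, one_mul] at hA
    have : A = el 1 0 (by decide) (A.val 1 0) * el 0 1 (by decide) (A.val 0 1) := by
      ext1
      simp only [Units.val_mul, el_val]
      ext i j
      fin_cases i <;> fin_cases j <;>
        simp [Matrix.mul_apply, Fin.sum_univ_two, Matrix.add_apply, Matrix.one_apply,
          Matrix.single_apply, h]
      linear_combination hA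
    rw [this]
    exact mul_mem (el10_mem _) (el01_mem _)
  have det_el : ∀ (i j : Fin 2) (h : i ≠ j) (x : S), (el i j h x).val.det = 1 := by
    intro i j h x
    rw [el_val, Matrix.det_fin_two]
    fin_cases i <;> fin_cases j <;> simp_all
  have k2 : ∀ A : (Matrix (Fin 2) (Fin 2) S)ˣ, A.val.det = 1 → IsUnit (A.val 0 1) → A ∈ H S := by
    intro A hA h
    obtain ⟨u, hu⟩ := h
    have h1 : A * el 1 0 (by decide) ((u⁻¹ : Sˣ).val * (1 - A.val 0 0)) ∈ H S := by
      apply key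
      · rw [Units.val_mul, Matrix.det_mul, hA, det_el, one_mul]
      · rw [Units.val_mul, el_val, Matrix.mul_apply, Fin.sum_univ_two]
        simp [Matrix.single_apply]
        rw [← hu, ← mul_assoc]; simp
    have h2 := mul_mem h1 (inv_mem (el10_mem ((u⁻¹ : Sˣ).val * (1 - A.val 0 0))))
    rwa [mul_inv_cancel_right] at h2
  rcases h with h | h
  · obtain ⟨u, hu⟩ := h
    have h1 : A * el 0 1 (by decide) ((u⁻¹ : Sˣ).val * (1 - A.val 0 1)) ∈ H S := by
      apply k2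
      · rw [Units.val_mul, Matrix.det_mul, hA, det_el, one_mul]
      · have : (A * el 0 1 (by decide) ((u⁻¹ : Sˣ).val * (1 - A.val 0 1))).val 0 1 = 1 := by
          rw [Units.val_mul, el_val, Matrix.mul_apply, Fin.sum_univ_two]
          simp [Matrix.single_apply]
          rw [← hu, ← mul_assoc]; simp
        rw [this]; exact isUnit_one
    have h2 := mul_mem h1 (inv_mem (el01_mem ((u⁻¹ : Sˣ).val * (1 - A.val 0 1))))
    rwa [mul_inv_cancel_right] at h2
  · exact k2 A hA h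

/-- transposition on the unit group, as an anti-automorphism of `E` -/
theorem E_transpose {n : Type*} [DecidableEq n] [Fintype n] (A B : (Matrix n n S)ˣ)
    (h : B.val = A.valᵀ) (hA : A ∈ E n S) : B ∈ E n S := by
  -- transpose as a monoid homomorphism to the opposite
  have key : ∀ A ∈ E n S, ∃ B ∈ E n S, B.val = A.valᵀ := by
    intro A hA
    induction hA using Subgroup.closure_induction with
    | mem x hx =>
      obtain ⟨i, j, h, x, rfl⟩ := hx
      refine ⟨el j i h.symm x, el_mem _ _ _ _, ?_⟩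
      rw [el_val, el_val, Matrix.transpose_add, Matrix.transpose_one, Matrix.transpose_single]
    | one => exact ⟨1, one_mem _, by simp⟩
    | mul x y _ _ hx hy =>
      obtain ⟨bx, hbx, ex⟩ := hx
      obtain ⟨b_y, hby, ey⟩ := hy
      exact ⟨b_y * bx, mul_mem hby hbx, by
        rw [Units.val_mul, ex, ey, Units.val_mul, Matrix.transpose_mul]⟩
    | inv x _ hx =>
      obtain ⟨bx, hbx, ex⟩ := hx
      refine ⟨bx⁻¹, inv_mem hbx, ?_⟩
      have h1 : bx.val * x⁻¹.valᵀ = 1 := by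
        rw [ex, ← Matrix.transpose_mul, ← Units.val_mul, inv_mul_cancel]; simp
      calc bx⁻¹.val = bx⁻¹.val * (bx.val * x⁻¹.valᵀ) := by rw [h1, mul_one]
        _ = _ := by rw [← mul_assoc, ← Units.val_mul, inv_mul_cancel, Units.val_one, one_mul]
  obtain ⟨B', hB', e⟩ := key A hA
  have : B = B' := by ext1; rw [h, e]
  rw [this]; exact hB'

theorem comm_transpose (A : (Matrix (Fin 2) (Fin 2) S)ˣ)
    (B : (Matrix (Fin 2) (Fin 2) S)ˣ) (h : B.val = A.valᵀ) (hA : A ∈ H S) : B ∈ H S := by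
  rw [mem_H] at hA ⊢
  refine E_transpose (K A) (K B) ?_ hA
  rw [K_val, K_val, h]
  ext i j
  fin_cases i <;> fin_cases j <;> simp

end Comm

end BW
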