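import Pool.Agent.BW.SLoc

/-!
# Examples of quaternion Azumaya algebras over `ℤ[1/N]`

These examples are not used in any proof; they show which algebras satisfy
`BW.IsQuaternionAzumaya`: the quaternion algebra `i² = a`, `j² = b`, `ij = -ji` for units `a, b, 2`
of `ℤ[1/N]`, in particular Hamilton's quaternions over `ℤ[1/N]`, `N` even (they have no zero
divisors, so they are not a matrix algebra), and the matrix algebra `M₂(ℤ[1/N])` for every `N ≠ 0`.
-/

set_option autoImplicit false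

namespace BW.Example

open Matrix

section Rep

variable {R K : Type*} [CommRing R] [Field K]

/-- the representation of `i² = a`, `j² = b` given by a solution of `x² - a y² = b` -/
def rho (f : R →+* K) (a b : R) (x y : K) (h : x ^ 2 - f a * y ^ 2 = f b) :
    QuaternionAlgebra R a 0 b →+* Matrix (Fin 2) (Fin 2) K where
  toFun q := !![f q.re + f q.imJ * x + f q.imK * (f a * y),
      f q.imI * f a - f q.imJ * (f a * y) - f q.imK * (f a * x);
      f q.imI + f q.imJ * y + f q.imK * x,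
      f q.re - f q.imJ * x - f q.imK * (f a * y)]
  map_one' := by
    ext i j; fin_cases i <;> fin_cases j <;> simp
  map_zero' := by
    ext i j; fin_cases i <;> fin_cases j <;> simp
  map_add' q r := by
    ext i j; fin_cases i <;> fin_cases j <;> simp <;> ring
  map_mul' q r := by
    ext i j
    fin_cases i <;> fin_cases j <;>
      simp [Matrix.mul_apply, Fin.sum_univ_two]
    · linear_combination (-(f q.imJ * f r.imJ) + f a * f q.imK * f r.imK) * h
    · linear_combination (f a * (f q.imJ * f r.imK - f q.imK * f r.imJ)) * h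
    · linear_combination (f q.imJ * f r.imK - f q.imK * f r.imJ) * h
    · linear_combination (-(f q.imJ * f r.imJ) + f a * f q.imK * f r.imK) * h

theorem rho_surjective (f : R →+* K) (hf : Function.Surjective f) (a b : R) (x y : K)
    (h : x ^ 2 - f a * y ^ 2 = f b) (h2 : (2 : K) ≠ 0) (ha : f a ≠ 0) (hb : f b ≠ 0) :
    Function.Surjective (rho f a b x y h) := by
  intro M
  have hc : (2 : K) * (2 : K)⁻¹ = 1 := mul_inv_cancel₀ h2
  have hα : f a * (f a)⁻¹ = 1 := mul_inv_cancel₀ ha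
  have hβ : f b * (f b)⁻¹ = 1 := mul_inv_cancel₀ hb
  generalize (2 : K)⁻¹ = c at hc
  generalize (f a)⁻¹ = α at hα
  generalize (f b)⁻¹ = β at hβ
  obtain ⟨A, hA⟩ : ∃ A, A = c * (M 0 0 - M 1 1) := ⟨_, rfl⟩
  obtain ⟨B, hB⟩ : ∃ B, B = c * (M 1 0 - M 0 1 * α) := ⟨_, rfl⟩
  obtain ⟨t, ht⟩ := hf (c * (M 0 0 + M 1 1))
  obtain ⟨u, hu⟩ := hf (c * (M 0 1 * α + M 1 0))
  obtain ⟨v, hv⟩ := hf ((A * x - f a * y * B) * β)
  obtain ⟨w, hw⟩ := hf ((x * B - y * A) * β)
  refine ⟨⟨t, u, v, w⟩, ?_⟩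
  have e1 : f v * x + f w * (f a * y) = A := by
    rw [hv, hw]; linear_combination β * A * h + A * hβ
  have e2 : f v * y + f w * x = B := by
    rw [hv, hw]; linear_combination β * B * h + B * hβ
  ext i j
  fin_cases i <;> fin_cases j <;> simp [rho]
  · linear_combination ht + e1 + hA + M 0 0 * hc
  · linear_combination f a * hu - f a * e2 - f a * hB + f a * α * M 0 1 * hc + M 0 1 * hα
  · linear_combination hu + e2 + hB + M 1 0 * hc
  · linear_combination ht - e1 - hA + M 1 1 * hc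

theorem rho_eq_zero (f : R →+* K) (a b : R) (x y : K)
    (h : x ^ 2 - f a * y ^ 2 = f b) (h2 : (2 : K) ≠ 0) (ha : f a ≠ 0) (hb : f b ≠ 0)
    (q : QuaternionAlgebra R a 0 b) (hq : rho f a b x y h q = 0) :
    f q.re = 0 ∧ f q.imI = 0 ∧ f q.imJ = 0 ∧ f q.imK = 0 := by
  have h00 := congrFun (congrFun hq 0) 0
  have h01 := congrFun (congrFun hq 0) 1
  have h10 := congrFun (congrFun hq 1) 0
  have h11 := congrFun (congrFun hq 1) 1
  simp only [rho, RingHom.coe_mk, MonoidHom.coe_mk, OneHom.coe_mk, Matrix.of_apply,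
    Matrix.cons_val', Matrix.cons_val_zero, Matrix.cons_val_one, Matrix.zero_apply,
    Matrix.cons_val_fin_one] at h00 h01 h10 h11
  have hre : f q.re = 0 := by
    have : (2 : K) * f q.re = 0 := by linear_combination h00 + h11
    exact (mul_eq_zero.1 this).resolve_left h2
  have hI : f q.imI = 0 := by
    have : (2 * f a : K) * f q.imI = 0 := by linear_combination h01 + f a * h10
    exact (mul_eq_zero.1 this).resolve_left (mul_ne_zero h2 ha)
  have g1 : f q.imJ * x + f q.imK * (f a * y) = 0 := by linear_combination h00 - hre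
  have g2 : f q.imJ * y + f q.imK * x = 0 := by linear_combination h10 - hI
  have hJ : f q.imJ = 0 := by
    have : f b * f q.imJ = 0 := by
      linear_combination x * g1 - f a * y * g2 - f q.imJ * h
    exact (mul_eq_zero.1 this).resolve_left hb
  have hK : f q.imK = 0 := by
    have : f b * f q.imK = 0 := by
      linear_combination x * g2 - y * g1 - f q.imK * h
    exact (mul_eq_zero.1 this).resolve_left hb
  exact ⟨hre, hI, hJ, hK⟩

end Rep

/-- `x² - a y² = b` is soluble in `𝔽_p`, `p` odd, `a ≠ 0` -/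
theorem exists_norm {p : ℕ} [Fact p.Prime] (hp : p ≠ 2) (a b : ZMod p) (ha : a ≠ 0) :
    ∃ x y : ZMod p, x ^ 2 - a * y ^ 2 = b := by
  open Polynomial in
  have hodd : Fintype.card (ZMod p) % 2 = 1 := by
    rw [ZMod.card]; exact Nat.odd_iff.1 ((Fact.out : p.Prime).odd_of_ne_two hp)
  have d1 : (Polynomial.X ^ 2 - Polynomial.C b : Polynomial (ZMod p)).degree = 2 :=
    Polynomial.degree_X_pow_sub_C (by norm_num) b
  have d2 : (Polynomial.C (-a) * Polynomial.X ^ 2 : Polynomial (ZMod p)).degree = 2 := by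
    rw [Polynomial.degree_C_mul_X_pow 2 (neg_ne_zero.2 ha)]; rfl
  obtain ⟨x, y, h⟩ := FiniteField.exists_root_sum_quadratic d1 d2 hodd
  refine ⟨x, y, ?_⟩
  simp only [Polynomial.eval_sub, Polynomial.eval_pow, Polynomial.eval_X, Polynomial.eval_C,
    Polynomial.eval_mul] at h
  linear_combination h

variable {N : ℕ} {R : Type*} [CommRing R]

theorem phi_surjective [IsLocalization.Away (N : ℤ) R] {p : ℕ} (hp : p.Prime) (hpN : ¬ p ∣ N) :
    Function.Surjective (S.phi R hp hpN) := by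
  have : Fact p.Prime := ⟨hp⟩
  intro z
  obtain ⟨m, rfl⟩ := ZMod.natCast_zmod_surjective z
  exact ⟨m, by simp⟩

/-- the quaternion algebra `i² = a`, `j² = b`, `ij = -ji` over `ℤ[1/N]`, for `a, b, 2` units -/
theorem quaternion (hN : N ≠ 0) [IsLocalization.Away (N : ℤ) R] (a b : R) (ha : IsUnit a)
    (hb : IsUnit b) (h2 : IsUnit (2 : R)) :
    IsQuaternionAzumaya N R (QuaternionAlgebra R a 0 b) := by
  have := S.isDomain (R := R) hN
  refine ⟨inferInstance, QuaternionAlgebra.finrank_eq_four _ _ _, fun p hp hpN => ?_⟩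
  have : Fact p.Prime := ⟨hp⟩
  have k2 : (2 : ZMod p) ≠ 0 := by
    have h2' := (h2.map (S.phi R hp hpN)).ne_zero
    rwa [map_ofNat] at h2'
  have ka := (ha.map (S.phi R hp hpN)).ne_zero
  have kb := (hb.map (S.phi R hp hpN)).ne_zero
  have hp2 : p ≠ 2 := by
    intro hp2
    apply k2
    have h3 : ((2 : ℕ) : ZMod p) = ((p : ℕ) : ZMod p) := congrArg _ hp2.symm
    rw [ZMod.natCast_self] at h3
    exact_mod_cast h3
  obtain ⟨x, y, h⟩ := exists_norm hp2 (S.phi R hp hpN a) (S.phi R hp hpN b) ka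
  refine ⟨rho (S.phi R hp hpN) a b x y h,
    rho_surjective _ (phi_surjective hp hpN) a b x y h k2 ka kb, fun q hq => ?_⟩
  obtain ⟨h1, h2', h3, h4⟩ := rho_eq_zero _ a b x y h k2 ka kb q hq
  obtain ⟨s1, e1⟩ := (S.phi_dvd hp hpN _).1 h1
  obtain ⟨s2, e2⟩ := (S.phi_dvd hp hpN _).1 h2'
  obtain ⟨s3, e3⟩ := (S.phi_dvd hp hpN _).1 h3
  obtain ⟨s4, e4⟩ := (S.phi_dvd hp hpN _).1 h4
  refine ⟨⟨s1, s2, s3, s4⟩, ?_⟩
  ext <;> simp [e1, e2, e3, e4]

/-- Hamilton's quaternions over `ℤ[1/N]`, `N` even -/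
theorem hamilton (hN : N ≠ 0) (h2 : 2 ∣ N) [IsLocalization.Away (N : ℤ) R] :
    IsQuaternionAzumaya N R (QuaternionAlgebra R (-1) 0 (-1)) :=
  quaternion hN (-1) (-1) isUnit_one.neg isUnit_one.neg
    (by simpa using S.isUnit_of_dvd (N := N) (R := R) h2)

theorem exists_toRat (hN : N ≠ 0) [IsLocalization.Away (N : ℤ) R] :
    ∃ g : R →+* ℚ, Function.Injective g := by
  have hu : IsUnit (Int.castRingHom ℚ (N : ℤ)) := by
    rw [isUnit_iff_ne_zero]; simpa using hN
  refine ⟨IsLocalization.Away.lift (N : ℤ) (g := Int.castRingHom ℚ) hu, ?_⟩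
  rw [injective_iff_map_eq_zero]
  intro r hr
  obtain ⟨k, a, h⟩ := S.exists_int N r
  have h1 := congrArg (IsLocalization.Away.lift (N : ℤ) (g := Int.castRingHom ℚ) hu) h
  rw [map_mul, hr, zero_mul, map_intCast] at h1
  have ha : a = 0 := by exact_mod_cast h1.symm
  rw [ha, Int.cast_zero] at h
  exact ((S.isUnit_N (N := N) (R := R)).pow k).mul_left_eq_zero.1 h

/-- Hamilton's quaternions over `ℤ[1/N]` have no zero divisors: `quaternion` is not only about
matrix algebras -/
theorem hamilton_domain (hN : N ≠ 0) [IsLocalization.Away (N : ℤ) R]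
    (q r : QuaternionAlgebra R (-1) 0 (-1)) (h : q * r = 0) : q = 0 ∨ r = 0 := by
  have hR := S.isDomain (R := R) hN
  obtain ⟨g, hg⟩ := exists_toRat (R := R) hN
  obtain ⟨ν, hν⟩ : ∃ ν, ν = q.re ^ 2 + q.imI ^ 2 + q.imJ ^ 2 + q.imK ^ 2 := ⟨_, rfl⟩
  obtain ⟨c, hc⟩ : ∃ c : QuaternionAlgebra R (-1) 0 (-1),
      c = ⟨q.re, -q.imI, -q.imJ, -q.imK⟩ := ⟨_, rfl⟩
  have h1 : c * q = ⟨ν, 0, 0, 0⟩ := by
    rw [hc, hν]; ext <;> simp <;> ring
  have h2 : (⟨ν, 0, 0, 0⟩ : QuaternionAlgebra R (-1) 0 (-1)) * r = 0 := by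
    rw [← h1, mul_assoc, h, mul_zero]
  by_cases h0 : ν = 0
  · left
    rw [hν] at h0
    have h3 := congrArg g h0
    simp only [map_add, map_pow, map_zero] at h3
    have s1 := sq_nonneg (g q.re)
    have s2 := sq_nonneg (g q.imI)
    have s3 := sq_nonneg (g q.imJ)
    have s4 := sq_nonneg (g q.imK)
    have z1 : g q.re ^ 2 = 0 := by linarith
    have z2 : g q.imI ^ 2 = 0 := by linarith
    have z3 : g q.imJ ^ 2 = 0 := by linarith
    have z4 : g q.imK ^ 2 = 0 := by linarith
    rw [pow_eq_zero_iff two_ne_zero, map_eq_zero_iff g hg] at z1 z2 z3 z4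
    ext <;> simp [z1, z2, z3, z4]
  · right
    have c1 := congrArg QuaternionAlgebra.re h2
    have c2 := congrArg QuaternionAlgebra.imI h2
    have c3 := congrArg QuaternionAlgebra.imJ h2
    have c4 := congrArg QuaternionAlgebra.imK h2
    simp at c1 c2 c3 c4
    ext
    · simpa using c1.resolve_left h0
    · simpa using c2.resolve_left h0
    · simpa using c3.resolve_left h0
    · simpa using c4.resolve_left h0

/-- the matrix algebra over `ℤ[1/N]` -/
theorem matrix (hN : N ≠ 0) [IsLocalization.Away (N : ℤ) R] :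
    IsQuaternionAzumaya N R (Matrix (Fin 2) (Fin 2) R) := by
  have := S.isDomain (R := R) hN
  refine ⟨inferInstance, ?_, fun p hp hpN => ?_⟩
  · rw [Module.finrank_matrix]; simp
  have : Fact p.Prime := ⟨hp⟩
  refine ⟨(S.phi R hp hpN).mapMatrix, fun M => ?_, fun M hM => ?_⟩
  · choose g hg using phi_surjective (R := R) hp hpN
    refine ⟨Matrix.of fun i j => g (M i j), ?_⟩
    ext i j
    simp [hg]
  · have h : ∀ i j, ∃ s, M i j = p * s := fun i j =>
      (S.phi_dvd hp hpN _).1 (by simpa using congrFun (congrFun hM i) j)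
    choose s hs using h
    refine ⟨Matrix.of s, ?_⟩
    ext i j
    rw [hs i j, ← nsmul_eq_mul, ← nsmul_eq_mul]
    simp

end BW.Example
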