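import Pool.Agent.BW.Calc

/-!
# Bounded width: families (product rings), the reduced norm
-/

namespace BW

open Matrix

section Nrd

variable {Λ k m : Type*} [Ring Λ] [CommRing k] [Fintype m] [DecidableEq m]

/-- the determinant of the block matrix obtained from a ring homomorphism
`ρ : Λ → M₂(k)`: the value at `ρ` of the reduced norm of a matrix over `Λ` -/
def nrdAt (ρ : Λ →+* Matrix (Fin 2) (Fin 2) k) : Matrix m m Λ →* k where
  toFun X := (Matrix.compRingEquiv m (Fin 2) k (X.map ρ)).det
  map_one' := by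
    rw [Matrix.map_one _ (map_zero ρ) (map_one ρ), map_one, Matrix.det_one]
  map_mul' X Y := by
    rw [Matrix.map_mul, map_mul, Matrix.det_mul]

/-- the matrices of reduced norm one over an algebra over `ℤ[1/N]`: for every prime `p ∤ N` and
every ring homomorphism `ρ : Λ → M₂(𝔽_p)` the block determinant is one -/
def SL1 (N : ℕ) (m Λ : Type*) [Ring Λ] [Fintype m] [DecidableEq m] :
    Subgroup (Matrix m m Λ)ˣ where
  carrier := {X | ∀ p : ℕ, p.Prime → ¬ p ∣ N →
    ∀ ρ : Λ →+* Matrix (Fin 2) (Fin 2) (ZMod p), nrdAt ρ X.val = 1}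
  one_mem' := fun p _ _ ρ => by simp
  mul_mem' := fun {X Y} hX hY p hp hpN ρ => by
    rw [Units.val_mul, map_mul, hX p hp hpN ρ, hY p hp hpN ρ, one_mul]
  inv_mem' := fun {X} hX p hp hpN ρ => by
    have h : nrdAt ρ X.val * nrdAt ρ X⁻¹.val = 1 := by
      rw [← map_mul, ← Units.val_mul, mul_inv_cancel, Units.val_one, map_one]
    rwa [hX p hp hpN ρ, one_mul] at h

end Nrd

section Family

variable {ι : Type*} {N : ι → ℕ} {R Λ : ι → Type*} [∀ i, CommRing (R i)] [∀ i, Ring (Λ i)]
  [∀ i, Algebra (R i) (Λ i)]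

/-- the conjugation on the product ring -/
def fam (Q : ∀ i, QAlg (N i) (R i) (Λ i)) : QStr (∀ i, R i) (∀ i, Λ i) where
  T x i := (Q i).T (x i)
  n x i := (Q i).n (x i)
  conj x i := (Q i).conj (x i)
  T_add x y := by ext i; simp
  T_smul c x := by ext i; simp
  T_one := by ext i; simp [(Q i).T_one]
  add_conj x := by ext i; exact (Q i).add_conj (x i)
  mul_conj x := by ext i; exact (Q i).mul_conj (x i)
  conj_mul_self x := by ext i; exact (Q i).conj_mul_self (x i)
  conj_mul x y := by ext i; exact (Q i).conj_mul (x i) (y i)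
  inj x y h := by ext i; exact (Q i).inj (congrFun h i)

/-- the components of a matrix over the product ring -/
def comp {m : Type*} [Fintype m] [DecidableEq m] (i : ι) :
    (Matrix m m (∀ i, Λ i))ˣ →* (Matrix m m (Λ i))ˣ :=
  Units.map (RingHom.mapMatrix (Pi.evalRingHom Λ i)).toMonoidHom

theorem comp_val {m : Type*} [Fintype m] [DecidableEq m] (i : ι)
    (A : (Matrix m m (∀ i, Λ i))ˣ) (a b : m) : (comp i A).val a b = A.val a b i := rfl

theorem comp_inv_val {m : Type*} [Fintype m] [DecidableEq m] (i : ι)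
    (A : (Matrix m m (∀ i, Λ i))ˣ) (a b : m) : (comp i A)⁻¹.val a b = A⁻¹.val a b i := rfl

end Family

end BW
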