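import Pool.Agent.Helper24.BW.Normal

/-!
# Bounded width: normal subgroups of products of groups `GL₂(𝔽_p)`
-/

set_option autoImplicit false

namespace BW

open Matrix

/-- A normal subgroup which contains an element that is not scalar in any component contains all
elements of determinant one. -/
theorem gen {ι : Type*} (p : ι → ℕ) [∀ i, Fact (p i).Prime] (h5 : ∀ i, 5 ≤ p i)
    (S : Subgroup (∀ i, (Matrix (Fin 2) (Fin 2) (ZMod (p i)))ˣ)) [S.Normal]
    (z : ∀ i, (Matrix (Fin 2) (Fin 2) (ZMod (p i)))ˣ) (hz : z ∈ S)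
    (hnc : ∀ i, ∀ c : ZMod (p i), (z i).val ≠ c • (1 : Matrix (Fin 2) (Fin 2) (ZMod (p i))))
    (y : ∀ i, (Matrix (Fin 2) (Fin 2) (ZMod (p i)))ˣ) (hy : ∀ i, (y i).val.det = 1) :
    y ∈ S := by
  have hne : ∀ (n : ℕ), 0 < n → n < 5 → ∀ i, ((n : ℕ) : ZMod (p i)) ≠ 0 := by
    intro n h0 h1 i h
    rw [ZMod.natCast_eq_zero_iff] at h
    have := Nat.le_of_dvd h0 h
    have := h5 i
    omega
  refine Pool.Agent.Helper24.BWR.mem_of_det_one (fun i => ?_) (fun i => ?_) S hz (fun i => ?_) hy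
  · exact_mod_cast hne 2 (by norm_num) (by norm_num) i
  · exact_mod_cast hne 3 (by norm_num) (by norm_num) i
  · rintro ⟨h1, h2, h3⟩
    apply hnc i ((z i).val 0 0)
    ext k l
    fin_cases k <;> fin_cases l <;> simp [h1, h2, h3]

end BW
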