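import Pool.Agent.BW.Defs

/-!
# The ring `ℤ[1/N]`
-/

namespace BW

namespace Loc

variable {N : ℕ} {R : Type*} [CommRing R] [IsLocalization.Away (N : ℤ) R]

omit [CommRing R] [IsLocalization.Away (N : ℤ) R] in
lemma le (hN : N ≠ 0) : Submonoid.powers (N : ℤ) ≤ nonZeroDivisors ℤ :=
  powers_le_nonZeroDivisors_of_noZeroDivisors (by exact_mod_cast hN)

variable (N R) in
theorem isDomain (hN : N ≠ 0) : IsDomain R :=
  IsLocalization.isDomain_of_le_nonZeroDivisors (S := R) (M := Submonoid.powers (N : ℤ)) (le hN)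

theorem isPrincipalIdealRing (N : ℕ) (R : Type*) [CommRing R] [IsLocalization.Away (N : ℤ) R] :
    IsPrincipalIdealRing R where
  principal J := by
    obtain ⟨⟨a, ha⟩⟩ := IsPrincipalIdealRing.principal (Ideal.comap (algebraMap ℤ R) J)
    refine ⟨⟨algebraMap ℤ R a, ?_⟩⟩
    rw [← IsLocalization.map_under (Submonoid.powers (N : ℤ)) R J, Ideal.under, ha]
    change Ideal.map (algebraMap ℤ R) (Ideal.span {a}) = Ideal.span {algebraMap ℤ R a}
    rw [Ideal.map_span, Set.image_singleton]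

variable (N R) in
theorem intCast_injective (hN : N ≠ 0) : Function.Injective (Int.cast : ℤ → R) :=
  IsLocalization.injective R (le hN)

variable (N R) in
theorem charZero (hN : N ≠ 0) : CharZero R :=
  ⟨fun a b h => by
    have h1 : ((a : ℤ) : R) = ((b : ℤ) : R) := by exact_mod_cast h
    exact_mod_cast intCast_injective N R hN h1⟩

variable (N R) in
theorem isUnit_natCast : IsUnit (N : R) := by
  have h : IsUnit (algebraMap ℤ R (N : ℤ)) := IsLocalization.Away.algebraMap_isUnit (N : ℤ)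
  simpa using h

variable (N R) in
theorem isUnit_of_dvd_pow {s j : ℕ} (h : s ∣ N ^ j) : IsUnit (s : R) := by
  have h1 : IsUnit ((N : R) ^ j) := (isUnit_natCast N R).pow j
  obtain ⟨t, ht⟩ := h
  rw [← Nat.cast_pow, ht, Nat.cast_mul] at h1
  exact isUnit_of_mul_isUnit_left h1

variable (N) in
/-- every element is an integer divided by a power of `N` -/
theorem exists_int (r : R) : ∃ (a : ℤ) (k : ℕ), r * (N : R) ^ k = (a : R) := by
  obtain ⟨⟨a, ⟨m, k, rfl⟩⟩, h⟩ := IsLocalization.surj (Submonoid.powers (N : ℤ)) r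
  refine ⟨a, k, ?_⟩
  simpa using h

omit [CommRing R] [IsLocalization.Away (N : ℤ) R] in
/-- the part of `a` which is prime to `N` -/
theorem exists_coprime_part (N : ℕ) : ∀ a : ℕ, a ≠ 0 →
    ∃ s m j : ℕ, a = s * m ∧ s ∣ N ^ j ∧ m.Coprime N ∧ m ≠ 0 := by
  intro a
  induction a using Nat.strong_induction_on with
  | _ a ih =>
    intro ha
    by_cases hg : a.Coprime N
    · exact ⟨1, a, 0, by simp, by simp, hg, ha⟩
    · have hg1 : a.gcd N ≠ 1 := hg
      have hg0 : a.gcd N ≠ 0 := fun h => ha (Nat.eq_zero_of_gcd_eq_zero_left h)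
      obtain ⟨b, hb⟩ := Nat.gcd_dvd_left a N
      have hb0 : b ≠ 0 := by
        rintro rfl
        exact ha (by rw [hb, mul_zero])
      have hba : b < a := by
        have : 2 ≤ a.gcd N := by omega
        nlinarith [Nat.pos_of_ne_zero hb0]
      obtain ⟨s, m, j, h1, h2, h3, h4⟩ := ih b hba hb0
      refine ⟨a.gcd N * s, m, j + 1, ?_, ?_, h3, h4⟩
      · rw [mul_assoc, ← h1]
        exact hb
      · rw [pow_succ, mul_comm (N ^ j)]
        exact mul_dvd_mul (Nat.gcd_dvd_right a N) h2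

/-- every element different from zero is a unit times a positive integer prime to `N` -/
theorem exists_unit_mul (hN : N ≠ 0) {r : R} (hr : r ≠ 0) :
    ∃ (u : Rˣ) (m : ℕ), 0 < m ∧ m.Coprime N ∧ r = u * (m : R) := by
  have hD := isDomain N R hN
  obtain ⟨a, k, h⟩ := exists_int N r
  have hNk : IsUnit ((N : R) ^ k) := (isUnit_natCast N R).pow k
  have ha : a ≠ 0 := by
    rintro rfl
    rw [Int.cast_zero] at h
    exact (mul_ne_zero hr hNk.ne_zero) h
  obtain ⟨s, m, j, h1, h2, h3, h4⟩ := exists_coprime_part N a.natAbs (Int.natAbs_ne_zero.mpr ha)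
  have hs : IsUnit (s : R) := isUnit_of_dvd_pow N R h2
  have hsg : IsUnit ((a.sign : ℤ) : R) := by
    rcases Int.lt_or_lt_of_ne ha with h5 | h5
    · rw [Int.sign_eq_neg_one_of_neg h5]
      simp
    · rw [Int.sign_eq_one_of_pos h5]
      simp
  refine ⟨hNk.unit⁻¹ * (hsg.unit * hs.unit), m, Nat.pos_of_ne_zero h4, h3, ?_⟩
  have h5 : (a : R) = ((a.sign : ℤ) : R) * ((s : R) * (m : R)) := by
    rw [← Nat.cast_mul, ← h1, ← Int.cast_natCast, ← Int.cast_mul, Int.sign_mul_natAbs]
  rw [Units.val_mul, mul_assoc, Units.eq_inv_mul_iff_mul_eq, IsUnit.unit_spec, mul_comm, h, h5,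
    Units.val_mul, IsUnit.unit_spec, IsUnit.unit_spec, mul_assoc]

/-! ### Reduction modulo primes -/

omit [CommRing R] [IsLocalization.Away (N : ℤ) R] in
lemma isUnit_zmod {p : ℕ} (hp : p.Prime) (hpN : ¬ p ∣ N) : IsUnit (Int.castRingHom (ZMod p) (N : ℤ)) := by
  have := Fact.mk hp
  rw [isUnit_iff_ne_zero]
  simpa [ZMod.natCast_eq_zero_iff] using hpN

variable (N R) in
/-- the reduction `ℤ[1/N] → 𝔽_p` -/
noncomputable def phi {p : ℕ} (hp : p.Prime) (hpN : ¬ p ∣ N) : R →+* ZMod p :=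
  IsLocalization.Away.lift (N : ℤ) (g := Int.castRingHom (ZMod p)) (isUnit_zmod hp hpN)

variable {p : ℕ} (hp : p.Prime) (hpN : ¬ p ∣ N)

theorem phi_eq_zero_iff (r : R) : phi N R hp hpN r = 0 ↔ (p : R) ∣ r := by
  have := Fact.mk hp
  constructor
  · intro h
    obtain ⟨a, k, ha⟩ := exists_int N r
    have hNk : IsUnit ((N : R) ^ k) := (isUnit_natCast N R).pow k
    have h1 := congrArg (phi N R hp hpN) ha
    rw [map_mul, h, zero_mul, map_intCast] at h1
    have h2 : (p : ℤ) ∣ a := (ZMod.intCast_zmod_eq_zero_iff_dvd a p).mp h1.symm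
    obtain ⟨b, rfl⟩ := h2
    have h3 : (p : R) ∣ r * (N : R) ^ k := ⟨(b : R), by rw [ha]; push_cast; ring⟩
    exact (IsUnit.dvd_mul_right hNk).mp h3
  · rintro ⟨s, rfl⟩
    rw [map_mul, map_natCast]
    simp

/-- the reduction is the only homomorphism to `𝔽_p` -/
theorem phi_eq (f : R →+* ZMod p) : f = phi N R hp hpN := by
  refine IsLocalization.ringHom_ext (Submonoid.powers (N : ℤ)) ?_
  exact RingHom.ext_int _ _

theorem phi_surjective : Function.Surjective (phi N R hp hpN) := by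
  have := Fact.mk hp
  intro y
  refine ⟨(y.val : R), ?_⟩
  rw [map_natCast, ZMod.natCast_zmod_val]

include hp hpN in
theorem natCast_dvd_natCast {m : ℕ} : (p : R) ∣ (m : R) ↔ p ∣ m := by
  rw [← phi_eq_zero_iff hp hpN, map_natCast, ZMod.natCast_eq_zero_iff]

include hp hpN in
theorem intCast_dvd {a : ℤ} : (p : R) ∣ (a : R) ↔ (p : ℤ) ∣ a := by
  rw [← phi_eq_zero_iff hp hpN, map_intCast, ZMod.intCast_zmod_eq_zero_iff_dvd]

include hp hpN in
theorem not_isUnit : ¬ IsUnit (p : R) := by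
  have := Fact.mk hp
  intro h
  have h1 := h.map (phi N R hp hpN)
  rw [map_natCast] at h1
  simp at h1

include hp hpN in
theorem prime (hN : N ≠ 0) : Prime (p : R) := by
  have := Fact.mk hp
  have := charZero N R hN
  refine ⟨by exact_mod_cast hp.ne_zero, not_isUnit hp hpN, fun a b h => ?_⟩
  rw [← phi_eq_zero_iff hp hpN, ← phi_eq_zero_iff hp hpN]
  rw [← phi_eq_zero_iff hp hpN, map_mul] at h
  exact mul_eq_zero.mp h

/-- the units -/
theorem isUnit_iff (hN : N ≠ 0) (r : R) :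
    IsUnit r ↔ r ≠ 0 ∧ ∀ p : ℕ, p.Prime → ¬ p ∣ N → ¬ (p : R) ∣ r := by
  have hD := isDomain N R hN
  constructor
  · intro h
    exact ⟨h.ne_zero, fun p hp hpN hpr => not_isUnit hp hpN (isUnit_of_dvd_unit hpr h)⟩
  · rintro ⟨h0, h⟩
    obtain ⟨u, m, hm, hmN, rfl⟩ := exists_unit_mul hN h0
    by_cases hm1 : m = 1
    · rw [hm1, Nat.cast_one, mul_one]
      exact u.isUnit
    · obtain ⟨p, hp, hpm⟩ := Nat.exists_prime_and_dvd hm1
      have hpN : ¬ p ∣ N := fun hpN => hp.one_lt.ne'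
        (Nat.eq_one_of_dvd_coprimes hmN hpm hpN)
      exact absurd (Dvd.dvd.mul_left (natCast_dvd_natCast hp hpN |>.mpr hpm) _) (h p hp hpN)

/-- an element which is divisible by infinitely many primes is zero -/
theorem eq_zero_of_infinite (hN : N ≠ 0) (r : R)
    (h : {p : ℕ | p.Prime ∧ ¬ p ∣ N ∧ (p : R) ∣ r}.Infinite) : r = 0 := by
  by_contra h0
  obtain ⟨u, m, hm, hmN, rfl⟩ := exists_unit_mul hN h0
  refine h (Set.Finite.subset (Set.finite_Iic m) ?_)
  rintro p ⟨hp, hpN, hpr⟩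
  have h1 : (p : R) ∣ (m : R) := (IsUnit.dvd_mul_left u.isUnit).mp hpr
  exact Nat.le_of_dvd hm ((natCast_dvd_natCast hp hpN).mp h1)

/-- an element which is divisible by all primes from some point on is zero -/
theorem eq_zero_of_eventually (hN : N ≠ 0) (r : R) (B : ℕ)
    (h : ∀ p : ℕ, p.Prime → B ≤ p → ¬ p ∣ N → (p : R) ∣ r) : r = 0 := by
  refine eq_zero_of_infinite hN r ?_
  refine Set.infinite_of_not_bddAbove ?_
  rintro ⟨b, hb⟩
  obtain ⟨p, hp1, hp⟩ := Nat.exists_infinite_primes (max (B + 1) (max (N + 1) (b + 1)))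
  have h1 : ¬ p ∣ N := fun h2 => by
    have := Nat.le_of_dvd (Nat.pos_of_ne_zero hN) h2
    omega
  have h2 : p ≤ b := hb ⟨hp, h1, h p hp (by omega) h1⟩
  omega

/-- two elements without a common prime generate the unit ideal -/
theorem isCoprime (hN : N ≠ 0) (a b : R) (h0 : a ≠ 0 ∨ b ≠ 0)
    (h : ∀ p : ℕ, p.Prime → ¬ p ∣ N → ¬ ((p : R) ∣ a ∧ (p : R) ∣ b)) : IsCoprime a b := by
  have hD := isDomain N R hN
  have hP := isPrincipalIdealRing N R
  obtain ⟨⟨g, hg⟩⟩ := IsPrincipalIdealRing.principal (Ideal.span {a, b})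
  have ha : g ∣ a := by
    have : a ∈ Ideal.span {g} := by
      rw [show Ideal.span {g} = Ideal.span {a, b} from hg.symm]
      exact Ideal.subset_span (by simp)
    exact Ideal.mem_span_singleton.mp this
  have hb : g ∣ b := by
    have : b ∈ Ideal.span {g} := by
      rw [show Ideal.span {g} = Ideal.span {a, b} from hg.symm]
      exact Ideal.subset_span (by simp)
    exact Ideal.mem_span_singleton.mp this
  have hgu : IsUnit g := by
    rw [isUnit_iff hN]
    refine ⟨?_, fun p hp hpN hpg => h p hp hpN ⟨hpg.trans ha, hpg.trans hb⟩⟩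
    rintro rfl
    rw [zero_dvd_iff] at ha hb
    tauto
  have h1 : (1 : R) ∈ Ideal.span {a, b} := by
    rw [show Ideal.span {a, b} = Ideal.span {g} from hg, Ideal.span_singleton_eq_top.mpr hgu]
    exact Submodule.mem_top
  obtain ⟨u, v, huv⟩ := Ideal.mem_span_pair.mp h1
  exact ⟨u, v, huv⟩

end Loc

end BW
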