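import Pool.Agent.BW.Core
import Pool.Agent.BW.CK
import Pool.Agent.BW.Ideal
import Pool.Agent.BW.Gen

/-!
# The homomorphism `∏ GL₂(𝔽_{p_i}) → GL₂(∏ Λ_i) / H` and the matrices of type `T`
-/

namespace BW

open Matrix

/-! ### functoriality of `H` -/

section Map

variable {S S' : Type*} [Ring S] [Ring S']

theorem mapHom_el {n : Type*} [DecidableEq n] [Fintype n] (f : S →+* S') (i j : n) (h : i ≠ j)
    (x : S) : Units.map (f.mapMatrix (m := n)).toMonoidHom (el i j h x) = el i j h (f x) := by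
  ext1
  change f.mapMatrix (1 + Matrix.single i j x) = 1 + Matrix.single i j (f x)
  rw [map_add, map_one]
  congr 1
  ext a b
  simp [Matrix.single_apply, apply_ite f]

theorem map_mem_E {n : Type*} [DecidableEq n] [Fintype n] (f : S →+* S')
    {A : (Matrix n n S)ˣ} (hA : A ∈ E n S) :
    Units.map (f.mapMatrix (m := n)).toMonoidHom A ∈ E n S' := by
  have key : E n S ≤ (E n S').comap (Units.map (f.mapMatrix (m := n)).toMonoidHom) := by
    rw [E, Subgroup.closure_le]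
    rintro _ ⟨i, j, h, x, rfl⟩
    change Units.map (f.mapMatrix (m := n)).toMonoidHom (el i j h x) ∈ E n S'
    rw [mapHom_el]
    exact el_mem _ _ _ _
  exact key hA

theorem map_mem_H (f : S →+* S') {A : (Matrix (Fin 2) (Fin 2) S)ˣ} (hA : A ∈ H S) :
    Units.map (f.mapMatrix (m := Fin 2)).toMonoidHom A ∈ H S' := by
  have h1 := map_mem_E f (mem_H.1 hA)
  rw [mem_H]
  have : K (Units.map (f.mapMatrix (m := Fin 2)).toMonoidHom A) =
      Units.map (f.mapMatrix (m := Fin 3)).toMonoidHom (K A) := by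
    ext1
    rw [K_val]
    change _ = f.mapMatrix (K A).val
    rw [K_val]
    ext i j
    fin_cases i <;> fin_cases j <;> simp
  rw [this]
  exact h1

end Map

section Data

variable {S : Type*} [Ring S]

/-- `A` has the data `(a, b | b', a')` -/
structure HasData (A : (Matrix (Fin 2) (Fin 2) S)ˣ) (a b b' a' : S) : Prop where
  h00 : A.val 0 0 = a
  h01 : A.val 0 1 = b
  h0 : A⁻¹.val 0 1 = -b'
  h1 : A⁻¹.val 1 1 = a'

theorem HasData.congr {A B : (Matrix (Fin 2) (Fin 2) S)ˣ} {a b b' a' : S}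
    (hA : HasData A a b b' a') (hB : HasData B a b b' a') : A ∈ H S ↔ B ∈ H S := by
  have h := same_data A B (hA.h00.trans hB.h00.symm) (hA.h01.trans hB.h01.symm)
    (hA.h0.trans hB.h0.symm) (hA.h1.trans hB.h1.symm)
  constructor
  · intro h1
    have := (Subgroup.mul_mem_cancel_left _ h1).1 h
    exact (Subgroup.inv_mem_iff _).1 this
  · intro h1
    exact (Subgroup.mul_mem_cancel_right _ (inv_mem h1)).1 h

theorem HasData.mk_eq {A B : (Matrix (Fin 2) (Fin 2) S)ˣ} {a b b' a' : S}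
    (hA : HasData A a b b' a') (hB : HasData B a b b' a') :
    (QuotientGroup.mk A : (Matrix (Fin 2) (Fin 2) S)ˣ ⧸ H S) = QuotientGroup.mk B := by
  have h := same_data A B (hA.h00.trans hB.h00.symm) (hA.h01.trans hB.h01.symm)
    (hA.h0.trans hB.h0.symm) (hA.h1.trans hB.h1.symm)
  have h2 : (QuotientGroup.mk (A * B⁻¹) : (Matrix (Fin 2) (Fin 2) S)ˣ ⧸ H S) = 1 :=
    (QuotientGroup.eq_one_iff _).2 h
  rw [QuotientGroup.mk_mul, QuotientGroup.mk_inv, mul_inv_eq_one] at h2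
  exact h2

theorem mul_entry (A B : (Matrix (Fin 2) (Fin 2) S)ˣ) (i j : Fin 2) :
    (A * B).val i j = A.val i 0 * B.val 0 j + A.val i 1 * B.val 1 j := by
  rw [Units.val_mul, Matrix.mul_apply, Fin.sum_univ_two]

/-- move `E₁₂(y)` -/
theorem HasData.mul_el01 {A : (Matrix (Fin 2) (Fin 2) S)ˣ} {a b b' a' : S}
    (hA : HasData A a b b' a') (y : S) :
    HasData (A * el 0 1 (by decide) y) a (b + a * y) (b' + y * a') a' := by
  refine ⟨?_, ?_, ?_, ?_⟩
  · rw [mul_entry, hA.h00, hA.h01]; simp [el_val]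
  · rw [mul_entry, hA.h00, hA.h01]; simp [el_val, add_comm]
  · rw [_root_.mul_inv_rev, el_inv, mul_entry, hA.h0, hA.h1]; simp [el_val]; abel
  · rw [_root_.mul_inv_rev, el_inv, mul_entry, hA.h0, hA.h1]; simp [el_val]

/-- move `E₂₁(x)` -/
theorem HasData.mul_el10 {A : (Matrix (Fin 2) (Fin 2) S)ˣ} {a b b' a' : S}
    (hA : HasData A a b b' a') (x : S) :
    HasData (A * el 1 0 (by decide) x) (a + b * x) b b' (a' + x * b') := by
  refine ⟨?_, ?_, ?_, ?_⟩
  · rw [mul_entry, hA.h00, hA.h01]; simp [el_val]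
  · rw [mul_entry, hA.h00, hA.h01]; simp [el_val]
  · rw [_root_.mul_inv_rev, el_inv, mul_entry, hA.h0, hA.h1]; simp [el_val]
  · rw [_root_.mul_inv_rev, el_inv, mul_entry, hA.h0, hA.h1]; simp [el_val]; abel

/-- move `W` -/
theorem HasData.mul_W {A : (Matrix (Fin 2) (Fin 2) S)ˣ} {a b b' a' : S}
    (hA : HasData A a b b' a') : HasData (A * W) b (-a) (-a') b' := by
  refine ⟨?_, ?_, ?_, ?_⟩
  · rw [mul_entry, hA.h00, hA.h01, W_val]; simp
  · rw [mul_entry, hA.h00, hA.h01, W_val]; simp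
  · rw [_root_.mul_inv_rev, mul_entry, hA.h0, hA.h1, W_inv_val]; simp
  · rw [_root_.mul_inv_rev, mul_entry, hA.h0, hA.h1, W_inv_val]; simp

theorem HasData.rel {A : (Matrix (Fin 2) (Fin 2) S)ˣ} {a b b' a' : S}
    (hA : HasData A a b b' a') : a * A⁻¹.val 0 0 + b * A⁻¹.val 1 0 = 1 ∧ b * a' = a * b' := by
  obtain ⟨⟨r1, r2⟩, -⟩ := row_col A
  rw [hA.h00, hA.h01] at r1 r2
  rw [hA.h0, hA.h1] at r2
  refine ⟨r1, ?_⟩
  rw [mul_neg, neg_add_eq_zero] at r2
  exact r2.symm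

end Data

section Prod

variable {ι : Type*} {N : ι → ℕ} {R Λ : ι → Type*} [∀ i, CommRing (R i)] [∀ i, Ring (Λ i)]
  [∀ i, Algebra (R i) (Λ i)]

/-- central elements of the product -/
def cen (r : ∀ i, R i) : ∀ i, Λ i := fun i => algebraMap (R i) (Λ i) (r i)

theorem cen_comm (r : ∀ i, R i) (x : ∀ i, Λ i) : cen r * x = x * cen r := by
  funext i
  exact Algebra.commutes _ _

theorem cen_mul (r s : ∀ i, R i) : (cen (r * s) : ∀ i, Λ i) = cen r * cen s := by
  funext i; exact map_mul _ _ _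

theorem cen_add (r s : ∀ i, R i) : (cen (r + s) : ∀ i, Λ i) = cen r + cen s := by
  funext i; exact map_add _ _ _

theorem cen_one : (cen (1 : ∀ i, R i) : ∀ i, Λ i) = 1 := by
  funext i; exact map_one _

variable (Q : ∀ i, QAlg (N i) (R i) (Λ i))

/-- `α x'` -/
def sj (α : ∀ i, R i) (x : ∀ i, Λ i) : ∀ i, Λ i := fun i => α i • (Q i).conj (x i)

/-- the norms -/
def nn (x : ∀ i, Λ i) : ∀ i, R i := fun i => (Q i).n (x i)

theorem mul_sj (α : ∀ i, R i) (x : ∀ i, Λ i) : x * sj Q α x = cen (α * nn Q x) := by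
  funext i
  change x i * (α i • (Q i).conj (x i)) = algebraMap (R i) (Λ i) (α i * (Q i).n (x i))
  rw [mul_smul_comm, (Q i).mul_conj, map_mul, Algebra.smul_def]

theorem sj_mul (α : ∀ i, R i) (x : ∀ i, Λ i) : sj Q α x * x = cen (α * nn Q x) := by
  funext i
  change (α i • (Q i).conj (x i)) * x i = algebraMap (R i) (Λ i) (α i * (Q i).n (x i))
  rw [smul_mul_assoc, (Q i).conj_mul_self, map_mul, Algebra.smul_def]

theorem sj_mul_sj (α α' : ∀ i, R i) (x y : ∀ i, Λ i) :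
    sj Q α' y * sj Q α x = sj Q (α * α') (x * y) := by
  funext i
  change (α' i • (Q i).conj (y i)) * (α i • (Q i).conj (x i)) =
    (α i * α' i) • (Q i).conj (x i * y i)
  rw [(Q i).conj_mul, smul_mul_smul_comm, mul_comm (α' i)]

/-- the matrix `[[r, x], [-α x', β]]` with `r` central -/
def UU (x : ∀ i, Λ i) (r α β : ∀ i, R i) (h : α * nn Q x + β * r = 1) :
    (Matrix (Fin 2) (Fin 2) (∀ i, Λ i))ˣ where
  val := !![cen r, x; -sj Q α x, cen β]
  inv := !![cen β, -x; sj Q α x, cen r]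
  val_inv := by
    have h1 : (cen (α * nn Q x) + cen (β * r) : ∀ i, Λ i) = 1 := by
      rw [← cen_add, h, cen_one]
    have e1 : cen r * cen β + x * sj Q α x = 1 := by
      rw [mul_sj, ← cen_mul, mul_comm r β, add_comm, h1]
    have e2 : cen r * (-x) + x * cen r = 0 := by
      rw [mul_neg, cen_comm r x, neg_add_cancel]
    have e3 : (-sj Q α x) * cen β + cen β * sj Q α x = 0 := by
      rw [neg_mul, cen_comm β, neg_add_cancel]
    have e4 : (-sj Q α x) * (-x) + cen β * cen r = 1 := by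
      rw [neg_mul_neg, sj_mul, ← cen_mul, h1]
    rw [Matrix.mul_fin_two, e1, e2, e3, e4, Matrix.one_fin_two]
  inv_val := by
    have h1 : (cen (α * nn Q x) + cen (β * r) : ∀ i, Λ i) = 1 := by
      rw [← cen_add, h, cen_one]
    have e1 : cen β * cen r + (-x) * (-sj Q α x) = 1 := by
      rw [neg_mul_neg, mul_sj, ← cen_mul, add_comm, h1]
    have e2 : cen β * x + (-x) * cen β = 0 := by
      rw [neg_mul, cen_comm β x, add_neg_cancel]
    have e3 : sj Q α x * cen r + cen r * (-sj Q α x) = 0 := by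
      rw [mul_neg, cen_comm r, add_neg_cancel]
    have e4 : sj Q α x * x + cen r * cen β = 1 := by
      rw [sj_mul, ← cen_mul, mul_comm r β, h1]
    rw [Matrix.mul_fin_two, e1, e2, e3, e4, Matrix.one_fin_two]

theorem UU_data (x : ∀ i, Λ i) (r α β : ∀ i, R i) (h : α * nn Q x + β * r = 1) :
    HasData (UU Q x r α β h) (cen r) x x (cen r) := by
  refine ⟨?_, ?_, ?_, ?_⟩
  · rfl
  · rfl
  · change (!![cen β, -x; sj Q α x, cen r] : Matrix _ _ _) 0 1 = _
    simp
  · change (!![cen β, -x; sj Q α x, cen r] : Matrix _ _ _) 1 1 = _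
    simp

/-- the classes of the matrices `UU` are multiplicative -/
theorem UU_mul (x y : ∀ i, Λ i) (r α β α' β' : ∀ i, R i) (h : α * nn Q x + β * r = 1)
    (h' : α' * nn Q y + β' * r = 1) (h'' : (α * α') * nn Q (x * y) + (β' + α' * β * nn Q y) * r = 1) :
    UU Q x r α β h * UU Q y r α' β' h' *
      (UU Q (x * y) r (α * α') (β' + α' * β * nn Q y) h'')⁻¹ ∈ H (∀ i, Λ i) := by
  refine star _ _ _ ?_ ?_ ?_ ?_ ?_
  · rw [(UU_data Q x r α β h).h1]; rfl
  · rfl
  · rfl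
  · change -sj Q (α * α') (x * y) = -((-sj Q α' y) * (-sj Q α x))
    rw [neg_mul_neg, sj_mul_sj]
  · change cen (β' + α' * β * nn Q y) = cen β' - (-sj Q α' y) * cen β * y
    rw [← cen_comm β, mul_assoc (cen β), neg_mul, sj_mul, mul_neg, sub_neg_eq_add, ← cen_mul,
      ← cen_add]
    congr 2
    ring

theorem nn_mul (x y : ∀ i, Λ i) : nn Q (x * y) = nn Q x * nn Q y := by
  funext i; exact (Q i).n_mul _ _

end Prod


section Phi

variable {ι : Type*} {N : ι → ℕ} {R Λ : ι → Type*} [∀ i, CommRing (R i)] [∀ i, Ring (Λ i)]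
  [∀ i, Algebra (R i) (Λ i)] (Q : ∀ i, QAlg (N i) (R i) (Λ i)) (p : ι → ℕ)

/-- the family `p` as a central element -/
def pc (R : ι → Type*) [∀ i, CommRing (R i)] (p : ι → ℕ) : ∀ i, R i := fun i => (p i : R i)

theorem cen_pc : (cen (pc R p) : ∀ i, Λ i) = fun i => (p i : Λ i) := by
  funext i
  exact map_natCast _ _

theorem UU_rel {x y : ∀ i, Λ i} {r α β α' β' : ∀ i, R i} (h : α * nn Q x + β * r = 1)
    (h' : α' * nn Q y + β' * r = 1) :
    (α * α') * nn Q (x * y) + (β' + α' * β * nn Q y) * r = 1 := by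
  rw [nn_mul]
  linear_combination (α' * nn Q y) * h + h'

theorem UU_mk_mul (x y : ∀ i, Λ i) (r α β α' β' : ∀ i, R i) (h : α * nn Q x + β * r = 1)
    (h' : α' * nn Q y + β' * r = 1) :
    (QuotientGroup.mk (UU Q x r α β h) * QuotientGroup.mk (UU Q y r α' β' h') :
      (Matrix (Fin 2) (Fin 2) (∀ i, Λ i))ˣ ⧸ H (∀ i, Λ i)) =
    QuotientGroup.mk (UU Q (x * y) r (α * α') (β' + α' * β * nn Q y) (UU_rel Q h h')) := by
  have h1 := UU_mul Q x y r α β α' β' h h' (UU_rel Q h h')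
  have h2 := (QuotientGroup.eq_one_iff _).2 h1
  rw [QuotientGroup.mk_mul, QuotientGroup.mk_inv, mul_inv_eq_one, QuotientGroup.mk_mul] at h2
  exact h2

theorem mk_mul_of_mem {S : Type*} [Ring S] (A B : (Matrix (Fin 2) (Fin 2) S)ˣ) (hB : B ∈ H S) :
    (QuotientGroup.mk (A * B) : (Matrix (Fin 2) (Fin 2) S)ˣ ⧸ H S) = QuotientGroup.mk A := by
  rw [QuotientGroup.mk_mul, (QuotientGroup.eq_one_iff B).2 hB, mul_one]

variable (ρ : ∀ i, Λ i →+* Matrix (Fin 2) (Fin 2) (ZMod (p i)))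
  (hs : ∀ i, Function.Surjective (ρ i)) (hk : ∀ i, ∀ x, ρ i x = 0 → ∃ y, x = (p i : Λ i) * y)

include hk in
theorem UU_congr (x x' : ∀ i, Λ i) (hx : ∀ i, ρ i (x i) = ρ i (x' i)) (α β α' β' : ∀ i, R i)
    (h : α * nn Q x + β * pc R p = 1) (h' : α' * nn Q x' + β' * pc R p = 1) :
    (QuotientGroup.mk (UU Q x (pc R p) α β h) :
      (Matrix (Fin 2) (Fin 2) (∀ i, Λ i))ˣ ⧸ H (∀ i, Λ i)) =
    QuotientGroup.mk (UU Q x' (pc R p) α' β' h') := by
  choose w hw using fun i => hk i (x' i - x i) (by rw [map_sub, hx i, sub_self])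
  have e1 : x + cen (pc R p) * w = x' := by
    funext i
    rw [cen_pc]
    change x i + (p i : Λ i) * w i = x' i
    rw [← hw i]; abel
  have e2 : x + w * cen (pc R p) = x' := by
    rw [← cen_comm, e1]
  have d1 := (UU_data Q x (pc R p) α β h).mul_el01 w
  rw [e1, e2] at d1
  have d2 := UU_data Q x' (pc R p) α' β' h'
  rw [← mk_mul_of_mem _ _ (el01_mem w)]
  exact d1.mk_eq d2

include hs hk in
theorem exists_ab (x : ∀ i, Λ i) (g : ∀ i, (Matrix (Fin 2) (Fin 2) (ZMod (p i)))ˣ)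
    (hx : ∀ i, ρ i (x i) = (g i).val) : ∃ α β : ∀ i, R i, α * nn Q x + β * pc R p = 1 := by
  choose y hy using fun i => hs i (g i)⁻¹.val
  choose w hw using fun i => hk i (x i * y i - 1) (by
    rw [map_sub, map_mul, hx i, hy i, ← Units.val_mul, mul_inv_cancel, map_one, Units.val_one,
      sub_self])
  refine ⟨nn Q y, fun i => -((Q i).T (w i) + (p i : R i) * (Q i).n (w i)), ?_⟩
  funext i
  change (Q i).n (y i) * (Q i).n (x i) + -((Q i).T (w i) + (p i : R i) * (Q i).n (w i)) *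
    (p i : R i) = 1
  have e : x i * y i = 1 + (p i : R i) • w i := by
    rw [Algebra.smul_def, map_natCast, ← hw i]; abel
  have e2 : (Q i).n (x i) * (Q i).n (y i) = 1 + (p i : R i) * (Q i).T (w i) +
      (p i : R i) ^ 2 * (Q i).n (w i) := by
    rw [← (Q i).n_mul, e, (Q i).n_add, (Q i).n_one, (Q i).conj_smul, one_mul, map_smul,
      (Q i).T_conj, (Q i).n_smul, smul_eq_mul]
  linear_combination e2

/-- the lift of a family of matrices -/
noncomputable def lift (g : ∀ i, (Matrix (Fin 2) (Fin 2) (ZMod (p i)))ˣ) : ∀ i, Λ i :=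
  fun i => (hs i (g i).val).choose

theorem rho_lift (g : ∀ i, (Matrix (Fin 2) (Fin 2) (ZMod (p i)))ˣ) (i : ι) :
    ρ i (lift p ρ hs g i) = (g i).val := (hs i (g i).val).choose_spec

/-- the class of the matrix `UU` for the lift of `g` -/
noncomputable def phiFun (g : ∀ i, (Matrix (Fin 2) (Fin 2) (ZMod (p i)))ˣ) :
    (Matrix (Fin 2) (Fin 2) (∀ i, Λ i))ˣ ⧸ H (∀ i, Λ i) :=
  QuotientGroup.mk (UU Q (lift p ρ hs g) (pc R p)
    (exists_ab Q p ρ hs hk _ g (rho_lift p ρ hs g)).choose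
    (exists_ab Q p ρ hs hk _ g (rho_lift p ρ hs g)).choose_spec.choose
    (exists_ab Q p ρ hs hk _ g (rho_lift p ρ hs g)).choose_spec.choose_spec)

theorem phiFun_eq (g : ∀ i, (Matrix (Fin 2) (Fin 2) (ZMod (p i)))ˣ) (x : ∀ i, Λ i)
    (hx : ∀ i, ρ i (x i) = (g i).val) (α β : ∀ i, R i) (h : α * nn Q x + β * pc R p = 1) :
    phiFun Q p ρ hs hk g = QuotientGroup.mk (UU Q x (pc R p) α β h) :=
  UU_congr Q p ρ hk _ _ (fun i => by rw [rho_lift, hx i]) _ _ _ _ _ _

/-- the homomorphism `φ_p` -/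
noncomputable def phiHom : (∀ i, (Matrix (Fin 2) (Fin 2) (ZMod (p i)))ˣ) →*
    (Matrix (Fin 2) (Fin 2) (∀ i, Λ i))ˣ ⧸ H (∀ i, Λ i) :=
  MonoidHom.mk' (phiFun Q p ρ hs hk) (fun g g' => by
    rw [phiFun_eq Q p ρ hs hk (g * g') (lift p ρ hs g * lift p ρ hs g') (fun i => by
      rw [Pi.mul_apply, map_mul, rho_lift, rho_lift]; rfl) _ _ (UU_rel Q
        (exists_ab Q p ρ hs hk _ g (rho_lift p ρ hs g)).choose_spec.choose_spec
        (exists_ab Q p ρ hs hk _ g' (rho_lift p ρ hs g')).choose_spec.choose_spec),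
      ← UU_mk_mul]
    rfl)

theorem mem_ker (g : ∀ i, (Matrix (Fin 2) (Fin 2) (ZMod (p i)))ˣ) (x : ∀ i, Λ i)
    (hx : ∀ i, ρ i (x i) = (g i).val) (α β : ∀ i, R i) (h : α * nn Q x + β * pc R p = 1) :
    g ∈ (phiHom Q p ρ hs hk).ker ↔ UU Q x (pc R p) α β h ∈ H (∀ i, Λ i) := by
  rw [MonoidHom.mem_ker, ← QuotientGroup.eq_one_iff, ← phiFun_eq Q p ρ hs hk g x hx α β h]
  rfl


open Pool.Agent.Helper24.BWR in
theorem scalars_mem [∀ i, Fact (p i).Prime] (s : ∀ i, (ZMod (p i))ˣ) :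
    (fun i => sc (s i)) ∈ (phiHom Q p ρ hs hk).ker := by
  set a : ι → ℕ := fun i => (s i).val.val with ha
  have hcop : ∀ i, ∃ α β : ℤ, α * (a i : ℤ) ^ 2 + β * (p i : ℤ) = 1 := by
    intro i
    have h1 : ¬ p i ∣ a i := by
      intro h
      rw [← ZMod.natCast_eq_zero_iff, ha] at h
      simp only [ZMod.natCast_val, ZMod.cast_id', id_eq] at h
      exact (s i).ne_zero h
    have h2 : (p i).Coprime (a i) := ((Fact.out : (p i).Prime).coprime_iff_not_dvd).2 h1
    have h3 : IsCoprime ((a i : ℤ)) (p i : ℤ) := by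
      rw [Int.isCoprime_iff_gcd_eq_one]
      exact_mod_cast h2.symm
    exact h3.pow_left (m := 2)
  choose α β hαβ using hcop
  -- the integral matrix
  set M : Matrix (Fin 2) (Fin 2) (ι → ℤ) :=
    !![fun i => (p i : ℤ), fun i => (a i : ℤ); fun i => -(α i * a i), β] with hM
  have hdet : M.det = 1 := by
    rw [hM, Matrix.det_fin_two_of]
    funext i
    change (p i : ℤ) * β i - (a i : ℤ) * -(α i * a i) = 1
    linear_combination hαβ i
  have hMH : mkU M hdet ∈ H (ι → ℤ) := ck _ hdet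
  let ψ : (ι → ℤ) →+* ∀ i, Λ i :=
    RingHom.pi fun i => (Int.castRingHom (Λ i)).comp (Pi.evalRingHom (fun _ => ℤ) i)
  have h1 := map_mem_H ψ hMH
  have hψ : ∀ (b : ι → ℤ) (i : ι), ψ b i = ((b i : ℤ) : Λ i) := fun b i => rfl
  have h2 : HasData (Units.map (ψ.mapMatrix (m := Fin 2)).toMonoidHom (mkU M hdet))
      (cen (pc R p)) (fun i => (a i : Λ i)) (fun i => (a i : Λ i)) (cen (pc R p)) := by
    rw [cen_pc]
    refine ⟨?_, ?_, ?_, ?_⟩
    · funext i
      change ψ (fun i => (p i : ℤ)) i = _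
      rw [hψ]; simp
    · funext i
      change ψ (fun i => (a i : ℤ)) i = _
      rw [hψ]; simp
    · change ψ (M.adjugate 0 1) = _
      rw [hM, Matrix.adjugate_fin_two_of]
      funext i
      change ψ (-(fun i => (a i : ℤ))) i = _
      rw [hψ]; simp
    · change ψ (M.adjugate 1 1) = _
      rw [hM, Matrix.adjugate_fin_two_of]
      funext i
      change ψ (fun i => (p i : ℤ)) i = _
      rw [hψ]; simp
  have hrel : (fun i => (α i : R i)) * nn Q (fun i => (a i : Λ i)) +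
      (fun i => (β i : R i)) * pc R p = 1 := by
    funext i
    change (α i : R i) * (Q i).n (a i : Λ i) + (β i : R i) * (p i : R i) = 1
    rw [← map_natCast (algebraMap (R i) (Λ i)), (Q i).n_algebraMap]
    have := congrArg (Int.cast (R := R i)) (hαβ i)
    push_cast at this
    exact this
  rw [mem_ker Q p ρ hs hk _ (fun i => (a i : Λ i)) (fun i => ?_) (fun i => (α i : R i))
    (fun i => (β i : R i)) hrel]
  · exact (h2.congr (UU_data Q _ _ _ _ hrel)).1 h1
  · rw [map_natCast]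
    change _ = algebraMap (ZMod (p i)) (Matrix (Fin 2) (Fin 2) (ZMod (p i))) ((s i) : ZMod (p i))
    rw [← map_natCast (algebraMap (ZMod (p i)) (Matrix (Fin 2) (Fin 2) (ZMod (p i))))]
    congr 1
    simp [ha]

omit [∀ i, Ring (Λ i)] [∀ i, Algebra (R i) (Λ i)] in
theorem one_data {S : Type*} [Ring S] : HasData (1 : (Matrix (Fin 2) (Fin 2) S)ˣ) 1 0 0 1 := by
  refine ⟨?_, ?_, ?_, ?_⟩ <;> simp

/-- `UU` is elementary if `r = 1 + n(x) k` -/
theorem UU_mem_of_rel (x : ∀ i, Λ i) (r k α β : ∀ i, R i) (hr : r = 1 + k * nn Q x)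
    (h : α * nn Q x + β * r = 1) : UU Q x r α β h ∈ H (∀ i, Λ i) := by
  have d := (one_data (S := ∀ i, Λ i)).mul_el01 x
  have d1 := d.mul_el10 (sj Q k x)
  simp only [zero_add, one_mul, mul_one, mul_sj, sj_mul] at d1
  rw [← cen_one (R := R), ← cen_add, ← hr] at d1
  exact (d1.congr (UU_data Q x r α β h)).1 (mul_mem (el01_mem _) (el10_mem _))

open Pool.Agent.Helper24.BWR in
theorem ker_eq_top [∀ i, Fact (p i).Prime] (h5 : ∀ i, 5 ≤ p i) (z : ∀ i, Λ i) (k : ∀ i, R i)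
    (hz : ∀ i, (p i : R i) = 1 + k i * (Q i).n (z i))
    (hns : ∀ i, ¬ IsSquare (ρ i (z i)).det) : (phiHom Q p ρ hs hk).ker = ⊤ := by
  classical
  have hdet : ∀ i, IsUnit (ρ i (z i)).det := by
    intro i
    rw [isUnit_iff_ne_zero]
    intro h
    exact hns i (by rw [h]; exact ⟨0, by simp⟩)
  have hu : ∀ i, IsUnit (ρ i (z i)) := fun i => (Matrix.isUnit_iff_isUnit_det _).2 (hdet i)
  refine normal_prod h5 _ (scalars_mem Q p ρ hs hk) (fun i => (hu i).unit)
    (fun i => by rw [IsUnit.unit_spec]; exact hns i) (fun e => ?_)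
  set x : ∀ i, Λ i := fun i => if e i then z i else 1 with hx
  set k' : ∀ i, R i := fun i => if e i then k i else (p i : R i) - 1 with hk'
  have hr : pc R p = 1 + k' * nn Q x := by
    funext i
    change (p i : R i) = 1 + k' i * (Q i).n (x i)
    simp only [hx, hk']
    split_ifs
    · exact hz i
    · rw [(Q i).n_one]; ring
  have hrel : (-k') * nn Q x + 1 * pc R p = 1 := by
    rw [hr]; ring
  rw [mem_ker Q p ρ hs hk _ x (fun i => ?_) (-k') 1 hrel]
  · exact UU_mem_of_rel Q x _ k' _ _ hr hrel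
  · simp only [hx]
    split_ifs
    · rfl
    · rw [map_one, Units.val_one]

include hs hk in
theorem UU_mem [∀ i, Fact (p i).Prime] (h5 : ∀ i, 5 ≤ p i) (z : ∀ i, Λ i) (k : ∀ i, R i)
    (hz : ∀ i, (p i : R i) = 1 + k i * (Q i).n (z i))
    (hns : ∀ i, ¬ IsSquare (ρ i (z i)).det) (x : ∀ i, Λ i) (α β : ∀ i, R i)
    (h : α * nn Q x + β * pc R p = 1) : UU Q x (pc R p) α β h ∈ H (∀ i, Λ i) := by
  have h1 : ∀ i, ρ i (x i) * ρ i (sj Q α x i) = 1 := by
    intro i
    rw [← map_mul]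
    have e1 : x i * sj Q α x i = 1 - (p i : Λ i) * algebraMap (R i) (Λ i) (β i) := by
      have e2 := congrFun (mul_sj Q α x) i
      have e3 : cen (α * nn Q x) = (1 - cen (pc R p) * cen β : ∀ i, Λ i) := by
        rw [← cen_one (R := R), ← cen_mul, eq_sub_iff_add_eq, ← cen_add, mul_comm (pc R p), h]
      rw [e3, cen_pc] at e2
      exact e2
    rw [e1, map_sub, map_mul, map_natCast, map_one]
    have : ((p i : ℕ) : Matrix (Fin 2) (Fin 2) (ZMod (p i))) = 0 := by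
      rw [← map_natCast (algebraMap (ZMod (p i)) (Matrix (Fin 2) (Fin 2) (ZMod (p i))))]
      simp
    rw [this, zero_mul, sub_zero]
  let g : ∀ i, (Matrix (Fin 2) (Fin 2) (ZMod (p i)))ˣ := fun i =>
    ⟨ρ i (x i), ρ i (sj Q α x i), h1 i, mul_eq_one_comm.1 (h1 i)⟩
  rw [← mem_ker Q p ρ hs hk g x (fun i => rfl) α β h, ker_eq_top Q p ρ hs hk h5 z k hz hns]
  exact Subgroup.mem_top _

end Phi


section TType

variable {ι : Type*} {N : ι → ℕ} {R Λ : ι → Type*} [∀ i, CommRing (R i)] [∀ i, Ring (Λ i)]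
  [∀ i, Algebra (R i) (Λ i)] (Q : ∀ i, QAlg (N i) (R i) (Λ i))

theorem nn_neg (x : ∀ i, Λ i) : nn Q (-x) = nn Q x := by
  funext i; exact (Q i).n_neg _

/-- the entry `x` of a row `(x, r)` with `r` central has norm prime to `r` -/
theorem exists_rel {x u v : ∀ i, Λ i} {r : ∀ i, R i} (h : x * u + cen r * v = 1) :
    ∃ α β : ∀ i, R i, α * nn Q x + β * r = 1 := by
  refine ⟨nn Q u, fun i => (Q i).T (v i) - r i * (Q i).n (v i), ?_⟩
  funext i
  change (Q i).n (u i) * (Q i).n (x i) + ((Q i).T (v i) - r i * (Q i).n (v i)) * r i = 1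
  have h1 : x i * u i + algebraMap (R i) (Λ i) (r i) * v i = 1 := congrFun h i
  have e : x i * u i = 1 + (-(r i)) • v i := by
    rw [Algebra.smul_def, map_neg, ← h1]; simp
  have e2 : (Q i).n (x i) * (Q i).n (u i) = 1 + (-(r i)) * (Q i).T (v i) +
      (-(r i)) ^ 2 * (Q i).n (v i) := by
    rw [← (Q i).n_mul, e, (Q i).n_add, (Q i).n_one, (Q i).conj_smul, one_mul, map_smul,
      (Q i).T_conj, (Q i).n_smul, smul_eq_mul]
  linear_combination e2

theorem ttype_mem_of_choice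
    (hc : ∀ i, ∀ (x : Λ i) (r α β : R i), α * (Q i).n x + β * r = 1 →
      ∃ (w z : Λ i) (p : ℕ) (k k' : R i), p.Prime ∧ 5 ≤ p ∧ ¬ p ∣ N i ∧
      (p : R i) = r + (Q i).n (x + r • w) * k ∧ (p : R i) = 1 + (Q i).n z * k' ∧
      ∀ ρ : Λ i →+* Matrix (Fin 2) (Fin 2) (ZMod p),
        (∀ y, ρ (algebraMap (R i) (Λ i) ((Q i).n y)) =
          (ρ y).det • (1 : Matrix (Fin 2) (Fin 2) (ZMod p))) → ¬ IsSquare (ρ z).det)
    (A : (Matrix (Fin 2) (Fin 2) (∀ i, Λ i))ˣ) (x : ∀ i, Λ i) (r : ∀ i, R i)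
    (hA : HasData A x (cen r) (cen r) x) : A ∈ H (∀ i, Λ i) := by
  obtain ⟨α, β, hαβ⟩ := exists_rel Q hA.rel.1
  choose w z p k k' hp h5 hpN h1 h2 h3 using fun i => hc i (x i) (r i) (α i) (β i) (congrFun hαβ i)
  have : ∀ i, Fact (p i).Prime := fun i => ⟨hp i⟩
  set x' : ∀ i, Λ i := x + cen r * w with hx'
  have hx'i : ∀ i, x i + r i • w i = x' i := by
    intro i
    rw [Algebra.smul_def]; rfl
  have d1 := hA.mul_el10 w
  rw [← cen_comm r w, ← hx'] at d1
  have d2 := d1.mul_el01 (sj Q k x')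
  have hr : (cen r + cen (k * nn Q x') : ∀ i, Λ i) = cen (pc R p) := by
    rw [← cen_add]
    congr 1
    funext i
    change r i + k i * (Q i).n (x' i) = (p i : R i)
    rw [h1 i, hx'i, mul_comm (k i)]
  rw [mul_sj, sj_mul, hr] at d2
  obtain ⟨α', β', hαβ'⟩ := exists_rel Q d2.rel.1
  have d3 := d2.mul_W
  choose ρ hs hk hd using fun i => (Q i).fibre (p i) (hp i) (hpN i)
  have hU := UU_mem Q p ρ hs hk h5 z k' (fun i => by rw [h2 i, mul_comm]) (fun i => h3 i (ρ i) (hd i))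
    (-x') α' β' (by rw [nn_neg]; exact hαβ')
  have h4 := (d3.congr (UU_data Q _ _ _ _ _)).2 hU
  exact (Subgroup.mul_mem_cancel_right _ (el10_mem _)).1
    ((Subgroup.mul_mem_cancel_right _ (el01_mem _)).1
      ((Subgroup.mul_mem_cancel_right _ W_mem).1 h4))

end TType

end BW
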