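import Pool.Agent.BW.Nrd
import Pool.Agent.BW.PhiP

/-!
# Bounded width: the reduced norm of block diagonal matrices, `H` has reduced norm one
-/

namespace BW

open Matrix

section Block

variable {Λ k : Type*} [Ring Λ] [CommRing k]

theorem nrdAt_submatrix {m m' : Type*} [Fintype m] [DecidableEq m] [Fintype m'] [DecidableEq m']
    (ρ : Λ →+* Matrix (Fin 2) (Fin 2) k) (e : m' ≃ m) (X : Matrix m m Λ) :
    nrdAt ρ (X.submatrix e e) = nrdAt ρ X := by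
  rw [nrdAt_apply, nrdAt_apply,
    ← Matrix.det_submatrix_equiv_self (e.prodCongr (Equiv.refl (Fin 2)))
      (Matrix.compRingEquiv m (Fin 2) k (X.map ρ))]
  rfl

theorem nrdAt_fromBlocks {m m' : Type*} [Fintype m] [DecidableEq m] [Fintype m'] [DecidableEq m']
    (ρ : Λ →+* Matrix (Fin 2) (Fin 2) k) (A : Matrix m m Λ) (D : Matrix m' m' Λ) :
    nrdAt ρ (Matrix.fromBlocks A 0 0 D) = nrdAt ρ A * nrdAt ρ D := by
  have h : nrdAt ρ (Matrix.fromBlocks A 0 0 D) = (Matrix.fromBlocks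
      (Matrix.compRingEquiv m (Fin 2) k (A.map ρ)) 0 0
      (Matrix.compRingEquiv m' (Fin 2) k (D.map ρ))).det := by
    rw [nrdAt_apply, ← Matrix.det_submatrix_equiv_self (Equiv.sumProdDistrib m m' (Fin 2)).symm]
    congr 1
    ext a b
    rcases a with ⟨a, s⟩ | ⟨a, s⟩ <;> rcases b with ⟨b, t⟩ | ⟨b, t⟩
    · rfl
    · change ρ 0 s t = 0
      rw [map_zero]; rfl
    · change ρ 0 s t = 0
      rw [map_zero]; rfl
    · rfl
  rw [h, Matrix.det_fromBlocks_zero₂₁]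
  rfl

theorem nrdAt_k12 (ρ : Λ →+* Matrix (Fin 2) (Fin 2) k) (A : Matrix (Fin 2) (Fin 2) Λ) :
    nrdAt ρ (k12 A) = nrdAt ρ A := by
  let e : (Fin 2 ⊕ Fin 1) ≃ Fin 3 := finSumFinEquiv
  have e0 : e (Sum.inl 0) = 0 := rfl
  have e1 : e (Sum.inl 1) = 1 := rfl
  have e2 : e (Sum.inr 0) = 2 := rfl
  have h : (k12 A).submatrix e e = Matrix.fromBlocks A 0 0 (1 : Matrix (Fin 1) (Fin 1) Λ) := by
    ext a b
    rw [Matrix.submatrix_apply]
    rcases a with a | a <;> rcases b with b | b <;> fin_cases a <;> fin_cases b <;>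
      simp [e0, e1, e2, k12]
  have h2 := nrdAt_submatrix ρ e (k12 A)
  rw [h, nrdAt_fromBlocks, map_one, mul_one] at h2
  exact h2.symm

theorem K_mem_SL1 (N : ℕ) (A : (Matrix (Fin 2) (Fin 2) Λ)ˣ) :
    K A ∈ SL1 N (Fin 3) Λ ↔ A ∈ SL1 N (Fin 2) Λ := by
  constructor
  · intro h p hp hpN ρ
    rw [← nrdAt_k12]; exact h p hp hpN ρ
  · intro h p hp hpN ρ
    have := h p hp hpN ρ
    rw [← nrdAt_k12] at this; exact this

theorem H_le_SL1 (N : ℕ) : H Λ ≤ SL1 N (Fin 2) Λ := fun A hA =>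
  (K_mem_SL1 N A).1 (E_le_SL1 N hA)

end Block

section Family

variable {ι : Type*} (N : ι → ℕ) {Λ : ι → Type*} [∀ i, Ring (Λ i)]

/-- families of matrices of reduced norm one -/
def SLfam : Subgroup (Matrix (Fin 2) (Fin 2) (∀ i, Λ i))ˣ where
  carrier := {A | ∀ i, comp i A ∈ SL1 (N i) (Fin 2) (Λ i)}
  one_mem' := fun i => by rw [map_one]; exact one_mem _
  mul_mem' := fun {A B} hA hB i => by rw [map_mul]; exact mul_mem (hA i) (hB i)
  inv_mem' := fun {A} hA i => by rw [map_inv]; exact inv_mem (hA i)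

theorem mem_SLfam {A : (Matrix (Fin 2) (Fin 2) (∀ i, Λ i))ˣ} :
    A ∈ SLfam N ↔ ∀ i, comp i A ∈ SL1 (N i) (Fin 2) (Λ i) := Iff.rfl

theorem comp_mem_E {m : Type*} [Fintype m] [DecidableEq m] (i : ι)
    {X : (Matrix m m (∀ i, Λ i))ˣ} (hX : X ∈ E m (∀ i, Λ i)) : comp i X ∈ E m (Λ i) :=
  map_mem_E (Pi.evalRingHom Λ i) hX

theorem comp_mem_H (i : ι) {A : (Matrix (Fin 2) (Fin 2) (∀ i, Λ i))ˣ}
    (hA : A ∈ H (∀ i, Λ i)) : comp i A ∈ H (Λ i) :=
  map_mem_H (Pi.evalRingHom Λ i) hA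

theorem H_le_SLfam : H (∀ i, Λ i) ≤ SLfam N := fun _ hA i =>
  H_le_SL1 (N i) (comp_mem_H i hA)

end Family

end BW
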