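import Pool.Agent.BW.Choice

/-!
# Pure elements whose norms have even and odd 2-adic valuation
-/

set_option autoImplicit false

namespace BW.Pure

open BW.Choice

section Alg

variable {N : ℕ} {R Λ : Type*} [CommRing R] [Ring Λ] [Algebra R Λ] (Q : QAlg N R Λ)

theorem conj_pure {x : Λ} (hx : Q.T x = 0) : Q.conj x = -x := by
  rw [conj_eq Q, hx, map_zero, zero_sub]

theorem mul_self {x : Λ} (hx : Q.T x = 0) : x * x = -algebraMap R Λ (Q.n x) := by
  have h := Q.mul_conj x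
  rw [conj_pure Q hx, mul_neg] at h
  rw [← h, neg_neg]

theorem T_eq_zero {x : Λ} (h : x + Q.conj x = 0) : Q.T x = 0 := by
  apply Q.inj
  rw [← Q.add_conj x, h, map_zero]

/-- the norm of the sum of anticommuting pure elements -/
theorem n_add {x y : Λ} (hx : Q.T x = 0) (hy : Q.T y = 0) (h : x * y + y * x = 0) :
    Q.n (x + y) = Q.n x + Q.n y := by
  have hxy : Q.T (x + y) = 0 := by rw [map_add, hx, hy, add_zero]
  have h1 := mul_self Q hxy
  have h2 : (x + y) * (x + y) = x * x + y * y := by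
    calc (x + y) * (x + y) = x * x + y * y + (x * y + y * x) := by noncomm_ring
      _ = x * x + y * y := by rw [h, add_zero]
  rw [h2, mul_self Q hx, mul_self Q hy] at h1
  apply Q.inj
  rw [map_add, ← neg_inj, ← h1]
  abel

/-- the product of anticommuting pure elements is pure -/
theorem T_mul {x y : Λ} (hx : Q.T x = 0) (hy : Q.T y = 0) (h : x * y + y * x = 0) : Q.T (x * y) = 0 := by
  apply T_eq_zero Q
  rw [Q.conj_mul, conj_pure Q hx, conj_pure Q hy, neg_mul_neg, h]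

theorem n_mul {x y : Λ} (hx : Q.T x = 0) (hy : Q.T y = 0) (h : x * y + y * x = 0) :
    Q.n (x * y) = Q.n x * Q.n y := by
  have h1 := mul_self Q (T_mul Q hx hy h)
  have hyx : y * x = -(x * y) := by rw [← add_eq_zero_iff_eq_neg, add_comm, h]
  have h2 : x * y * (x * y) = -(x * x * (y * y)) := by
    calc x * y * (x * y) = x * (y * x) * y := by noncomm_ring
      _ = -(x * x * (y * y)) := by rw [hyx]; noncomm_ring
  rw [h2, mul_self Q hx, mul_self Q hy, neg_mul_neg, ← map_mul, neg_inj] at h1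
  exact (Q.inj h1).symm

theorem anti_left {x y : Λ} (h : x * y + y * x = 0) : x * (x * y) + x * y * x = 0 := by
  have : x * (x * y) + x * y * x = x * (x * y + y * x) := by noncomm_ring
  rw [this, h, mul_zero]

theorem anti_right {x y : Λ} (h : x * y + y * x = 0) : y * (x * y) + x * y * y = 0 := by
  have : y * (x * y) + x * y * y = (x * y + y * x) * y := by noncomm_ring
  rw [this, h, zero_mul]

/-- commutators with a pure element are pure and anticommute with it -/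
theorem T_commutator {z : Λ} (hz : Q.T z = 0) (x : Λ) : Q.T (z * x - x * z) = 0 := by
  apply T_eq_zero Q
  have h0 : Q.conj 0 = 0 := by rw [conj_eq Q, map_zero, map_zero, sub_zero]
  have h1 : Q.conj (z * x - x * z) = Q.conj (z * x) - Q.conj (x * z) := by
    have := conj_add_smul Q (z * x) (-1) (x * z)
    rwa [neg_one_smul, neg_one_smul, ← sub_eq_add_neg, ← sub_eq_add_neg] at this
  have h2 : Q.conj x = algebraMap R Λ (Q.T x) - x := conj_eq Q x
  have h3 : algebraMap R Λ (Q.T x) * z = z * algebraMap R Λ (Q.T x) := Algebra.commutes _ _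
  rw [h1, Q.conj_mul, Q.conj_mul, conj_pure Q hz, h2]
  calc z * x - x * z + ((algebraMap R Λ (Q.T x) - x) * -z - -z * (algebraMap R Λ (Q.T x) - x))
      = z * algebraMap R Λ (Q.T x) - algebraMap R Λ (Q.T x) * z := by noncomm_ring
    _ = 0 := by rw [h3, sub_self]

theorem anti_commutator {z : Λ} (hz : Q.T z = 0) (x : Λ) : z * (z * x - x * z) + (z * x - x * z) * z = 0 := by
  have h1 : z * (z * x - x * z) + (z * x - x * z) * z = z * z * x - x * (z * z) := by noncomm_ring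
  rw [h1, mul_self Q hz, neg_mul, mul_neg, Algebra.commutes]
  abel

end Alg

/-- a matrix which is not scalar has a commutator with nonzero determinant -/
theorem exists_det_ne {K : Type*} [Field K] (Z : Matrix (Fin 2) (Fin 2) K)
    (h : ¬ (Z 0 1 = 0 ∧ Z 1 0 = 0 ∧ Z 0 0 = Z 1 1)) : ∃ X : Matrix (Fin 2) (Fin 2) K, (Z * X - X * Z).det ≠ 0 := by
  obtain ⟨α, β, γ, δ, rfl⟩ : ∃ α β γ δ, Z = !![α, β; γ, δ] := ⟨_, _, _, _, Matrix.eta_fin_two Z⟩
  have h' : ¬ (β = 0 ∧ γ = 0 ∧ α = δ) := h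
  by_cases h1 : β = 0
  · by_cases h2 : γ = 0
    · have h3 : α - δ ≠ 0 := fun h3 => h' ⟨h1, h2, sub_eq_zero.1 h3⟩
      refine ⟨!![0, 1; 1, 0], ?_⟩
      have : (!![α, β; γ, δ] * !![0, 1; 1, 0] - !![0, 1; 1, 0] * !![α, β; γ, δ]).det = (α - δ) ^ 2 := by
        rw [Matrix.mul_fin_two, Matrix.mul_fin_two, Matrix.det_fin_two]
        simp only [Matrix.sub_apply, Matrix.of_apply, Matrix.cons_val', Matrix.cons_val_zero, Matrix.cons_val_one,
          Matrix.cons_val_fin_one, h1, h2]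
        ring
      rw [this]
      exact pow_ne_zero 2 h3
    · refine ⟨!![0, 1; 0, 0], ?_⟩
      have : (!![α, β; γ, δ] * !![0, 1; 0, 0] - !![0, 1; 0, 0] * !![α, β; γ, δ]).det = -γ ^ 2 := by
        rw [Matrix.mul_fin_two, Matrix.mul_fin_two, Matrix.det_fin_two]
        simp only [Matrix.sub_apply, Matrix.of_apply, Matrix.cons_val', Matrix.cons_val_zero, Matrix.cons_val_one,
          Matrix.cons_val_fin_one]
        ring
      rw [this]
      exact neg_ne_zero.2 (pow_ne_zero 2 h2)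
  · refine ⟨!![0, 0; 1, 0], ?_⟩
    have : (!![α, β; γ, δ] * !![0, 0; 1, 0] - !![0, 0; 1, 0] * !![α, β; γ, δ]).det = -β ^ 2 := by
      rw [Matrix.mul_fin_two, Matrix.mul_fin_two, Matrix.det_fin_two]
      simp only [Matrix.sub_apply, Matrix.of_apply, Matrix.cons_val', Matrix.cons_val_zero, Matrix.cons_val_one,
        Matrix.cons_val_fin_one]
      ring
    rw [this]
    exact neg_ne_zero.2 (pow_ne_zero 2 h1)

section Main

variable {N : ℕ} {R Λ : Type*} [CommRing R] [IsLocalization.Away (N : ℤ) R] [Ring Λ] [Algebra R Λ] (Q : QAlg N R Λ)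

theorem exists_anti (hN : N ≠ 0) {z : Λ} {a : ℤ} (hz : Q.T z = 0) (hza : Q.n z = (a : R)) (ha : a ≠ 0) :
    ∃ (w : Λ) (b : ℤ), Q.T w = 0 ∧ Q.n w = (b : R) ∧ b ≠ 0 ∧ z * w + w * z = 0 := by
  have hD := Loc.isDomain N R hN
  obtain ⟨p, hpB, hp⟩ := Nat.exists_infinite_primes (N + a.natAbs + 3)
  have hpN : ¬ p ∣ N := fun h => by
    have := Nat.le_of_dvd (Nat.pos_of_ne_zero hN) h
    omega
  have := Fact.mk hp
  have hpa : (a : ZMod p) ≠ 0 := by
    rw [Ne, ZMod.intCast_zmod_eq_zero_iff_dvd]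
    intro h
    have h1 := Nat.le_of_dvd (Int.natAbs_pos.2 ha) (Int.natCast_dvd.1 h)
    omega
  have hp2 : (2 : ZMod p) ≠ 0 := by
    have : ((2 : ℕ) : ZMod p) ≠ 0 := by
      rw [Ne, ZMod.natCast_eq_zero_iff]
      intro h
      have := Nat.le_of_dvd (by norm_num) h
      omega
    exact_mod_cast this
  obtain ⟨ρ, hs, -, hρ⟩ := Q.fibre p hp hpN
  have hdet : (ρ z).det = (a : ZMod p) := by
    rw [det_rho Q hp hpN ρ hρ z, hza, map_intCast]
  have hsq : ρ z * ρ z = -((a : ZMod p) • (1 : Matrix (Fin 2) (Fin 2) (ZMod p))) := by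
    rw [← map_mul, mul_self Q hz, map_neg, hza, rho_algebraMap hp hpN, map_intCast]
  have hns : ¬ (ρ z 0 1 = 0 ∧ ρ z 1 0 = 0 ∧ ρ z 0 0 = ρ z 1 1) := by
    rintro ⟨h1, h2, h3⟩
    rw [Matrix.det_fin_two, h1, zero_mul, sub_zero, ← h3] at hdet
    have h4 := congrFun (congrFun hsq 0) 0
    rw [Matrix.mul_apply, Fin.sum_univ_two, h1, zero_mul, add_zero, hdet] at h4
    simp only [Matrix.neg_apply, Matrix.smul_apply, Matrix.one_apply_eq, smul_eq_mul, mul_one] at h4
    have h5 : (2 : ZMod p) * a = 0 := by linear_combination h4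
    exact (mul_ne_zero hp2 hpa) h5
  obtain ⟨X, hX⟩ := exists_det_ne (ρ z) hns
  obtain ⟨x, rfl⟩ := hs X
  have hw0 : Q.n (z * x - x * z) ≠ 0 := by
    intro h0
    apply hX
    rw [← map_mul, ← map_mul, ← map_sub, det_rho Q hp hpN ρ hρ, h0, map_zero]
  obtain ⟨b, k, hb⟩ := Loc.exists_int N (Q.n (z * x - x * z))
  have hu : IsUnit ((N : R) ^ k) := (Loc.isUnit_natCast N R).pow k
  refine ⟨((N : R) ^ k) • (z * x - x * z), (N : ℤ) ^ k * b, ?_, ?_, ?_, ?_⟩
  · rw [map_smul, T_commutator Q hz, smul_zero]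
  · rw [n_smul Q]
    push_cast
    rw [← hb]
    ring
  · have h1 : b ≠ 0 := by
      rintro rfl
      rw [Int.cast_zero] at hb
      exact (mul_ne_zero hw0 hu.ne_zero) hb
    exact mul_ne_zero (pow_ne_zero _ (by exact_mod_cast hN)) h1
  · rw [mul_smul_comm, smul_mul_assoc, ← smul_add, anti_commutator Q hz, smul_zero]

omit [IsLocalization.Away (N : ℤ) R] in
theorem odd_of_pair {z w : Λ} {a b : ℤ} {k l : ℕ} (hz : Q.T z = 0) (hw : Q.T w = 0) (h : z * w + w * z = 0)
    (hza : Q.n z = ((2 ^ (k + k) * a : ℤ) : R)) (hwb : Q.n w = ((2 ^ (l + l) * b : ℤ) : R)) (hab : (a + b) % 4 = 2) :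
    ∃ (z1 : Λ) (v : ℕ) (m : ℤ), Q.T z1 = 0 ∧ Q.n z1 = ((2 ^ v * m : ℤ) : R) ∧ Odd v ∧ Odd m := by
  obtain ⟨c, hc⟩ : ∃ c : ℤ, a + b = 2 * c := ⟨(a + b) / 2, by omega⟩
  have hT1 : Q.T ((2 ^ l : R) • z) = 0 := by rw [map_smul, hz, smul_zero]
  have hT2 : Q.T ((2 ^ k : R) • w) = 0 := by rw [map_smul, hw, smul_zero]
  refine ⟨(2 ^ l : R) • z + (2 ^ k : R) • w, k + k + (l + l) + 1, c, ?_, ?_, ?_, ?_⟩
  · rw [map_add, hT1, hT2, add_zero]
  · rw [n_add Q hT1 hT2, n_smul Q, n_smul Q, hza, hwb]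
    · have h5 : (2 ^ (k + k + (l + l) + 1) * c : ℤ) = 2 ^ (k + k + (l + l)) * (a + b) := by rw [hc]; ring
      rw [h5]
      push_cast
      ring
    · rw [smul_mul_smul_comm, smul_mul_smul_comm, mul_comm (2 ^ k : R), ← smul_add, h, smul_zero]
  · exact ⟨k + l, by ring⟩
  · rw [Int.odd_iff]
    omega

/-- **pure elements whose norms have even and odd 2-adic valuation** -/
theorem exists_even_odd (hN : N ≠ 0) : ∃ (z0 z1 : Λ) (v0 v1 : ℕ) (m0 m1 : ℤ), Q.T z0 = 0 ∧ Q.T z1 = 0 ∧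
    Q.n z0 = ((2 ^ v0 * m0 : ℤ) : R) ∧ Q.n z1 = ((2 ^ v1 * m1 : ℤ) : R) ∧ Even v0 ∧ Odd v1 ∧ Odd m0 ∧ Odd m1 := by
  obtain ⟨z, a, hz, hza, ha⟩ := exists_pure_int Q hN
  obtain ⟨w, b, hw, hwb, hb, h⟩ := exists_anti Q hN hz hza ha
  obtain ⟨va, a', rfl, ha'⟩ := exists_two_pow a ha
  obtain ⟨vb, b', rfl, hb'⟩ := exists_two_pow b hb
  have hT := T_mul Q hz hw h
  have hn : Q.n (z * w) = ((2 ^ (va + vb) * (a' * b') : ℤ) : R) := by
    rw [n_mul Q hz hw h, hza, hwb, ← Int.cast_mul]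
    congr 1
    ring
  have hev : ∃ (z0 : Λ) (v : ℕ) (m : ℤ), Q.T z0 = 0 ∧ Q.n z0 = ((2 ^ v * m : ℤ) : R) ∧ Even v ∧ Odd m := by
    rcases Nat.even_or_odd va with hva | hva
    · exact ⟨z, va, a', hz, hza, hva, ha'⟩
    · rcases Nat.even_or_odd vb with hvb | hvb
      · exact ⟨w, vb, b', hw, hwb, hvb, hb'⟩
      · exact ⟨z * w, va + vb, a' * b', hT, hn, hva.add_odd hvb, ha'.mul hb'⟩
  have hodd : ∃ (z1 : Λ) (v : ℕ) (m : ℤ), Q.T z1 = 0 ∧ Q.n z1 = ((2 ^ v * m : ℤ) : R) ∧ Odd v ∧ Odd m := by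
    rcases Nat.even_or_odd va with ⟨k, rfl⟩ | hva
    · rcases Nat.even_or_odd vb with ⟨l, rfl⟩ | hvb
      · rw [Int.odd_iff] at ha' hb'
        by_cases hab : (a' + b') % 4 = 2
        · exact odd_of_pair Q hz hw h hza hwb hab
        · have hcase : a' % 4 = 1 ∨ b' % 4 = 1 := by omega
          rcases hcase with h1 | h1
          · have hn' : Q.n (z * w) = ((2 ^ ((k + l) + (k + l)) * (a' * b') : ℤ) : R) := by
              rw [hn]; congr 2; ring
            refine odd_of_pair Q hw hT (anti_right h) hwb hn' ?_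
            have h2 : b' + a' * b' = b' * (1 + a') := by ring
            rw [h2, Int.mul_emod]
            have h3 : (1 + a') % 4 = 2 := by omega
            have h4 : b' % 4 = 1 ∨ b' % 4 = 3 := by omega
            rw [h3]
            rcases h4 with h4 | h4 <;> rw [h4] <;> norm_num
          · have hn' : Q.n (z * w) = ((2 ^ ((k + l) + (k + l)) * (a' * b') : ℤ) : R) := by
              rw [hn]; congr 2; ring
            refine odd_of_pair Q hz hT (anti_left h) hza hn' ?_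
            have h2 : a' + a' * b' = a' * (1 + b') := by ring
            rw [h2, Int.mul_emod]
            have h3 : (1 + b') % 4 = 2 := by omega
            have h4 : a' % 4 = 1 ∨ a' % 4 = 3 := by omega
            rw [h3]
            rcases h4 with h4 | h4 <;> rw [h4] <;> norm_num
      · exact ⟨w, vb, b', hw, hwb, hvb, hb'⟩
    · exact ⟨z, va, a', hz, hza, hva, ha'⟩
  obtain ⟨z0, v0, m0, h01, h02, h03, h04⟩ := hev
  obtain ⟨z1, v1, m1, h11, h12, h13, h14⟩ := hodd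
  exact ⟨z0, z1, v0, v1, m0, m1, h01, h11, h02, h12, h03, h13, h04, h14⟩

end Main

end BW.Pure
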