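import Pool.Agent.BW.Defs

/-!
# The ring `ℤ[1/N]`: the facts used in `BW/Struct.lean`
-/

set_option autoImplicit false

namespace BW.S

variable {N : ℕ} {R : Type*} [CommRing R]

theorem powers_le (hN : N ≠ 0) : Submonoid.powers (N : ℤ) ≤ nonZeroDivisors ℤ :=
  powers_le_nonZeroDivisors_of_noZeroDivisors (by exact_mod_cast hN)

theorem injZ (hN : N ≠ 0) [IsLocalization.Away (N : ℤ) R] : Function.Injective (algebraMap ℤ R) :=
  IsLocalization.injective R (powers_le hN)

theorem isDomain (hN : N ≠ 0) [IsLocalization.Away (N : ℤ) R] : IsDomain R :=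
  IsLocalization.isDomain_of_le_nonZeroDivisors (S := R) (powers_le hN)

theorem natCast_ne (hN : N ≠ 0) [IsLocalization.Away (N : ℤ) R] {m : ℕ} (hm : m ≠ 0) :
    (m : R) ≠ 0 := by
  intro h
  have h1 : algebraMap ℤ R (m : ℤ) = algebraMap ℤ R 0 := by simpa using h
  have := injZ (R := R) hN h1
  exact hm (by exact_mod_cast this)

theorem isUnit_N [IsLocalization.Away (N : ℤ) R] : IsUnit (N : R) := by
  have := IsLocalization.Away.algebraMap_isUnit (S := R) (N : ℤ)
  simpa using this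

theorem isUnit_of_dvd [IsLocalization.Away (N : ℤ) R] {p : ℕ} (h : p ∣ N) : IsUnit (p : R) := by
  obtain ⟨k, hk⟩ := h
  refine isUnit_of_dvd_unit (y := (N : R)) ⟨(k : R), ?_⟩ (isUnit_N (N := N))
  rw [hk]; push_cast; rfl

variable (N) in
theorem exists_int [IsLocalization.Away (N : ℤ) R] (r : R) :
    ∃ (k : ℕ) (a : ℤ), r * (N : R) ^ k = a := by
  obtain ⟨k, a, h⟩ := IsLocalization.Away.surj (N : ℤ) r
  exact ⟨k, a, by simpa using h⟩

/-- a nonzero integer is a unit of `R` times a positive integer prime to `N` -/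
theorem int_split [IsLocalization.Away (N : ℤ) R] :
    ∀ (b : ℕ) (a : ℤ), a.natAbs = b → a ≠ 0 →
      ∃ (u : Rˣ) (m : ℕ), 0 < m ∧ m.Coprime N ∧ (a : R) = u * m := by
  intro b
  induction b using Nat.strong_induction_on with
  | _ b ih =>
    intro a hb ha
    by_cases hc : b.Coprime N
    · rcases Int.natAbs_eq a with h | h
      · refine ⟨1, b, ?_, hc, ?_⟩
        · rw [← hb]; exact Int.natAbs_pos.2 ha
        · rw [h, hb]; simp
      · refine ⟨-1, b, ?_, hc, ?_⟩
        · rw [← hb]; exact Int.natAbs_pos.2 ha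
        · rw [h, hb]; simp
    · obtain ⟨p, hp, hpb, hpN⟩ := Nat.Prime.not_coprime_iff_dvd.1 hc
      have hpa : (p : ℤ) ∣ a := by
        rw [← Int.natCast_dvd_natCast] at hpb
        rw [← hb] at hpb
        exact Int.dvd_natAbs.1 hpb
      obtain ⟨a', rfl⟩ := hpa
      have ha' : a' ≠ 0 := right_ne_zero_of_mul ha
      have hlt : a'.natAbs < b := by
        rw [← hb, Int.natAbs_mul, Int.natAbs_natCast]
        have := hp.two_le
        have := Int.natAbs_pos.2 ha'
        nlinarith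
      obtain ⟨u, m, hm, hmN, he⟩ := ih _ hlt a' rfl ha'
      obtain ⟨v, hv⟩ := isUnit_of_dvd (N := N) (R := R) hpN
      refine ⟨v * u, m, hm, hmN, ?_⟩
      push_cast
      rw [he, hv]; ring

theorem split [IsLocalization.Away (N : ℤ) R] (r : R) (hr : r ≠ 0) :
    ∃ (u : Rˣ) (m : ℕ), 0 < m ∧ m.Coprime N ∧ r = u * m := by
  obtain ⟨k, a, h⟩ := exists_int N r
  obtain ⟨v, hv⟩ := isUnit_N (N := N) (R := R)
  have ha : a ≠ 0 := by
    rintro rfl
    apply hr
    have h1 : r * (N : R) ^ k = 0 := by simpa using h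
    rw [← hv] at h1
    exact (Units.mul_left_eq_zero (v ^ k)).1 (by simpa using h1)
  obtain ⟨u, m, hm, hmN, he⟩ := int_split (N := N) (R := R) _ a rfl ha
  refine ⟨u * (v ^ k)⁻¹, m, hm, hmN, ?_⟩
  have h2 : r * ((v ^ k : Rˣ) : R) = u * m := by
    rw [← he, ← h, ← hv]; simp
  rw [Units.val_mul, mul_right_comm, ← h2, mul_assoc, Units.mul_inv, mul_one]

/-- reduction modulo `p` -/
noncomputable def phi (R : Type*) [CommRing R] [IsLocalization.Away (N : ℤ) R] {p : ℕ}
    (hp : p.Prime) (hpN : ¬ p ∣ N) : R →+* ZMod p :=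
  haveI : Fact p.Prime := ⟨hp⟩
  IsLocalization.Away.lift (N : ℤ) (g := Int.castRingHom (ZMod p))
    (isUnit_iff_ne_zero.2 (by
      simpa using fun h => hpN ((ZMod.natCast_eq_zero_iff N p).1 h)))

theorem phi_dvd [IsLocalization.Away (N : ℤ) R] {p : ℕ} (hp : p.Prime) (hpN : ¬ p ∣ N) (r : R) :
    phi R hp hpN r = 0 ↔ ∃ s, r = p * s := by
  haveI : Fact p.Prime := ⟨hp⟩
  constructor
  · intro h
    obtain ⟨k, a, hk⟩ := exists_int N r
    have h1 : phi R hp hpN (r * (N : R) ^ k) = 0 := by rw [map_mul, h, zero_mul]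
    rw [hk, map_intCast, ZMod.intCast_zmod_eq_zero_iff_dvd] at h1
    obtain ⟨a', rfl⟩ := h1
    obtain ⟨v, hv⟩ := isUnit_N (N := N) (R := R)
    refine ⟨a' * ((v ^ k)⁻¹ : Rˣ), ?_⟩
    have h2 : r * ((v ^ k : Rˣ) : R) = p * a' := by
      have := hk
      push_cast at this
      rw [← this, ← hv]; simp
    rw [← mul_assoc, ← h2, mul_assoc, Units.mul_inv, mul_one]
  · rintro ⟨s, rfl⟩
    rw [map_mul, map_natCast, ZMod.natCast_self, zero_mul]

/-- an element without a prime factor is a unit -/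
theorem isUnit_of_phi (hN : N ≠ 0) [IsLocalization.Away (N : ℤ) R] (r : R)
    (h : ∀ (p : ℕ) (hp : p.Prime) (hpN : ¬ p ∣ N), phi R hp hpN r ≠ 0) : IsUnit r := by
  by_cases hr : r = 0
  · exfalso
    obtain ⟨p, hpN, hp⟩ := Nat.exists_infinite_primes (N + 1)
    have : ¬ p ∣ N := fun hd => by
      have := Nat.le_of_dvd (Nat.pos_of_ne_zero hN) hd
      omega
    exact h p hp this (by rw [hr, map_zero])
  · obtain ⟨u, m, hm, hmN, rfl⟩ := split (N := N) r hr
    by_cases h1 : m = 1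
    · rw [h1]; simp
    · exfalso
      obtain ⟨p, hp, hpm⟩ := Nat.exists_prime_and_dvd h1
      have hpN : ¬ p ∣ N := fun hd =>
        hp.one_lt.ne' (Nat.eq_one_of_dvd_coprimes hmN hpm hd)
      refine h p hp hpN ((phi_dvd hp hpN _).2 ?_)
      obtain ⟨m', rfl⟩ := hpm
      exact ⟨u * m', by push_cast; ring⟩

/-- an element divisible by all large primes is zero -/
theorem eq_zero_of_dvd (hN : N ≠ 0) [IsLocalization.Away (N : ℤ) R] (r : R) (B : ℕ)
    (h : ∀ p : ℕ, p.Prime → B ≤ p → ∃ s, r = p * s) : r = 0 := by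
  by_contra hr
  obtain ⟨u, m, hm, hmN, rfl⟩ := split (N := N) r hr
  obtain ⟨p, hpB, hp⟩ := Nat.exists_infinite_primes (N + m + B + 1)
  have hpN : ¬ p ∣ N := fun hd => by
    have := Nat.le_of_dvd (Nat.pos_of_ne_zero hN) hd
    omega
  have h1 := (phi_dvd (R := R) hp hpN _).2 (h p hp (by omega))
  haveI : Fact p.Prime := ⟨hp⟩
  rw [map_mul, map_natCast, mul_eq_zero] at h1
  rcases h1 with h1 | h1
  · exact (u.isUnit.map (phi R hp hpN)).ne_zero h1
  · have := Nat.le_of_dvd hm ((ZMod.natCast_eq_zero_iff m p).1 h1)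
    omega

theorem pid [IsLocalization.Away (N : ℤ) R] : IsPrincipalIdealRing R := by
  refine ⟨fun I => ?_⟩
  obtain ⟨g, hg⟩ := (IsPrincipalIdealRing.principal (I.comap (algebraMap ℤ R))).principal
  refine ⟨algebraMap ℤ R g, ?_⟩
  have h1 := IsLocalization.map_comap (Submonoid.powers (N : ℤ)) R I
  rw [← h1]
  change Ideal.map (algebraMap ℤ R) (Ideal.comap (algebraMap ℤ R) I) = Ideal.span _
  rw [show Ideal.comap (algebraMap ℤ R) I = Ideal.span {g} from hg, Ideal.map_span,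
    Set.image_singleton]

/-- an ideal which is not contained in any `p R` is everything -/
theorem eq_top_of_phi (hN : N ≠ 0) [IsLocalization.Away (N : ℤ) R] (I : Ideal R)
    (h : ∀ (p : ℕ) (hp : p.Prime) (hpN : ¬ p ∣ N), ∃ r ∈ I, phi R hp hpN r ≠ 0) : I = ⊤ := by
  haveI := pid (N := N) (R := R)
  obtain ⟨g, hg⟩ := (IsPrincipalIdealRing.principal I).principal
  rw [Ideal.submodule_span_eq] at hg
  rw [hg, Ideal.span_singleton_eq_top]
  refine isUnit_of_phi hN g fun p hp hpN h0 => ?_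
  obtain ⟨r, hr, hne⟩ := h p hp hpN
  rw [hg, Ideal.mem_span_singleton] at hr
  obtain ⟨s, rfl⟩ := hr
  exact hne (by rw [map_mul, h0, zero_mul])

end BW.S
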