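import Pool.Agent.BW.PhiP
import Pool.Agent.BW.Choice
import Pool.Agent.BW.Family

/-!
# Section 2: all matrices of type `T` over the product ring are in `H`
-/

namespace BW

open Matrix

variable {ι : Type*} {N : ι → ℕ} {R Λ : ι → Type*} [∀ i, CommRing (R i)] [∀ i, Ring (Λ i)]
  [∀ i, Algebra (R i) (Λ i)]

theorem cen_eq_smul_one (r : ∀ i, R i) : (cen r : ∀ i, Λ i) = r • (1 : ∀ i, Λ i) := by
  funext i
  exact Algebra.algebraMap_eq_smul_one _

theorem Tm_data (Q : ∀ i, QAlg (N i) (R i) (Λ i)) (x : ∀ i, Λ i) (r α β : ∀ i, R i)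
    (h : α * (fam Q).n x + β * r = 1) :
    HasData ((fam Q).Tm x r α β h) x (cen r) (cen r) x := by
  rw [cen_eq_smul_one]
  refine ⟨?_, ?_, ?_, ?_⟩
  · rw [QStr.Tm_val]; rfl
  · rw [QStr.Tm_val]; rfl
  · rw [QStr.Tm_inv_val]; rfl
  · rw [QStr.Tm_inv_val]; rfl

/-- every matrix with the data `(x, r | r, x)`, `r` central, is in `H` -/
theorem ttype_mem [∀ i, IsLocalization.Away (N i : ℤ) (R i)] (hN : ∀ i, N i ≠ 0)
    (Q : ∀ i, QAlg (N i) (R i) (Λ i)) (A : (Matrix (Fin 2) (Fin 2) (∀ i, Λ i))ˣ) (x : ∀ i, Λ i)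
    (r : ∀ i, R i) (hA : HasData A x (cen r) (cen r) x) : A ∈ H (∀ i, Λ i) :=
  ttype_mem_of_choice Q (fun i x r α β h => (Q i).choice (hN i) x r α β h) A x r hA

/-- **the T-claim**: all matrices `T(x, r)` over the product ring are in `H` -/
theorem Tm_mem_H [∀ i, IsLocalization.Away (N i : ℤ) (R i)] (hN : ∀ i, N i ≠ 0)
    (Q : ∀ i, QAlg (N i) (R i) (Λ i)) (x : ∀ i, Λ i) (r α β : ∀ i, R i)
    (h : α * (fam Q).n x + β * r = 1) : (fam Q).Tm x r α β h ∈ H (∀ i, Λ i) :=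
  ttype_mem hN Q _ x r (Tm_data Q x r α β h)

end BW
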