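import Pool.Agent.BW.NrdK
import Pool.Agent.BW.TMem

/-!
# Bounded width: assembly of section 1, families of `2 x 2` matrices of reduced norm one are in `H`
-/

namespace BW

open Matrix

/-- a central factor of `a*` divides `a` -/
theorem QStr.content_as {C P : Type*} [CommRing C] [Ring P] [Algebra C P] (Q : QStr C P)
    (A : (Matrix (Fin 2) (Fin 2) P)ˣ) (c : C) (t0 : P)
    (h11 : A⁻¹.val 1 1 = c • t0) : ∃ a0, A.val 0 0 = c • a0 := by
  obtain ⟨⟨r1, r2⟩, ⟨r3, r4⟩⟩ := row_col A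
  rw [h11] at r2 r4
  set a := A.val 0 0 with ha
  set b := A.val 0 1 with hb
  set e := A.val 1 0 with he
  set d := A.val 1 1 with hd
  set q := A⁻¹.val 0 1 with hq
  have hαβ := Q.coprime q e 0 c
  have heq : e * q + c • (d * t0) = 1 := by rw [← r4, mul_smul_comm]
  have h0 : ∃ β : C, Q.n e * Q.n q + β * c = 1 := by
    have h1 : e * q = 1 + -(c • (d * t0)) := by
      linear_combination (norm := abel) heq
    refine ⟨Q.T (d * t0) - c * Q.n (d * t0), ?_⟩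
    have e2 : Q.n (e * q) = 1 + c * c * Q.n (d * t0) - c * Q.T (d * t0) := by
      rw [h1, Q.n_add, Q.n_one, Q.n_neg, Q.n_smul, Q.conj_neg, Q.conj_smul, one_mul, Q.T_neg,
        Q.T_smul, Q.T_conj]; ring
    rw [Q.n_mul] at e2
    linear_combination e2
  obtain ⟨β, hβ⟩ := h0
  have h1 : Q.n q • a = -(c • (b * t0 * Q.conj q)) := by
    calc Q.n q • a = a * q * Q.conj q := by
          rw [mul_assoc, Q.mul_conj', mul_smul_comm, mul_one]
      _ = -(b * (c • t0)) * Q.conj q := by rw [eq_neg_of_add_eq_zero_left r2]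
      _ = _ := by rw [neg_mul, mul_smul_comm, smul_mul_assoc]
  refine ⟨-(Q.n e • (b * t0 * Q.conj q)) + β • a, ?_⟩
  calc a = Q.n e • (Q.n q • a) + (β * c) • a := by rw [smul_smul, ← add_smul, hβ, one_smul]
    _ = _ := by rw [h1]; module

section Family

variable {ι : Type*} {N : ι → ℕ} {R Λ : ι → Type*} [∀ i, CommRing (R i)] [∀ i, Ring (Λ i)]
  [∀ i, Algebra (R i) (Λ i)] [∀ i, IsLocalization.Away (N i : ℤ) (R i)]
  [∀ i, Module.Free (R i) (Λ i)] [∀ i, Module.Finite (R i) (Λ i)]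

/-- **families of invertible `2 x 2` matrices of reduced norm one are in `H`** -/
theorem mem_H_of_SLfam (hN : ∀ i, N i ≠ 0) (Q : ∀ i, QAlg (N i) (R i) (Λ i))
    (A : (Matrix (Fin 2) (Fin 2) (∀ i, Λ i))ˣ) (hA : A ∈ SLfam N) : A ∈ H (∀ i, Λ i) := by
  have i1 : ∀ i, IsDomain (R i) := fun i => Loc.isDomain (N i) (R i) (hN i)
  have i2 : ∀ i, IsPrincipalIdealRing (R i) := fun i => Loc.isPrincipalIdealRing (N i) (R i)
  have i3 : ∀ i, CharZero (R i) := fun i => Loc.charZero (N i) (R i) (hN i)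
  have hT : ∀ x r α β h, (fam Q).Tm x r α β h ∈ H (∀ i, Λ i) := fun x r α β h =>
    Tm_mem_H hN Q x r α β h
  have hHS : H (∀ i, Λ i) ≤ SLfam N := H_le_SLfam N
  have hTS : ∀ x r α β h, (fam Q).Tm x r α β h ∈ SLfam N := fun x r α β h => hHS (hT x r α β h)
  -- step 0: the first entry has non-zero norm in every component
  obtain ⟨⟨r1, -⟩, -⟩ := row_col A
  have hx0 : ∀ i, ∃ x, (Q i).n (A.val 0 0 i + A.val 0 1 i * x) ≠ 0 := fun i =>
    (Q i).exists_n_ne _ _ (A⁻¹.val 0 0 i) (A⁻¹.val 1 0 i) (congrFun r1 i)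
  choose x0 hx0 using hx0
  rw [← mem_of_mul (el10_mem x0)]
  obtain ⟨m1, -, -, -⟩ := mul_el10 A x0
  have hn1 : ∀ i, (Q i).n ((A * el 1 0 (by decide) x0).val 0 0 i) ≠ 0 := fun i => by
    rw [m1]; exact hx0 i
  have hA1 : A * el 1 0 (by decide) x0 ∈ SLfam N := mul_mem hA (hHS (el10_mem x0))
  generalize A * el 1 0 (by decide) x0 = A1 at hn1 hA1 ⊢
  clear m1 hx0 r1 hA
  -- step 1: the first entry is primitive
  choose c1 a1 w1 hc1 hw1 using fun i => (Q i).content (A1.val 0 0 i)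
  obtain ⟨A2, f1, -, -, -, f5⟩ := (fam Q).content_step A1 c1 a1 (funext hc1)
  rw [f5 _ le_rfl hT]
  have hA2 : A2 ∈ SLfam N := (f5 _ hHS hTS).1 hA1
  have hn2 : ∀ i, (Q i).n (A2.val 0 0 i) ≠ 0 := fun i h0 => by
    apply hn1 i
    rw [hc1 i, QAlg.n_smul]
    rw [f1] at h0
    rw [h0, mul_zero]
  have hp2 : ∀ i, ∃ c, (Q i).T (A2.val 0 0 i * c) = 1 := fun i => ⟨w1 i, by rw [f1]; exact hw1 i⟩
  clear f5 f1 hw1 hc1 hn1 hA1
  -- step 2: equal traces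
  have hr2 : ∀ i, A2.val 0 1 i * A2⁻¹.val 1 1 i = A2.val 0 0 i * -(A2⁻¹.val 0 1 i) := fun i => by
    obtain ⟨⟨-, r2⟩, -⟩ := row_col A2
    have := congrFun r2 i
    rw [mul_neg]
    exact eq_neg_of_add_eq_zero_right this
  choose x2 y2 ht2 hne2 using fun i => (Q i).trace_strong (hN i) _ _ _ _ (hr2 i) (hp2 i) (hn2 i)
  rw [← mem_of_mul (el01_mem y2), ← mem_of_mul (el10_mem x2)]
  obtain ⟨m1, m2, m3, m4⟩ := mul_el01 A2 y2
  obtain ⟨k1, -, -, k4⟩ := mul_el10 (A2 * el 0 1 (by decide) y2) x2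
  rw [m1, m2] at k1
  rw [m3, m4] at k4
  have hA3 : A2 * el 0 1 (by decide) y2 * el 1 0 (by decide) x2 ∈ SLfam N :=
    mul_mem (mul_mem hA2 (hHS (el01_mem y2))) (hHS (el10_mem x2))
  generalize A2 * el 0 1 (by decide) y2 * el 1 0 (by decide) x2 = A3 at k1 k4 hA3 ⊢
  have ht3 : ∀ i, (Q i).T (A3.val 0 0 i) = (Q i).T (A3⁻¹.val 1 1 i) := fun i => by
    have e1 : A3.val 0 0 i =
        A2.val 0 0 i + (A2.val 0 1 i + A2.val 0 0 i * y2 i) * x2 i := by rw [k1]; rfl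
    have e2 : A3⁻¹.val 1 1 i =
        A2⁻¹.val 1 1 i + x2 i * (-A2⁻¹.val 0 1 i + y2 i * A2⁻¹.val 1 1 i) := by
      rw [k4]
      change A2⁻¹.val 1 1 i - x2 i * (A2⁻¹.val 0 1 i - y2 i * A2⁻¹.val 1 1 i) = _
      noncomm_ring
    rw [e1, e2]; exact ht2 i
  have hne3 : ∀ i, A3.val 0 0 i ≠ 0 := fun i => by
    have e1 : A3.val 0 0 i =
        A2.val 0 0 i + (A2.val 0 1 i + A2.val 0 0 i * y2 i) * x2 i := by rw [k1]; rfl
    rw [e1]; exact hne2 i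
  clear k1 k4 m1 m2 m3 m4 ht2 hne2 hr2 hp2 hn2 hA2
  -- step 3: the first entry is primitive again
  choose c3 a3 w3 hc3 ha3 hw3 using fun i => (Q i).content_ne _ (hne3 i)
  obtain ⟨A4, f1, -, -, f4, f5⟩ := (fam Q).content_step A3 c3 a3 (funext ha3)
  rw [f5 _ le_rfl hT]
  have hA4 : A4 ∈ SLfam N := (f5 _ hHS hTS).1 hA3
  have ht4 : ∀ i, (Q i).T (A4.val 0 0 i) = (Q i).T (A4⁻¹.val 1 1 i) := fun i => by
    have e1 := ht3 i
    rw [ha3 i, congrFun f4 i] at e1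
    change (Q i).T (c3 i • a3 i) = (Q i).T (c3 i • A4⁻¹.val 1 1 i) at e1
    rw [map_smul, map_smul, smul_eq_mul, smul_eq_mul] at e1
    rw [f1]
    exact mul_left_cancel₀ (hc3 i) e1
  have hp4 : ∀ i, (Q i).T (A4.val 0 0 i * w3 i) = 1 := fun i => by rw [f1]; exact hw3 i
  clear f5 f4 f1 hw3 ha3 hc3 hne3 ht3 hA3
  -- step 4: `a*` is primitive
  choose c4 t4 w4 hc4 hw4 using fun i => (Q i).content (A4⁻¹.val 1 1 i)
  obtain ⟨a4, ha4⟩ := (fam Q).content_as A4 c4 t4 (funext hc4)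
  have hw4' : ∀ i, (Q i).T (A4⁻¹.val 1 1 i * ((Q i).T (a4 i * w3 i) • w4 i)) = 1 := fun i => by
    have e1 := hp4 i
    rw [congrFun ha4 i] at e1
    change (Q i).T (c4 i • a4 i * w3 i) = 1 at e1
    rw [smul_mul_assoc, map_smul, smul_eq_mul] at e1
    rw [hc4 i, smul_mul_smul_comm, map_smul, hw4 i, smul_eq_mul, mul_one, e1]
  -- step 5: the second entry is an intertwiner
  have hn4 : ∀ i, (Q i).n (A4.val 0 0 i) = (Q i).n (A4⁻¹.val 1 1 i) := fun i =>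
    (Q i).n_eq (hN i) (comp i A4) (hA4 i)
  have hz4 : ∀ i, (Q i).conj (A4.val 0 0 i) * A4.val 0 1 i +
      A4⁻¹.val 0 1 i * (Q i).conj (A4⁻¹.val 1 1 i) = 0 := fun i =>
    (Q i).conj_eq_of_SL1 (hN i) (comp i A4) (hA4 i)
  obtain ⟨y5, g5, j1, j2, j3, j4, j5⟩ := (fam Q).conj_step A4
    (fun i => (Q i).T (a4 i * w3 i) • w4 i) (funext ht4) (funext hn4) (funext hz4) (funext hw4')
  rw [← mem_of_mul (el01_mem y5)]
  have hA5 : A4 * el 0 1 (by decide) y5 ∈ SLfam N := mul_mem hA4 (hHS (el01_mem y5))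
  rw [← j1, ← j4] at j5
  have ht5 : ∀ i, (Q i).T ((A4 * el 0 1 (by decide) y5).val 0 0 i) =
      (Q i).T ((A4 * el 0 1 (by decide) y5)⁻¹.val 1 1 i) := fun i => by
    rw [j1, j4]; exact ht4 i
  have hn5 : ∀ i, (Q i).n ((A4 * el 0 1 (by decide) y5).val 0 0 i) =
      (Q i).n ((A4 * el 0 1 (by decide) y5)⁻¹.val 1 1 i) := fun i => by
    rw [j1, j4]; exact hn4 i
  clear j1 j4
  generalize A4 * el 0 1 (by decide) y5 = A5 at j2 j3 j5 hA5 ht5 hn5 ⊢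
  clear hz4 hn4 hw4' ha4 hw4 hc4 hp4 ht4 hA4
  -- step 6: the content of the intertwiner
  obtain ⟨⟨r1, -⟩, -⟩ := row_col A5
  rw [j2] at r1
  have hg6 : ∀ i, ∃ (y g0 w : Λ i) (c : R i), c ≠ 0 ∧ A5.val 0 0 i * y = y * A5⁻¹.val 1 1 i ∧
      g5 i + A5.val 0 0 i * y = c • g0 ∧ (Q i).T (g0 * w) = 1 ∧
      A5.val 0 0 i * g0 = g0 * A5⁻¹.val 1 1 i := fun i =>
    (Q i).g_step (hN i) (A5.val 0 0 i) (A5⁻¹.val 1 1 i) (g5 i) (A5⁻¹.val 0 0 i)
      (A5⁻¹.val 1 0 i) (congrFun j5 i) (ht5 i) (hn5 i) (congrFun r1 i)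
  choose y6 g6 w6 c6 hc6 hy6 hg6 hw6 hi6 using hg6
  rw [← mem_of_mul (el01_mem y6)]
  obtain ⟨m1, m2, m3, m4⟩ := mul_el01 A5 y6
  have e01 : (A5 * el 0 1 (by decide) y6).val 0 1 = c6 • g6 := by
    rw [m2, j2]; exact funext hg6
  have e0 : (A5 * el 0 1 (by decide) y6)⁻¹.val 0 1 = -(c6 • g6) := by
    rw [m3, j3]
    funext i
    change -(g5 i) - y6 i * A5⁻¹.val 1 1 i = -(c6 i • g6 i)
    rw [← hy6 i, ← hg6 i, neg_add, sub_eq_add_neg]
  have eg : (A5 * el 0 1 (by decide) y6).val 0 0 * g6 =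
      g6 * (A5 * el 0 1 (by decide) y6)⁻¹.val 1 1 := by
    rw [m1, m4]; exact funext hi6
  obtain ⟨A7, l1, l2, l3, l4, l5⟩ := (fam Q).content2_step _ c6 g6 e01 e0 eg
  rw [l5 _ le_rfl hT]
  refine (fam Q).final_step A7 g6 w6 l2 l3 ?_ ?_ (funext hw6) _ le_rfl hT
  · rw [l1, l4]; exact eg
  · rw [l1, l4, m1, m4]; exact funext ht5

end Family

end BW
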