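import Pool.Agent.BW.Defs

/-!
# Bounded width: content, Smith form, the trace step
-/

namespace BW

open Matrix

theorem content {R M : Type*} [CommRing R] [IsDomain R] [IsPrincipalIdealRing R]
    [AddCommGroup M] [Module R M] [Module.Free R M] [Module.Finite R M] (v : M) (hv : v ≠ 0) :
    ∃ (c : R) (v0 : M) (f : M →ₗ[R] R), c ≠ 0 ∧ v = c • v0 ∧ f v0 = 1 := by
  classical
  let b := Module.Free.chooseBasis R M
  let I : Ideal R := LinearMap.range (LinearMap.applyₗ (R := R) (M₂ := R) v)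
  obtain ⟨c, hc⟩ := (IsPrincipalIdealRing.principal I).principal
  have hmem : ∀ g : M →ₗ[R] R, ∃ d, g v = c * d := by
    intro g
    have h1 : g v ∈ I := ⟨g, rfl⟩
    rw [hc, Submodule.mem_span_singleton] at h1
    obtain ⟨d, hd⟩ := h1
    exact ⟨d, by rw [← hd, smul_eq_mul, mul_comm]⟩
  obtain ⟨f, hf⟩ : ∃ f : M →ₗ[R] R, f v = c := by
    have h1 : c ∈ I := by rw [hc]; exact Submodule.mem_span_singleton_self c
    obtain ⟨f, hf⟩ := h1
    exact ⟨f, hf⟩
  choose d hd using fun i => hmem (b.coord i)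
  have hv0 : v = c • ∑ i, d i • b i := by
    rw [Finset.smul_sum]
    conv_lhs => rw [← b.sum_repr v]
    refine Finset.sum_congr rfl fun i _ => ?_
    have : b.repr v i = c * d i := hd i
    rw [this, mul_smul]
  have hc0 : c ≠ 0 := by
    rintro rfl
    exact hv (by rw [hv0, zero_smul])
  refine ⟨c, _, f, hc0, hv0, ?_⟩
  have : c * f (∑ i, d i • b i) = c * 1 := by
    rw [mul_one, ← smul_eq_mul, ← map_smul, ← hv0, hf]
  exact mul_left_cancel₀ hc0 this

theorem smith {R M M' : Type*} [CommRing R] [IsDomain R] [IsPrincipalIdealRing R]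
    [AddCommGroup M] [Module R M]
    [AddCommGroup M'] [Module R M'] [Module.Free R M'] [Module.Finite R M']
    (ε : M →ₗ[R] M') (hε : ε ≠ 0) :
    ∃ (x0 : M) (c : R) (s : M') (f : M' →ₗ[R] R), c ≠ 0 ∧ ε x0 = c • s ∧ f s = 1 ∧
      ∀ x, ∃ y, ε x = c • y := by
  classical
  obtain ⟨n, bM, bN, g, a, hab⟩ := Submodule.smithNormalForm
    (Module.Free.chooseBasis R M') (LinearMap.range ε)
  -- the sum of the adapted basis of the range
  obtain ⟨x0, hx0⟩ : ((∑ i, bN i : LinearMap.range ε) : M') ∈ LinearMap.range ε :=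
    Subtype.property _
  have hne : ε x0 ≠ 0 := by
    intro h0
    have h1 : (∑ i, bN i : LinearMap.range ε) = 0 := by
      apply Subtype.ext
      rw [← hx0, h0]; rfl
    have hn : IsEmpty (Fin n) := by
      by_contra hne
      rw [not_isEmpty_iff] at hne
      obtain ⟨i⟩ := hne
      have h2 : bN.repr (∑ i, bN i) i = 0 := by rw [h1]; simp
      have h3 : bN.repr (∑ i, bN i) i = 1 := by
        rw [map_sum, Finsupp.finsetSum_apply]
        simp [Finsupp.single_apply]
      rw [h2] at h3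
      exact zero_ne_one h3
    apply hε
    ext x
    have h4 : (⟨ε x, LinearMap.mem_range_self ε x⟩ : LinearMap.range ε) = 0 := by
      rw [← bN.sum_repr ⟨ε x, LinearMap.mem_range_self ε x⟩]
      simp
    simpa using congrArg Subtype.val h4
  obtain ⟨c, s, f, hc, hs, hf⟩ := content (R := R) (ε x0) hne
  refine ⟨x0, c, s, f, hc, hs, hf, ?_⟩
  -- each `a i` is divisible by `c`
  have hdiv : ∀ i, ∃ d, a i = c * d := by
    intro i
    refine ⟨bM.repr s (g i), ?_⟩
    have h1 : bM.repr (ε x0) (g i) = a i := by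
      rw [hx0, Submodule.coe_sum, map_sum, Finsupp.finsetSum_apply]
      simp only [hab, map_smul, Finsupp.smul_apply, Module.Basis.repr_self,
        Finsupp.single_apply, smul_eq_mul]
      rw [Finset.sum_eq_single i]
      · simp
      · intro j _ hj
        rw [if_neg (fun h => hj (g.injective h)), mul_zero]
      · simp
    rw [← h1, hs, map_smul]; rfl
  choose d hd using hdiv
  intro x
  obtain ⟨r, h5⟩ : ∃ r : Fin n → R, ε x = ∑ i, r i • (bN i : M') := by
    refine ⟨fun i => bN.repr ⟨ε x, LinearMap.mem_range_self ε x⟩ i, ?_⟩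
    have := congrArg Subtype.val (bN.sum_repr ⟨ε x, LinearMap.mem_range_self ε x⟩)
    rw [Submodule.coe_sum] at this
    simpa using this.symm
  refine ⟨∑ i, (r i * d i) • bM (g i), ?_⟩
  rw [h5, Finset.smul_sum]
  refine Finset.sum_congr rfl fun i _ => ?_
  rw [hab, hd, smul_smul, smul_smul]
  congr 1; ring

namespace QAlg

section

variable {N : ℕ} {R Λ : Type*} [CommRing R] [Ring Λ] [Algebra R Λ] (Q : QAlg N R Λ)

theorem conj_eq (x : Λ) : Q.conj x = algebraMap R Λ (Q.T x) - x := by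
  rw [← Q.add_conj]; abel

theorem T_comm (x y : Λ) : Q.T (x * y) = Q.T (y * x) := by
  apply Q.inj
  rw [← Q.add_conj, ← Q.add_conj, Q.conj_mul, Q.conj_mul, Q.conj_eq, Q.conj_eq]
  have h1 := Algebra.commutes (Q.T x) y
  have h2 := Algebra.commutes (Q.T y) x
  have h3 := Algebra.commutes (Q.T x) (algebraMap R Λ (Q.T y))
  rw [mul_sub, sub_mul, sub_mul, mul_sub, sub_mul, sub_mul, h1, h2, h3]
  abel

end

theorem content {N : ℕ} {R Λ : Type*} [CommRing R] [IsDomain R] [IsPrincipalIdealRing R]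
    [Ring Λ] [Algebra R Λ] [Module.Free R Λ] [Module.Finite R Λ] (Q : QAlg N R Λ) (v : Λ) :
    ∃ (c : R) (v0 w : Λ), v = c • v0 ∧ Q.T (v0 * w) = 1 := by
  by_cases hv : v = 0
  · obtain ⟨f, hf⟩ := Q.one_prim
    obtain ⟨w, hw⟩ := Q.unimod f
    exact ⟨0, 1, w, by rw [hv, zero_smul], by rw [← hw, hf]⟩
  · obtain ⟨c, v0, f, -, h1, h2⟩ := BW.content (R := R) v hv
    obtain ⟨w, hw⟩ := Q.unimod f
    exact ⟨c, v0, w, h1, by rw [← hw, h2]⟩

theorem trace_step {N : ℕ} {R Λ : Type*} [CommRing R] [IsDomain R]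
    [IsPrincipalIdealRing R] [Ring Λ] [Algebra R Λ] [Module.Free R Λ] [Module.Finite R Λ]
    (Q : QAlg N R Λ) (a b bs as : Λ) (h : b * as = a * bs) (hprim : ∃ c, Q.T (a * c) = 1) :
    ∃ x y : Λ, Q.T (a + (b + a * y) * x) = Q.T (as + x * (bs + y * as)) := by
  -- the map `x ↦ x a - a* x`
  let ε : Λ →ₗ[R] Λ := LinearMap.mulRight R a - LinearMap.mulLeft R as
  have hε : ∀ x, ε x = x * a - as * x := fun x => rfl
  by_cases h0 : ε = 0
  · refine ⟨0, 0, ?_⟩
    have h1 : ε 1 = 0 := by rw [h0]; rfl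
    rw [hε, one_mul, mul_one, sub_eq_zero] at h1
    rw [h1]; simp
  obtain ⟨x0, c0, s, f, hc0, hs, hf, hdiv⟩ := smith ε h0
  obtain ⟨w, hw⟩ := Q.unimod f
  obtain ⟨d, hd⟩ := hdiv 1
  rw [hε, one_mul, mul_one] at hd
  -- `a` is scalar modulo `c0`
  have hcomm : ∀ x, ∃ y, x * a - a * x = c0 • y := by
    intro x
    obtain ⟨y, hy⟩ := hdiv x
    rw [hε] at hy
    refine ⟨y - d * x, ?_⟩
    rw [smul_sub, ← hy, ← smul_mul_assoc, ← hd, sub_mul]
    abel
  obtain ⟨σ, y1, ha⟩ := Q.centre a c0 hc0 hcomm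
  obtain ⟨c, hc⟩ := hprim
  -- `σ (b - b#)` is divisible by `c0`
  have h2 : ∃ y, σ • (b - bs) = c0 • y := by
    refine ⟨y1 * bs - b * (y1 - d), ?_⟩
    have has : as = algebraMap R Λ σ + c0 • (y1 - d) := by
      rw [smul_sub, ← hd, ← add_sub_assoc, ← ha]; abel
    rw [ha, has] at h
    rw [mul_add, add_mul, ← Algebra.commutes, ← Algebra.smul_def, ← Algebra.smul_def,
      mul_smul_comm, smul_mul_assoc] at h
    rw [smul_sub, smul_sub]
    rw [sub_eq_sub_iff_add_eq_add]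
    rw [h]; abel
  obtain ⟨y2, hy2⟩ := h2
  -- `σ` is a unit modulo `c0`
  have h3 : 1 = σ * Q.T c + c0 * Q.T (y1 * c) := by
    rw [← hc]
    conv_lhs => rw [ha]
    rw [add_mul, map_add, ← Algebra.smul_def, map_smul, smul_mul_assoc, map_smul, smul_eq_mul,
      smul_eq_mul]
  have h4 : b - bs = c0 • (Q.T c • y2 + Q.T (y1 * c) • (b - bs)) := by
    calc b - bs = (1 : R) • (b - bs) := (one_smul _ _).symm
      _ = (σ * Q.T c + c0 * Q.T (y1 * c)) • (b - bs) := by rw [← h3]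
      _ = Q.T c • (σ • (b - bs)) + c0 • (Q.T (y1 * c) • (b - bs)) := by
          rw [add_smul, mul_comm σ, mul_smul, mul_smul]
      _ = _ := by rw [hy2, smul_comm, ← smul_add]
  set y3 := Q.T c • y2 + Q.T (y1 * c) • (b - bs) with hy3
  -- now solve for `y`
  refine ⟨x0, (-(Q.T d + Q.T (y3 * x0))) • w, ?_⟩
  set y := (-(Q.T d + Q.T (y3 * x0))) • w with hy
  have e1 : Q.T (a + (b + a * y) * x0) - Q.T (as + x0 * (bs + y * as)) =
      Q.T (a - as) + Q.T ((b - bs) * x0) + Q.T (y * ε x0) := by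
    have e2 : Q.T (a * y * x0) = Q.T (y * (x0 * a)) := by
      rw [mul_assoc, Q.T_comm, mul_assoc]
    have e3 : Q.T (x0 * (y * as)) = Q.T (y * (as * x0)) := by
      rw [Q.T_comm, mul_assoc]
    have e4 : Q.T (x0 * bs) = Q.T (bs * x0) := Q.T_comm _ _
    rw [hε, mul_sub, sub_mul, add_mul, mul_add]
    simp only [map_add, map_sub, e2, e3, e4]
    ring
  have e5 : Q.T (y * ε x0) = -(c0 * (Q.T d + Q.T (y3 * x0))) := by
    have : Q.T (w * s) = 1 := by rw [Q.T_comm, ← hw, hf]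
    rw [hs, hy, smul_mul_smul_comm, map_smul, this, smul_eq_mul]; ring
  rw [← sub_eq_zero, e1, e5, hd, h4, map_smul, smul_mul_assoc, map_smul, smul_eq_mul, smul_eq_mul]
  ring

end QAlg

end BW
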