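import Pool.Agent.BW.Family

/-!
# Bounded width: moves on symbols of T-type
-/

namespace BW

open Matrix

namespace QStr

variable {C P : Type*} [CommRing C] [Ring P] [Algebra C P] (Q : QStr C P)

theorem iff_of_same {A B : (Matrix (Fin 2) (Fin 2) P)ˣ} (h : A * B⁻¹ ∈ H P) :
    A ∈ H P ↔ B ∈ H P := by
  constructor
  · intro hA
    have := mul_mem (inv_mem h) hA
    have e : (A * B⁻¹)⁻¹ * A = B := by group
    rwa [e] at this
  · intro hB
    have := mul_mem h hB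
    rwa [inv_mul_cancel_right] at this

theorem Tm_iff (x : P) (r α β α' β' : C) (h : α * Q.n x + β * r = 1)
    (h' : α' * Q.n x + β' * r = 1) : Q.Tm x r α β h ∈ H P ↔ Q.Tm x r α' β' h' ∈ H P := by
  apply iff_of_same
  refine same_data _ _ ?_ ?_ ?_ ?_
  · rw [Tm_val, Tm_val]; simp
  · rw [Tm_val, Tm_val]; simp
  · rw [Tm_inv_val, Tm_inv_val]; simp
  · rw [Tm_inv_val, Tm_inv_val]; simp

/-- the coefficients for `x + r w` -/
theorem exists_add_smul (x w : P) (r α β : C) (h : α * Q.n x + β * r = 1) :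
    ∃ α' β' : C, α' * Q.n (x + r • w) + β' * r = 1 := by
  refine ⟨α, β - α * (Q.T (x * Q.conj w) + r * Q.n w), ?_⟩
  rw [Q.n_add, Q.n_smul, Q.conj_smul, mul_smul_comm, Q.T_smul]
  linear_combination h

theorem exists_add_norm (x : P) (r k α β : C) (h : α * Q.n x + β * r = 1) :
    ∃ α' β' : C, α' * Q.n x + β' * (r + Q.n x * k) = 1 := by
  refine ⟨α - β * k, β, ?_⟩
  linear_combination h

theorem Tm_add_smul (x w : P) (r α β α' β' : C) (h : α * Q.n x + β * r = 1)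
    (h' : α' * Q.n (x + r • w) + β' * r = 1) :
    Q.Tm x r α β h ∈ H P ↔ Q.Tm (x + r • w) r α' β' h' ∈ H P := by
  rw [← mem_of_mul (el10_mem w)]
  apply iff_of_same
  obtain ⟨v1, v2, v3, v4⟩ := mul_el10 (Q.Tm x r α β h) w
  refine same_data _ _ ?_ ?_ ?_ ?_
  · rw [v1, Tm_val, Tm_val]; simp
  · rw [v2, Tm_val, Tm_val]; simp
  · rw [v3, Tm_inv_val, Tm_inv_val]; simp
  · rw [v4, Tm_inv_val, Tm_inv_val]; simp

theorem Tm_add_norm (x : P) (r k α β α' β' : C) (h : α * Q.n x + β * r = 1)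
    (h' : α' * Q.n x + β' * (r + Q.n x * k) = 1) :
    Q.Tm x r α β h ∈ H P ↔ Q.Tm x (r + Q.n x * k) α' β' h' ∈ H P := by
  rw [← mem_of_mul (el01_mem (k • Q.conj x))]
  apply iff_of_same
  obtain ⟨v1, v2, v3, v4⟩ := mul_el01 (Q.Tm x r α β h) (k • Q.conj x)
  refine same_data _ _ ?_ ?_ ?_ ?_
  · rw [v1, Tm_val, Tm_val]; simp
  · rw [v2, Tm_val, Tm_val]
    change r • (1 : P) + x * k • Q.conj x = (r + Q.n x * k) • (1 : P)
    rw [mul_smul_comm, Q.mul_conj']; module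
  · rw [v3, Tm_inv_val, Tm_inv_val]
    change -(r • (1 : P)) - k • Q.conj x * x = -((r + Q.n x * k) • (1 : P))
    rw [smul_mul_assoc, Q.conj_mul_self']; module
  · rw [v4, Tm_inv_val, Tm_inv_val]; simp

theorem Tm_one (x : P) (α β : C) (h : α * Q.n x + β * 1 = 1) : Q.Tm x 1 α β h ∈ H P := by
  rw [← mem_of_mul (el10_mem (-x))]
  obtain ⟨v1, v2, v3, v4⟩ := mul_el10 (Q.Tm x 1 α β h) (-x)
  have k := same_data (Q.Tm x 1 α β h * el 1 0 (by decide) (-x)) W⁻¹ ?_ ?_ ?_ ?_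
  · exact (iff_of_same k).2 (inv_mem W_mem)
  · rw [v1, Tm_val, W_inv_val]; simp
  · rw [v2, Tm_val, W_inv_val]; simp
  · rw [v3, Tm_inv_val, inv_inv, W_val]; simp
  · rw [v4, Tm_inv_val, inv_inv, W_val]; simp

/-- `T(x, r)` is trivial if `r ≡ 1` modulo `n(x)` -/
theorem Tm_of_eq (x : P) (r k α β : C) (h : α * Q.n x + β * r = 1) (hr : r = 1 + Q.n x * k) :
    Q.Tm x r α β h ∈ H P := by
  subst hr
  have h1 : (α + β * k) * Q.n x + β * 1 = 1 := by linear_combination h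
  exact (Q.Tm_add_norm x 1 k _ _ α β h1 h).1 (Q.Tm_one x _ _ h1)

end QStr

end BW
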