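import Pool.Agent.BW.Section1
import Pool.Agent.BW.Stable
import Pool.Agent.BW.Struct

/-!
# Bounded width: one bound for all `2 x 2` matrices of reduced norm one
-/

namespace BW

open Matrix

/-- the matrix over the product ring with given components -/
def famU {ι m : Type*} [Fintype m] [DecidableEq m] {Λ : ι → Type*} [∀ i, Ring (Λ i)]
    (A : ∀ i, (Matrix m m (Λ i))ˣ) : (Matrix m m (∀ i, Λ i))ˣ where
  val := Matrix.of fun a b i => (A i).val a b
  inv := Matrix.of fun a b i => (A i)⁻¹.val a b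
  val_inv := by
    ext a b i
    rw [Matrix.mul_apply, Finset.sum_apply]
    have h := congrFun (congrFun (A i).mul_inv a) b
    rw [Matrix.mul_apply] at h
    refine h.trans ?_
    rw [Matrix.one_apply, Matrix.one_apply]
    split_ifs <;> rfl
  inv_val := by
    ext a b i
    rw [Matrix.mul_apply, Finset.sum_apply]
    have h := congrFun (congrFun (A i).inv_mul a) b
    rw [Matrix.mul_apply] at h
    refine h.trans ?_
    rw [Matrix.one_apply, Matrix.one_apply]
    split_ifs <;> rfl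

theorem comp_famU {ι m : Type*} [Fintype m] [DecidableEq m] {Λ : ι → Type*} [∀ i, Ring (Λ i)]
    (A : ∀ i, (Matrix m m (Λ i))ˣ) (i : ι) : comp i (famU A) = A i :=
  Units.ext (by ext a b; rfl)

theorem IsQuaternionAzumaya.finite {N : ℕ} {R Λ : Type*} [CommRing R] [Ring Λ] [Algebra R Λ]
    [IsLocalization.Away (N : ℤ) R] (h : IsQuaternionAzumaya N R Λ) (hN : N ≠ 0) :
    Module.Finite R Λ := by
  have := h.free
  have := Loc.isDomain N R hN
  exact Module.finite_of_finrank_pos (by rw [h.rank]; norm_num)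

theorem comp_K {ι : Type*} {Λ : ι → Type*} [∀ i, Ring (Λ i)]
    (A : (Matrix (Fin 2) (Fin 2) (∀ i, Λ i))ˣ) (i : ι) : comp i (K A) = K (comp i A) := by
  ext1
  ext a b
  rw [comp_val, K_val, K_val]
  fin_cases a <;> fin_cases b <;> rfl

/-- families of `2 x 2` matrices of reduced norm one have bounded elementary length -/
theorem exists_bound_family {ι : Type*} {N : ι → ℕ} {R Λ : ι → Type*} [∀ i, CommRing (R i)]
    [∀ i, Ring (Λ i)] [∀ i, Algebra (R i) (Λ i)] [∀ i, IsLocalization.Away (N i : ℤ) (R i)]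
    (hN : ∀ i, N i ≠ 0) (haz : ∀ i, IsQuaternionAzumaya (N i) (R i) (Λ i))
    (A : ∀ i, (Matrix (Fin 2) (Fin 2) (Λ i))ˣ) (hA : ∀ i, A i ∈ SL1 (N i) (Fin 2) (Λ i)) :
    ∃ L : ℕ, ∀ i, ∃ l : List ((Matrix (Fin 3) (Fin 3) (Λ i))ˣ), l.length ≤ L ∧
      (∀ g ∈ l, ∃ (a b : Fin 3) (h : a ≠ b) (x : Λ i), g = el a b h x) ∧ l.prod = K (A i) := by
  have hfree : ∀ i, Module.Free (R i) (Λ i) := fun i => (haz i).free
  have hfin : ∀ i, Module.Finite (R i) (Λ i) := fun i => (haz i).finite (hN i)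
  have Q : ∀ i, QAlg (N i) (R i) (Λ i) := fun i => ((haz i).qalg (hN i)).some
  have h0 : famU A ∈ SLfam N := fun i => by rw [comp_famU]; exact hA i
  have h1 : famU A ∈ H (∀ i, Λ i) := mem_H_of_SLfam hN Q _ h0
  have h2 : K (famU A) ∈ E (Fin 3) (∀ i, Λ i) := mem_H.1 h1
  clear h0 h1
  generalize hX : K (famU A) = X at h2
  obtain ⟨L, hL⟩ := bounded_of_product X h2
  refine ⟨L, fun i => ?_⟩
  obtain ⟨l, h1, h2, h3⟩ := hL i
  refine ⟨l, h1, h2, h3.trans ?_⟩
  change comp i X = _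
  rw [← hX, comp_K, comp_famU]

/-- the data of a quaternion Azumaya algebra over some `ℤ[1/N]` and of a `2 x 2` matrix of reduced
norm one over it -/
structure Dat2 where
  /-- the integer `N` -/
  N : ℕ
  hN : N ≠ 0
  /-- the ring `ℤ[1/N]` -/
  R : Type
  /-- the algebra -/
  Λ : Type
  cR : CommRing R
  rΛ : Ring Λ
  alg : Algebra R Λ
  loc : IsLocalization.Away (N : ℤ) R
  az : IsQuaternionAzumaya N R Λ
  /-- the matrix -/
  A : (Matrix (Fin 2) (Fin 2) Λ)ˣ
  hA : A ∈ SL1 N (Fin 2) Λ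

attribute [instance] Dat2.cR Dat2.rΛ Dat2.alg Dat2.loc

/-- **the uniform bound**: there is one number `L` such that for all `N`, all quaternion Azumaya
algebras over `ℤ[1/N]` and all `2 x 2` matrices `A` of reduced norm one over it `diag(A, 1)` is a
product of at most `L` elementary matrices -/
theorem exists_bound_two : ∃ L : ℕ, ∀ (N : ℕ), N ≠ 0 → ∀ (R Λ : Type) [CommRing R] [Ring Λ]
    [Algebra R Λ] [IsLocalization.Away (N : ℤ) R], IsQuaternionAzumaya N R Λ →
    ∀ A ∈ SL1 N (Fin 2) Λ, ∃ l : List ((Matrix (Fin 3) (Fin 3) Λ)ˣ), l.length ≤ L ∧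
      (∀ g ∈ l, ∃ (a b : Fin 3) (h : a ≠ b) (x : Λ), g = el a b h x) ∧ l.prod = K A := by
  obtain ⟨L, hL⟩ := exists_bound_family (ι := Dat2) (N := fun i => i.N) (R := fun i => i.R)
    (Λ := fun i => i.Λ) (fun i => i.hN) (fun i => i.az) (fun i => i.A) (fun i => i.hA)
  exact ⟨L, fun N hN R Λ _ _ _ _ haz B hB => hL ⟨N, hN, R, Λ, inferInstance, inferInstance,
    inferInstance, inferInstance, haz, B, hB⟩⟩

end BW
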